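import Mathlib

/-! H358R5 (helper358): many primes in bounded intervals.
`M_K ≥ log K - 0.58`: every admissible `K`-tuple with `log K ≥ 4m + 0.58` contains `m+1` primes
infinitely often.  Definitions and statements of the tasks. -/

open Finset

namespace Pool.Agent.H358R5

/-- the weight `1 / (c + L)` -/
noncomputable def g (L c : ℕ) : ℝ := 1 / ((c : ℝ) + L)

/-- `A L n s` is the coefficient of `x^s` in `(∑_{c ≥ 1} g(c)^2 x^c)^n` -/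
noncomputable def A (L : ℕ) : ℕ → ℕ → ℝ
  | 0, s => if s = 0 then 1 else 0
  | n + 1, s => ∑ c ∈ range s, g L (c + 1) ^ 2 * A L n (s - 1 - c)

/-- cumulative sums -/
noncomputable def D (L n x : ℕ) : ℝ := ∑ s ∈ range (x + 1), A L n s

/-- `P_n(x) = ∑_{y < x} D_n(y)` -/
noncomputable def P (L n x : ℕ) : ℝ := ∑ y ∈ range x, D L n y

/-- `B(r) = ∑_{c = 1}^r g(c)` -/
noncomputable def B (L r : ℕ) : ℝ := ∑ c ∈ range r, g L (c + 1)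

/-- `T_n(x) = ∑_{r = 1}^x g(r) D_n(x - r)` -/
noncomputable def T (L n x : ℕ) : ℝ := ∑ r ∈ range x, g L (r + 1) * D L n (x - 1 - r)

/-- a log-concave tail function with values in `[0,1]` vanishing beyond `N` -/
structure LCT (N : ℕ) (φ : ℕ → ℝ) : Prop where
  zero : φ 0 = 1
  nonneg : ∀ r, 0 ≤ φ r
  anti : ∀ r, φ (r + 1) ≤ φ r
  supp : ∀ r, N < r → φ r = 0
  lc : ∀ a b, a ≤ b → φ a * φ (b + 1) ≤ φ (a + 1) * φ b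

/-- `s = ∑_{r ≥ 1} φ(r)` -/
noncomputable def sφ (N : ℕ) (φ : ℕ → ℝ) : ℝ := ∑ r ∈ range N, φ (r + 1)

/-- `Λ = ∑_{r ≥ 1} φ(r) / (r + L)` -/
noncomputable def Λφ (L N : ℕ) (φ : ℕ → ℝ) : ℝ := ∑ r ∈ range N, φ (r + 1) * g L (r + 1)

/-- `p = ∑_{r ≥ 1} φ(r) / (r + L)^2` -/
noncomputable def pφ (L N : ℕ) (φ : ℕ → ℝ) : ℝ := ∑ r ∈ range N, φ (r + 1) * g L (r + 1) ^ 2

/-! ### the tasks -/

/-- BOX -/
def S_BOX : Prop := ∀ (L n M N : ℕ) (φ : ℕ → ℝ), N ≤ M → (∀ s, N < s → φ s = 0) →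
  ∑ c ∈ Fintype.piFinset (fun _ : Fin n => range M), (∏ j, g L (c j + 1) ^ 2) * φ (∑ j, (c j + 1)) =
    ∑ s ∈ range (N + 1), A L n s * φ s

/-- CONV (1) -/
def S_CONV1 : Prop := ∀ (L n x : ℕ),
  D L (n + 1) x = ∑ c ∈ range x, g L (c + 1) ^ 2 * D L n (x - 1 - c)

/-- CONV (2) -/
def S_CONV2 : Prop := ∀ (L n N : ℕ),
  ∑ s ∈ range (N + 1), A L n s * B L (N - s) = T L n N

/-- IDENT -/
def S_IDENT : Prop := ∀ (L n N : ℕ), 1 ≤ L →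
  (N : ℝ) * D L (n + 1) N - P L (n + 1) N = (n + 1) * (T L n N - L * D L (n + 1) N)

/-- LCZ: closure of log-concavity of cumulative sequences under convolution with a decreasing
sequence -/
def S_LCZ : Prop := ∀ (w D H : ℤ → ℝ), (∀ c, c ≤ 0 → w c = 0) → (∀ c, 0 ≤ w c) →
  (∀ c, 1 ≤ c → w (c + 1) ≤ w c) → (∀ x, x < 0 → D x = 0) → (∀ x, 0 ≤ D x) → (∀ x, D x ≤ D (x + 1)) →
  (∀ y' y, y' ≤ y → D y' * D (y + 1) ≤ D y * D (y' + 1)) →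
  (∀ x, H x = ∑ c ∈ Icc 1 x, w c * D (x - c)) →
  ∀ y' y, y' ≤ y → H y' * H (y + 1) ≤ H y * H (y' + 1)

/-- LCD: positivity, monotonicity and log-concavity of `D` -/
def S_LCD : Prop := ∀ (L n : ℕ), 1 ≤ L → (∀ x, 0 ≤ A L n x) ∧ (∀ x, 0 ≤ D L n x) ∧
  (∀ x, D L n x ≤ D L n (x + 1)) ∧ (∀ x, n ≤ x → 0 < D L n x) ∧
  (∀ y' y, y' ≤ y → D L n y' * D L n (y + 1) ≤ D L n y * D L n (y' + 1))

/-- PD -/
def S_PD : Prop := ∀ (L n x : ℕ), 1 ≤ L → P L (n + 1) x * D L n x ≤ P L n x * D L (n + 1) x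

/-- CROSS: comparison with the geometric sequence -/
def S_CROSS : Prop := ∀ (N R : ℕ) (φ ω : ℕ → ℝ), LCT N φ → 0 < sφ N φ → (∀ r, 0 ≤ ω r) →
  (∀ r, ω (r + 1) ≤ ω r) →
  ∑ r ∈ range R, (sφ N φ / (1 + sφ N φ)) ^ (r + 1) * ω (r + 1) ≤ ∑ r ∈ range N, φ (r + 1) * ω (r + 1)

/-- GB -/
def S_GB : Prop := ∀ (L N : ℕ) (φ : ℕ → ℝ), 1 ≤ L → LCT N φ → 0 < sφ N φ →
  Real.log (1 + sφ N φ) - (harmonic L : ℝ) ≤ Λφ L N φ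

/-- GC -/
def S_GC : Prop := ∀ (L N : ℕ) (φ : ℕ → ℝ), 1 ≤ L → LCT N φ →
  Λφ L N φ ≤ Real.log (1 + sφ N φ / L)

/-- GD -/
def S_GD : Prop := ∀ (L N : ℕ) (φ : ℕ → ℝ), 1 ≤ L → LCT N φ → 0 < sφ N φ →
  sφ N φ / (L + 1) - Λφ L N φ ≤ (1 + sφ N φ) * pφ L N φ

/-- GE -/
def S_GE : Prop := ∀ (L N : ℕ) (φ : ℕ → ℝ), 1 ≤ L → LCT N φ →
  Λφ L N φ ^ 2 ≤ sφ N φ * pφ L N φ

/-- GF -/
def S_GF : Prop := ∀ (L N : ℕ) (φ : ℕ → ℝ), 1 ≤ L → LCT N φ → 0 < sφ N φ →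
  sφ N φ / (1 + sφ N φ + L) ≤ Λφ L N φ

/-- GG -/
def S_GG : Prop := ∀ (L N : ℕ) (φ : ℕ → ℝ), 1 ≤ L → LCT N φ → (L : ℝ) * pφ L N φ ≤ 1

/-- PSI -/
def S_PSI : Prop := ∀ b y : ℝ, 8 ≤ b → 0 < y → y ≤ b - 1 / 2 →
  b * y ^ 2 / 24 ≤ (b - y) * (Real.exp y - 1) - b * y

/-- HARM -/
def S_HARM : Prop := ∀ L : ℕ, 1024 ≤ L → (harmonic L : ℝ) - Real.log L ≤ 289 / 500

/-- `b = 4m (1 + 8 m e^{-4m})` -/
noncomputable def bm (m : ℕ) : ℝ := 4 * m + 32 * m ^ 2 * Real.exp (-(4 * m))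

/-- the hypotheses of the final inequality (`K, L, N` real here) -/
structure FH (m : ℕ) (K L N s Λ u x : ℝ) : Prop where
  m2 : 2 ≤ m
  hK : 4 * m + 29 / 50 ≤ Real.log K
  K0 : 0 < K
  hL : 100 * K ≤ L
  N1 : bm m * (L * K) ≤ N
  N2 : N ≤ bm m * (L * K) + 1
  s0 : 0 < s
  u0 : 0 < u
  u1 : u ≤ 1
  hΛ : Λ = u * x
  hx : N / (L * K) + 1 - s / (L * K) ≤ x
  F2 : Real.log (1 + s) - Real.log L - 289 / 500 ≤ Λ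
  F3 : Λ ≤ Real.log (1 + s / L)
  F4 : L * (s / (L + 1) - Λ) ≤ u * (1 + s)
  F5 : Λ ^ 2 ≤ s * u / L
  F6 : s / (1 + s + L) ≤ Λ

/-- CASEA -/
def S_CASEA : Prop := ∀ (m : ℕ) (K L N s Λ u x : ℝ), FH m K L N s Λ u x → s ≤ L * K →
  4 * m * N * u ≤ K * L * Λ ^ 2

/-- CASEB -/
def S_CASEB : Prop := ∀ (m : ℕ) (K L N s Λ u x : ℝ), FH m K L N s Λ u x → L * K < s →
  4 * m * N * u ≤ K * L * Λ ^ 2

/-- ASM: `φ(r) = D_n(N - r)/D_n(N)` -/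
def S_ASM : Prop := ∀ (m L K0 N : ℕ), 2 ≤ m → 4 * (m : ℝ) + 29 / 50 ≤ Real.log (K0 + 1) →
  100 * (K0 + 1) ≤ L →
  bm m * ((L : ℝ) * (K0 + 1)) ≤ N → (N : ℝ) ≤ bm m * ((L : ℝ) * (K0 + 1)) + 1 →
  4 * m * N * D L (K0 + 1) N ≤ (K0 + 1) * ∑ s ∈ range (N + 1), A L K0 s * B L (N - s) ^ 2

/-- the sieve weight -/
noncomputable def Fw (L N : ℕ) {K : ℕ} (c : Fin K → ℕ) : ℝ :=
  if ∑ j, (c j + 1) ≤ N then ∏ j, g L (c j + 1) else 0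

/-- FSQ -/
def S_FSQ : Prop := ∀ (L N K : ℕ),
  ∑ c ∈ Fintype.piFinset (fun _ : Fin K => range N), Fw L N c ^ 2 = D L K N

/-- FUU -/
def S_FUU : Prop := ∀ (L N K0 : ℕ) (i : Fin (K0 + 1)),
  ∑ c ∈ Fintype.piFinset (fun _ : Fin K0 => range N),
    (∑ t ∈ range N, Fw L N (Fin.insertNth (α := fun _ => ℕ) i t c)) ^ 2 =
  ∑ s ∈ range (N + 1), A L K0 s * B L (N - s) ^ 2

/-- at least `m + 1` of the numbers `n + h i` are prime, for infinitely many `n` -/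
def ManyPrimes (m : ℕ) {K : ℕ} (h : Fin K → ℕ) : Prop :=
  {n : ℕ | m + 1 ≤ (univ.filter fun i => (n + h i).Prime).card}.Infinite

/-- NTH -/
def S_NTH : Prop := ∀ (m Δ : ℕ), {n : ℕ | m + 1 ≤ ((Icc n (n + Δ)).filter Nat.Prime).card}.Infinite →
  {k : ℕ | Nat.nth Nat.Prime (k + m) ≤ Nat.nth Nat.Prime k + Δ}.Infinite

end Pool.Agent.H358R5
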