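import Mathlib
import Pool.Agent.H358R5.Stubs

/-! H358R5, task ASM: assembly of the lower bound for the Maynard-Tao functional. -/

open Finset

namespace Pool.Agent.H358R5

theorem ASM_proof (h : S_CONV1) (h2 : S_CONV2) (h3 : S_IDENT) (h4 : S_LCD) (h5 : S_PD)
    (h6 : S_GB) (h7 : S_GC) (h8 : S_GD) (h9 : S_GE) (h10 : S_GF) (h11 : S_GG) (h12 : S_HARM)
    (h13 : S_CASEA) (h14 : S_CASEB) : S_ASM := by
  intro m L n N hm hK hL hN1 hN2
  -- sizes
  have hmR : (2 : ℝ) ≤ m := by exact_mod_cast hm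
  have hn0 : (0 : ℝ) ≤ n := Nat.cast_nonneg n
  have hKpos : (0 : ℝ) < (n : ℝ) + 1 := by positivity
  have hKbig : (25 : ℝ) ≤ (n : ℝ) + 1 := by
    have h1 : (8 : ℝ) ≤ Real.log ((n : ℝ) + 1) := by linarith
    have h2' : Real.exp 8 ≤ (n : ℝ) + 1 := (Real.le_log_iff_exp_le hKpos).mp h1
    have h3' : (5 : ℝ) ≤ Real.exp 4 := by
      have := Real.add_one_le_exp (4 : ℝ)
      linarith
    have h4' : Real.exp 8 = Real.exp 4 * Real.exp 4 := by
      rw [← Real.exp_add]; norm_num
    nlinarith
  have hLR : 100 * ((n : ℝ) + 1) ≤ L := by exact_mod_cast hL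
  have hL1 : 1 ≤ L := by omega
  have hLpos : (0 : ℝ) < L := by exact_mod_cast hL1
  have hL1R : (1 : ℝ) ≤ L := by exact_mod_cast hL1
  have hbm : (8 : ℝ) ≤ bm m := by
    unfold bm
    have : 0 ≤ 32 * (m : ℝ) ^ 2 * Real.exp (-(4 * m)) := by positivity
    linarith
  have hNn : (n : ℝ) + 2 ≤ N := by
    have h1 : (n : ℝ) + 1 ≤ (L : ℝ) * (n + 1) := by nlinarith
    have h2' : 8 * ((L : ℝ) * (n + 1)) ≤ bm m * ((L : ℝ) * (n + 1)) := by
      apply mul_le_mul_of_nonneg_right hbm; positivity
    linarith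
  have hNn' : n + 2 ≤ N := by exact_mod_cast hNn
  obtain ⟨hA0, hD0, hDm, hDp, hDlc⟩ := h4 L n hL1
  obtain ⟨-, hE0, -, hEp, -⟩ := h4 L (n + 1) hL1
  have hDN : 0 < D L n N := hDp N (by omega)
  have hEN : 0 < D L (n + 1) N := hEp N (by omega)
  -- the tail function
  set φ : ℕ → ℝ := fun r => if r ≤ N then D L n (N - r) / D L n N else 0 with hφ
  have hφr : ∀ r ∈ range N, φ (r + 1) = D L n (N - 1 - r) / D L n N := by
    intro r hr
    rw [mem_range] at hr
    simp only [hφ]
    rw [if_pos (by omega)]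
    congr 2
    omega
  have hLCT : LCT N φ := by
    constructor
    · simp only [hφ]
      rw [if_pos (Nat.zero_le _), Nat.sub_zero, div_self hDN.ne']
    · intro r
      simp only [hφ]
      split_ifs
      · exact div_nonneg (hD0 _) hDN.le
      · exact le_rfl
    · intro r
      simp only [hφ]
      by_cases h1 : r + 1 ≤ N
      · rw [if_pos h1, if_pos (by omega)]
        apply div_le_div_of_nonneg_right _ hDN.le
        have h2' : N - r = (N - (r + 1)) + 1 := by omega
        rw [h2']
        exact hDm _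
      · rw [if_neg h1]
        split_ifs
        · exact div_nonneg (hD0 _) hDN.le
        · exact le_rfl
    · intro r hr
      simp only [hφ]
      rw [if_neg (by omega)]
    · intro a b hab
      simp only [hφ]
      by_cases h1 : b + 1 ≤ N
      · rw [if_pos h1, if_pos (by omega), if_pos (by omega), if_pos (by omega)]
        rw [div_mul_div_comm, div_mul_div_comm]
        apply div_le_div_of_nonneg_right _ (mul_pos hDN hDN).le
        have h2' := hDlc (N - (b + 1)) (N - (a + 1)) (by omega)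
        have h3' : N - (a + 1) + 1 = N - a := by omega
        have h4' : N - (b + 1) + 1 = N - b := by omega
        rw [h3', h4'] at h2'
        linarith
      · rw [if_neg h1, mul_zero]
        apply mul_nonneg
        · split_ifs
          · exact div_nonneg (hD0 _) hDN.le
          · exact le_rfl
        · split_ifs
          · exact div_nonneg (hD0 _) hDN.le
          · exact le_rfl
  -- s, Λ, p
  have hs : sφ N φ = P L n N / D L n N := by
    unfold sφ P
    rw [sum_congr rfl hφr, ← sum_div]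
    congr 1
    exact sum_range_reflect (fun y => D L n y) N
  have hΛ : Λφ L N φ = T L n N / D L n N := by
    unfold Λφ T
    rw [sum_div]
    apply sum_congr rfl
    intro r hr
    rw [hφr r hr]
    ring
  have hp : pφ L N φ = D L (n + 1) N / D L n N := by
    unfold pφ
    rw [h L n N, sum_div]
    apply sum_congr rfl
    intro r hr
    rw [hφr r hr]
    ring
  set s : ℝ := sφ N φ with hsdef
  set Λ : ℝ := Λφ L N φ with hΛdef
  set p : ℝ := pφ L N φ with hpdef
  have hs0 : 0 < s := by
    rw [hs]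
    apply div_pos _ hDN
    unfold P
    have h1 : D L n (N - 1) ≤ ∑ y ∈ range N, D L n y :=
      single_le_sum (f := fun y => D L n y) (fun i _ => hD0 i) (mem_range.mpr (by omega))
    exact lt_of_lt_of_le (hDp (N - 1) (by omega)) h1
  have hp0 : 0 < p := by rw [hp]; exact div_pos hEN hDN
  have hu1 : (L : ℝ) * p ≤ 1 := h11 L N φ hL1 hLCT
  -- the virial identity
  have hid := h3 L n N hL1
  set K : ℝ := (n : ℝ) + 1 with hKdef
  set Sg : ℝ := P L (n + 1) N / D L (n + 1) N with hSg
  have hSgs : Sg ≤ s := by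
    rw [hSg, hs, div_le_div_iff₀ hEN hDN]
    exact h5 L n N hL1
  set x : ℝ := (N - Sg) / (L * K) + 1 with hx
  have hΛx : Λ = (L * p) * x := by
    have e1 : D L (n + 1) N = p * D L n N := by rw [hp]; field_simp
    have e2 : T L n N = Λ * D L n N := by rw [hΛ]; field_simp
    have e3 : P L (n + 1) N = Sg * (p * D L n N) := by
      rw [← e1, hSg]; field_simp
    rw [e1, e2, e3] at hid
    have e4 : ((N : ℝ) * p - Sg * p) * D L n N = (K * (Λ - L * p)) * D L n N := by
      linear_combination hid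
    have e5 : (N : ℝ) * p - Sg * p = K * (Λ - L * p) := mul_right_cancel₀ hDN.ne' e4
    rw [hx]
    have hK0 : K ≠ 0 := hKpos.ne'
    field_simp
    linear_combination -e5
  have hFH : FH m K L N s Λ (L * p) x := by
    refine ⟨hm, hK, hKpos, hLR, hN1, hN2, hs0, mul_pos hLpos hp0, hu1, hΛx, ?_, ?_, ?_, ?_, ?_, ?_⟩
    · rw [hx]
      have hLK : (0 : ℝ) < L * K := mul_pos hLpos hKpos
      have : Sg / (L * K) ≤ s / (L * K) := div_le_div_of_nonneg_right hSgs hLK.le
      rw [sub_div]
      linarith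
    · have i1 := h6 L N φ hL1 hLCT hs0
      have i2 := h12 L (by
        have : (1024 : ℝ) ≤ L := by linarith
        exact_mod_cast this)
      linarith
    · exact h7 L N φ hL1 hLCT
    · have i1 := h8 L N φ hL1 hLCT hs0
      have i2 := mul_le_mul_of_nonneg_left i1 hLpos.le
      calc (L : ℝ) * (s / (L + 1) - Λ) ≤ L * ((1 + s) * p) := i2
        _ = L * p * (1 + s) := by ring
    · have i1 := h9 L N φ hL1 hLCT
      calc Λ ^ 2 ≤ s * p := i1
        _ = s * (L * p) / L := by field_simp
    · exact h10 L N φ hL1 hLCT hs0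
  have hfin : 4 * (m : ℝ) * N * (L * p) ≤ K * L * Λ ^ 2 := by
    rcases le_or_gt s (L * K) with hc | hc
    · exact h13 m K L N s Λ (L * p) x hFH hc
    · exact h14 m K L N s Λ (L * p) x hFH hc
  -- Cauchy-Schwarz
  have hCS : T L n N ^ 2 ≤ D L n N * ∑ s ∈ range (N + 1), A L n s * B L (N - s) ^ 2 := by
    rw [← h2 L n N]
    have i1 := sum_mul_sq_le_sq_mul_sq (range (N + 1)) (fun s => Real.sqrt (A L n s))
      (fun s => Real.sqrt (A L n s) * B L (N - s))
    have i2 : ∀ s, Real.sqrt (A L n s) * (Real.sqrt (A L n s) * B L (N - s)) =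
        A L n s * B L (N - s) := by
      intro s
      rw [← mul_assoc, Real.mul_self_sqrt (hA0 s)]
    have i3 : ∀ s, Real.sqrt (A L n s) ^ 2 = A L n s := fun s => Real.sq_sqrt (hA0 s)
    have i4 : ∀ s, (Real.sqrt (A L n s) * B L (N - s)) ^ 2 = A L n s * B L (N - s) ^ 2 := by
      intro s
      rw [mul_pow, i3]
    simp only [i2, i3, i4] at i1
    exact i1
  -- conclusion
  have e1 : D L (n + 1) N = p * D L n N := by rw [hp]; field_simp
  have e2 : T L n N = Λ * D L n N := by rw [hΛ]; field_simp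
  set NUM : ℝ := ∑ s ∈ range (N + 1), A L n s * B L (N - s) ^ 2 with hNUM
  have i5 : Λ ^ 2 * D L n N ≤ NUM := by
    rw [e2] at hCS
    have : D L n N * (Λ ^ 2 * D L n N) ≤ D L n N * NUM := by
      calc D L n N * (Λ ^ 2 * D L n N) = (Λ * D L n N) ^ 2 := by ring
        _ ≤ _ := hCS
    exact le_of_mul_le_mul_left this hDN
  have i6 : 4 * (m : ℝ) * N * p ≤ K * Λ ^ 2 := by
    have : (L : ℝ) * (4 * (m : ℝ) * N * p) ≤ L * (K * Λ ^ 2) := by
      calc (L : ℝ) * (4 * (m : ℝ) * N * p) = 4 * (m : ℝ) * N * (L * p) := by ring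
        _ ≤ K * L * Λ ^ 2 := hfin
        _ = _ := by ring
    exact le_of_mul_le_mul_left this hLpos
  calc 4 * (m : ℝ) * N * D L (n + 1) N = (4 * (m : ℝ) * N * p) * D L n N := by rw [e1]; ring
    _ ≤ (K * Λ ^ 2) * D L n N := mul_le_mul_of_nonneg_right i6 hDN.le
    _ = K * (Λ ^ 2 * D L n N) := by ring
    _ ≤ K * NUM := mul_le_mul_of_nonneg_left i5 hKpos.le

end Pool.Agent.H358R5
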