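import Mathlib
import Pool.Agent.H358R5.Stubs

open Finset

namespace Pool.Agent.H358R5

theorem BOX_cons (n M : ℕ) (f : (Fin (n + 1) → ℕ) → ℝ) :
    ∑ c ∈ Fintype.piFinset (fun _ : Fin (n + 1) => range M), f c =
      ∑ t ∈ range M, ∑ c ∈ Fintype.piFinset (fun _ : Fin n => range M),
        f (Fin.cons (α := fun _ => ℕ) t c) := by
  rw [← Finset.sum_product']
  refine Finset.sum_nbij' (fun c => (c 0, Fin.tail c))
    (fun p => Fin.cons (α := fun _ => ℕ) p.1 p.2) ?_ ?_ ?_ ?_ ?_
  · intro c hc
    rw [Fintype.mem_piFinset] at hc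
    rw [Finset.mem_product, Fintype.mem_piFinset]
    exact ⟨hc 0, fun i => hc i.succ⟩
  · intro p hp
    rw [Finset.mem_product, Fintype.mem_piFinset] at hp
    rw [Fintype.mem_piFinset]
    intro i
    refine Fin.cases ?_ (fun j => ?_) i
    · exact hp.1
    · exact hp.2 j
  · intro c _
    exact Fin.cons_self_tail c
  · intro p _
    rfl
  · intro c _
    simp only [Fin.cons_self_tail]

theorem BOX_shift (N t : ℕ) (a φ : ℕ → ℝ) (hφ : ∀ s, N < s → φ s = 0) :
    ∑ s ∈ range (N + 1), a s * φ (s + (t + 1)) =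
      ∑ s' ∈ range (N + 1), if t < s' then a (s' - 1 - t) * φ s' else 0 := by
  rw [← Finset.sum_filter]
  have h1 : ∑ s ∈ range (N + 1), a s * φ (s + (t + 1)) =
      ∑ s ∈ (range (N + 1)).filter (fun s => s + (t + 1) ≤ N), a s * φ (s + (t + 1)) := by
    symm
    refine Finset.sum_filter_of_ne fun s _ hs => ?_
    by_contra hc
    push Not at hc
    exact hs (by rw [hφ _ hc, mul_zero])
  rw [h1]
  refine Finset.sum_nbij' (fun s => s + (t + 1)) (fun s' => s' - 1 - t) ?_ ?_ ?_ ?_ ?_
  · intro s hs
    simp only [Finset.mem_filter, Finset.mem_range] at hs ⊢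
    omega
  · intro s hs
    simp only [Finset.mem_filter, Finset.mem_range] at hs ⊢
    omega
  · intro s hs
    simp only [Finset.mem_filter, Finset.mem_range] at hs ⊢
    omega
  · intro s hs
    simp only [Finset.mem_filter, Finset.mem_range] at hs ⊢
    omega
  · intro s hs
    have : s + (t + 1) - 1 - t = s := by omega
    rw [this]

theorem BOX_proof : S_BOX := by
  intro L n
  induction n with
  | zero =>
    intro M N φ _ _
    have h1 : ∑ s ∈ range (N + 1), A L 0 s * φ s = φ 0 := by
      rw [Finset.sum_eq_single 0]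
      · simp [A]
      · intro b _ hb
        simp [A, hb]
      · intro h
        exact absurd (Finset.mem_range.2 (Nat.succ_pos N)) h
    rw [h1]
    have h2 : Fintype.piFinset (fun _ : Fin 0 => range M) = {Fin.elim0} := by
      ext c
      rw [Fintype.mem_piFinset, Finset.mem_singleton]
      exact ⟨fun _ => Subsingleton.elim _ _, fun _ i => i.elim0⟩
    rw [h2, Finset.sum_singleton]
    simp
  | succ n ih =>
    intro M N φ hNM hφ
    rw [BOX_cons]
    have h1 : ∀ t ∈ range M, ∑ c ∈ Fintype.piFinset (fun _ : Fin n => range M),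
        (∏ j : Fin (n + 1), g L ((Fin.cons (α := fun _ => ℕ) t c : Fin (n + 1) → ℕ) j + 1) ^ 2) *
          φ (∑ j : Fin (n + 1), ((Fin.cons (α := fun _ => ℕ) t c : Fin (n + 1) → ℕ) j + 1)) =
        g L (t + 1) ^ 2 * ∑ s' ∈ range (N + 1),
          if t < s' then A L n (s' - 1 - t) * φ s' else 0 := by
      intro t _
      rw [← BOX_shift N t (A L n) φ hφ, ← ih M N (fun s => φ (s + (t + 1))) hNM
        (fun s hs => hφ _ (by omega)), Finset.mul_sum]
      refine Finset.sum_congr rfl fun c _ => ?_
      rw [Fin.prod_univ_succ, Fin.sum_univ_succ]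
      simp only [Fin.cons_zero, Fin.cons_succ]
      rw [add_comm (t + 1) (∑ j, (c j + 1)), mul_assoc]
    rw [Finset.sum_congr rfl h1]
    simp only [Finset.mul_sum]
    rw [Finset.sum_comm]
    refine Finset.sum_congr rfl fun s' hs' => ?_
    have hs'' := Finset.mem_range.1 hs'
    change _ = (∑ c ∈ range s', g L (c + 1) ^ 2 * A L n (s' - 1 - c)) * φ s'
    rw [Finset.sum_mul]
    have h2 : ∑ c ∈ range s', g L (c + 1) ^ 2 * A L n (s' - 1 - c) * φ s' =
        ∑ c ∈ (range M).filter (fun c => c < s'), g L (c + 1) ^ 2 * A L n (s' - 1 - c) * φ s' := by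
      refine Finset.sum_congr ?_ fun _ _ => rfl
      ext c
      simp only [Finset.mem_filter, Finset.mem_range]
      omega
    rw [h2, Finset.sum_filter]
    refine Finset.sum_congr rfl fun c _ => ?_
    split_ifs
    · ring
    · ring

end Pool.Agent.H358R5
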