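import Mathlib
import Pool.Agent.H358R5.Stubs

/-! Task CASEA: final inequality, case `s ≤ L K`. -/

open Finset

namespace Pool.Agent.H358R5

/-- the arithmetic facts on `e^{4m}` -/
theorem CASEA_exp (m : ℕ) (hm : 2 ≤ m) : (1490 : ℝ) * m ≤ Real.exp (4 * m) := by
  have h8 : (2980 : ℝ) ≤ Real.exp 8 := by
    have h1 : (2.7182818283 : ℝ) < Real.exp 1 := Real.exp_one_gt_d9
    have h2 : Real.exp 8 = Real.exp 1 ^ 8 := by
      rw [← Real.exp_nat_mul]; norm_num
    rw [h2]
    have h3 : (2.7182818283 : ℝ) ^ 8 ≤ Real.exp 1 ^ 8 :=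
      pow_le_pow_left₀ (by norm_num) h1.le 8
    refine le_trans ?_ h3
    norm_num
  have hm' : (2 : ℝ) ≤ m := by exact_mod_cast hm
  have h2 : Real.exp (4 * m) = Real.exp 8 * Real.exp (4 * (m - 2)) := by
    rw [← Real.exp_add]; congr 1; ring
  have h3 : 1 + 4 * ((m : ℝ) - 2) ≤ Real.exp (4 * (m - 2)) := by
    have := Real.add_one_le_exp (4 * ((m : ℝ) - 2))
    linarith
  rw [h2]
  have h4 : (m : ℝ) / 2 ≤ Real.exp (4 * (m - 2)) := by linarith
  calc (1490 : ℝ) * m = 2980 * (m / 2) := by ring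
    _ ≤ Real.exp 8 * Real.exp (4 * (m - 2)) :=
      mul_le_mul h8 h4 (by positivity) (Real.exp_pos _).le

/-- step (ii) -/
theorem CASEA_ii {L z th b u Λ x s : ℝ} (L0 : 0 < L) (hLth : L * th = 1) (th0 : 0 < th)
    (z0 : 0 < z) (hsz : s = z * L) (b0 : 0 < b) (u0 : 0 < u) (hxb : b ≤ x) (hΛ : Λ = u * x)
    (F4 : L * (s / (L + 1) - Λ) ≤ u * (1 + s)) : b * z * (1 - th) ≤ Λ * (b + z + th) := by
  have e1 : z * (1 - th) ≤ s / (L + 1) := by
    rw [le_div_iff₀ (by positivity), hsz]
    have : z * (1 - th) * (L + 1) = z * (L + 1 - L * th - th) := by ring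
    rw [this, hLth]
    have := mul_pos z0 th0
    have e : z * (L + 1 - 1 - th) = z * L - z * th := by ring
    rw [e]; linarith
  have e2 : L * (z * (1 - th) - Λ) ≤ L * (u * (th + z)) := by
    calc L * (z * (1 - th) - Λ) ≤ L * (s / (L + 1) - Λ) :=
          mul_le_mul_of_nonneg_left (by linarith) L0.le
      _ ≤ u * (1 + s) := F4
      _ = L * (u * (th + z)) := by
          have : L * (u * (th + z)) = u * (L * th + z * L) := by ring
          rw [this, hLth, hsz]
  have e3 : z * (1 - th) - Λ ≤ u * (th + z) := le_of_mul_le_mul_left e2 L0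
  have e4' : b * u ≤ Λ := by
    rw [hΛ, mul_comm b u]; exact mul_le_mul_of_nonneg_left hxb u0.le
  have e5 : b * (u * (th + z)) ≤ Λ * (th + z) := by
    have : b * (u * (th + z)) = (b * u) * (th + z) := by ring
    rw [this]
    exact mul_le_mul_of_nonneg_right e4' (by positivity)
  have e6 : b * (z * (1 - th) - Λ) ≤ b * (u * (th + z)) :=
    mul_le_mul_of_nonneg_left e3 b0.le
  have e7 : b * (z * (1 - th) - Λ) = b * z * (1 - th) - b * Λ := by ring
  have e8 : Λ * (b + z + th) = Λ * (th + z) + b * Λ := by ring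
  rw [e7] at e6
  rw [e8]
  linarith

/-- step (iii) -/
theorem CASEA_iii {m z th b Λ E e4 : ℝ} (hm : 2 ≤ m) (z0 : 0 < z) (th0 : 0 < th) (E0 : 0 < E)
    (e40 : 0 < e4) (hEe : E * e4 = 1) (hmE : m * E ≤ 1 / 1490) (hthE : 158 * th ≤ E)
    (hbdef : b = 4 * m + 32 * m * (m * E)) (hΛ4 : Λ < 4 * m)
    (h : b * z * (1 - th) ≤ Λ * (b + z + th)) : z ≤ 0.51 * e4 := by
  have hm0 : 0 < m := by linarith
  have hmE0 : 0 < m * E := by positivity
  have hb0 : 0 < b := by rw [hbdef]; positivity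
  have hbu : b ≤ 4 * m * (1 + 8 / 1490) := by
    have := mul_le_mul_of_nonneg_left hmE (by positivity : (0 : ℝ) ≤ 32 * m)
    rw [hbdef]; linarith
  have h2 : Λ * (b + z + th) ≤ 4 * m * (b + z + th) :=
    mul_le_mul_of_nonneg_right hΛ4.le (by positivity)
  have h3 : z * (b * (1 - th) - 4 * m) ≤ 4 * m * (b + th) := by
    have e1 : z * (b * (1 - th) - 4 * m) = b * z * (1 - th) - 4 * m * z := by ring
    have e2 : 4 * m * (b + z + th) = 4 * m * (b + th) + 4 * m * z := by ring
    rw [e2] at h2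
    rw [e1]; linarith
  have hE2 : 2 * E ≤ m * E := mul_le_mul_of_nonneg_right hm E0.le
  have h5 : b * th ≤ 4 * m * (0.01 * (m * E)) := by
    have h6 : b * th ≤ (4 * m * (1 + 8 / 1490)) * th :=
      mul_le_mul_of_nonneg_right hbu th0.le
    have h7 : (1 + 8 / 1490 : ℝ) * th ≤ 0.01 * (m * E) := by
      norm_num at hthE hE2 ⊢
      linarith
    calc b * th ≤ (4 * m * (1 + 8 / 1490)) * th := h6
      _ = 4 * m * ((1 + 8 / 1490 : ℝ) * th) := by ring
      _ ≤ 4 * m * (0.01 * (m * E)) := mul_le_mul_of_nonneg_left h7 (by positivity)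
  have h4 : 4 * m * (7.99 * (m * E)) ≤ b * (1 - th) - 4 * m := by
    have h8 : b * (1 - th) - 4 * m = 4 * m * (8 * (m * E)) - b * th := by
      have e1 : b * (1 - th) = b - b * th := by ring
      have e2 : b = 4 * m + 4 * m * (8 * (m * E)) := by rw [hbdef]; ring
      rw [e1]
      linarith
    have h9 : 4 * m * (7.99 * (m * E)) = 4 * m * (8 * (m * E)) - 4 * m * (0.01 * (m * E)) := by
      ring
    rw [h8, h9]
    linarith
  have h9 : z * (4 * m * (7.99 * (m * E))) ≤ 4 * m * (b + th) :=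
    (mul_le_mul_of_nonneg_left h4 z0.le).trans h3
  have h10 : z * (7.99 * (m * E)) ≤ b + th := by
    have : (4 * m) * (z * (7.99 * (m * E))) ≤ (4 * m) * (b + th) := by
      calc (4 * m) * (z * (7.99 * (m * E))) = z * (4 * m * (7.99 * (m * E))) := by ring
        _ ≤ 4 * m * (b + th) := h9
    exact le_of_mul_le_mul_left this (by positivity)
  have h11 : b + th ≤ 4.06 * m := by
    norm_num at hbu hthE hE2 hmE ⊢
    linarith
  have h12 : m * (7.99 * (z * E)) ≤ m * 4.06 := by
    calc m * (7.99 * (z * E)) = z * (7.99 * (m * E)) := by ring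
      _ ≤ b + th := h10
      _ ≤ m * 4.06 := by linarith
  have h13 : 7.99 * (z * E) ≤ 4.06 := le_of_mul_le_mul_left h12 hm0
  have h14 : z * E ≤ 0.51 := by
    norm_num at h13 ⊢
    linarith
  have h15 : z * E * e4 ≤ 0.51 * e4 := mul_le_mul_of_nonneg_right h14 e40.le
  calc z = z * (E * e4) := by rw [hEe, mul_one]
    _ = z * E * e4 := by ring
    _ ≤ 0.51 * e4 := h15

theorem CASEA_half : (0.6 : ℝ) ≤ Real.exp (-(1 / 2)) := by
  have h5 : Real.exp (-(1 / 2)) * Real.exp (-(1 / 2)) = Real.exp (-1) := by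
    rw [← Real.exp_add]; norm_num
  have h6 : (0.36 : ℝ) ≤ Real.exp (-1) := by
    have := Real.exp_neg_one_gt_d9
    linarith
  by_contra h7
  rw [not_le] at h7
  have h8 := Real.exp_pos (-(1 / 2 : ℝ))
  have h9 : Real.exp (-(1 / 2)) * Real.exp (-(1 / 2)) < 0.6 * 0.6 :=
    mul_lt_mul h7 h7.le h8 (by norm_num)
  rw [h5] at h9
  norm_num at h9 h6
  linarith

theorem CASEA_two : Real.exp 2 ≤ 7.9 := by
  have h2 : Real.exp 2 = Real.exp 1 ^ 2 := by
    rw [← Real.exp_nat_mul]; norm_num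
  have h3 : Real.exp 1 < 2.7182818286 := Real.exp_one_lt_d9
  have h4 : Real.exp 1 ^ 2 ≤ 2.7182818286 ^ 2 := pow_le_pow_left₀ (Real.exp_pos _).le h3.le 2
  rw [h2]
  refine h4.trans ?_
  norm_num

/-- step (iv) -/
theorem CASEA_iv {z th b y E e4 : ℝ} (z0 : 0 < z) (th0 : 0 < th)
    (hEe : E * e4 = 1) (E0 : 0 < E) (hthE : 158 * th ≤ E)
    (hz51 : z ≤ 0.51 * e4) (hb8 : 8 ≤ b) (hy2 : 2 ≤ y) (hyz : y ≤ z)
    (h16 : b * z * (1 - th) ≤ y * (b + z + th))
    (hψ : b * y ^ 2 / 24 ≤ (b - y) * z - b * y) : False := by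
  have b0 : 0 < b := by linarith
  have h17 : b * y ^ 2 / 24 ≤ th * (y + b * z) := by
    have e1 : (b - y) * z - b * y = b * z * (1 - th) - y * (b + z + th) + th * (y + b * z) := by
      ring
    rw [e1] at hψ
    linarith
  have h18 : th * (y + b * z) ≤ th * (2 * (b * z)) := by
    refine mul_le_mul_of_nonneg_left ?_ th0.le
    have : z ≤ b * z := by
      have := mul_le_mul_of_nonneg_right (show (1 : ℝ) ≤ b by linarith) z0.le
      rwa [one_mul] at this
    linarith
  have h19 : th * z ≤ 0.51 / 158 := by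
    have h20 : th * z ≤ (E / 158) * (0.51 * e4) :=
      mul_le_mul (by linarith) hz51 z0.le (by positivity)
    have h21 : (E / 158) * (0.51 * e4) = 0.51 / 158 * (E * e4) := by ring
    rw [h21, hEe] at h20
    linarith
  have h22 : b * y ^ 2 / 24 ≤ 2 * b * (0.51 / 158) := by
    calc b * y ^ 2 / 24 ≤ th * (2 * (b * z)) := h17.trans h18
      _ = 2 * b * (th * z) := by ring
      _ ≤ 2 * b * (0.51 / 158) := mul_le_mul_of_nonneg_left h19 (by linarith)
  have hyy : (4 : ℝ) ≤ y ^ 2 := by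
    have := mul_le_mul hy2 hy2 (by norm_num) (by linarith : (0 : ℝ) ≤ y)
    calc (4 : ℝ) = 2 * 2 := by norm_num
      _ ≤ y * y := this
      _ = y ^ 2 := by ring
  have h23 : b * (4 : ℝ) ≤ b * y ^ 2 := mul_le_mul_of_nonneg_left hyy b0.le
  norm_num at h22
  linarith

theorem CASEA_proof (h : S_PSI) : S_CASEA := by
  intro m K L N s Λ u x H hs
  obtain ⟨m2, hK, K0, hL, N1, N2, s0, u0, u1, hΛ, hx, F2, F3, F4, F5, F6⟩ := H
  have hm' : (2 : ℝ) ≤ m := by exact_mod_cast m2
  have hm0 : (0 : ℝ) < m := by linarith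
  set e4 : ℝ := Real.exp (4 * m) with he4
  set E : ℝ := Real.exp (-(4 * m)) with hE
  have e40 : 0 < e4 := Real.exp_pos _
  have E0 : 0 < E := Real.exp_pos _
  have hEe : E * e4 = 1 := by
    rw [hE, he4, ← Real.exp_add]; simp
  have h1490 := CASEA_exp m m2
  rw [← he4] at h1490
  have hmE : (m : ℝ) * E ≤ 1 / 1490 := by
    have h1 : 1490 * m * E ≤ e4 * E := mul_le_mul_of_nonneg_right h1490 E0.le
    have h2 : e4 * E = 1 := by rw [mul_comm]; exact hEe
    rw [h2] at h1
    linarith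
  -- `K` is large
  have hKe : 1.58 * e4 ≤ K := by
    have h1 : Real.exp (4 * m + 29 / 50) ≤ K := by
      rw [← Real.exp_log K0]; exact Real.exp_le_exp.2 hK
    rw [Real.exp_add] at h1
    have h2 : (1.58 : ℝ) ≤ Real.exp (29 / 50) := by
      have := Real.add_one_le_exp (29 / 50 : ℝ)
      norm_num at this ⊢
      linarith
    have h3 : e4 * 1.58 ≤ e4 * Real.exp (29 / 50) := mul_le_mul_of_nonneg_left h2 e40.le
    linarith
  have hLe : 158 * e4 ≤ L := by norm_num at hKe; linarith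
  have L0 : 0 < L := by linarith
  set th : ℝ := 1 / L with hth
  have th0 : 0 < th := by positivity
  have hLth : L * th = 1 := by rw [hth]; field_simp
  have hthE : 158 * th ≤ E := by
    have h1 : 158 * e4 * th ≤ L * th := mul_le_mul_of_nonneg_right hLe th0.le
    rw [hLth] at h1
    have h2 : E * (158 * e4 * th) ≤ E * 1 := mul_le_mul_of_nonneg_left h1 E0.le
    have h3 : E * (158 * e4 * th) = (E * e4) * (158 * th) := by ring
    rw [h3, hEe] at h2
    linarith
  set z : ℝ := s / L with hz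
  have z0 : 0 < z := by positivity
  have hsz : s = z * L := by rw [hz]; field_simp
  set b : ℝ := bm m with hb
  have hbdef : b = 4 * m + 32 * m * (m * E) := by
    rw [hb, bm, ← hE]; ring
  have hmE0 : 0 < (m : ℝ) * E := by positivity
  have hb4 : 4 * (m : ℝ) ≤ b := by
    rw [hbdef]
    have : 0 < 32 * (m : ℝ) * (m * E) := by positivity
    linarith
  have hb8 : 8 ≤ b := by linarith
  have b0 : 0 < b := by linarith
  have LK0 : 0 < L * K := by positivity
  set b' : ℝ := N / (L * K) with hb'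
  have hbb' : b ≤ b' := by
    rw [hb', le_div_iff₀ LK0]; exact N1
  have hsLK : s / (L * K) ≤ 1 := by
    rw [div_le_one LK0]; exact hs
  have hxb' : b' ≤ x := by linarith
  have hxb : b ≤ x := hbb'.trans hxb'
  have x0 : 0 < x := by linarith
  have hN : N = b' * (L * K) := by rw [hb']; field_simp
  have hΛ0 : 0 < Λ := by rw [hΛ]; positivity
  by_contra hcon
  rw [not_le] at hcon
  -- `Λ x < 4 m b'`
  have h1 : Λ * x < 4 * m * b' := by
    have e1 : K * L * Λ ^ 2 = (L * K * u) * (Λ * x) := by rw [hΛ]; ring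
    have e2 : 4 * m * N * u = (L * K * u) * (4 * m * b') := by rw [hN]; ring
    rw [e1, e2] at hcon
    exact lt_of_mul_lt_mul_left hcon (by positivity)
  have hΛ4 : Λ < 4 * m := by
    have h2 : Λ * x < 4 * m * x := lt_of_lt_of_le h1 (mul_le_mul_of_nonneg_left hxb' (by positivity))
    exact lt_of_mul_lt_mul_right h2 x0.le
  -- (i)
  have hF6 : z ≤ Λ * (1 + z + th) := by
    rw [div_le_iff₀ (by positivity)] at F6
    have e1 : s = L * z := by rw [hsz]; ring
    have e2 : Λ * (1 + s + L) = L * (Λ * (1 + z + th)) := by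
      rw [hsz]
      have : L * (Λ * (1 + z + th)) = Λ * (L + z * L + L * th) := by ring
      rw [this, hLth]; ring
    rw [e2] at F6
    have F6' : L * z ≤ L * (Λ * (1 + z + th)) := by rw [← e1]; exact F6
    exact le_of_mul_le_mul_left F6' L0
  have hF5 : Λ * x ≤ z := by
    have e1 : s * u / L = z * u := by rw [hz]; ring
    rw [e1] at F5
    have e2 : Λ ^ 2 = (Λ * x) * u := by
      have : Λ ^ 2 = Λ * Λ := by ring
      rw [this]; nth_rewrite 2 [hΛ]; ring
    rw [e2] at F5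
    exact le_of_mul_le_mul_right F5 u0
  have hth1 : th ≤ 1 / 1000 := by
    have h2E : 2 * E ≤ m * E := mul_le_mul_of_nonneg_right hm' E0.le
    linarith
  have hxz : x ≤ 1 + z + th := by
    have h2 : Λ * x ≤ Λ * (1 + z + th) := hF5.trans hF6
    exact le_of_mul_le_mul_left h2 hΛ0
  have hz69 : 6.9 ≤ z := by norm_num; linarith
  -- (ii)
  have hF4 : b * z * (1 - th) ≤ Λ * (b + z + th) :=
    CASEA_ii L0 hLth th0 z0 hsz b0 u0 hxb hΛ F4
  -- (iii)
  have hz51 : z ≤ 0.51 * e4 :=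
    CASEA_iii hm' z0 th0 E0 e40 hEe hmE hthE hbdef hΛ4 hF4
  -- (iv)
  set y : ℝ := Real.log (1 + z) with hy
  have hey : Real.exp y = 1 + z := Real.exp_log (by positivity)
  have hy2 : 2 ≤ y := by
    rw [hy, Real.le_log_iff_exp_le (by positivity)]
    refine CASEA_two.trans ?_
    norm_num at hz69 ⊢
    linarith
  have hyb : y ≤ b - 1 / 2 := by
    have h2 : y ≤ 4 * m - 1 / 2 := by
      rw [hy, Real.log_le_iff_le_exp (by positivity)]
      have h3 : Real.exp (4 * (m : ℝ) - 1 / 2) = e4 * Real.exp (-(1 / 2)) := by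
        rw [he4, ← Real.exp_add]; congr 1
      rw [h3]
      have h5 : e4 * 0.6 ≤ e4 * Real.exp (-(1 / 2)) :=
        mul_le_mul_of_nonneg_left CASEA_half e40.le
      norm_num at h5 hz51
      linarith
    linarith
  have hψ := h b y hb8 (by linarith) hyb
  have hyz : y ≤ z := by
    have := Real.log_le_sub_one_of_pos (show 0 < 1 + z by positivity)
    rw [← hy] at this
    linarith
  have h16 : b * z * (1 - th) ≤ y * (b + z + th) :=
    hF4.trans (mul_le_mul_of_nonneg_right F3 (by positivity))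
  rw [hey, add_sub_cancel_left] at hψ
  exact CASEA_iv z0 th0 hEe E0 hthE hz51 hb8 hy2 hyz h16 hψ

end Pool.Agent.H358R5
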