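import Mathlib
import Pool.Agent.H358R5.Stubs

/-! Task CASEB: the final inequality in the case `s > L K`. -/

namespace Pool.Agent.H358R5

theorem CASEB_exp8 : (2136 : ℝ) ≤ Real.exp 8 := by
  have h1 : (2.7 : ℝ) ≤ Real.exp 1 := by
    have := Real.exp_one_gt_d9
    linarith
  have h2 : Real.exp 8 = Real.exp 1 ^ 8 := by
    rw [← Real.exp_nat_mul]
    norm_num
  rw [h2]
  calc (2136 : ℝ) ≤ 2.7 ^ 8 := by norm_num
    _ ≤ Real.exp 1 ^ 8 := pow_le_pow_left₀ (by norm_num) h1 8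

theorem CASEB_small (m : ℝ) (hm : 2 ≤ m) : 16 * m ^ 2 * Real.exp (-(4 * m)) ≤ 3 / 100 := by
  have h1 : 534 * m ^ 2 ≤ Real.exp (4 * m) := by
    have h2 : Real.exp (4 * m) = Real.exp 8 * Real.exp (4 * (m - 2)) := by
      rw [← Real.exp_add]
      congr 1
      ring
    have h3 := Real.quadratic_le_exp_of_nonneg (x := 4 * (m - 2)) (by linarith)
    have h4 : (2136 : ℝ) * (1 + 4 * (m - 2) + (4 * (m - 2)) ^ 2 / 2) ≤
        Real.exp 8 * Real.exp (4 * (m - 2)) := by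
      refine mul_le_mul CASEB_exp8 h3 ?_ (Real.exp_pos _).le
      nlinarith [sq_nonneg (4 * (m - 2))]
    rw [h2]
    refine le_trans ?_ h4
    nlinarith [sq_nonneg (m - 2)]
  rw [Real.exp_neg]
  have h5 : 0 < Real.exp (4 * m) := Real.exp_pos _
  rw [mul_inv_le_iff₀ h5]
  nlinarith [sq_nonneg m]

theorem CASEB_alg (m b l : ℝ) (hm : 2 ≤ m) (hb : 4 * m ≤ b) (hl0 : 0 < l)
    (hl1 : l ≤ 285 / 10000) : 4 * m * b ≤ (4 * m + 1 / 500 + l) * (b - l - l ^ 2) := by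
  have h1 : l ^ 2 ≤ 82 / 100000 := by
    calc l ^ 2 ≤ (285 / 10000) ^ 2 := pow_le_pow_left₀ hl0.le hl1 2
      _ ≤ 82 / 100000 := by norm_num
  have h2 : (1 / 500 + l) * (4 * m) ≤ (1 / 500 + l) * b :=
    mul_le_mul_of_nonneg_left hb (by linarith)
  have h3 : 4 * m * l ^ 2 ≤ 4 * m * (82 / 100000) := mul_le_mul_of_nonneg_left h1 (by linarith)
  have h4 : (1 / 500 + l) * (l + l ^ 2) ≤ (1 / 500 + 285 / 10000) * (285 / 10000 + 82 / 100000) :=
    mul_le_mul (by linarith) (by linarith) (by positivity) (by norm_num)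
  have h5 : (4 * m + 1 / 500 + l) * (b - l - l ^ 2) - 4 * m * b =
      (1 / 500 + l) * b - 4 * m * l - 4 * m * l ^ 2 - (1 / 500 + l) * (l + l ^ 2) := by ring
  have h6 : (1 / 500 + l) * (4 * m) = 1 / 500 * (4 * m) + 4 * m * l := by ring
  have h7 : (1 / 500 + 285 / 10000 : ℝ) * (285 / 10000 + 82 / 100000) ≤ 1 / 1000 := by norm_num
  linarith

theorem CASEB_sq (m l q b Λ x : ℝ) (hm : 2 ≤ m) (hl0 : 0 < l)
    (hb2 : b ≤ 4 * m + 2 * q + 1 / 100000000) (hΛ1 : 4 * m + 1 / 500 + l ≤ Λ) (hΛx : Λ ≤ x)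
    (hcon : Λ * x < 4 * m * b) : 1 / 500 + l < q + 1 / 100000000 := by
  have hΛ0 : 0 < Λ := by linarith
  have h0 : Λ * Λ ≤ Λ * x := mul_le_mul_of_nonneg_left hΛx hΛ0.le
  have h2 : (4 * m + 1 / 500 + l) * (4 * m + 1 / 500 + l) ≤ Λ * Λ :=
    mul_le_mul hΛ1 hΛ1 (by linarith) hΛ0.le
  have h4 : 4 * m * b ≤ 4 * m * (4 * m + 2 * q + 1 / 100000000) :=
    mul_le_mul_of_nonneg_left hb2 (by linarith)
  have h5 : (4 * m + 1 / 500 + l) * (4 * m + 1 / 500 + l) =
      16 * m ^ 2 + 8 * m * (1 / 500 + l) + (1 / 500 + l) ^ 2 := by ring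
  have h6 : 4 * m * (4 * m + 2 * q + 1 / 100000000) =
      16 * m ^ 2 + 8 * m * (q + 1 / 200000000) := by ring
  have h7 := sq_nonneg (1 / 500 + l)
  have h8 : 8 * m * (1 / 500 + l) < 8 * m * (q + 1 / 200000000) := by linarith
  have h9 : 1 / 500 + l < q + 1 / 200000000 := lt_of_mul_lt_mul_left h8 (by linarith)
  linarith

theorem CASEB_proof : S_CASEB := by
  intro m K L N s Λ u x h hs
  obtain ⟨m2, hK, K0, hL, N1, N2, s0, u0, u1, hΛ, hx, F2, -, -, -, -⟩ := h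
  have hm : (2 : ℝ) ≤ m := by exact_mod_cast m2
  have hKbig : (2136 : ℝ) ≤ K := by
    refine CASEB_exp8.trans ?_
    rw [← Real.log_le_log_iff (Real.exp_pos 8) K0, Real.log_exp]
    linarith
  have hL0 : 0 < L := by linarith
  have hP0 : 0 < L * K := mul_pos hL0 K0
  have hP : (100000000 : ℝ) ≤ L * K := by
    calc (100000000 : ℝ) ≤ (100 * 2136) * 2136 := by norm_num
      _ ≤ L * K := mul_le_mul (by linarith) hKbig (by norm_num) hL0.le
  obtain ⟨q, hq⟩ : ∃ q : ℝ, q = 16 * (m : ℝ) ^ 2 * Real.exp (-(4 * m)) := ⟨_, rfl⟩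
  have hq1 : q ≤ 3 / 100 := by rw [hq]; exact CASEB_small m hm
  have hq0 : 0 ≤ q := by rw [hq]; positivity
  have hbm : bm m = 4 * m + 2 * q := by
    unfold bm
    rw [hq]
    ring
  rw [hbm] at N1 N2
  obtain ⟨b, hb⟩ : ∃ b : ℝ, b = N / (L * K) := ⟨_, rfl⟩
  have hNb : N = b * (L * K) := by rw [hb, div_mul_cancel₀ _ hP0.ne']
  have hb1 : 4 * m + 2 * q ≤ b := by
    rw [hb, le_div_iff₀ hP0]
    exact N1
  have hb2 : b ≤ 4 * m + 2 * q + 1 / 100000000 := by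
    rw [hb, div_le_iff₀ hP0]
    have h1 : 1 ≤ 1 / 100000000 * (L * K) := by linarith
    have h2 : (4 * m + 2 * q + 1 / 100000000) * (L * K) =
      (4 * m + 2 * q) * (L * K) + 1 / 100000000 * (L * K) := by ring
    linarith
  obtain ⟨e, he⟩ : ∃ e : ℝ, e = s / (L * K) := ⟨_, rfl⟩
  have hse : s = L * K * e := by rw [he, mul_div_cancel₀ _ hP0.ne']
  have he1 : 1 < e := by
    rw [he, lt_div_iff₀ hP0]
    linarith
  have he0 : 0 < e := by linarith
  obtain ⟨l, hl⟩ : ∃ l : ℝ, l = Real.log e := ⟨_, rfl⟩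
  have hl0 : 0 < l := by rw [hl]; exact Real.log_pos he1
  have hexp : Real.exp l = e := by rw [hl, Real.exp_log he0]
  have hlogs : Real.log s = Real.log L + Real.log K + l := by
    rw [hse, Real.log_mul hP0.ne' he0.ne', Real.log_mul hL0.ne' K0.ne', hl]
  have hlog1 : Real.log s ≤ Real.log (1 + s) := Real.log_le_log s0 (by linarith)
  have hΛ1 : 4 * m + 1 / 500 + l ≤ Λ := by linarith
  have hΛ0 : 0 < Λ := by linarith
  have hx0 : 0 < x := by
    by_contra hcon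
    push Not at hcon
    have := mul_nonpos_of_nonneg_of_nonpos u0.le hcon
    linarith
  have hΛx : Λ ≤ x := by
    rw [hΛ]
    calc u * x ≤ 1 * x := mul_le_mul_of_nonneg_right u1 hx0.le
      _ = x := one_mul x
  have hx1 : b + 1 - e ≤ x := by rw [hb, he]; exact hx
  have key : 4 * m * b ≤ Λ * x := by
    by_contra hcon
    push Not at hcon
    have h4 := CASEB_sq m l q b Λ x hm hl0 hb2 hΛ1 hΛx hcon
    have hl1 : l ≤ 285 / 10000 := by linarith
    have h5 := Real.abs_exp_sub_one_sub_id_le (x := l) (by rw [abs_of_pos hl0]; linarith)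
    rw [hexp] at h5
    have h6 : e ≤ 1 + l + l ^ 2 := by
      have := le_abs_self (e - 1 - l)
      linarith
    have hb4 : 4 * m ≤ b := by linarith
    have h9 := CASEB_alg m b l hm hb4 hl0 hl1
    have h10 : (4 * m + 1 / 500 + l) * (b - l - l ^ 2) ≤ (4 * m + 1 / 500 + l) * x :=
      mul_le_mul_of_nonneg_left (by linarith) (by linarith)
    have h11 : (4 * m + 1 / 500 + l) * x ≤ Λ * x := mul_le_mul_of_nonneg_right hΛ1 hx0.le
    linarith
  have hfin : 4 * m * N * u ≤ K * L * Λ ^ 2 := by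
    have h1 : 4 * m * N * u = (L * K) * u * (4 * m * b) := by rw [hNb]; ring
    have h2 : K * L * Λ ^ 2 = (L * K) * u * (Λ * x) := by
      rw [hΛ]
      ring
    rw [h1, h2]
    exact mul_le_mul_of_nonneg_left key (mul_pos hP0 u0).le
  exact hfin

end Pool.Agent.H358R5
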