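import Mathlib

/-! H358R5 (helper358), part 2: from linear forms to tuples, consecutive primes and gaps.
Definitions and statements of the tasks. -/

open Finset Filter

namespace Pool.Agent.H358R5

/-- admissible tuple of shifts -/
def Adm {K : ℕ} (h : Fin K → ℕ) : Prop :=
  Function.Injective h ∧ ∀ p : ℕ, p.Prime → ∃ a : ℕ, ∀ i, ¬ p ∣ a + h i

/-- `m + 1` primes among `K` linear forms, with a count -/
def LHyp (m K : ℕ) : Prop := ∀ (A B : Fin K → ℕ), (∀ i, 1 ≤ A i) →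
  (∀ i j, i ≠ j → A i * B j ≠ A j * B i) → (∀ p : ℕ, p.Prime → ∃ a : ℕ, ∀ i, ¬ p ∣ A i * a + B i) →
  ∀ ε : ℝ, 0 < ε → ∀ᶠ X : ℝ in atTop, X ^ (1 - ε) ≤
    (((Icc 1 ⌊X⌋₊).filter (fun n : ℕ => m + 1 ≤ (univ.filter fun i => (A i * n + B i).Prime).card)).card : ℝ)

/-- `m + 1` primes among `K` shifts, in a residue class, with a count -/
def CHyp (m K : ℕ) : Prop := ∀ (h : Fin K → ℕ), Adm h → ∀ (Q b : ℕ), Squarefree Q →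
  (∀ i, (b + h i).Coprime Q) → ∀ ε : ℝ, 0 < ε → ∀ᶠ X : ℝ in atTop, X ^ (1 - ε) ≤
    (((Icc 1 ⌊X⌋₊).filter (fun n : ℕ => n ≡ b [MOD Q] ∧
      m + 1 ≤ (univ.filter fun i => (n + h i).Prime).card)).card : ℝ)

/-- CLS -/
def S_CLS : Prop := ∀ m K : ℕ, LHyp m K → CHyp m K

/-- CONS: at least `x^(1-ε)` of the `n ≤ x` have `m + 1` primes among the `n + a i` and no other prime in the
interval spanned by the `n + a i` -/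
def S_CONS : Prop := ∀ m K : ℕ, 1 ≤ m → CHyp m K → ∀ (a : Fin K → ℤ), Function.Injective a →
  (∀ p : ℕ, p.Prime → ∃ r : ℤ, ∀ i, ¬ (p : ℤ) ∣ r + a i) → ∀ ε : ℝ, 0 < ε →
  ∀ᶠ x : ℝ in atTop, x ^ (1 - ε) ≤ (Set.ncard {n : ℕ | 1 ≤ n ∧ (n : ℝ) ≤ x ∧
    m + 1 ≤ Set.ncard {i : Fin K | ∃ p : ℕ, p.Prime ∧ (p : ℤ) = n + a i} ∧
    ∀ p : ℕ, p.Prime → (∃ i j, (n : ℤ) + a i ≤ p ∧ (p : ℤ) ≤ n + a j) → ∃ i, (p : ℤ) = n + a i} : ℝ)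

/-- GAPS: many clusters of `m + 1` consecutive primes of diameter at most `Δ` -/
def S_GAPS : Prop := ∀ m K Δ : ℕ, 1 ≤ m → CHyp m K → (∃ h : Fin K → ℕ, Adm h ∧ ∀ i, h i ≤ Δ) →
  ∀ ε : ℝ, 0 < ε → ∀ᶠ x : ℝ in atTop,
    x ^ (1 - ε) ≤ (Set.ncard {k : ℕ | (Nat.nth Nat.Prime k : ℝ) ≤ x ∧
      Nat.nth Nat.Prime (k + m) ≤ Nat.nth Nat.Prime k + Δ} : ℝ)

/-- PAT: some pattern of `m + 1` elements of a given admissible set is realised by consecutive primes -/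
def S_PAT : Prop := ∀ m K : ℕ, 1 ≤ m → CHyp m K → ∀ (H : Finset ℤ), H.card = K →
  (∀ p : ℕ, p.Prime → ∃ r : ℤ, ∀ h ∈ H, ¬ (p : ℤ) ∣ r + h) →
  ∃ S : Finset ℤ, S ⊆ H ∧ S.card = m + 1 ∧ ∀ ε : ℝ, 0 < ε → ∃ᶠ x : ℝ in atTop,
    x ^ (1 - ε) ≤ (Set.ncard {n : ℕ | (n : ℝ) ≤ x ∧ (∀ s ∈ S, ∃ p : ℕ, p.Prime ∧ (p : ℤ) = n + s) ∧
      ∀ p : ℕ, p.Prime → (∃ s ∈ S, ∃ t ∈ S, (n : ℤ) + s ≤ p ∧ (p : ℤ) ≤ n + t) →
        ∃ s ∈ S, (p : ℤ) = n + s} : ℝ)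

/-- PTUP: primes in an interval above `K` form an admissible tuple -/
def S_PTUP : Prop := ∀ K u Δ : ℕ, K < u → K ≤ ((Icc u (u + Δ)).filter Nat.Prime).card →
  ∃ h : Fin K → ℕ, Adm h ∧ ∀ i, h i ≤ Δ

/-- PI3: a prime count -/
def S_PI3 : Prop := 290687 ≤ ((Icc 290701 4500317).filter Nat.Prime).card

/-- LOG -/
def S_LOG : Prop := 4 * (2 : ℝ) + 29 / 50 ≤ Real.log 5325 ∧ 4 * (3 : ℝ) + 29 / 50 ≤ Real.log 290687

/-- RHO: integers without small prime factors in a window give primes in windows of the same length -/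
def S_RHO : Prop := ∀ m K k u : ℕ, (∀ h : Fin K → ℕ, Adm h →
    {n : ℕ | m + 1 ≤ (univ.filter fun i => (n + h i).Prime).card}.Infinite) →
  K ≤ Set.ncard {n : ℕ | u < n ∧ n ≤ u + k ∧ ∀ p : ℕ, p.Prime → p ≤ k → ¬ p ∣ n} →
  ∃ᶠ x : ℕ in atTop, m + 1 ≤ ((Ioc x (x + k)).filter Nat.Prime).card

end Pool.Agent.H358R5
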