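import Mathlib
import Pool.Agent.H358R5.Stubs2

open Finset Filter

namespace Pool.Agent.H358R5

theorem CLS_proof : S_CLS := by
  classical
  intro m K hL h hadm Q b hQ hcop ε hε
  obtain ⟨hinj, hloc⟩ := hadm
  have hQ0 : Q ≠ 0 := hQ.ne_zero
  have hQpos : 0 < Q := Nat.pos_of_ne_zero hQ0
  have hbQ : Q * (b / Q) + b % Q = b := Nat.div_add_mod b Q
  set b' := b % Q with hb'
  set ε' : ℝ := min ε 1 / 2 with hε'
  have hε'0 : 0 < ε' := by positivity
  have hε'1 : ε' ≤ 1 / 2 := by
    rw [hε']; linarith [min_le_right ε 1]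
  have hε'2 : 2 * ε' ≤ ε := by
    rw [hε']; linarith [min_le_left ε 1]
  have key := hL (fun _ => Q) (fun i => b' + h i) (fun _ => hQpos) (by
    intro i j hij he
    have h1 := Nat.eq_of_mul_eq_mul_left hQpos he
    exact hij (hinj (by omega))) (by
    intro p hp
    by_cases hpQ : p ∣ Q
    · refine ⟨0, fun i hi => ?_⟩
      have h1 : p ∣ b + h i := by
        rw [← hbQ]
        have : Q * (b / Q) + b' + h i = Q * (b / Q) + (Q * 0 + (b' + h i)) := by ring
        rw [this]
        exact (hpQ.mul_right _).add hi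
      have h2 : p ∣ 1 := by
        have := Nat.dvd_gcd h1 hpQ
        rwa [hcop i] at this
      exact hp.one_lt.ne' (Nat.dvd_one.1 h2)
    · haveI : Fact p.Prime := ⟨hp⟩
      obtain ⟨a₀, ha₀⟩ := hloc p hp
      have hQz : (Q : ZMod p) ≠ 0 := by
        rwa [Ne, ZMod.natCast_eq_zero_iff]
      refine ⟨(((a₀ : ZMod p) - b') * (Q : ZMod p)⁻¹).val, fun i hi => ha₀ i ?_⟩
      rw [← ZMod.natCast_eq_zero_iff] at hi ⊢
      push_cast [ZMod.natCast_val, ZMod.cast_id'] at hi ⊢
      rw [← hi]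
      simp only [id]
      field_simp
      ring) ε' hε'0
  -- the map X ↦ (X - b') / Q
  have hY : Tendsto (fun X : ℝ => (X - b') / Q) atTop atTop := by
    apply Tendsto.atTop_div_const (by exact_mod_cast hQpos)
    exact tendsto_atTop_add_const_right _ _ tendsto_id
  have h1 := hY.eventually key
  have h2 : ∀ᶠ X : ℝ in atTop, (2 * (Q : ℝ)) ^ (1 - ε') ≤ X ^ ε' :=
    (tendsto_rpow_atTop hε'0).eventually (eventually_ge_atTop _)
  filter_upwards [h1, h2, eventually_ge_atTop (1 : ℝ), eventually_ge_atTop (2 * (b' : ℝ))] with X h3 h4 h5 h6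
  have hX0 : (0 : ℝ) < X := by linarith
  have hQr : (0 : ℝ) < Q := by exact_mod_cast hQpos
  have hYge : X / (2 * Q) ≤ (X - b') / Q := by
    rw [div_le_div_iff₀ (by positivity) hQr]
    nlinarith
  have hpow : X ^ (1 - ε) ≤ ((X - b') / Q) ^ (1 - ε') := by
    calc X ^ (1 - ε) ≤ X ^ (1 - 2 * ε') := Real.rpow_le_rpow_of_exponent_le h5 (by linarith)
      _ ≤ (X / (2 * Q)) ^ (1 - ε') := by
          rw [Real.div_rpow hX0.le (by positivity), le_div_iff₀ (by positivity)]
          calc X ^ (1 - 2 * ε') * (2 * (Q : ℝ)) ^ (1 - ε') ≤ X ^ (1 - 2 * ε') * X ^ ε' :=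
                mul_le_mul_of_nonneg_left h4 (by positivity)
            _ = X ^ (1 - ε') := by
                rw [← Real.rpow_add hX0]; congr 1; ring
      _ ≤ ((X - b') / Q) ^ (1 - ε') := Real.rpow_le_rpow (by positivity) hYge (by linarith)
  refine hpow.trans (h3.trans ?_)
  have hYnn : 0 ≤ (X - b') / Q := le_trans (by positivity) hYge
  norm_cast
  apply Finset.card_le_card_of_injOn (fun n => Q * n + b')
  · intro n hn
    simp only [Finset.coe_filter, Finset.mem_Icc, Set.mem_setOf_eq] at hn ⊢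
    obtain ⟨⟨hn1, hn2⟩, hn3⟩ := hn
    refine ⟨⟨?_, ?_⟩, ?_, ?_⟩
    · have := Nat.mul_le_mul hQpos hn1
      omega
    · apply Nat.le_floor
      have h7 : (n : ℝ) ≤ (X - b') / Q := by
        exact (Nat.cast_le.2 hn2).trans (Nat.floor_le hYnn)
      rw [le_div_iff₀ hQr] at h7
      push_cast
      linarith
    · have h8 : Q * n + b' ≡ b' [MOD Q] := by
        simp [Nat.ModEq]
      have h9 : b' ≡ b [MOD Q] := Nat.mod_modEq b Q
      exact h8.trans h9
    · refine hn3.trans (le_of_eq ?_)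
      congr 1
      ext i
      simp only [Finset.mem_filter, Finset.mem_univ, true_and]
      rw [add_assoc]
  · intro n _ n' _ hnn
    have : Q * n = Q * n' := by
      simpa using hnn
    exact Nat.eq_of_mul_eq_mul_left hQpos this

end Pool.Agent.H358R5
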