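import Mathlib
import Pool.Agent.H358R5.Stubs

set_option autoImplicit false

open Finset

namespace Pool.Agent.H358R5

theorem CONV1_D_zero (L n : ℕ) : D L n 0 = A L n 0 := by
  simp [D]

theorem CONV1_D_succ (L n x : ℕ) : D L n (x + 1) = D L n x + A L n (x + 1) := by
  unfold D
  rw [Finset.sum_range_succ]

theorem CONV1_A_succ (L n s : ℕ) :
    A L (n + 1) s = ∑ c ∈ range s, g L (c + 1) ^ 2 * A L n (s - 1 - c) := rfl

theorem CONV1_proof : S_CONV1 := by
  intro L n x
  induction x with
  | zero =>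
    rw [CONV1_D_zero, CONV1_A_succ]
    simp
  | succ x ih =>
    rw [CONV1_D_succ, ih, CONV1_A_succ, Finset.sum_range_succ, Finset.sum_range_succ]
    have h : ∀ c ∈ range x, g L (c + 1) ^ 2 * D L n (x + 1 - 1 - c) =
        g L (c + 1) ^ 2 * D L n (x - 1 - c) + g L (c + 1) ^ 2 * A L n (x + 1 - 1 - c) := by
      intro c hc
      have hc' := Finset.mem_range.1 hc
      have e : x + 1 - 1 - c = (x - 1 - c) + 1 := by omega
      rw [e, CONV1_D_succ]
      ring
    rw [Finset.sum_congr rfl h, Finset.sum_add_distrib]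
    have e2 : x + 1 - 1 - x = 0 := by omega
    rw [e2, CONV1_D_zero]
    ring

end Pool.Agent.H358R5
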