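import Mathlib
import Pool.Agent.H358R5.Stubs

open Finset

namespace Pool.Agent.H358R5

theorem CONV2_proof : S_CONV2 := by
  intro L n N
  unfold B T D
  simp only [Finset.mul_sum]
  rw [Finset.sum_comm' (t' := range N) (s' := fun c => range (N - 1 - c + 1))]
  · refine Finset.sum_congr rfl fun c _ => Finset.sum_congr rfl fun s _ => ?_
    ring
  · intro s c
    simp only [Finset.mem_range]
    omega

end Pool.Agent.H358R5
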