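import Mathlib

/-! H358R5 (helper358), part 3: a kernel-checkable certificate for the criterion with product weights
given by an integer valued function `G` (three primes, `K` about 3745). Definitions and statements of the tasks. -/

open Finset

namespace Pool.Agent.H358R5

/-- coefficients of `(∑_{c ≥ 1} G(c)^2 x^c)^n` -/
def AG (G : ℕ → ℕ) : ℕ → ℕ → ℕ
  | 0, s => if s = 0 then 1 else 0
  | n + 1, s => ∑ c ∈ range s, G (c + 1) ^ 2 * AG G n (s - 1 - c)

/-- convolution -/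
def conv (a b : ℕ → ℕ) (k : ℕ) : ℕ := ∑ i ∈ range (k + 1), a i * b (k - i)

/-- a sequence packed into one integer, slots of `w` bits -/
def pk (w : ℕ) (a : ℕ → ℕ) (n : ℕ) : ℕ := ∑ i ∈ range n, a i * 2 ^ (w * i)

/-- `∑_{i<n} 2^(w i)` -/
def rep (w n : ℕ) : ℕ := ((1 <<< (w * n)) - 1) / ((1 <<< w) - 1)

/-- product of packed sequences, truncated to `n` slots, each slot divided by `2^t` (rounded down) -/
def mulS (w n t X Y : ℕ) : ℕ :=
  (((X * Y) % (1 <<< (w * n))) >>> t) &&& (((1 <<< (w - t)) - 1) * rep w n)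

/-- trees of blocks (length, value) -/
inductive BT where
  | leaf : ℕ → ℕ → BT
  | node : BT → BT → BT

namespace BT

def len : BT → ℕ
  | leaf l _ => l
  | node a b => a.len + b.len

def val : BT → ℕ → ℕ
  | leaf l v, i => if i < l then v else 0
  | node a b, i => if i < a.len then a.val i else b.val (i - a.len)

/-- sum of the values at the positions `< y` -/
def sm : BT → ℕ → ℕ
  | leaf l v, y => v * min y l
  | node a b, y => bif Nat.ble y a.len then a.sm y else a.sm a.len + b.sm (y - a.len)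

/-- sum of the squares of the values at the positions `< y` -/
def sm2 : BT → ℕ → ℕ
  | leaf l v, y => v ^ 2 * min y l
  | node a b, y => bif Nat.ble y a.len then a.sm2 y else a.sm2 a.len + b.sm2 (y - a.len)

/-- the packed sequence of squares -/
def pkt (w : ℕ) : BT → ℕ
  | leaf l v => v ^ 2 * rep w l
  | node a b => a.pkt w + (b.pkt w) <<< (w * a.len)

/-- the weight function of a tree -/
def G (t : BT) (c : ℕ) : ℕ := t.val (c - 1)

end BT

/-- trees of segment lengths -/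
inductive ST where
  | leaf : ℕ → ST
  | node : ST → ST → ST

namespace ST

def len : ST → ℕ
  | leaf l => l
  | node a b => a.len + b.len

/-- lower bound for `∑ a(s) B(N-s)^2` from the packed sequence -/
def num (w N : ℕ) (t : BT) : ST → ℕ → ℕ → ℕ
  | leaf l, X, s0 => (X % ((1 <<< w) - 1)) * t.sm (N + 1 - (s0 + l)) ^ 2
  | node a b, X, s0 => a.num w N t (X % (1 <<< (w * a.len))) s0 + b.num w N t (X >>> (w * a.len)) (s0 + a.len)

/-- upper bound for `∑ (a(s) + E) W(N-s)` from the packed sequence -/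
def den (w N E : ℕ) (t : BT) : ST → ℕ → ℕ → ℕ
  | leaf l, X, s0 => (X % ((1 <<< w) - 1) + E * l) * t.sm2 (N - s0)
  | node a b, X, s0 => a.den w N E t (X % (1 <<< (w * a.len))) s0 + b.den w N E t (X >>> (w * a.len)) (s0 + a.len)

end ST

/-- the chain of multiplications: `false`: square, `true`: multiply by `X1` -/
def go (w n1 X1 S1 : ℕ) (fin : ℕ → ℕ → ℕ → ℕ → Bool) : List (Bool × ℕ) → ℕ → ℕ → ℕ → ℕ → Bool
  | [], n, X, S, E => fin n X S E
  | (false, t) :: L, n, X, S, E => Nat.blt (S * S) (1 <<< w) && (Nat.ble t w &&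
      go w n1 X1 S1 fin L (2 * n) (mulS w n1 t X X) (S * S / 2 ^ t) ((2 * E * S + E * E * n1) / 2 ^ t + 2))
  | (true, t) :: L, n, X, S, E => Nat.blt (S * S1) (1 <<< w) && (Nat.ble t w &&
      go w n1 X1 S1 fin L (n + 1) (mulS w n1 t X X1) (S * S1 / 2 ^ t) ((E * S1) / 2 ^ t + 2))

/-- the final check -/
def fin (w : ℕ) (t : BT) (st : ST) (m K n X S E : ℕ) : Bool :=
  Nat.beq (n + 1) K && (Nat.blt (S + 1) (1 <<< w) && (Nat.beq st.len (t.len + 1) &&
    Nat.blt (4 * m * (t.len - 1) * st.den w t.len E t X 0) (K * st.num w t.len t X 0)))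

/-- the certificate check -/
def chk (w : ℕ) (t : BT) (st : ST) (L : List (Bool × ℕ)) (m K : ℕ) : Bool :=
  go w (t.len + 1) ((t.pkt w) <<< w) (t.sm2 t.len) (fin w t st m K) L 1 ((t.pkt w) <<< w) (t.sm2 t.len) 0

/-- the invariant of the chain -/
def Inv (G : ℕ → ℕ) (w n1 n X S E e : ℕ) : Prop := ∃ a : ℕ → ℕ, X = pk w a n1 ∧ ∑ i ∈ range n1, a i ≤ S ∧
  ∀ s, s < n1 → a s * 2 ^ e ≤ AG G n s ∧ AG G n s ≤ (a s + E) * 2 ^ e

/-! ### the tasks -/

/-- REP -/
def S_REP : Prop := ∀ w n : ℕ, 0 < w → rep w n = ∑ i ∈ range n, 2 ^ (w * i)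

/-- MULS -/
def S_MULS : Prop := ∀ (w n t : ℕ) (a b : ℕ → ℕ), 0 < w → t ≤ w → (∀ k, k < n → conv a b k < 2 ^ w) →
  mulS w n t (pk w a n) (pk w b n) = pk w (fun k => conv a b k / 2 ^ t) n

/-- CONVA -/
def S_CONVA : Prop := ∀ (G : ℕ → ℕ) (n n' s : ℕ), AG G (n + n') s = conv (AG G n) (AG G n') s

/-- INVMUL -/
def S_INVMUL : Prop := ∀ (G : ℕ → ℕ) (w n1 n X S E e n' X' S' E' e' t : ℕ), 0 < w → t ≤ w →
  Inv G w n1 n X S E e → Inv G w n1 n' X' S' E' e' → S * S' < 2 ^ w →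
  Inv G w n1 (n + n') (mulS w n1 t X X') (S * S' / 2 ^ t) ((E * S' + E' * S + E * E' * n1) / 2 ^ t + 2) (e + e' + t)

/-- SMV -/
def S_SMV : Prop := ∀ (t : BT) (y : ℕ), t.sm y = ∑ i ∈ range y, t.val i ∧ t.sm2 y = ∑ i ∈ range y, t.val i ^ 2

/-- INIT -/
def S_INIT : Prop := ∀ (t : BT) (w : ℕ), 0 < w →
  Inv t.G w (t.len + 1) 1 ((t.pkt w) <<< w) (t.sm2 t.len) 0 0

/-- SEG -/
def S_SEG : Prop := ∀ (t : BT) (st : ST) (w N E : ℕ) (a : ℕ → ℕ), 0 < w → st.len = N + 1 →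
  ∑ i ∈ range (N + 1), a i < 2 ^ w - 1 →
  st.num w N t (pk w a (N + 1)) 0 ≤ ∑ s ∈ range (N + 1), a s * t.sm (N - s) ^ 2 ∧
  ∑ s ∈ range (N + 1), (a s + E) * t.sm2 (N - s) ≤ st.den w N E t (pk w a (N + 1)) 0

/-- SOUND -/
def S_SOUND : Prop := ∀ (w : ℕ) (t : BT) (st : ST) (L : List (Bool × ℕ)) (m K0 : ℕ), 0 < w →
  chk w t st L m (K0 + 1) = true →
  4 * m * (t.len - 1) * ∑ s ∈ range (t.len + 1), AG t.G K0 s * (∑ i ∈ range (t.len - s), t.G (i + 1) ^ 2) <
    (K0 + 1) * ∑ s ∈ range (t.len + 1), AG t.G K0 s * (∑ i ∈ range (t.len - s), t.G (i + 1)) ^ 2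

/-- admissible tuple of shifts (as in Stubs2) -/
def Adm3 {K : ℕ} (h : Fin K → ℕ) : Prop :=
  Function.Injective h ∧ ∀ p : ℕ, p.Prime → ∃ a : ℕ, ∀ i, ¬ p ∣ a + h i

/-- TUPC: survivors of a sieve form an admissible tuple -/
def S_TUPC : Prop := ∀ (K Δ : ℕ) (cls : ℕ → ℕ),
  K ≤ Set.ncard {x : ℕ | x ≤ Δ ∧ ∀ p : ℕ, p.Prime → p ≤ K → x % p ≠ cls p % p} →
  ∃ h : Fin K → ℕ, Adm3 h ∧ ∀ i, h i ≤ Δ

/-- union of the removed classes as a bit mask -/
def tmask (Δ : ℕ) : List (ℕ × ℕ) → ℕ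
  | [] => 0
  | (p, a) :: L => ((rep p ((Δ - a) / p + 1)) <<< a) ||| tmask Δ L

/-- the set of primes of the list as a bit mask -/
def pmask : List (ℕ × ℕ) → ℕ
  | [] => 0
  | (p, _) :: L => (1 <<< p) ||| pmask L

/-- number of zero bits among the first `2^d` bits -/
def cntz : ℕ → ℕ → ℕ
  | 0, X => 1 - X % 2
  | d + 1, X => cntz d (X % (1 <<< (2 ^ d))) + cntz d (X >>> (2 ^ d))

/-- every prime in `[lo, lo + 2^d)`, at most `K`, is a bit of `pm` -/
def cov (K r pm : ℕ) : ℕ → ℕ → Bool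
  | 0, n => Nat.blt n 2 || (Nat.blt K n || (Nat.testBit pm n || (Nat.blt r n && !(Nat.beq (Nat.gcd n r.factorial) 1))))
  | d + 1, n => cov K r pm d n && cov K r pm d (n + 2 ^ d)

/-- the list check: all moduli positive and all classes reduced -/
def lok : List (ℕ × ℕ) → Bool
  | [] => true
  | (p, a) :: L => Nat.blt a p && lok L

/-- the tuple check -/
def chkT (K Δ r d d' : ℕ) (L : List (ℕ × ℕ)) : Bool :=
  lok L && (Nat.blt K (2 ^ d') && (Nat.blt Δ (2 ^ d) && (cov K r (pmask L) d' 0 &&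
    Nat.ble K (cntz d (tmask Δ L ||| (((1 <<< (2 ^ d - (Δ + 1))) - 1) <<< (Δ + 1)))))))

/-- TUPK: soundness of the tuple check -/
def S_TUPK : Prop := ∀ (K Δ r d d' : ℕ) (L : List (ℕ × ℕ)), chkT K Δ r d d' L = true →
  ∃ h : Fin K → ℕ, Adm3 h ∧ ∀ i, h i ≤ Δ

end Pool.Agent.H358R5
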