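import Mathlib
import Pool.Agent.H358R5.Stubs3

open Finset

namespace Pool.Agent.H358R5

theorem CONVA_coeff (G : ℕ → ℕ) (n s : ℕ) :
    PowerSeries.coeff s ((PowerSeries.mk fun c => if c = 0 then 0 else G c ^ 2 : PowerSeries ℕ) ^ n) =
      AG G n s := by
  induction n generalizing s with
  | zero => rw [pow_zero, PowerSeries.coeff_one]; rfl
  | succ n ih =>
    rw [pow_succ', PowerSeries.coeff_mul,
      Finset.Nat.sum_antidiagonal_eq_sum_range_succ (fun i j =>
        PowerSeries.coeff i (PowerSeries.mk fun c => if c = 0 then 0 else G c ^ 2 : PowerSeries ℕ) *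
        PowerSeries.coeff j
          ((PowerSeries.mk fun c => if c = 0 then 0 else G c ^ 2 : PowerSeries ℕ) ^ n)) s,
      Finset.sum_range_succ']
    simp only [PowerSeries.coeff_mk, if_true, zero_mul, add_zero]
    show _ = ∑ c ∈ range s, G (c + 1) ^ 2 * AG G n (s - 1 - c)
    refine Finset.sum_congr rfl fun c _ => ?_
    rw [if_neg (Nat.succ_ne_zero c), ih]
    congr 2
    omega

theorem CONVA_proof : S_CONVA := by
  intro G n n' s
  rw [← CONVA_coeff, pow_add, PowerSeries.coeff_mul,
    Finset.Nat.sum_antidiagonal_eq_sum_range_succ (fun i j =>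
      PowerSeries.coeff i
        ((PowerSeries.mk fun c => if c = 0 then 0 else G c ^ 2 : PowerSeries ℕ) ^ n) *
      PowerSeries.coeff j
        ((PowerSeries.mk fun c => if c = 0 then 0 else G c ^ 2 : PowerSeries ℕ) ^ n')) s]
  unfold conv
  refine Finset.sum_congr rfl fun i _ => ?_
  rw [CONVA_coeff, CONVA_coeff]

end Pool.Agent.H358R5
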