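import Mathlib
import Pool.Agent.H358R5.Stubs

set_option autoImplicit false

/-! CROSS: comparison with the geometric sequence. -/

open Finset

namespace Pool.Agent.H358R5

theorem CROSS_proof : S_CROSS := by
  intro N R φ ω hφ hs hω0 hω
  set s := sφ N φ with hsd
  set q := s / (1 + s) with hq
  have hq0 : 0 < q := by rw [hq]; positivity
  have hq1 : q < 1 := by rw [hq, div_lt_one (by linarith)]; linarith
  have hanti : Antitone ω := antitone_nat_of_succ_le hω
  set M := max R N with hM
  have h1 : ∑ r ∈ range R, q ^ (r + 1) * ω (r + 1) ≤ ∑ r ∈ range M, q ^ (r + 1) * ω (r + 1) := by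
    refine sum_le_sum_of_subset_of_nonneg (range_mono (le_max_left _ _)) fun r _ _ => ?_
    exact mul_nonneg (pow_nonneg hq0.le _) (hω0 _)
  have h2 : ∀ f : ℕ → ℝ, ∑ r ∈ range N, φ (r + 1) * f (r + 1) =
      ∑ r ∈ range M, φ (r + 1) * f (r + 1) := by
    intro f
    refine sum_subset (range_mono (le_max_right _ _)) fun r _ hr => ?_
    rw [mem_range, not_lt] at hr
    rw [hφ.supp (r + 1) (by omega), zero_mul]
  have h3 : ∑ r ∈ range M, φ (r + 1) = s := by
    have := h2 (fun _ => 1)
    simp only [mul_one] at this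
    rw [← this]
    rfl
  have h4 : ∑ r ∈ range M, q ^ (r + 1) ≤ s := by
    have e1 : ∀ r, q ^ (r + 1) = q * q ^ r := fun r => by ring
    simp only [e1]
    rw [← mul_sum, geom_sum_eq hq1.ne]
    have e2 : (q ^ M - 1) / (q - 1) ≤ 1 / (1 - q) := by
      rw [show (q ^ M - 1) / (q - 1) = (1 - q ^ M) / (1 - q) by
        rw [← neg_sub 1 (q ^ M), ← neg_sub 1 q, neg_div_neg_eq]]
      have h5 : 0 < 1 - q := by linarith
      have h6 : 0 ≤ q ^ M := pow_nonneg hq0.le _
      gcongr
      linarith
    have e3 : q * (1 / (1 - q)) = s := by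
      rw [hq]
      field_simp
      ring
    calc q * ((q ^ M - 1) / (q - 1)) ≤ q * (1 / (1 - q)) :=
          mul_le_mul_of_nonneg_left e2 hq0.le
      _ = s := e3
  refine h1.trans ?_
  rw [h2 ω, ← sub_nonneg, ← sum_sub_distrib]
  by_cases hex : ∃ r, φ r < q ^ r
  · classical
    obtain ⟨r0, hr0, hmin⟩ : ∃ r0, φ r0 < q ^ r0 ∧ ∀ r < r0, q ^ r ≤ φ r :=
      ⟨Nat.find hex, Nat.find_spec hex, fun r hr => not_lt.mp (Nat.find_min hex hr)⟩
    obtain ⟨a, rfl⟩ : ∃ a, r0 = a + 1 := by
      rcases Nat.eq_zero_or_pos r0 with h | h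
      · subst h
        rw [hφ.zero, pow_zero] at hr0
        exact absurd hr0 (lt_irrefl _)
      · exact ⟨r0 - 1, by omega⟩
    have ha : q ^ a ≤ φ a := hmin a (Nat.lt_succ_self a)
    have hqa : 0 < q ^ a := pow_pos hq0 a
    have ha0 : 0 < φ a := lt_of_lt_of_le hqa ha
    have hstep : ∀ b, a ≤ b → φ (b + 1) ≤ q * φ b := by
      intro b hb
      have h5 := hφ.lc a b hb
      have h6 : φ (a + 1) * φ b ≤ φ a * (q * φ b) := by
        have h7 : φ (a + 1) ≤ q * φ a := by
          refine hr0.le.trans ?_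
          rw [pow_succ, mul_comm]
          exact mul_le_mul_of_nonneg_left ha hq0.le
        calc φ (a + 1) * φ b ≤ (q * φ a) * φ b := mul_le_mul_of_nonneg_right h7 (hφ.nonneg b)
          _ = φ a * (q * φ b) := by ring
      exact le_of_mul_le_mul_left (h5.trans h6) ha0
    have hle : ∀ b, a + 1 ≤ b → φ b ≤ q ^ b := by
      intro b hb
      induction b, hb using Nat.le_induction with
      | base => exact hr0.le
      | succ b hb ih =>
        refine (hstep b (by omega)).trans ?_
        rw [pow_succ, mul_comm]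
        exact mul_le_mul_of_nonneg_right ih hq0.le
    have h5 : ∀ r ∈ range M, (φ (r + 1) - q ^ (r + 1)) * ω (a + 1) ≤
        φ (r + 1) * ω (r + 1) - q ^ (r + 1) * ω (r + 1) := by
      intro r _
      rw [← sub_mul]
      rcases lt_or_ge r a with h | h
      · have h6 : 0 ≤ φ (r + 1) - q ^ (r + 1) := sub_nonneg.mpr (hmin (r + 1) (by omega))
        exact mul_le_mul_of_nonneg_left (hanti (by omega)) h6
      · have h6 : φ (r + 1) - q ^ (r + 1) ≤ 0 := sub_nonpos.mpr (hle (r + 1) (by omega))
        exact mul_le_mul_of_nonpos_left (hanti (by omega)) h6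
    refine le_trans ?_ (sum_le_sum h5)
    rw [← sum_mul, sum_sub_distrib, h3]
    exact mul_nonneg (sub_nonneg.mpr h4) (hω0 _)
  · push Not at hex
    refine sum_nonneg fun r _ => ?_
    rw [← sub_mul]
    exact mul_nonneg (sub_nonneg.mpr (hex _)) (hω0 _)

end Pool.Agent.H358R5
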