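import Pool.Agent.H358R5.DatP

/-! H358R5: the kernel check of the certificate for three primes, `K = 3560`. -/

namespace Pool.Agent.H358R5

set_option maxRecDepth 100000 in
theorem cert_check : chkP 112 DatP.bt DatP.up DatP.dn DatP.st DatP.ops 56 2 3560 = true := by
  decide +kernel

end Pool.Agent.H358R5
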