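import Pool.Agent.H358R5.Stubs4

/-! H358R5: certificate data. -/

namespace Pool.Agent.H358R5.DatP

def bt0 : BT := (.node (.node (.node (.node (.node (.leaf 1 43939394) (.leaf 1 42647059)) (.node (.leaf 1 41428571) (.leaf 1 40277778))) (.node (.node (.leaf 1 39189189) (.leaf 1 38157895)) (.node (.leaf 1 37179487) (.leaf 1 36250000)))) (.node (.node (.node (.leaf 1 35365854) (.leaf 1 34523810)) (.node (.leaf 1 33720930) (.leaf 1 32954545))) (.node (.node (.leaf 1 32222222) (.leaf 1 31521739)) (.node (.leaf 1 30851064) (.leaf 1 30208333))))) (.node (.node (.node (.node (.leaf 1 29591837) (.leaf 1 29000000)) (.node (.leaf 1 28431373) (.leaf 1 27884615))) (.node (.node (.leaf 1 27358491) (.leaf 1 26851852)) (.node (.leaf 1 26363636) (.leaf 1 25892857)))) (.node (.node (.node (.leaf 1 25438596) (.leaf 1 25000000)) (.node (.leaf 1 24576271) (.leaf 1 24166667))) (.node (.node (.leaf 1 23770492) (.leaf 1 23387097)) (.node (.leaf 1 23015873) (.leaf 1 22656250))))))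
def bt1 : BT := (.node (.node (.node (.node (.node (.leaf 1 22307692) (.leaf 1 21969697)) (.node (.leaf 1 21641791) (.leaf 1 21323529))) (.node (.node (.leaf 1 21014493) (.leaf 1 20714286)) (.node (.leaf 1 20422535) (.leaf 1 20138889)))) (.node (.node (.node (.leaf 1 19863014) (.leaf 1 19594595)) (.node (.leaf 1 19333333) (.leaf 1 19078947))) (.node (.node (.leaf 1 18831169) (.leaf 1 18589744)) (.node (.leaf 1 18354430) (.leaf 1 18125000))))) (.node (.node (.node (.node (.leaf 1 17901235) (.leaf 1 17682927)) (.node (.leaf 1 17469880) (.leaf 1 17261905))) (.node (.node (.leaf 1 17058824) (.leaf 1 16860465)) (.node (.leaf 1 16666667) (.leaf 1 16477273)))) (.node (.node (.node (.leaf 1 16292135) (.leaf 1 16111111)) (.node (.leaf 1 15934066) (.leaf 1 15760870))) (.node (.node (.leaf 1 15591398) (.leaf 1 15425532)) (.node (.leaf 1 15263158) (.leaf 1 15104167))))))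
def bt2 : BT := (.node (.node (.node (.node (.node (.leaf 1 14948454) (.leaf 1 14795918)) (.node (.leaf 1 14646465) (.leaf 2 14427861))) (.node (.node (.leaf 2 14146341) (.leaf 2 13875598)) (.node (.leaf 2 13615023) (.leaf 2 13364055)))) (.node (.node (.node (.leaf 2 13122172) (.leaf 2 12888889)) (.node (.leaf 2 12663755) (.leaf 2 12446352))) (.node (.node (.leaf 2 12236287) (.leaf 2 12033195)) (.node (.leaf 2 11836735) (.leaf 2 11646586))))) (.node (.node (.node (.node (.leaf 2 11462451) (.leaf 2 11284047)) (.node (.leaf 2 11111111) (.leaf 2 10943396))) (.node (.node (.leaf 2 10780669) (.leaf 2 10622711)) (.node (.leaf 2 10469314) (.leaf 2 10320285)))) (.node (.node (.node (.leaf 2 10175439) (.leaf 2 10034602)) (.node (.leaf 2 9897611) (.leaf 2 9764310))) (.node (.node (.leaf 3 9602649) (.leaf 3 9415584)) (.node (.leaf 3 9235669) (.leaf 3 9062500))))))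
def bt3 : BT := (.node (.node (.node (.node (.node (.leaf 3 8895706) (.leaf 3 8734940)) (.node (.leaf 3 8579882) (.leaf 3 8430233))) (.node (.node (.leaf 3 8285714) (.leaf 3 8146067)) (.node (.leaf 3 8011050) (.leaf 3 7880435)))) (.node (.node (.node (.leaf 3 7754011) (.leaf 3 7631579)) (.node (.leaf 3 7512953) (.leaf 3 7397959))) (.node (.node (.leaf 3 7286432) (.leaf 4 7160494)) (.node (.leaf 4 7021792) (.leaf 4 6888361))))) (.node (.node (.node (.node (.leaf 4 6759907) (.leaf 4 6636156)) (.node (.leaf 4 6516854) (.leaf 4 6401766))) (.node (.node (.leaf 4 6290672) (.leaf 4 6183369)) (.node (.leaf 4 6079665) (.leaf 4 5979381)))) (.node (.node (.node (.leaf 4 5882353) (.leaf 4 5788423)) (.node (.leaf 5 5686275) (.leaf 5 5576923))) (.node (.node (.leaf 5 5471698) (.leaf 5 5370370)) (.node (.leaf 5 5272727) (.leaf 5 5178571))))))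
def bt4 : BT := (.node (.node (.node (.node (.node (.leaf 5 5087719) (.leaf 5 5000000)) (.node (.leaf 5 4915254) (.leaf 5 4833333))) (.node (.node (.leaf 6 4746318) (.leaf 6 4654896)) (.node (.leaf 6 4566929) (.leaf 6 4482226)))) (.node (.node (.node (.leaf 6 4400607) (.leaf 6 4321908)) (.node (.leaf 6 4245974) (.leaf 6 4172662))) (.node (.node (.leaf 7 4096045) (.leaf 7 4016620)) (.node (.leaf 7 3940217) (.leaf 7 3866667))))) (.node (.node (.node (.node (.leaf 7 3795812) (.leaf 7 3727506)) (.node (.leaf 7 3661616) (.leaf 8 3593556))) (.node (.node (.leaf 8 3523694) (.leaf 8 3456496)) (.node (.leaf 8 3391813) (.leaf 8 3329506)))) (.node (.node (.node (.leaf 8 3269448) (.leaf 8 3211517)) (.node (.leaf 9 3152174) (.leaf 9 3091684))) (.node (.node (.leaf 9 3033473) (.leaf 9 2977413)) (.node (.leaf 9 2923387) (.leaf 10 2868447))))))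
def bt5 : BT := (.node (.node (.node (.node (.node (.leaf 10 2812803) (.leaf 10 2759277)) (.node (.leaf 10 2707750) (.leaf 10 2658112))) (.node (.node (.leaf 11 2607914) (.leaf 11 2557319)) (.node (.leaf 11 2508651) (.leaf 11 2461800)))) (.node (.node (.node (.leaf 11 2416667) (.leaf 12 2371218)) (.node (.leaf 12 2325581) (.leaf 12 2281668))) (.node (.node (.leaf 12 2239382) (.leaf 13 2196970)) (.node (.leaf 13 2154532) (.leaf 13 2113703))))) (.node (.node (.node (.node (.leaf 13 2074392) (.leaf 14 2035088)) (.node (.leaf 14 1995871) (.leaf 14 1958136))) (.node (.node (.leaf 14 1921803) (.leaf 15 1885566)) (.node (.leaf 15 1849490) (.leaf 15 1814768)))) (.node (.node (.node (.leaf 16 1780233) (.leaf 16 1745936)) (.node (.leaf 16 1712936) (.leaf 17 1680185))) (.node (.node (.leaf 17 1647727) (.leaf 17 1616499)) (.node (.leaf 18 1585566) (.leaf 18 1554960))))))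
def bt6 : BT := (.node (.node (.node (.node (.node (.leaf 18 1525513) (.leaf 19 1496388)) (.node (.leaf 19 1467611) (.leaf 19 1439921))) (.node (.node (.leaf 20 1412567) (.leaf 20 1385571)) (.node (.leaf 21 1358950) (.leaf 21 1332721)))) (.node (.node (.node (.leaf 21 1307484) (.leaf 22 1282618)) (.node (.leaf 22 1258134) (.leaf 23 1234043))) (.node (.node (.leaf 23 1210351) (.leaf 24 1187065)) (.node (.leaf 24 1164191) (.leaf 25 1141732))))) (.node (.node (.node (.node (.leaf 25 1119691) (.leaf 26 1098069)) (.node (.leaf 26 1076866) (.leaf 27 1056082))) (.node (.node (.leaf 27 1035714) (.leaf 28 1015762)) (.node (.leaf 28 996221) (.leaf 29 977089)))) (.node (.node (.node (.leaf 29 958361) (.leaf 30 940032)) (.node (.leaf 31 921805) (.leaf 31 903990))) (.node (.node (.leaf 32 886579) (.leaf 33 869305)) (.node (.leaf 33 852440) (.leaf 34 835976))))))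
def bt7 : BT := (.node (.node (.node (.node (.node (.leaf 35 819672) (.leaf 35 803769)) (.node (.leaf 36 788258) (.leaf 37 772921))) (.node (.node (.leaf 37 757972) (.leaf 38 743399)) (.node (.leaf 39 729010) (.leaf 40 714814)))) (.node (.node (.node (.leaf 40 700991) (.leaf 41 687530)) (.node (.leaf 42 674262) (.leaf 43 661195))) (.node (.node (.leaf 44 648334) (.leaf 45 635686)) (.node (.leaf 46 623254) (.leaf 47 611041))))) (.node (.node (.node (.node (.leaf 47 599174) (.leaf 48 587639)) (.node (.leaf 49 576312) (.leaf 50 565192))) (.node (.node (.leaf 51 554281) (.leaf 52 543580)) (.node (.leaf 53 533088) (.leaf 54 522805)))) (.node (.node (.node (.leaf 56 512639) (.leaf 57 502600)) (.node (.leaf 58 492778) (.leaf 59 483172))) (.node (.node (.leaf 60 473779) (.leaf 61 464595)) (.node (.leaf 63 455545) (.leaf 64 446635))))))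
def bt8 : BT := (.node (.node (.node (.node (.node (.leaf 65 437934) (.leaf 66 429439)) (.node (.leaf 68 421083) (.leaf 69 412870))) (.node (.node (.leaf 70 404858) (.leaf 72 396988)) (.node (.leaf 73 389262) (.leaf 75 381679)))) (.node (.node (.node (.leaf 76 374242) (.leaf 78 366949)) (.node (.leaf 79 359801) (.leaf 81 352798))) (.node (.node (.leaf 83 345897) (.leaf 84 339142)) (.node (.leaf 86 332531) (.leaf 88 326026))))) (.node (.node (.node (.node (.leaf 89 319665) (.leaf 91 313446)) (.node (.leaf 93 307334) (.leaf 95 301330))) (.node (.node (.leaf 97 295436) (.leaf 99 289652)) (.node (.leaf 101 283980) (.leaf 103 278418)))) (.node (.node (.node (.leaf 105 272967) (.leaf 107 267626)) (.node (.leaf 109 262396) (.leaf 111 257275))) (.node (.node (.leaf 113 252262) (.leaf 116 247335)) (.node (.leaf 118 242495) (.leaf 120 237763))))))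
def bt9 : BT := (.node (.node (.node (.node (.node (.leaf 123 233119) (.leaf 125 228562)) (.node (.leaf 128 224094) (.leaf 130 219714))) (.node (.node (.leaf 133 215421) (.leaf 135 211216)) (.node (.leaf 138 207098) (.leaf 141 203053)))) (.node (.node (.node (.leaf 144 199080) (.leaf 147 195181)) (.node (.leaf 150 191356) (.leaf 153 187605))) (.node (.node (.leaf 156 183928) (.leaf 159 180326)) (.node (.leaf 162 176797) (.leaf 165 173341))))) (.node (.node (.node (.node (.leaf 168 169958) (.leaf 172 166638)) (.node (.leaf 175 163380) (.leaf 179 160186))) (.node (.node (.leaf 182 157054) (.leaf 186 153985)) (.node (.leaf 190 150971) (.leaf 194 148012)))) (.node (.node (.node (.leaf 197 145116) (.leaf 201 142282)) (.node (.leaf 205 139504) (.leaf 209 136780))) (.node (.node (.leaf 214 134104) (.leaf 218 131478)) (.node (.leaf 222 128906) (.leaf 227 126384))))))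
def bt10 : BT := (.node (.node (.node (.node (.node (.leaf 231 123910) (.leaf 236 121486)) (.node (.leaf 241 119106) (.leaf 245 116775))) (.node (.node (.leaf 250 114493) (.leaf 255 112255)) (.node (.leaf 260 110061) (.leaf 266 107907)))) (.node (.node (.node (.leaf 271 105793) (.leaf 276 103723)) (.node (.leaf 282 101694) (.leaf 288 99701))) (.node (.node (.leaf 293 97748) (.leaf 299 95836)) (.node (.leaf 305 93961) (.leaf 311 92122))))) (.node (.node (.node (.node (.leaf 317 90320) (.leaf 324 88552)) (.node (.leaf 330 86819) (.leaf 337 85119))) (.node (.node (.leaf 344 83451) (.leaf 350 81817)) (.node (.leaf 357 80217) (.leaf 365 78646)))) (.node (.node (.node (.leaf 372 77105) (.leaf 379 75596)) (.node (.leaf 387 74116) (.leaf 395 72663))) (.node (.node (.leaf 403 71239) (.leaf 411 69842)) (.node (.leaf 419 68474) (.leaf 427 67133))))))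
def bt11 : BT := (.node (.node (.node (.node (.node (.leaf 436 65818) (.leaf 444 64529)) (.node (.leaf 453 63266) (.leaf 462 62028))) (.node (.node (.leaf 472 60813) (.leaf 481 59622)) (.node (.leaf 491 58454) (.leaf 501 57308)))) (.node (.node (.node (.leaf 511 56184) (.leaf 521 55083)) (.node (.leaf 531 54004) (.leaf 542 52946))) (.node (.node (.leaf 553 51908) (.leaf 564 50891)) (.node (.leaf 575 49893) (.leaf 587 48915))))) (.node (.node (.node (.node (.leaf 598 47957) (.leaf 610 47018)) (.node (.leaf 622 46097) (.leaf 635 45194))) (.node (.node (.leaf 648 44308) (.leaf 661 43439)) (.node (.leaf 674 42588) (.leaf 687 41753)))) (.node (.node (.node (.leaf 701 40935) (.leaf 715 40133)) (.node (.leaf 729 39347) (.leaf 744 38576))) (.node (.node (.leaf 759 37820) (.leaf 774 37078)) (.node (.leaf 789 36352) (.leaf 805 35640))))))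
def bt12 : BT := (.node (.node (.node (.node (.node (.leaf 821 34941) (.leaf 838 34257)) (.node (.leaf 854 33585) (.leaf 872 32927))) (.node (.node (.leaf 889 32282) (.leaf 907 31649)) (.node (.leaf 925 31029) (.leaf 943 30421)))) (.node (.node (.node (.leaf 962 29825) (.leaf 981 29240)) (.node (.leaf 1001 28667) (.leaf 1021 28106))) (.node (.node (.leaf 1042 27555) (.leaf 1062 27015)) (.node (.leaf 1084 26485) (.leaf 1105 25966))))) (.node (.node (.node (.node (.leaf 1127 25457) (.leaf 1150 24958)) (.node (.leaf 1173 24469) (.leaf 1196 23990))) (.node (.node (.leaf 1220 23520) (.leaf 1245 23059)) (.node (.leaf 1270 22607) (.leaf 1295 22163)))) (.node (.node (.node (.leaf 1321 21729) (.leaf 1347 21303)) (.node (.leaf 1374 20886) (.leaf 1402 20476))) (.node (.node (.leaf 1430 20075) (.leaf 1458 19681)) (.node (.leaf 1488 19296) (.leaf 1517 18917))))))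
def bt13 : BT := (.node (.node (.node (.node (.node (.leaf 1548 18547) (.leaf 1579 18183)) (.node (.leaf 1610 17827) (.leaf 1642 17477))) (.node (.node (.leaf 1675 17135) (.leaf 1709 16799)) (.node (.leaf 1743 16469) (.leaf 1778 16147)))) (.node (.node (.node (.leaf 1813 15830) (.leaf 1850 15520)) (.node (.leaf 1887 15215) (.leaf 1924 14917))) (.node (.node (.leaf 1963 14625) (.leaf 2002 14338)) (.node (.leaf 2042 14057) (.leaf 2083 13781))))) (.node (.node (.node (.node (.leaf 2125 13511) (.leaf 2167 13246)) (.node (.leaf 2210 12987) (.leaf 2255 12732))) (.node (.node (.leaf 2300 12483) (.leaf 2346 12238)) (.node (.leaf 2393 11998) (.leaf 2441 11763)))) (.node (.node (.node (.leaf 2489 11532) (.leaf 2539 11306)) (.node (.leaf 2590 11084) (.leaf 2642 10867))) (.node (.node (.leaf 2695 10654) (.leaf 2748 10445)) (.node (.leaf 2803 10240) (.leaf 2859 10040))))))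
def bt14 : BT := (.node (.node (.node (.node (.node (.leaf 2917 9843) (.leaf 2975 9650)) (.node (.leaf 3035 9461) (.leaf 3095 9275))) (.node (.node (.leaf 3157 9093) (.leaf 3220 8915)) (.node (.leaf 3285 8740) (.leaf 3350 8569)))) (.node (.node (.node (.leaf 3417 8401) (.leaf 3486 8236)) (.node (.leaf 3555 8075) (.leaf 3627 7916))) (.node (.node (.leaf 3699 7761) (.leaf 3773 7609)) (.node (.leaf 3848 7460) (.leaf 3925 7314))))) (.node (.node (.node (.node (.leaf 4004 7170) (.leaf 4084 7030)) (.node (.leaf 4166 6892) (.leaf 4249 6757))) (.node (.node (.leaf 4334 6624) (.leaf 4421 6494)) (.node (.leaf 4509 6367) (.leaf 4599 6242)))) (.node (.node (.node (.leaf 4691 6120) (.leaf 4785 6000)) (.node (.leaf 4881 5882) (.leaf 4978 5767))) (.node (.node (.leaf 5078 5654) (.leaf 5180 5543)) (.node (.leaf 5283 5434) (.leaf 5389 5328))))))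
def bt15 : BT := (.node (.node (.node (.node (.node (.leaf 5497 5223) (.leaf 5607 5121)) (.node (.leaf 5719 5020) (.leaf 5833 4922))) (.node (.node (.leaf 5950 4826) (.leaf 6069 4731)) (.node (.leaf 6190 4638) (.leaf 6314 4547)))) (.node (.node (.node (.leaf 6440 4458) (.leaf 6569 4371)) (.node (.leaf 6700 4285) (.leaf 6834 4201))) (.node (.node (.leaf 6971 4119) (.leaf 7110 4038)) (.node (.leaf 7253 3959) (.leaf 7398 3881))))) (.node (.node (.node (.node (.leaf 7546 3805) (.leaf 7697 3730)) (.node (.leaf 7851 3657) (.leaf 8008 3586))) (.node (.node (.leaf 8168 3515) (.leaf 8331 3446)) (.node (.leaf 8498 3379) (.leaf 8668 3312)))) (.node (.node (.node (.leaf 8841 3248) (.leaf 9018 3184)) (.node (.leaf 9198 3121) (.leaf 9382 3060))) (.node (.node (.leaf 9570 3000) (.leaf 9761 2941)) (.node (.leaf 9956 2884) (.leaf 10156 2827))))))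
def bt16 : BT := (.node (.node (.node (.node (.node (.leaf 10359 2772) (.leaf 10566 2717)) (.node (.leaf 10777 2664) (.leaf 10993 2612))) (.node (.node (.leaf 11213 2561) (.leaf 11437 2510)) (.node (.leaf 11666 2461) (.leaf 11899 2413)))) (.node (.node (.node (.leaf 12137 2366) (.leaf 12380 2319)) (.node (.leaf 12627 2274) (.leaf 12880 2229))) (.node (.node (.leaf 13137 2186) (.leaf 13400 2143)) (.leaf 13668 2101)))) (.node (.node (.node (.node (.leaf 13941 2059) (.leaf 14220 2019)) (.node (.leaf 14505 1980) (.leaf 14795 1941))) (.node (.node (.leaf 15091 1903) (.leaf 15392 1865)) (.node (.leaf 15700 1829) (.leaf 16014 1793)))) (.node (.node (.node (.leaf 16335 1758) (.leaf 16661 1723)) (.node (.leaf 16994 1689) (.leaf 17334 1656))) (.node (.node (.leaf 17681 1624) (.leaf 18035 1592)) (.leaf 16662 1562)))))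
def bt : BT := (.node (.node (.node (.node (.node bt0 bt1) bt2) (.node bt3 bt4)) (.node (.node bt5 bt6) (.node bt7 bt8))) (.node (.node (.node bt9 bt10) (.node bt11 bt12)) (.node (.node bt13 bt14) (.node bt15 bt16))))

def st0 : ST := (.node (.node (.node (.node (.node (.leaf 1446) (.leaf 2796)) (.node (.leaf 2788) (.leaf 2779))) (.node (.node (.leaf 2771) (.leaf 2763)) (.node (.leaf 2754) (.leaf 2746)))) (.node (.node (.node (.leaf 2738) (.leaf 2730)) (.node (.leaf 2722) (.leaf 2714))) (.node (.node (.leaf 2705) (.leaf 2697)) (.node (.leaf 2689) (.leaf 2681))))) (.node (.node (.node (.node (.leaf 2673) (.leaf 2665)) (.node (.leaf 2657) (.leaf 2649))) (.node (.node (.leaf 2641) (.leaf 2633)) (.node (.leaf 2626) (.leaf 2618)))) (.node (.node (.node (.leaf 2610) (.leaf 2602)) (.node (.leaf 2594) (.leaf 2587))) (.node (.node (.leaf 2579) (.leaf 2571)) (.node (.leaf 2563) (.leaf 2556))))))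
def st1 : ST := (.node (.node (.node (.node (.node (.leaf 2548) (.leaf 2540)) (.node (.leaf 2533) (.leaf 2525))) (.node (.node (.leaf 2518) (.leaf 2510)) (.node (.leaf 2503) (.leaf 2495)))) (.node (.node (.node (.leaf 2488) (.leaf 2480)) (.node (.leaf 2473) (.leaf 2466))) (.node (.node (.leaf 2458) (.leaf 2451)) (.node (.leaf 2443) (.leaf 2436))))) (.node (.node (.node (.node (.leaf 2429) (.leaf 2422)) (.node (.leaf 2414) (.leaf 2407))) (.node (.node (.leaf 2400) (.leaf 2393)) (.node (.leaf 2386) (.leaf 2378)))) (.node (.node (.node (.leaf 2371) (.leaf 2364)) (.node (.leaf 2357) (.leaf 2350))) (.node (.node (.leaf 2343) (.leaf 2336)) (.node (.leaf 2329) (.leaf 2322))))))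
def st2 : ST := (.node (.node (.node (.node (.node (.leaf 2315) (.leaf 2308)) (.node (.leaf 2301) (.leaf 2294))) (.node (.node (.leaf 2288) (.leaf 2281)) (.node (.leaf 2274) (.leaf 2267)))) (.node (.node (.node (.leaf 2260) (.leaf 2254)) (.node (.leaf 2247) (.leaf 2240))) (.node (.node (.leaf 2233) (.leaf 2227)) (.node (.leaf 2220) (.leaf 2213))))) (.node (.node (.node (.node (.leaf 2207) (.leaf 2200)) (.node (.leaf 2194) (.leaf 2187))) (.node (.node (.leaf 2181) (.leaf 2174)) (.node (.leaf 2168) (.leaf 2161)))) (.node (.node (.node (.leaf 2155) (.leaf 2148)) (.node (.leaf 2142) (.leaf 2135))) (.node (.node (.leaf 2129) (.leaf 2123)) (.node (.leaf 2116) (.leaf 2110))))))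
def st3 : ST := (.node (.node (.node (.node (.node (.leaf 2104) (.leaf 2097)) (.node (.leaf 2091) (.leaf 2085))) (.node (.node (.leaf 2079) (.leaf 2072)) (.node (.leaf 2066) (.leaf 2060)))) (.node (.node (.node (.leaf 2054) (.leaf 2048)) (.node (.leaf 2041) (.leaf 2035))) (.node (.node (.leaf 2029) (.leaf 2023)) (.node (.leaf 2017) (.leaf 2011))))) (.node (.node (.node (.node (.leaf 2005) (.leaf 1999)) (.node (.leaf 1993) (.leaf 1987))) (.node (.node (.leaf 1981) (.leaf 1975)) (.node (.leaf 1969) (.leaf 1964)))) (.node (.node (.node (.leaf 1958) (.leaf 1952)) (.node (.leaf 1946) (.leaf 1940))) (.node (.node (.leaf 1934) (.leaf 1929)) (.node (.leaf 1923) (.leaf 1917))))))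
def st4 : ST := (.node (.node (.node (.node (.node (.leaf 1911) (.leaf 1906)) (.node (.leaf 1900) (.leaf 1894))) (.node (.node (.leaf 1889) (.leaf 1883)) (.node (.leaf 1877) (.leaf 1872)))) (.node (.node (.node (.leaf 1866) (.leaf 1860)) (.node (.leaf 1855) (.leaf 1849))) (.node (.node (.leaf 1844) (.leaf 1838)) (.node (.leaf 1833) (.leaf 1827))))) (.node (.node (.node (.node (.leaf 1822) (.leaf 1816)) (.node (.leaf 1811) (.leaf 1806))) (.node (.node (.leaf 1800) (.leaf 1795)) (.node (.leaf 1789) (.leaf 1784)))) (.node (.node (.node (.leaf 1779) (.leaf 1773)) (.node (.leaf 1768) (.leaf 1763))) (.node (.node (.leaf 1758) (.leaf 1752)) (.node (.leaf 1747) (.leaf 1742))))))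
def st5 : ST := (.node (.node (.node (.node (.node (.leaf 1737) (.leaf 1731)) (.node (.leaf 1726) (.leaf 1721))) (.node (.node (.leaf 1716) (.leaf 1711)) (.node (.leaf 1706) (.leaf 1701)))) (.node (.node (.node (.leaf 1695) (.leaf 1690)) (.node (.leaf 1685) (.leaf 1680))) (.node (.node (.leaf 1675) (.leaf 1670)) (.node (.leaf 1665) (.leaf 1660))))) (.node (.node (.node (.node (.leaf 1655) (.leaf 1650)) (.node (.leaf 1645) (.leaf 1641))) (.node (.node (.leaf 1636) (.leaf 1631)) (.node (.leaf 1626) (.leaf 1621)))) (.node (.node (.node (.leaf 1616) (.leaf 1611)) (.node (.leaf 1606) (.leaf 1602))) (.node (.node (.leaf 1597) (.leaf 1592)) (.node (.leaf 1587) (.leaf 1583))))))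
def st6 : ST := (.node (.node (.node (.node (.node (.leaf 1578) (.leaf 1573)) (.node (.leaf 1568) (.leaf 1564))) (.node (.node (.leaf 1559) (.leaf 1554)) (.node (.leaf 1550) (.leaf 1545)))) (.node (.node (.node (.leaf 1541) (.leaf 1536)) (.node (.leaf 1531) (.leaf 1527))) (.node (.node (.leaf 1522) (.leaf 1518)) (.node (.leaf 1513) (.leaf 1509))))) (.node (.node (.node (.node (.leaf 1504) (.leaf 1500)) (.node (.leaf 1495) (.leaf 1491))) (.node (.node (.leaf 1486) (.leaf 1482)) (.node (.leaf 1477) (.leaf 1473)))) (.node (.node (.node (.leaf 1468) (.leaf 1464)) (.node (.leaf 1460) (.leaf 1455))) (.node (.node (.leaf 1451) (.leaf 1447)) (.node (.leaf 1442) (.leaf 1438))))))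
def st7 : ST := (.node (.node (.node (.node (.node (.leaf 1434) (.leaf 1429)) (.node (.leaf 1425) (.leaf 1421))) (.node (.node (.leaf 1417) (.leaf 1412)) (.node (.leaf 1408) (.leaf 1404)))) (.node (.node (.node (.leaf 1400) (.leaf 1395)) (.node (.leaf 1391) (.leaf 1387))) (.node (.node (.leaf 1383) (.leaf 1379)) (.node (.leaf 1375) (.leaf 1371))))) (.node (.node (.node (.node (.leaf 1367) (.leaf 51)) (.node (.leaf 1362) (.leaf 1358))) (.node (.node (.leaf 1354) (.leaf 1350)) (.node (.leaf 1346) (.leaf 1342)))) (.node (.node (.node (.leaf 1338) (.leaf 1334)) (.node (.leaf 1330) (.leaf 1326))) (.node (.node (.leaf 1322) (.leaf 1318)) (.node (.leaf 1314) (.leaf 1310))))))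
def st8 : ST := (.node (.node (.node (.node (.node (.leaf 1306) (.leaf 1302)) (.node (.leaf 1299) (.leaf 1295))) (.node (.node (.leaf 1291) (.leaf 1287)) (.node (.leaf 1283) (.leaf 1279)))) (.node (.node (.node (.leaf 1275) (.leaf 1272)) (.node (.leaf 1268) (.leaf 1264))) (.node (.node (.leaf 302) (.leaf 1259)) (.node (.leaf 1256) (.leaf 1252))))) (.node (.node (.node (.node (.leaf 1248) (.leaf 1244)) (.node (.leaf 1241) (.leaf 1237))) (.node (.node (.leaf 1233) (.leaf 1230)) (.node (.leaf 1226) (.leaf 1222)))) (.node (.node (.node (.leaf 1219) (.leaf 1215)) (.node (.leaf 1211) (.leaf 1208))) (.node (.node (.leaf 1204) (.leaf 1200)) (.node (.leaf 1197) (.leaf 1193))))))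
def st9 : ST := (.node (.node (.node (.node (.node (.leaf 1190) (.leaf 1186)) (.node (.leaf 1183) (.leaf 1179))) (.node (.node (.leaf 1175) (.leaf 1172)) (.node (.leaf 1168) (.leaf 1165)))) (.node (.node (.node (.leaf 1161) (.leaf 986)) (.node (.leaf 1155) (.leaf 1152))) (.node (.node (.leaf 1148) (.leaf 1145)) (.node (.leaf 1141) (.leaf 1138))))) (.node (.node (.node (.node (.leaf 1134) (.leaf 1131)) (.node (.leaf 1128) (.leaf 1124))) (.node (.node (.leaf 1121) (.leaf 1118)) (.node (.leaf 1114) (.leaf 1111)))) (.node (.node (.node (.leaf 1108) (.leaf 1104)) (.node (.leaf 1101) (.leaf 1098))) (.node (.node (.leaf 1094) (.leaf 1091)) (.node (.leaf 1088) (.leaf 1085))))))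
def st10 : ST := (.node (.node (.node (.node (.node (.leaf 1081) (.leaf 1078)) (.node (.leaf 1075) (.leaf 1072))) (.node (.node (.leaf 1069) (.leaf 1065)) (.node (.leaf 1062) (.leaf 1059)))) (.node (.node (.node (.leaf 91) (.leaf 1056)) (.node (.leaf 1052) (.leaf 1049))) (.node (.node (.leaf 1046) (.leaf 1043)) (.node (.leaf 1040) (.leaf 1037))))) (.node (.node (.node (.node (.leaf 1034) (.leaf 1031)) (.node (.leaf 1027) (.leaf 1024))) (.node (.node (.leaf 1021) (.leaf 1018)) (.node (.leaf 1015) (.leaf 1012)))) (.node (.node (.node (.leaf 1009) (.leaf 1006)) (.node (.leaf 1003) (.leaf 1000))) (.node (.node (.leaf 997) (.leaf 994)) (.node (.leaf 991) (.leaf 988))))))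
def st11 : ST := (.node (.node (.node (.node (.node (.leaf 985) (.leaf 982)) (.node (.leaf 979) (.leaf 976))) (.node (.node (.leaf 974) (.leaf 646)) (.node (.leaf 969) (.leaf 966)))) (.node (.node (.node (.leaf 963) (.leaf 960)) (.node (.leaf 957) (.leaf 954))) (.node (.node (.leaf 951) (.leaf 949)) (.node (.leaf 946) (.leaf 943))))) (.node (.node (.node (.node (.leaf 940) (.leaf 937)) (.node (.leaf 934) (.leaf 932))) (.node (.node (.leaf 929) (.leaf 926)) (.node (.leaf 923) (.leaf 921)))) (.node (.node (.node (.leaf 918) (.leaf 915)) (.node (.leaf 912) (.leaf 910))) (.node (.node (.leaf 907) (.leaf 904)) (.node (.leaf 901) (.leaf 899))))))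
def st12 : ST := (.node (.node (.node (.node (.node (.leaf 896) (.leaf 893)) (.node (.leaf 891) (.leaf 888))) (.node (.node (.leaf 680) (.leaf 883)) (.node (.leaf 881) (.leaf 878)))) (.node (.node (.node (.leaf 875) (.leaf 873)) (.node (.leaf 870) (.leaf 868))) (.node (.node (.leaf 865) (.leaf 862)) (.node (.leaf 860) (.leaf 857))))) (.node (.node (.node (.node (.leaf 855) (.leaf 852)) (.node (.leaf 850) (.leaf 847))) (.node (.node (.leaf 845) (.leaf 842)) (.node (.leaf 840) (.leaf 837)))) (.node (.node (.node (.leaf 835) (.leaf 832)) (.node (.leaf 830) (.leaf 827))) (.node (.node (.leaf 825) (.leaf 822)) (.node (.leaf 820) (.leaf 817))))))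
def st13 : ST := (.node (.node (.node (.node (.node (.leaf 815) (.leaf 812)) (.node (.leaf 810) (.leaf 807))) (.node (.node (.leaf 805) (.leaf 803)) (.node (.leaf 460) (.leaf 799)))) (.node (.node (.node (.leaf 796) (.leaf 794)) (.node (.leaf 792) (.leaf 789))) (.node (.node (.leaf 787) (.leaf 785)) (.node (.leaf 782) (.leaf 780))))) (.node (.node (.node (.node (.leaf 778) (.leaf 775)) (.node (.leaf 773) (.leaf 771))) (.node (.node (.leaf 768) (.leaf 766)) (.node (.leaf 764) (.leaf 761)))) (.node (.node (.node (.leaf 759) (.leaf 757)) (.node (.leaf 755) (.leaf 752))) (.node (.node (.leaf 750) (.leaf 748)) (.node (.leaf 746) (.leaf 743))))))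
def st14 : ST := (.node (.node (.node (.node (.node (.leaf 741) (.leaf 739)) (.node (.leaf 737) (.leaf 735))) (.node (.node (.leaf 732) (.leaf 730)) (.node (.leaf 728) (.leaf 726)))) (.node (.node (.node (.leaf 724) (.leaf 722)) (.node (.leaf 719) (.leaf 717))) (.node (.node (.leaf 246) (.leaf 714)) (.node (.leaf 712) (.leaf 710))))) (.node (.node (.node (.node (.leaf 708) (.leaf 706)) (.node (.leaf 704) (.leaf 702))) (.node (.node (.leaf 699) (.leaf 697)) (.node (.leaf 695) (.leaf 693)))) (.node (.node (.node (.leaf 691) (.leaf 689)) (.node (.leaf 687) (.leaf 685))) (.node (.node (.leaf 683) (.leaf 681)) (.node (.leaf 679) (.leaf 677))))))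
def st15 : ST := (.node (.node (.node (.node (.node (.leaf 675) (.leaf 673)) (.node (.leaf 671) (.leaf 669))) (.node (.node (.leaf 667) (.leaf 665)) (.node (.leaf 663) (.leaf 661)))) (.node (.node (.node (.leaf 659) (.leaf 657)) (.node (.leaf 655) (.leaf 653))) (.node (.node (.leaf 651) (.leaf 649)) (.node (.leaf 647) (.leaf 645))))) (.node (.node (.node (.node (.leaf 643) (.leaf 641)) (.node (.leaf 639) (.leaf 637))) (.node (.node (.leaf 636) (.leaf 634)) (.node (.leaf 632) (.leaf 319)))) (.node (.node (.node (.leaf 629) (.leaf 627)) (.node (.leaf 625) (.leaf 623))) (.node (.node (.leaf 621) (.leaf 620)) (.node (.leaf 618) (.leaf 616))))))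
def st16 : ST := (.node (.node (.node (.node (.node (.leaf 614) (.leaf 612)) (.node (.leaf 610) (.leaf 609))) (.node (.node (.leaf 607) (.leaf 605)) (.node (.leaf 603) (.leaf 601)))) (.node (.node (.node (.leaf 599) (.leaf 598)) (.node (.leaf 596) (.leaf 594))) (.node (.node (.leaf 592) (.leaf 591)) (.node (.leaf 589) (.leaf 587))))) (.node (.node (.node (.node (.leaf 585) (.leaf 584)) (.node (.leaf 582) (.leaf 580))) (.node (.node (.leaf 578) (.leaf 577)) (.node (.leaf 575) (.leaf 573)))) (.node (.node (.node (.leaf 571) (.leaf 570)) (.node (.leaf 568) (.leaf 566))) (.node (.node (.leaf 565) (.leaf 563)) (.node (.leaf 561) (.leaf 560))))))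
def st17 : ST := (.node (.node (.node (.node (.node (.leaf 558) (.leaf 556)) (.node (.leaf 555) (.leaf 553))) (.node (.node (.leaf 551) (.leaf 550)) (.node (.leaf 548) (.leaf 546)))) (.node (.node (.node (.leaf 422) (.leaf 543)) (.node (.leaf 542) (.leaf 540))) (.node (.node (.leaf 539) (.leaf 537)) (.node (.leaf 535) (.leaf 534))))) (.node (.node (.node (.node (.leaf 532) (.leaf 531)) (.node (.leaf 529) (.leaf 527))) (.node (.node (.leaf 526) (.leaf 524)) (.node (.leaf 523) (.leaf 521)))) (.node (.node (.node (.leaf 520) (.leaf 518)) (.node (.leaf 516) (.leaf 515))) (.node (.node (.leaf 513) (.leaf 512)) (.node (.leaf 510) (.leaf 509))))))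
def st18 : ST := (.node (.node (.node (.node (.node (.leaf 507) (.leaf 506)) (.node (.leaf 504) (.leaf 503))) (.node (.node (.leaf 501) (.leaf 500)) (.node (.leaf 498) (.leaf 497)))) (.node (.node (.node (.leaf 495) (.leaf 494)) (.node (.leaf 492) (.leaf 491))) (.node (.node (.leaf 489) (.leaf 488)) (.node (.leaf 486) (.leaf 485))))) (.node (.node (.node (.node (.leaf 484) (.leaf 482)) (.node (.leaf 481) (.leaf 479))) (.node (.node (.leaf 478) (.leaf 476)) (.node (.leaf 475) (.leaf 473)))) (.node (.node (.node (.leaf 472) (.leaf 471)) (.node (.leaf 469) (.leaf 468))) (.node (.node (.leaf 466) (.leaf 465)) (.node (.leaf 464) (.leaf 462))))))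
def st19 : ST := (.node (.node (.node (.node (.node (.leaf 461) (.leaf 207)) (.node (.leaf 459) (.leaf 458))) (.node (.node (.leaf 456) (.leaf 455)) (.node (.leaf 453) (.leaf 452)))) (.node (.node (.node (.leaf 451) (.leaf 449)) (.node (.leaf 448) (.leaf 447))) (.node (.node (.leaf 445) (.leaf 444)) (.node (.leaf 443) (.leaf 441))))) (.node (.node (.node (.node (.leaf 440) (.leaf 439)) (.node (.leaf 437) (.leaf 436))) (.node (.node (.leaf 435) (.leaf 433)) (.node (.leaf 432) (.leaf 431)))) (.node (.node (.node (.leaf 430) (.leaf 428)) (.node (.leaf 427) (.leaf 426))) (.node (.node (.leaf 424) (.leaf 423)) (.node (.leaf 422) (.leaf 421))))))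
def st20 : ST := (.node (.node (.node (.node (.node (.leaf 419) (.leaf 418)) (.node (.leaf 417) (.leaf 416))) (.node (.node (.leaf 414) (.leaf 413)) (.node (.leaf 412) (.leaf 411)))) (.node (.node (.node (.leaf 410) (.leaf 408)) (.node (.leaf 407) (.leaf 406))) (.node (.node (.leaf 405) (.leaf 403)) (.node (.leaf 402) (.leaf 401))))) (.node (.node (.node (.node (.leaf 400) (.leaf 399)) (.node (.leaf 397) (.leaf 396))) (.node (.node (.leaf 395) (.leaf 394)) (.node (.leaf 393) (.leaf 392)))) (.node (.node (.node (.leaf 390) (.leaf 389)) (.node (.leaf 388) (.leaf 387))) (.node (.node (.leaf 386) (.leaf 385)) (.node (.leaf 383) (.leaf 382))))))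
def st21 : ST := (.node (.node (.node (.node (.node (.leaf 381) (.leaf 380)) (.node (.leaf 379) (.leaf 378))) (.node (.node (.leaf 377) (.leaf 375)) (.node (.leaf 283) (.leaf 373)))) (.node (.node (.node (.leaf 372) (.leaf 371)) (.node (.leaf 370) (.leaf 369))) (.node (.node (.leaf 368) (.leaf 367)) (.node (.leaf 366) (.leaf 365))))) (.node (.node (.node (.node (.leaf 364) (.leaf 362)) (.node (.leaf 361) (.leaf 360))) (.node (.node (.leaf 359) (.leaf 358)) (.node (.leaf 357) (.leaf 356)))) (.node (.node (.node (.leaf 355) (.leaf 354)) (.node (.leaf 353) (.leaf 352))) (.node (.node (.leaf 351) (.leaf 350)) (.node (.leaf 349) (.leaf 348))))))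
def st22 : ST := (.node (.node (.node (.node (.node (.leaf 347) (.leaf 345)) (.node (.leaf 344) (.leaf 343))) (.node (.node (.leaf 342) (.leaf 341)) (.node (.leaf 340) (.leaf 339)))) (.node (.node (.node (.leaf 338) (.leaf 337)) (.node (.leaf 336) (.leaf 335))) (.node (.node (.leaf 334) (.leaf 333)) (.node (.leaf 332) (.leaf 331))))) (.node (.node (.node (.node (.leaf 330) (.leaf 329)) (.node (.leaf 328) (.leaf 327))) (.node (.node (.leaf 326) (.leaf 325)) (.node (.leaf 324) (.leaf 323)))) (.node (.node (.node (.leaf 323) (.leaf 322)) (.node (.leaf 321) (.leaf 320))) (.node (.node (.leaf 319) (.leaf 318)) (.node (.leaf 317) (.leaf 316))))))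
def st23 : ST := (.node (.node (.node (.node (.node (.leaf 315) (.leaf 314)) (.node (.leaf 313) (.leaf 312))) (.node (.node (.leaf 311) (.leaf 310)) (.node (.leaf 309) (.leaf 308)))) (.node (.node (.node (.leaf 307) (.leaf 306)) (.node (.leaf 306) (.leaf 305))) (.node (.node (.leaf 304) (.leaf 303)) (.node (.leaf 302) (.leaf 301))))) (.node (.node (.node (.node (.leaf 300) (.leaf 299)) (.node (.leaf 298) (.leaf 297))) (.node (.node (.leaf 297) (.leaf 296)) (.node (.leaf 295) (.leaf 294)))) (.node (.node (.node (.leaf 293) (.leaf 292)) (.node (.leaf 291) (.leaf 290))) (.node (.node (.leaf 290) (.leaf 289)) (.node (.leaf 288) (.leaf 287))))))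
def st24 : ST := (.node (.node (.node (.node (.node (.leaf 286) (.leaf 285)) (.node (.leaf 284) (.leaf 284))) (.node (.node (.leaf 283) (.leaf 282)) (.node (.leaf 281) (.leaf 280)))) (.node (.node (.node (.leaf 279) (.leaf 278)) (.node (.leaf 278) (.leaf 277))) (.node (.node (.leaf 276) (.leaf 275)) (.node (.leaf 274) (.leaf 274))))) (.node (.node (.node (.node (.leaf 273) (.leaf 272)) (.node (.leaf 271) (.leaf 270))) (.node (.node (.leaf 269) (.leaf 269)) (.node (.leaf 268) (.leaf 267)))) (.node (.node (.node (.leaf 266) (.leaf 265)) (.node (.leaf 265) (.leaf 264))) (.node (.node (.leaf 263) (.leaf 262)) (.node (.leaf 261) (.leaf 261))))))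
def st25 : ST := (.node (.node (.node (.node (.node (.leaf 260) (.leaf 259)) (.node (.leaf 258) (.leaf 258))) (.node (.node (.leaf 257) (.leaf 256)) (.node (.leaf 255) (.leaf 255)))) (.node (.node (.node (.leaf 254) (.leaf 253)) (.node (.leaf 252) (.leaf 252))) (.node (.node (.leaf 251) (.leaf 250)) (.node (.leaf 249) (.leaf 249))))) (.node (.node (.node (.node (.leaf 248) (.leaf 247)) (.node (.leaf 246) (.leaf 246))) (.node (.node (.leaf 245) (.leaf 244)) (.node (.leaf 243) (.leaf 243)))) (.node (.node (.node (.leaf 242) (.leaf 241)) (.node (.leaf 240) (.leaf 240))) (.node (.node (.leaf 239) (.leaf 238)) (.node (.leaf 238) (.leaf 237))))))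
def st26 : ST := (.node (.node (.node (.node (.node (.leaf 236) (.leaf 235)) (.node (.leaf 235) (.leaf 234))) (.node (.node (.leaf 233) (.leaf 233)) (.node (.leaf 232) (.leaf 231)))) (.node (.node (.node (.leaf 231) (.leaf 230)) (.node (.leaf 229) (.leaf 229))) (.node (.node (.leaf 228) (.leaf 227)) (.node (.leaf 226) (.leaf 226))))) (.node (.node (.node (.node (.leaf 225) (.leaf 224)) (.node (.leaf 224) (.leaf 223))) (.node (.node (.leaf 222) (.leaf 222)) (.node (.leaf 221) (.leaf 220)))) (.node (.node (.node (.leaf 220) (.leaf 219)) (.node (.leaf 218) (.leaf 218))) (.node (.node (.leaf 217) (.leaf 217)) (.node (.leaf 216) (.leaf 215))))))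
def st27 : ST := (.node (.node (.node (.node (.node (.leaf 215) (.leaf 214)) (.node (.leaf 213) (.leaf 213))) (.node (.node (.leaf 212) (.leaf 211)) (.node (.leaf 211) (.leaf 210)))) (.node (.node (.node (.leaf 210) (.leaf 209)) (.node (.leaf 208) (.leaf 208))) (.node (.node (.leaf 207) (.leaf 206)) (.node (.leaf 206) (.leaf 205))))) (.node (.node (.node (.node (.leaf 205) (.leaf 204)) (.node (.leaf 203) (.leaf 203))) (.node (.node (.leaf 202) (.leaf 201)) (.node (.leaf 201) (.leaf 200)))) (.node (.node (.node (.leaf 200) (.leaf 199)) (.node (.leaf 199) (.leaf 198))) (.node (.node (.leaf 197) (.leaf 197)) (.node (.leaf 196) (.leaf 196))))))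
def st28 : ST := (.node (.node (.node (.node (.node (.leaf 195) (.leaf 194)) (.node (.leaf 194) (.leaf 193))) (.node (.node (.leaf 193) (.leaf 192)) (.node (.leaf 191) (.leaf 191)))) (.node (.node (.node (.leaf 190) (.leaf 190)) (.node (.leaf 189) (.leaf 189))) (.node (.node (.leaf 188) (.leaf 188)) (.node (.leaf 187) (.leaf 186))))) (.node (.node (.node (.node (.leaf 186) (.leaf 185)) (.node (.leaf 185) (.leaf 184))) (.node (.node (.leaf 184) (.leaf 183)) (.node (.leaf 183) (.leaf 182)))) (.node (.node (.node (.leaf 181) (.leaf 181)) (.node (.leaf 180) (.leaf 180))) (.node (.node (.leaf 179) (.leaf 179)) (.node (.leaf 178) (.leaf 178))))))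
def st29 : ST := (.node (.node (.node (.node (.node (.leaf 177) (.leaf 177)) (.node (.leaf 176) (.leaf 176))) (.node (.node (.leaf 175) (.leaf 175)) (.node (.leaf 174) (.leaf 173)))) (.node (.node (.node (.leaf 173) (.leaf 172)) (.node (.leaf 172) (.leaf 171))) (.node (.node (.leaf 171) (.leaf 170)) (.node (.leaf 83) (.leaf 170))))) (.node (.node (.node (.node (.leaf 169) (.leaf 169)) (.node (.leaf 168) (.leaf 168))) (.node (.node (.leaf 167) (.leaf 167)) (.node (.leaf 166) (.leaf 166)))) (.node (.node (.node (.leaf 165) (.leaf 165)) (.node (.leaf 164) (.leaf 164))) (.node (.node (.leaf 163) (.leaf 163)) (.node (.leaf 162) (.leaf 162))))))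
def st30 : ST := (.node (.node (.node (.node (.node (.leaf 161) (.leaf 161)) (.node (.leaf 160) (.leaf 160))) (.node (.node (.leaf 159) (.leaf 159)) (.node (.leaf 158) (.leaf 158)))) (.node (.node (.node (.leaf 157) (.leaf 157)) (.node (.leaf 156) (.leaf 156))) (.node (.node (.leaf 156) (.leaf 155)) (.node (.leaf 155) (.leaf 154))))) (.node (.node (.node (.node (.leaf 154) (.leaf 153)) (.node (.leaf 153) (.leaf 152))) (.node (.node (.leaf 152) (.leaf 151)) (.node (.leaf 151) (.leaf 150)))) (.node (.node (.node (.leaf 150) (.leaf 150)) (.node (.leaf 149) (.leaf 149))) (.node (.node (.leaf 148) (.leaf 148)) (.node (.leaf 147) (.leaf 147))))))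
def st31 : ST := (.node (.node (.node (.node (.node (.leaf 146) (.leaf 146)) (.node (.leaf 146) (.leaf 145))) (.node (.node (.leaf 145) (.leaf 144)) (.node (.leaf 144) (.leaf 143)))) (.node (.node (.node (.leaf 143) (.leaf 143)) (.node (.leaf 142) (.leaf 142))) (.node (.node (.leaf 141) (.leaf 141)) (.node (.leaf 140) (.leaf 140))))) (.node (.node (.node (.node (.leaf 140) (.leaf 139)) (.node (.leaf 139) (.leaf 138))) (.node (.node (.leaf 138) (.leaf 138)) (.node (.leaf 137) (.leaf 137)))) (.node (.node (.node (.leaf 136) (.leaf 136)) (.node (.leaf 135) (.leaf 135))) (.node (.node (.leaf 135) (.leaf 134)) (.node (.leaf 134) (.leaf 133))))))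
def st32 : ST := (.node (.node (.node (.node (.node (.leaf 133) (.leaf 133)) (.node (.leaf 132) (.leaf 132))) (.node (.node (.leaf 131) (.leaf 131)) (.node (.leaf 131) (.leaf 130)))) (.node (.node (.node (.leaf 130) (.leaf 130)) (.node (.leaf 129) (.leaf 129))) (.node (.node (.leaf 128) (.leaf 128)) (.node (.leaf 128) (.leaf 127))))) (.node (.node (.node (.node (.leaf 127) (.leaf 126)) (.node (.leaf 126) (.leaf 126))) (.node (.node (.leaf 125) (.leaf 125)) (.node (.leaf 125) (.leaf 124)))) (.node (.node (.node (.leaf 124) (.leaf 123)) (.node (.leaf 123) (.leaf 123))) (.node (.node (.leaf 122) (.leaf 122)) (.node (.leaf 122) (.leaf 121))))))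
def st33 : ST := (.node (.node (.node (.node (.node (.leaf 121) (.leaf 121)) (.node (.leaf 120) (.leaf 120))) (.node (.node (.leaf 119) (.leaf 119)) (.node (.leaf 105) (.leaf 118)))) (.node (.node (.node (.leaf 118) (.leaf 118)) (.node (.leaf 117) (.leaf 117))) (.node (.node (.leaf 117) (.leaf 116)) (.node (.leaf 116) (.leaf 116))))) (.node (.node (.node (.node (.leaf 115) (.leaf 115)) (.node (.leaf 115) (.leaf 114))) (.node (.node (.leaf 114) (.leaf 114)) (.node (.leaf 113) (.leaf 113)))) (.node (.node (.node (.leaf 113) (.leaf 112)) (.node (.leaf 112) (.leaf 112))) (.node (.node (.leaf 111) (.leaf 111)) (.node (.leaf 111) (.leaf 110))))))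
def st34 : ST := (.node (.node (.node (.node (.node (.leaf 110) (.leaf 110)) (.node (.leaf 109) (.leaf 109))) (.node (.node (.leaf 109) (.leaf 108)) (.node (.leaf 108) (.leaf 108)))) (.node (.node (.node (.leaf 107) (.leaf 107)) (.node (.leaf 107) (.leaf 106))) (.node (.node (.leaf 106) (.leaf 106)) (.node (.leaf 105) (.leaf 105))))) (.node (.node (.node (.node (.leaf 105) (.leaf 104)) (.node (.leaf 104) (.leaf 104))) (.node (.node (.leaf 104) (.leaf 103)) (.node (.leaf 103) (.leaf 103)))) (.node (.node (.node (.leaf 102) (.leaf 102)) (.node (.leaf 102) (.leaf 101))) (.node (.node (.leaf 101) (.leaf 101)) (.node (.leaf 100) (.leaf 100))))))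
def st35 : ST := (.node (.node (.node (.node (.node (.leaf 100) (.leaf 100)) (.node (.leaf 99) (.leaf 99))) (.node (.node (.leaf 99) (.leaf 98)) (.node (.leaf 98) (.leaf 98)))) (.node (.node (.node (.leaf 97) (.leaf 97)) (.node (.leaf 97) (.leaf 97))) (.node (.node (.leaf 96) (.leaf 96)) (.node (.leaf 96) (.leaf 95))))) (.node (.node (.node (.node (.leaf 95) (.leaf 95)) (.node (.leaf 95) (.leaf 94))) (.node (.node (.leaf 94) (.leaf 94)) (.node (.leaf 93) (.leaf 93)))) (.node (.node (.node (.leaf 93) (.leaf 93)) (.node (.leaf 92) (.leaf 92))) (.node (.node (.leaf 92) (.leaf 92)) (.node (.leaf 91) (.leaf 91))))))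
def st36 : ST := (.node (.node (.node (.node (.node (.leaf 91) (.leaf 90)) (.node (.leaf 90) (.leaf 90))) (.node (.node (.leaf 90) (.leaf 89)) (.node (.leaf 89) (.leaf 89)))) (.node (.node (.node (.leaf 89) (.leaf 88)) (.node (.leaf 88) (.leaf 88))) (.node (.node (.leaf 88) (.leaf 87)) (.node (.leaf 87) (.leaf 87))))) (.node (.node (.node (.node (.leaf 86) (.leaf 86)) (.node (.leaf 86) (.leaf 86))) (.node (.node (.leaf 85) (.leaf 85)) (.node (.leaf 85) (.leaf 37)))) (.node (.node (.node (.leaf 85) (.leaf 84)) (.node (.leaf 84) (.leaf 84))) (.node (.node (.leaf 84) (.leaf 83)) (.node (.leaf 83) (.leaf 83))))))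
def st37 : ST := (.node (.node (.node (.node (.node (.leaf 83) (.leaf 82)) (.node (.leaf 82) (.leaf 82))) (.node (.node (.leaf 82) (.leaf 81)) (.node (.leaf 81) (.leaf 81)))) (.node (.node (.node (.leaf 81) (.leaf 80)) (.node (.leaf 80) (.leaf 80))) (.node (.node (.leaf 80) (.leaf 79)) (.node (.leaf 79) (.leaf 79))))) (.node (.node (.node (.node (.leaf 79) (.leaf 78)) (.node (.leaf 78) (.leaf 78))) (.node (.node (.leaf 78) (.leaf 78)) (.node (.leaf 77) (.leaf 77)))) (.node (.node (.node (.leaf 77) (.leaf 77)) (.node (.leaf 76) (.leaf 76))) (.node (.node (.leaf 76) (.leaf 76)) (.node (.leaf 75) (.leaf 75))))))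
def st38 : ST := (.node (.node (.node (.node (.node (.leaf 75) (.leaf 75)) (.node (.leaf 75) (.leaf 74))) (.node (.node (.leaf 74) (.leaf 74)) (.node (.leaf 74) (.leaf 73)))) (.node (.node (.node (.leaf 73) (.leaf 73)) (.node (.leaf 73) (.leaf 73))) (.node (.node (.leaf 72) (.leaf 72)) (.node (.leaf 72) (.leaf 72))))) (.node (.node (.node (.node (.leaf 72) (.leaf 71)) (.node (.leaf 71) (.leaf 71))) (.node (.node (.leaf 71) (.leaf 70)) (.node (.leaf 70) (.leaf 70)))) (.node (.node (.node (.leaf 70) (.leaf 70)) (.node (.leaf 69) (.leaf 69))) (.node (.node (.leaf 69) (.leaf 69)) (.node (.leaf 69) (.leaf 68))))))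
def st39 : ST := (.node (.node (.node (.node (.node (.leaf 68) (.leaf 68)) (.node (.leaf 68) (.leaf 68))) (.node (.node (.leaf 67) (.leaf 67)) (.node (.leaf 67) (.leaf 67)))) (.node (.node (.node (.leaf 67) (.leaf 66)) (.node (.leaf 66) (.leaf 66))) (.node (.node (.leaf 66) (.leaf 66)) (.node (.leaf 65) (.leaf 65))))) (.node (.node (.node (.node (.leaf 65) (.leaf 65)) (.node (.leaf 65) (.leaf 64))) (.node (.node (.leaf 64) (.leaf 64)) (.node (.leaf 64) (.leaf 64)))) (.node (.node (.node (.leaf 63) (.leaf 63)) (.node (.leaf 63) (.leaf 63))) (.node (.node (.leaf 63) (.leaf 62)) (.node (.leaf 62) (.leaf 62))))))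
def st40 : ST := (.node (.node (.node (.node (.node (.leaf 62) (.leaf 62)) (.node (.leaf 62) (.leaf 61))) (.node (.node (.leaf 61) (.leaf 61)) (.node (.leaf 44) (.leaf 61)))) (.node (.node (.node (.leaf 61) (.leaf 60)) (.node (.leaf 60) (.leaf 60))) (.node (.node (.leaf 60) (.leaf 60)) (.node (.leaf 59) (.leaf 59))))) (.node (.node (.node (.node (.leaf 59) (.leaf 59)) (.node (.leaf 59) (.leaf 59))) (.node (.node (.leaf 58) (.leaf 58)) (.node (.leaf 58) (.leaf 58)))) (.node (.node (.node (.leaf 58) (.leaf 58)) (.node (.leaf 57) (.leaf 57))) (.node (.node (.leaf 57) (.leaf 57)) (.node (.leaf 57) (.leaf 56))))))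
def st41 : ST := (.node (.node (.node (.node (.node (.leaf 56) (.leaf 56)) (.node (.leaf 56) (.leaf 56))) (.node (.node (.leaf 56) (.leaf 55)) (.node (.leaf 55) (.leaf 55)))) (.node (.node (.node (.leaf 55) (.leaf 55)) (.node (.leaf 55) (.leaf 54))) (.node (.node (.leaf 54) (.leaf 54)) (.node (.leaf 54) (.leaf 54))))) (.node (.node (.node (.node (.leaf 54) (.leaf 54)) (.node (.leaf 53) (.leaf 53))) (.node (.node (.leaf 53) (.leaf 53)) (.node (.leaf 53) (.leaf 53)))) (.node (.node (.node (.leaf 52) (.leaf 52)) (.node (.leaf 52) (.leaf 52))) (.node (.node (.leaf 52) (.leaf 52)) (.node (.leaf 51) (.leaf 51))))))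
def st42 : ST := (.node (.node (.node (.node (.node (.leaf 51) (.leaf 51)) (.node (.leaf 51) (.leaf 51))) (.node (.node (.leaf 51) (.leaf 50)) (.node (.leaf 50) (.leaf 50)))) (.node (.node (.node (.leaf 50) (.leaf 50)) (.node (.leaf 50) (.leaf 50))) (.node (.node (.leaf 49) (.leaf 49)) (.node (.leaf 49) (.leaf 49))))) (.node (.node (.node (.node (.leaf 49) (.leaf 49)) (.node (.leaf 48) (.leaf 48))) (.node (.node (.leaf 48) (.leaf 48)) (.node (.leaf 48) (.leaf 48)))) (.node (.node (.node (.leaf 48) (.leaf 47)) (.node (.leaf 47) (.leaf 47))) (.node (.node (.leaf 47) (.leaf 47)) (.node (.leaf 47) (.leaf 47))))))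
def st43 : ST := (.node (.node (.node (.node (.node (.leaf 46) (.leaf 46)) (.node (.leaf 46) (.leaf 46))) (.node (.node (.leaf 46) (.leaf 46)) (.node (.leaf 46) (.leaf 46)))) (.node (.node (.node (.leaf 45) (.leaf 45)) (.node (.leaf 45) (.leaf 45))) (.node (.node (.leaf 45) (.leaf 45)) (.node (.leaf 45) (.leaf 44))))) (.node (.node (.node (.node (.leaf 44) (.leaf 44)) (.node (.leaf 44) (.leaf 44))) (.node (.node (.leaf 21) (.leaf 44)) (.node (.leaf 44) (.leaf 43)))) (.node (.node (.node (.leaf 43) (.leaf 43)) (.node (.leaf 43) (.leaf 43))) (.node (.node (.leaf 43) (.leaf 43)) (.node (.leaf 43) (.leaf 42))))))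
def st44 : ST := (.node (.node (.node (.node (.node (.leaf 42) (.leaf 42)) (.node (.leaf 42) (.leaf 42))) (.node (.node (.leaf 42) (.leaf 42)) (.node (.leaf 42) (.leaf 41)))) (.node (.node (.node (.leaf 41) (.leaf 41)) (.node (.leaf 41) (.leaf 41))) (.node (.node (.leaf 41) (.leaf 41)) (.node (.leaf 41) (.leaf 40))))) (.node (.node (.node (.node (.leaf 40) (.leaf 40)) (.node (.leaf 40) (.leaf 40))) (.node (.node (.leaf 40) (.leaf 40)) (.node (.leaf 40) (.leaf 39)))) (.node (.node (.node (.leaf 39) (.leaf 39)) (.node (.leaf 39) (.leaf 39))) (.node (.node (.leaf 39) (.leaf 39)) (.node (.leaf 39) (.leaf 39))))))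
def st45 : ST := (.node (.node (.node (.node (.node (.leaf 38) (.leaf 38)) (.node (.leaf 38) (.leaf 38))) (.node (.node (.leaf 38) (.leaf 38)) (.node (.leaf 38) (.leaf 38)))) (.node (.node (.node (.leaf 38) (.leaf 37)) (.node (.leaf 37) (.leaf 37))) (.node (.node (.leaf 37) (.leaf 37)) (.node (.leaf 37) (.leaf 37))))) (.node (.node (.node (.node (.leaf 37) (.leaf 37)) (.node (.leaf 36) (.leaf 36))) (.node (.node (.leaf 36) (.leaf 36)) (.node (.leaf 36) (.leaf 36)))) (.node (.node (.node (.leaf 36) (.leaf 36)) (.node (.leaf 36) (.leaf 35))) (.node (.node (.leaf 35) (.leaf 35)) (.node (.leaf 35) (.leaf 35))))))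
def st46 : ST := (.node (.node (.node (.node (.node (.leaf 35) (.leaf 35)) (.node (.leaf 35) (.leaf 35))) (.node (.node (.leaf 35) (.leaf 34)) (.node (.leaf 34) (.leaf 34)))) (.node (.node (.node (.leaf 34) (.leaf 34)) (.node (.leaf 34) (.leaf 34))) (.node (.node (.leaf 34) (.leaf 34)) (.node (.leaf 33) (.leaf 33))))) (.node (.node (.node (.node (.leaf 33) (.leaf 33)) (.node (.leaf 33) (.leaf 33))) (.node (.node (.leaf 33) (.leaf 33)) (.node (.leaf 33) (.leaf 33)))) (.node (.node (.node (.leaf 33) (.leaf 32)) (.node (.leaf 32) (.leaf 32))) (.node (.node (.leaf 32) (.leaf 32)) (.node (.leaf 32) (.leaf 32))))))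
def st47 : ST := (.node (.node (.node (.node (.node (.leaf 32) (.leaf 32)) (.node (.leaf 32) (.leaf 31))) (.node (.node (.leaf 31) (.leaf 31)) (.node (.leaf 31) (.leaf 31)))) (.node (.node (.node (.leaf 31) (.leaf 31)) (.node (.leaf 31) (.leaf 31))) (.node (.node (.leaf 31) (.leaf 31)) (.node (.leaf 30) (.leaf 30))))) (.node (.node (.node (.node (.leaf 30) (.leaf 5)) (.node (.leaf 30) (.leaf 30))) (.node (.node (.leaf 30) (.leaf 30)) (.node (.leaf 30) (.leaf 30)))) (.node (.node (.node (.leaf 30) (.leaf 30)) (.node (.leaf 29) (.leaf 29))) (.node (.node (.leaf 29) (.leaf 29)) (.node (.leaf 29) (.leaf 29))))))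
def st48 : ST := (.node (.node (.node (.node (.node (.leaf 29) (.leaf 29)) (.node (.leaf 29) (.leaf 29))) (.node (.node (.leaf 29) (.leaf 28)) (.node (.leaf 28) (.leaf 28)))) (.node (.node (.node (.leaf 28) (.leaf 28)) (.node (.leaf 28) (.leaf 28))) (.node (.node (.leaf 28) (.leaf 28)) (.node (.leaf 28) (.leaf 28))))) (.node (.node (.node (.node (.leaf 28) (.leaf 27)) (.node (.leaf 27) (.leaf 27))) (.node (.node (.leaf 27) (.leaf 27)) (.node (.leaf 27) (.leaf 27)))) (.node (.node (.node (.leaf 27) (.leaf 27)) (.node (.leaf 27) (.leaf 27))) (.node (.node (.leaf 27) (.leaf 27)) (.node (.leaf 26) (.leaf 26))))))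
def st49 : ST := (.node (.node (.node (.node (.node (.leaf 26) (.leaf 26)) (.node (.leaf 26) (.leaf 26))) (.node (.node (.leaf 26) (.leaf 26)) (.node (.leaf 26) (.leaf 26)))) (.node (.node (.node (.leaf 26) (.leaf 26)) (.node (.leaf 25) (.leaf 25))) (.node (.node (.leaf 25) (.leaf 25)) (.node (.leaf 25) (.leaf 25))))) (.node (.node (.node (.node (.leaf 25) (.leaf 25)) (.node (.leaf 25) (.leaf 25))) (.node (.node (.leaf 25) (.leaf 25)) (.node (.leaf 25) (.leaf 25)))) (.node (.node (.node (.leaf 24) (.leaf 24)) (.node (.leaf 24) (.leaf 24))) (.node (.node (.leaf 24) (.leaf 24)) (.node (.leaf 24) (.leaf 24))))))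
def st50 : ST := (.node (.node (.node (.node (.node (.leaf 24) (.leaf 24)) (.node (.leaf 24) (.leaf 24))) (.node (.node (.leaf 24) (.leaf 24)) (.node (.leaf 23) (.leaf 23)))) (.node (.node (.node (.leaf 23) (.leaf 23)) (.node (.leaf 23) (.leaf 23))) (.node (.node (.leaf 23) (.leaf 23)) (.node (.leaf 23) (.leaf 23))))) (.node (.node (.node (.node (.leaf 23) (.leaf 23)) (.node (.leaf 23) (.leaf 23))) (.node (.node (.leaf 22) (.leaf 22)) (.node (.leaf 22) (.leaf 22)))) (.node (.node (.node (.leaf 22) (.leaf 22)) (.node (.leaf 22) (.leaf 22))) (.node (.node (.leaf 22) (.leaf 22)) (.node (.leaf 22) (.leaf 22))))))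
def st51 : ST := (.node (.node (.node (.node (.node (.leaf 22) (.leaf 22)) (.node (.leaf 22) (.leaf 21))) (.node (.node (.leaf 21) (.leaf 21)) (.node (.leaf 21) (.leaf 21)))) (.node (.node (.node (.leaf 21) (.leaf 21)) (.node (.leaf 21) (.leaf 21))) (.node (.node (.leaf 21) (.leaf 21)) (.node (.leaf 21) (.leaf 21))))) (.node (.node (.node (.node (.leaf 21) (.leaf 21)) (.node (.leaf 21) (.leaf 20))) (.node (.node (.leaf 20) (.leaf 20)) (.node (.leaf 20) (.leaf 20)))) (.node (.node (.node (.leaf 20) (.leaf 20)) (.node (.leaf 20) (.leaf 20))) (.node (.node (.leaf 14) (.leaf 20)) (.node (.leaf 20) (.leaf 20))))))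
def st52 : ST := (.node (.node (.node (.node (.node (.leaf 20) (.leaf 20)) (.node (.leaf 20) (.leaf 20))) (.node (.node (.leaf 19) (.leaf 19)) (.node (.leaf 19) (.leaf 19)))) (.node (.node (.node (.leaf 19) (.leaf 19)) (.node (.leaf 19) (.leaf 19))) (.node (.node (.leaf 19) (.leaf 19)) (.node (.leaf 19) (.leaf 19))))) (.node (.node (.node (.node (.leaf 19) (.leaf 19)) (.node (.leaf 19) (.leaf 19))) (.node (.node (.leaf 19) (.leaf 19)) (.node (.leaf 18) (.leaf 18)))) (.node (.node (.node (.leaf 18) (.leaf 18)) (.node (.leaf 18) (.leaf 18))) (.node (.node (.leaf 18) (.leaf 18)) (.node (.leaf 18) (.leaf 18))))))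
def st53 : ST := (.node (.node (.node (.node (.node (.leaf 18) (.leaf 18)) (.node (.leaf 18) (.leaf 18))) (.node (.node (.leaf 18) (.leaf 18)) (.node (.leaf 18) (.leaf 18)))) (.node (.node (.node (.leaf 17) (.leaf 17)) (.node (.leaf 17) (.leaf 17))) (.node (.node (.leaf 17) (.leaf 17)) (.node (.leaf 17) (.leaf 17))))) (.node (.node (.node (.node (.leaf 17) (.leaf 17)) (.node (.leaf 17) (.leaf 17))) (.node (.node (.leaf 17) (.leaf 17)) (.node (.leaf 17) (.leaf 17)))) (.node (.node (.node (.leaf 17) (.leaf 17)) (.node (.leaf 17) (.leaf 17))) (.node (.node (.leaf 16) (.leaf 16)) (.node (.leaf 16) (.leaf 16))))))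
def st54 : ST := (.node (.node (.node (.node (.node (.leaf 16) (.leaf 16)) (.node (.leaf 16) (.leaf 16))) (.node (.node (.leaf 16) (.leaf 16)) (.node (.leaf 16) (.leaf 16)))) (.node (.node (.node (.leaf 16) (.leaf 16)) (.node (.leaf 16) (.leaf 16))) (.node (.node (.leaf 16) (.leaf 16)) (.node (.leaf 16) (.leaf 16))))) (.node (.node (.node (.node (.leaf 16) (.leaf 15)) (.node (.leaf 15) (.leaf 15))) (.node (.node (.leaf 15) (.leaf 15)) (.node (.leaf 15) (.leaf 15)))) (.node (.node (.node (.leaf 15) (.leaf 15)) (.node (.leaf 15) (.leaf 15))) (.node (.node (.leaf 15) (.leaf 15)) (.node (.leaf 15) (.leaf 15))))))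
def st55 : ST := (.node (.node (.node (.node (.node (.leaf 15) (.leaf 15)) (.node (.leaf 15) (.leaf 15))) (.node (.node (.leaf 15) (.leaf 15)) (.node (.leaf 15) (.leaf 14)))) (.node (.node (.node (.leaf 14) (.leaf 14)) (.node (.leaf 14) (.leaf 14))) (.node (.node (.leaf 14) (.leaf 14)) (.node (.leaf 14) (.leaf 14))))) (.node (.node (.node (.node (.leaf 14) (.leaf 14)) (.node (.leaf 14) (.leaf 14))) (.node (.node (.leaf 14) (.leaf 14)) (.node (.leaf 14) (.leaf 14)))) (.node (.node (.node (.leaf 14) (.leaf 14)) (.node (.leaf 14) (.leaf 14))) (.node (.node (.leaf 14) (.leaf 14)) (.node (.leaf 14) (.leaf 13))))))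
def st56 : ST := (.node (.node (.node (.node (.node (.leaf 13) (.leaf 13)) (.node (.leaf 13) (.leaf 13))) (.node (.node (.leaf 13) (.leaf 13)) (.node (.leaf 13) (.leaf 13)))) (.node (.node (.node (.leaf 10) (.leaf 13)) (.node (.leaf 13) (.leaf 13))) (.node (.node (.leaf 13) (.leaf 13)) (.node (.leaf 13) (.leaf 13))))) (.node (.node (.node (.node (.leaf 13) (.leaf 13)) (.node (.leaf 13) (.leaf 13))) (.node (.node (.leaf 13) (.leaf 13)) (.node (.leaf 13) (.leaf 13)))) (.node (.node (.node (.leaf 13) (.leaf 12)) (.node (.leaf 12) (.leaf 12))) (.node (.node (.leaf 12) (.leaf 12)) (.node (.leaf 12) (.leaf 12))))))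
def st57 : ST := (.node (.node (.node (.node (.node (.leaf 12) (.leaf 12)) (.node (.leaf 12) (.leaf 12))) (.node (.node (.leaf 12) (.leaf 12)) (.node (.leaf 12) (.leaf 12)))) (.node (.node (.node (.leaf 12) (.leaf 12)) (.node (.leaf 12) (.leaf 12))) (.node (.node (.leaf 12) (.leaf 12)) (.node (.leaf 12) (.leaf 12))))) (.node (.node (.node (.node (.leaf 12) (.leaf 12)) (.node (.leaf 12) (.leaf 12))) (.node (.node (.leaf 12) (.leaf 11)) (.node (.leaf 11) (.leaf 11)))) (.node (.node (.node (.leaf 11) (.leaf 11)) (.node (.leaf 11) (.leaf 11))) (.node (.node (.leaf 11) (.leaf 11)) (.node (.leaf 11) (.leaf 11))))))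
def st58 : ST := (.node (.node (.node (.node (.node (.leaf 11) (.leaf 11)) (.node (.leaf 11) (.leaf 11))) (.node (.node (.leaf 11) (.leaf 11)) (.node (.leaf 11) (.leaf 11)))) (.node (.node (.node (.leaf 11) (.leaf 11)) (.node (.leaf 11) (.leaf 11))) (.node (.node (.leaf 11) (.leaf 11)) (.node (.leaf 11) (.leaf 11))))) (.node (.node (.node (.node (.leaf 11) (.leaf 11)) (.node (.leaf 11) (.leaf 10))) (.node (.node (.leaf 10) (.leaf 10)) (.node (.leaf 10) (.leaf 10)))) (.node (.node (.node (.leaf 10) (.leaf 10)) (.node (.leaf 10) (.leaf 10))) (.node (.node (.leaf 10) (.leaf 10)) (.node (.leaf 10) (.leaf 10))))))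
def st59 : ST := (.node (.node (.node (.node (.node (.leaf 10) (.leaf 10)) (.node (.leaf 10) (.leaf 10))) (.node (.node (.leaf 10) (.leaf 10)) (.node (.leaf 10) (.leaf 10)))) (.node (.node (.node (.leaf 10) (.leaf 10)) (.node (.leaf 10) (.leaf 10))) (.node (.node (.leaf 10) (.leaf 10)) (.node (.leaf 10) (.leaf 10))))) (.node (.node (.node (.node (.leaf 10) (.leaf 10)) (.node (.leaf 10) (.leaf 10))) (.node (.node (.leaf 9) (.leaf 9)) (.node (.leaf 9) (.leaf 9)))) (.node (.node (.node (.leaf 9) (.leaf 9)) (.node (.leaf 9) (.leaf 9))) (.node (.node (.leaf 9) (.leaf 9)) (.node (.leaf 9) (.leaf 9))))))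
def st60 : ST := (.node (.node (.node (.node (.node (.leaf 9) (.leaf 9)) (.node (.leaf 9) (.leaf 9))) (.node (.node (.leaf 9) (.leaf 9)) (.node (.leaf 9) (.leaf 9)))) (.node (.node (.node (.leaf 9) (.leaf 9)) (.node (.leaf 9) (.leaf 9))) (.node (.node (.leaf 9) (.leaf 9)) (.node (.leaf 9) (.leaf 9))))) (.node (.node (.node (.node (.leaf 9) (.leaf 9)) (.node (.leaf 9) (.leaf 9))) (.node (.node (.leaf 9) (.leaf 9)) (.node (.leaf 9) (.leaf 9)))) (.node (.node (.node (.leaf 9) (.leaf 9)) (.node (.leaf 8) (.leaf 8))) (.node (.node (.leaf 8) (.leaf 8)) (.node (.leaf 8) (.leaf 8))))))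
def st61 : ST := (.node (.node (.node (.node (.node (.leaf 8) (.leaf 8)) (.node (.leaf 8) (.leaf 8))) (.node (.node (.leaf 8) (.leaf 8)) (.node (.leaf 8) (.leaf 8)))) (.node (.node (.node (.leaf 8) (.leaf 8)) (.node (.leaf 8) (.leaf 8))) (.node (.node (.leaf 8) (.leaf 4)) (.node (.leaf 8) (.leaf 8))))) (.node (.node (.node (.node (.leaf 8) (.leaf 8)) (.node (.leaf 8) (.leaf 8))) (.node (.node (.leaf 8) (.leaf 8)) (.node (.leaf 8) (.leaf 8)))) (.node (.node (.node (.leaf 8) (.leaf 8)) (.node (.leaf 8) (.leaf 8))) (.node (.node (.leaf 8) (.leaf 8)) (.node (.leaf 8) (.leaf 8))))))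
def st62 : ST := (.node (.node (.node (.node (.node (.leaf 8) (.leaf 8)) (.node (.leaf 8) (.leaf 8))) (.node (.node (.leaf 7) (.leaf 7)) (.node (.leaf 7) (.leaf 7)))) (.node (.node (.node (.leaf 7) (.leaf 7)) (.node (.leaf 7) (.leaf 7))) (.node (.node (.leaf 7) (.leaf 7)) (.node (.leaf 7) (.leaf 7))))) (.node (.node (.node (.node (.leaf 7) (.leaf 7)) (.node (.leaf 7) (.leaf 7))) (.node (.node (.leaf 7) (.leaf 7)) (.node (.leaf 7) (.leaf 7)))) (.node (.node (.node (.leaf 7) (.leaf 7)) (.node (.leaf 7) (.leaf 7))) (.node (.node (.leaf 7) (.leaf 7)) (.node (.leaf 7) (.leaf 7))))))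
def st63 : ST := (.node (.node (.node (.node (.node (.leaf 7) (.leaf 7)) (.node (.leaf 7) (.leaf 7))) (.node (.node (.leaf 7) (.leaf 7)) (.node (.leaf 7) (.leaf 7)))) (.node (.node (.node (.leaf 7) (.leaf 7)) (.node (.leaf 7) (.leaf 7))) (.node (.node (.leaf 7) (.leaf 7)) (.node (.leaf 7) (.leaf 7))))) (.node (.node (.node (.node (.leaf 7) (.leaf 7)) (.node (.leaf 7) (.leaf 6))) (.node (.node (.leaf 6) (.leaf 6)) (.node (.leaf 6) (.leaf 6)))) (.node (.node (.node (.leaf 6) (.leaf 6)) (.node (.leaf 6) (.leaf 6))) (.node (.node (.leaf 6) (.leaf 6)) (.node (.leaf 6) (.leaf 6))))))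
def st64 : ST := (.node (.node (.node (.node (.node (.leaf 6) (.leaf 6)) (.node (.leaf 6) (.leaf 6))) (.node (.node (.leaf 6) (.leaf 6)) (.node (.leaf 6) (.leaf 6)))) (.node (.node (.node (.leaf 6) (.leaf 6)) (.node (.leaf 6) (.leaf 6))) (.node (.node (.leaf 6) (.leaf 6)) (.node (.leaf 6) (.leaf 6))))) (.node (.node (.node (.node (.leaf 6) (.leaf 6)) (.node (.leaf 6) (.leaf 6))) (.node (.node (.leaf 6) (.leaf 6)) (.node (.leaf 6) (.leaf 6)))) (.node (.node (.node (.leaf 6) (.leaf 6)) (.node (.leaf 6) (.leaf 6))) (.node (.node (.leaf 6) (.leaf 6)) (.node (.leaf 6) (.leaf 6))))))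
def st65 : ST := (.node (.node (.node (.node (.node (.leaf 6) (.leaf 6)) (.node (.leaf 6) (.leaf 6))) (.node (.node (.leaf 6) (.leaf 6)) (.node (.leaf 6) (.leaf 6)))) (.node (.node (.node (.leaf 6) (.leaf 6)) (.node (.leaf 6) (.leaf 5))) (.node (.node (.leaf 5) (.leaf 5)) (.node (.leaf 5) (.leaf 5))))) (.node (.node (.node (.node (.leaf 5) (.leaf 5)) (.node (.leaf 5) (.leaf 5))) (.node (.node (.leaf 5) (.leaf 5)) (.node (.leaf 5) (.leaf 5)))) (.node (.node (.node (.leaf 5) (.leaf 5)) (.node (.leaf 5) (.leaf 5))) (.node (.node (.leaf 5) (.leaf 5)) (.node (.leaf 5) (.leaf 5))))))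
def st66 : ST := (.node (.node (.node (.node (.node (.leaf 5) (.leaf 5)) (.node (.leaf 5) (.leaf 5))) (.node (.node (.leaf 5) (.leaf 5)) (.node (.leaf 5) (.leaf 5)))) (.node (.node (.node (.leaf 5) (.leaf 5)) (.node (.leaf 5) (.leaf 5))) (.node (.node (.leaf 5) (.leaf 5)) (.node (.leaf 5) (.leaf 5))))) (.node (.node (.node (.node (.leaf 5) (.leaf 5)) (.node (.leaf 5) (.leaf 5))) (.node (.node (.leaf 5) (.leaf 5)) (.node (.leaf 5) (.leaf 5)))) (.node (.node (.node (.leaf 5) (.leaf 5)) (.node (.leaf 5) (.leaf 5))) (.node (.node (.leaf 5) (.leaf 5)) (.node (.leaf 5) (.leaf 5))))))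
def st67 : ST := (.node (.node (.node (.node (.node (.leaf 5) (.leaf 5)) (.node (.leaf 5) (.leaf 5))) (.node (.node (.leaf 5) (.leaf 5)) (.node (.leaf 3) (.leaf 5)))) (.node (.node (.node (.leaf 5) (.leaf 5)) (.node (.leaf 5) (.leaf 5))) (.node (.node (.leaf 5) (.leaf 5)) (.node (.leaf 4) (.leaf 4))))) (.node (.node (.node (.node (.leaf 4) (.leaf 4)) (.node (.leaf 4) (.leaf 4))) (.node (.node (.leaf 4) (.leaf 4)) (.node (.leaf 4) (.leaf 4)))) (.node (.node (.node (.leaf 4) (.leaf 4)) (.node (.leaf 4) (.leaf 4))) (.node (.node (.leaf 4) (.leaf 4)) (.node (.leaf 4) (.leaf 4))))))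
def st68 : ST := (.node (.node (.node (.node (.node (.leaf 4) (.leaf 4)) (.node (.leaf 4) (.leaf 4))) (.node (.node (.leaf 4) (.leaf 4)) (.node (.leaf 4) (.leaf 4)))) (.node (.node (.node (.leaf 4) (.leaf 4)) (.node (.leaf 4) (.leaf 4))) (.node (.node (.leaf 4) (.leaf 4)) (.node (.leaf 4) (.leaf 4))))) (.node (.node (.node (.node (.leaf 4) (.leaf 4)) (.node (.leaf 4) (.leaf 4))) (.node (.node (.leaf 4) (.leaf 4)) (.node (.leaf 4) (.leaf 4)))) (.node (.node (.node (.leaf 4) (.leaf 4)) (.node (.leaf 4) (.leaf 4))) (.node (.node (.leaf 4) (.leaf 4)) (.node (.leaf 4) (.leaf 4))))))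
def st69 : ST := (.node (.node (.node (.node (.node (.leaf 4) (.leaf 4)) (.node (.leaf 4) (.leaf 4))) (.node (.node (.leaf 4) (.leaf 4)) (.node (.leaf 4) (.leaf 4)))) (.node (.node (.node (.leaf 4) (.leaf 4)) (.node (.leaf 4) (.leaf 4))) (.node (.node (.leaf 4) (.leaf 4)) (.node (.leaf 4) (.leaf 4))))) (.node (.node (.node (.node (.leaf 4) (.leaf 4)) (.node (.leaf 4) (.leaf 4))) (.node (.node (.leaf 4) (.leaf 4)) (.node (.leaf 4) (.leaf 4)))) (.node (.node (.node (.leaf 4) (.leaf 4)) (.node (.leaf 4) (.leaf 4))) (.node (.node (.leaf 4) (.leaf 4)) (.node (.leaf 4) (.leaf 4))))))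
def st70 : ST := (.node (.node (.node (.node (.node (.leaf 4) (.leaf 4)) (.node (.leaf 3) (.leaf 3))) (.node (.node (.leaf 3) (.leaf 3)) (.node (.leaf 3) (.leaf 3)))) (.node (.node (.node (.leaf 3) (.leaf 3)) (.node (.leaf 3) (.leaf 3))) (.node (.node (.leaf 3) (.leaf 3)) (.node (.leaf 3) (.leaf 3))))) (.node (.node (.node (.node (.leaf 3) (.leaf 3)) (.node (.leaf 3) (.leaf 3))) (.node (.node (.leaf 3) (.leaf 3)) (.node (.leaf 3) (.leaf 3)))) (.node (.node (.node (.leaf 3) (.leaf 3)) (.node (.leaf 3) (.leaf 3))) (.node (.node (.leaf 3) (.leaf 3)) (.node (.leaf 3) (.leaf 3))))))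
def st71 : ST := (.node (.node (.node (.node (.node (.leaf 3) (.leaf 3)) (.node (.leaf 3) (.leaf 3))) (.node (.node (.leaf 3) (.leaf 3)) (.node (.leaf 3) (.leaf 3)))) (.node (.node (.node (.leaf 3) (.leaf 3)) (.node (.leaf 3) (.leaf 3))) (.node (.node (.leaf 3) (.leaf 3)) (.node (.leaf 3) (.leaf 3))))) (.node (.node (.node (.node (.leaf 3) (.leaf 3)) (.node (.leaf 3) (.leaf 3))) (.node (.node (.leaf 3) (.leaf 3)) (.node (.leaf 3) (.leaf 3)))) (.node (.node (.node (.leaf 3) (.leaf 3)) (.node (.leaf 3) (.leaf 3))) (.node (.node (.leaf 3) (.leaf 3)) (.node (.leaf 3) (.leaf 3))))))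
def st72 : ST := (.node (.node (.node (.node (.node (.leaf 3) (.leaf 3)) (.node (.leaf 3) (.leaf 3))) (.node (.node (.leaf 3) (.leaf 3)) (.node (.leaf 3) (.leaf 3)))) (.node (.node (.node (.leaf 3) (.leaf 3)) (.node (.leaf 3) (.leaf 3))) (.node (.node (.leaf 3) (.leaf 3)) (.node (.leaf 3) (.leaf 3))))) (.node (.node (.node (.node (.leaf 3) (.leaf 3)) (.node (.leaf 3) (.leaf 3))) (.node (.node (.leaf 3) (.leaf 3)) (.node (.leaf 3) (.leaf 3)))) (.node (.node (.node (.leaf 3) (.leaf 3)) (.node (.leaf 3) (.leaf 3))) (.node (.node (.leaf 3) (.leaf 3)) (.node (.leaf 3) (.leaf 3))))))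
def st73 : ST := (.node (.node (.node (.node (.node (.leaf 3) (.leaf 3)) (.node (.leaf 3) (.leaf 3))) (.node (.node (.leaf 3) (.leaf 3)) (.node (.leaf 3) (.leaf 3)))) (.node (.node (.node (.leaf 3) (.leaf 3)) (.node (.leaf 3) (.leaf 3))) (.node (.node (.leaf 3) (.leaf 3)) (.node (.leaf 3) (.leaf 3))))) (.node (.node (.node (.node (.leaf 3) (.leaf 2)) (.node (.leaf 2) (.leaf 2))) (.node (.node (.leaf 2) (.leaf 2)) (.node (.leaf 2) (.leaf 2)))) (.node (.node (.node (.leaf 2) (.leaf 2)) (.node (.leaf 2) (.leaf 2))) (.node (.node (.leaf 2) (.leaf 2)) (.node (.leaf 2) (.leaf 2))))))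
def st74 : ST := (.node (.node (.node (.node (.node (.leaf 2) (.leaf 2)) (.node (.leaf 2) (.leaf 2))) (.node (.node (.leaf 2) (.leaf 2)) (.node (.leaf 2) (.leaf 2)))) (.node (.node (.node (.leaf 2) (.leaf 2)) (.node (.leaf 2) (.leaf 2))) (.node (.node (.leaf 2) (.leaf 2)) (.node (.leaf 2) (.leaf 2))))) (.node (.node (.node (.node (.leaf 2) (.leaf 2)) (.node (.leaf 2) (.leaf 2))) (.node (.node (.leaf 2) (.leaf 2)) (.node (.leaf 2) (.leaf 2)))) (.node (.node (.node (.leaf 2) (.leaf 2)) (.node (.leaf 2) (.leaf 2))) (.node (.node (.leaf 2) (.leaf 2)) (.node (.leaf 2) (.leaf 2))))))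
def st75 : ST := (.node (.node (.node (.node (.node (.leaf 2) (.leaf 2)) (.node (.leaf 2) (.leaf 2))) (.node (.node (.leaf 2) (.leaf 2)) (.node (.leaf 2) (.leaf 2)))) (.node (.node (.node (.leaf 2) (.leaf 2)) (.node (.leaf 2) (.leaf 2))) (.node (.node (.leaf 2) (.leaf 2)) (.node (.leaf 2) (.leaf 2))))) (.node (.node (.node (.node (.leaf 2) (.leaf 2)) (.node (.leaf 2) (.leaf 2))) (.node (.node (.leaf 2) (.leaf 2)) (.node (.leaf 2) (.leaf 2)))) (.node (.node (.node (.leaf 2) (.leaf 2)) (.node (.leaf 2) (.leaf 2))) (.node (.node (.leaf 2) (.leaf 2)) (.node (.leaf 2) (.leaf 2))))))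
def st76 : ST := (.node (.node (.node (.node (.node (.leaf 2) (.leaf 2)) (.node (.leaf 2) (.leaf 2))) (.node (.node (.leaf 2) (.leaf 2)) (.node (.leaf 2) (.leaf 2)))) (.node (.node (.node (.leaf 2) (.leaf 2)) (.node (.leaf 2) (.leaf 2))) (.node (.node (.leaf 2) (.leaf 2)) (.node (.leaf 2) (.leaf 2))))) (.node (.node (.node (.node (.leaf 2) (.leaf 2)) (.node (.leaf 2) (.leaf 2))) (.node (.node (.leaf 2) (.leaf 2)) (.node (.leaf 2) (.leaf 2)))) (.node (.node (.node (.leaf 2) (.leaf 2)) (.node (.leaf 2) (.leaf 2))) (.node (.node (.leaf 2) (.leaf 2)) (.node (.leaf 2) (.leaf 2))))))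
def st77 : ST := (.node (.node (.node (.node (.node (.leaf 2) (.leaf 2)) (.node (.leaf 2) (.leaf 2))) (.node (.node (.leaf 2) (.leaf 2)) (.node (.leaf 2) (.leaf 2)))) (.node (.node (.node (.leaf 2) (.leaf 2)) (.node (.leaf 2) (.leaf 2))) (.node (.node (.leaf 2) (.leaf 2)) (.node (.leaf 2) (.leaf 2))))) (.node (.node (.node (.node (.leaf 2) (.leaf 2)) (.node (.leaf 2) (.leaf 2))) (.node (.node (.leaf 2) (.leaf 2)) (.node (.leaf 2) (.leaf 2)))) (.node (.node (.node (.leaf 2) (.leaf 2)) (.node (.leaf 2) (.leaf 2))) (.node (.node (.leaf 2) (.leaf 2)) (.node (.leaf 2) (.leaf 2))))))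
def st78 : ST := (.node (.node (.node (.node (.node (.leaf 2) (.leaf 2)) (.node (.leaf 2) (.leaf 2))) (.node (.node (.leaf 2) (.leaf 2)) (.node (.leaf 2) (.leaf 2)))) (.node (.node (.node (.leaf 2) (.leaf 2)) (.node (.leaf 2) (.leaf 2))) (.node (.node (.leaf 2) (.leaf 2)) (.node (.leaf 2) (.leaf 2))))) (.node (.node (.node (.node (.leaf 2) (.leaf 2)) (.node (.leaf 2) (.leaf 2))) (.node (.node (.leaf 2) (.leaf 2)) (.node (.leaf 2) (.leaf 2)))) (.node (.node (.node (.leaf 1) (.leaf 1)) (.node (.leaf 1) (.leaf 1))) (.node (.node (.leaf 1) (.leaf 1)) (.node (.leaf 1) (.leaf 1))))))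
def st79 : ST := (.node (.node (.node (.node (.node (.leaf 1) (.leaf 1)) (.node (.leaf 1) (.leaf 1))) (.node (.node (.leaf 1) (.leaf 1)) (.node (.leaf 1) (.leaf 1)))) (.node (.node (.node (.leaf 1) (.leaf 1)) (.node (.leaf 1) (.leaf 1))) (.node (.node (.leaf 1) (.leaf 1)) (.node (.leaf 1) (.leaf 1))))) (.node (.node (.node (.node (.leaf 1) (.leaf 1)) (.node (.leaf 1) (.leaf 1))) (.node (.node (.leaf 1) (.leaf 1)) (.node (.leaf 1) (.leaf 1)))) (.node (.node (.node (.leaf 1) (.leaf 1)) (.node (.leaf 1) (.leaf 1))) (.node (.node (.leaf 1) (.leaf 1)) (.node (.leaf 1) (.leaf 1))))))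
def st80 : ST := (.node (.node (.node (.node (.node (.leaf 1) (.leaf 1)) (.node (.leaf 1) (.leaf 1))) (.node (.node (.leaf 1) (.leaf 1)) (.node (.leaf 1) (.leaf 1)))) (.node (.node (.node (.leaf 1) (.leaf 1)) (.node (.leaf 1) (.leaf 1))) (.node (.node (.leaf 1) (.leaf 1)) (.node (.leaf 1) (.leaf 1))))) (.node (.node (.node (.node (.leaf 1) (.leaf 1)) (.node (.leaf 1) (.leaf 1))) (.node (.node (.leaf 1) (.leaf 1)) (.node (.leaf 1) (.leaf 1)))) (.node (.node (.node (.leaf 1) (.leaf 1)) (.node (.leaf 1) (.leaf 1))) (.node (.node (.leaf 1) (.leaf 1)) (.node (.leaf 1) (.leaf 1))))))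
def st81 : ST := (.node (.node (.node (.node (.node (.leaf 1) (.leaf 1)) (.node (.leaf 1) (.leaf 1))) (.node (.node (.leaf 1) (.leaf 1)) (.node (.leaf 1) (.leaf 1)))) (.node (.node (.node (.leaf 1) (.leaf 1)) (.node (.leaf 1) (.leaf 1))) (.node (.node (.leaf 1) (.leaf 1)) (.node (.leaf 1) (.leaf 1))))) (.node (.node (.node (.node (.leaf 1) (.leaf 1)) (.node (.leaf 1) (.leaf 1))) (.node (.node (.leaf 1) (.leaf 1)) (.node (.leaf 1) (.leaf 1)))) (.node (.node (.node (.leaf 1) (.leaf 1)) (.node (.leaf 1) (.leaf 1))) (.node (.node (.leaf 1) (.leaf 1)) (.node (.leaf 1) (.leaf 1))))))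
def st82 : ST := (.node (.node (.node (.node (.node (.leaf 1) (.leaf 1)) (.node (.leaf 1) (.leaf 1))) (.node (.node (.leaf 1) (.leaf 1)) (.node (.leaf 1) (.leaf 1)))) (.node (.node (.node (.leaf 1) (.leaf 1)) (.node (.leaf 1) (.leaf 1))) (.node (.node (.leaf 1) (.leaf 1)) (.node (.leaf 1) (.leaf 1))))) (.node (.node (.node (.node (.leaf 1) (.leaf 1)) (.node (.leaf 1) (.leaf 1))) (.node (.node (.leaf 1) (.leaf 1)) (.node (.leaf 1) (.leaf 1)))) (.node (.node (.node (.leaf 1) (.leaf 1)) (.node (.leaf 1) (.leaf 1))) (.node (.node (.leaf 1) (.leaf 1)) (.node (.leaf 1) (.leaf 1))))))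
def st83 : ST := (.node (.node (.node (.node (.node (.leaf 1) (.leaf 1)) (.node (.leaf 1) (.leaf 1))) (.node (.node (.leaf 1) (.leaf 1)) (.node (.leaf 1) (.leaf 1)))) (.node (.node (.node (.leaf 1) (.leaf 1)) (.node (.leaf 1) (.leaf 1))) (.node (.node (.leaf 1) (.leaf 1)) (.node (.leaf 1) (.leaf 1))))) (.node (.node (.node (.node (.leaf 1) (.leaf 1)) (.node (.leaf 1) (.leaf 1))) (.node (.node (.leaf 1) (.leaf 1)) (.node (.leaf 1) (.leaf 1)))) (.node (.node (.node (.leaf 1) (.leaf 1)) (.node (.leaf 1) (.leaf 1))) (.node (.node (.leaf 1) (.leaf 1)) (.node (.leaf 1) (.leaf 1))))))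
def st84 : ST := (.node (.node (.node (.node (.node (.leaf 1) (.leaf 1)) (.node (.leaf 1) (.leaf 1))) (.node (.node (.leaf 1) (.leaf 1)) (.node (.leaf 1) (.leaf 1)))) (.node (.node (.node (.leaf 1) (.leaf 1)) (.node (.leaf 1) (.leaf 1))) (.node (.node (.leaf 1) (.leaf 1)) (.node (.leaf 1) (.leaf 1))))) (.node (.node (.node (.node (.leaf 1) (.leaf 1)) (.node (.leaf 1) (.leaf 1))) (.node (.node (.leaf 1) (.leaf 1)) (.node (.leaf 1) (.leaf 1)))) (.node (.node (.node (.leaf 1) (.leaf 1)) (.node (.leaf 1) (.leaf 1))) (.node (.node (.leaf 1) (.leaf 1)) (.node (.leaf 1) (.leaf 1))))))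
def st85 : ST := (.node (.node (.node (.node (.node (.leaf 1) (.leaf 1)) (.node (.leaf 1) (.leaf 1))) (.node (.node (.leaf 1) (.leaf 1)) (.node (.leaf 1) (.leaf 1)))) (.node (.node (.node (.leaf 1) (.leaf 1)) (.node (.leaf 1) (.leaf 1))) (.node (.node (.leaf 1) (.leaf 1)) (.node (.leaf 1) (.leaf 1))))) (.node (.node (.node (.node (.leaf 1) (.leaf 1)) (.node (.leaf 1) (.leaf 1))) (.node (.node (.leaf 1) (.leaf 1)) (.node (.leaf 1) (.leaf 1)))) (.node (.node (.node (.leaf 1) (.leaf 1)) (.node (.leaf 1) (.leaf 1))) (.node (.node (.leaf 1) (.leaf 1)) (.node (.leaf 1) (.leaf 1))))))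
def st86 : ST := (.node (.node (.node (.node (.node (.leaf 1) (.leaf 1)) (.node (.leaf 1) (.leaf 1))) (.node (.node (.leaf 1) (.leaf 1)) (.node (.leaf 1) (.leaf 1)))) (.node (.node (.node (.leaf 1) (.leaf 1)) (.node (.leaf 1) (.leaf 1))) (.node (.node (.leaf 1) (.leaf 1)) (.node (.leaf 1) (.leaf 1))))) (.node (.node (.node (.node (.leaf 1) (.leaf 1)) (.node (.leaf 1) (.leaf 1))) (.node (.node (.leaf 1) (.leaf 1)) (.node (.leaf 1) (.leaf 1)))) (.node (.node (.node (.leaf 1) (.leaf 1)) (.node (.leaf 1) (.leaf 1))) (.node (.node (.leaf 1) (.leaf 1)) (.node (.leaf 1) (.leaf 1))))))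
def st87 : ST := (.node (.node (.node (.node (.node (.leaf 1) (.leaf 1)) (.node (.leaf 1) (.leaf 1))) (.node (.node (.leaf 1) (.leaf 1)) (.node (.leaf 1) (.leaf 1)))) (.node (.node (.node (.leaf 1) (.leaf 1)) (.node (.leaf 1) (.leaf 1))) (.node (.node (.leaf 1) (.leaf 1)) (.node (.leaf 1) (.leaf 1))))) (.node (.node (.node (.node (.leaf 1) (.leaf 1)) (.node (.leaf 1) (.leaf 1))) (.node (.node (.leaf 1) (.leaf 1)) (.node (.leaf 1) (.leaf 1)))) (.node (.node (.node (.leaf 1) (.leaf 1)) (.node (.leaf 1) (.leaf 1))) (.node (.node (.leaf 1) (.leaf 1)) (.node (.leaf 1) (.leaf 1))))))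
def st88 : ST := (.node (.node (.node (.node (.node (.leaf 1) (.leaf 1)) (.node (.leaf 1) (.leaf 1))) (.node (.node (.leaf 1) (.leaf 1)) (.node (.leaf 1) (.leaf 1)))) (.node (.node (.node (.leaf 1) (.leaf 1)) (.node (.leaf 1) (.leaf 1))) (.node (.node (.leaf 1) (.leaf 1)) (.node (.leaf 1) (.leaf 1))))) (.node (.node (.node (.node (.leaf 1) (.leaf 1)) (.node (.leaf 1) (.leaf 1))) (.node (.node (.leaf 1) (.leaf 1)) (.node (.leaf 1) (.leaf 1)))) (.node (.node (.node (.leaf 1) (.leaf 1)) (.node (.leaf 1) (.leaf 1))) (.node (.node (.leaf 1) (.leaf 1)) (.node (.leaf 1) (.leaf 1))))))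
def st89 : ST := (.node (.node (.node (.node (.node (.leaf 1) (.leaf 1)) (.node (.leaf 1) (.leaf 1))) (.node (.node (.leaf 1) (.leaf 1)) (.node (.leaf 1) (.leaf 1)))) (.node (.node (.node (.leaf 1) (.leaf 1)) (.node (.leaf 1) (.leaf 1))) (.node (.node (.leaf 1) (.leaf 1)) (.node (.leaf 1) (.leaf 1))))) (.node (.node (.node (.node (.leaf 1) (.leaf 1)) (.node (.leaf 1) (.leaf 1))) (.node (.node (.leaf 1) (.leaf 1)) (.node (.leaf 1) (.leaf 1)))) (.node (.node (.node (.leaf 1) (.leaf 1)) (.node (.leaf 1) (.leaf 1))) (.node (.node (.leaf 1) (.leaf 1)) (.node (.leaf 1) (.leaf 1))))))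
def st90 : ST := (.node (.node (.node (.node (.node (.leaf 1) (.leaf 1)) (.node (.leaf 1) (.leaf 1))) (.node (.node (.leaf 1) (.leaf 1)) (.node (.leaf 1) (.leaf 1)))) (.node (.node (.node (.leaf 1) (.leaf 1)) (.node (.leaf 1) (.leaf 1))) (.node (.node (.leaf 1) (.leaf 1)) (.node (.leaf 1) (.leaf 1))))) (.node (.node (.node (.node (.leaf 1) (.leaf 1)) (.node (.leaf 1) (.leaf 1))) (.node (.node (.leaf 1) (.leaf 1)) (.node (.leaf 1) (.leaf 1)))) (.node (.node (.node (.leaf 1) (.leaf 1)) (.node (.leaf 1) (.leaf 1))) (.node (.node (.leaf 1) (.leaf 1)) (.node (.leaf 1) (.leaf 1))))))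
def st91 : ST := (.node (.node (.node (.node (.node (.leaf 1) (.leaf 1)) (.node (.leaf 1) (.leaf 1))) (.node (.node (.leaf 1) (.leaf 1)) (.node (.leaf 1) (.leaf 1)))) (.node (.node (.node (.leaf 1) (.leaf 1)) (.node (.leaf 1) (.leaf 1))) (.node (.node (.leaf 1) (.leaf 1)) (.node (.leaf 1) (.leaf 1))))) (.node (.node (.node (.node (.leaf 1) (.leaf 1)) (.node (.leaf 1) (.leaf 1))) (.node (.node (.leaf 1) (.leaf 1)) (.node (.leaf 1) (.leaf 1)))) (.node (.node (.node (.leaf 1) (.leaf 1)) (.node (.leaf 1) (.leaf 1))) (.node (.node (.leaf 1) (.leaf 1)) (.node (.leaf 1) (.leaf 1))))))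
def st92 : ST := (.node (.node (.node (.node (.node (.leaf 1) (.leaf 1)) (.node (.leaf 1) (.leaf 1))) (.node (.node (.leaf 1) (.leaf 1)) (.node (.leaf 1) (.leaf 1)))) (.node (.node (.node (.leaf 1) (.leaf 1)) (.node (.leaf 1) (.leaf 1))) (.node (.node (.leaf 1) (.leaf 1)) (.node (.leaf 1) (.leaf 1))))) (.node (.node (.node (.node (.leaf 1) (.leaf 1)) (.node (.leaf 1) (.leaf 1))) (.node (.node (.leaf 1) (.leaf 1)) (.node (.leaf 1) (.leaf 1)))) (.node (.node (.node (.leaf 1) (.leaf 1)) (.node (.leaf 1) (.leaf 1))) (.node (.node (.leaf 1) (.leaf 1)) (.node (.leaf 1) (.leaf 1))))))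
def st93 : ST := (.node (.node (.node (.node (.node (.leaf 1) (.leaf 1)) (.node (.leaf 1) (.leaf 1))) (.node (.node (.leaf 1) (.leaf 1)) (.node (.leaf 1) (.leaf 1)))) (.node (.node (.node (.leaf 1) (.leaf 1)) (.node (.leaf 1) (.leaf 1))) (.node (.node (.leaf 1) (.leaf 1)) (.node (.leaf 1) (.leaf 1))))) (.node (.node (.node (.node (.leaf 1) (.leaf 1)) (.node (.leaf 1) (.leaf 1))) (.node (.node (.leaf 1) (.leaf 1)) (.node (.leaf 1) (.leaf 1)))) (.node (.node (.node (.leaf 1) (.leaf 1)) (.node (.leaf 1) (.leaf 1))) (.node (.node (.leaf 1) (.leaf 1)) (.node (.leaf 1) (.leaf 1))))))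
def st94 : ST := (.node (.node (.node (.node (.node (.leaf 1) (.leaf 1)) (.node (.leaf 1) (.leaf 1))) (.node (.node (.leaf 1) (.leaf 1)) (.node (.leaf 1) (.leaf 1)))) (.node (.node (.node (.leaf 1) (.leaf 1)) (.node (.leaf 1) (.leaf 1))) (.node (.node (.leaf 1) (.leaf 1)) (.node (.leaf 1) (.leaf 1))))) (.node (.node (.node (.node (.leaf 1) (.leaf 1)) (.node (.leaf 1) (.leaf 1))) (.node (.node (.leaf 1) (.leaf 1)) (.node (.leaf 1) (.leaf 1)))) (.node (.node (.node (.leaf 1) (.leaf 1)) (.node (.leaf 1) (.leaf 1))) (.node (.node (.leaf 1) (.leaf 1)) (.node (.leaf 1) (.leaf 1))))))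
def st95 : ST := (.node (.node (.node (.node (.node (.leaf 1) (.leaf 1)) (.node (.leaf 1) (.leaf 1))) (.node (.node (.leaf 1) (.leaf 1)) (.node (.leaf 1) (.leaf 1)))) (.node (.node (.node (.leaf 1) (.leaf 1)) (.node (.leaf 1) (.leaf 1))) (.node (.node (.leaf 1) (.leaf 1)) (.node (.leaf 1) (.leaf 1))))) (.node (.node (.node (.node (.leaf 1) (.leaf 1)) (.node (.leaf 1) (.leaf 1))) (.node (.node (.leaf 1) (.leaf 1)) (.node (.leaf 1) (.leaf 1)))) (.node (.node (.node (.leaf 1) (.leaf 1)) (.node (.leaf 1) (.leaf 1))) (.node (.node (.leaf 1) (.leaf 1)) (.node (.leaf 1) (.leaf 1))))))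
def st96 : ST := (.node (.node (.node (.node (.node (.leaf 1) (.leaf 1)) (.node (.leaf 1) (.leaf 1))) (.node (.node (.leaf 1) (.leaf 1)) (.node (.leaf 1) (.leaf 1)))) (.node (.node (.node (.leaf 1) (.leaf 1)) (.node (.leaf 1) (.leaf 1))) (.node (.node (.leaf 1) (.leaf 1)) (.node (.leaf 1) (.leaf 1))))) (.node (.node (.node (.node (.leaf 1) (.leaf 1)) (.node (.leaf 1) (.leaf 1))) (.node (.node (.leaf 1) (.leaf 1)) (.node (.leaf 1) (.leaf 1)))) (.node (.node (.node (.leaf 1) (.leaf 1)) (.node (.leaf 1) (.leaf 1))) (.node (.node (.leaf 1) (.leaf 1)) (.node (.leaf 1) (.leaf 1))))))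
def st97 : ST := (.node (.node (.node (.node (.node (.leaf 1) (.leaf 1)) (.node (.leaf 1) (.leaf 1))) (.node (.node (.leaf 1) (.leaf 1)) (.node (.leaf 1) (.leaf 1)))) (.node (.node (.node (.leaf 1) (.leaf 1)) (.node (.leaf 1) (.leaf 1))) (.node (.node (.leaf 1) (.leaf 1)) (.node (.leaf 1) (.leaf 1))))) (.node (.node (.node (.node (.leaf 1) (.leaf 1)) (.node (.leaf 1) (.leaf 1))) (.node (.node (.leaf 1) (.leaf 1)) (.node (.leaf 1) (.leaf 1)))) (.node (.node (.node (.leaf 1) (.leaf 1)) (.node (.leaf 1) (.leaf 1))) (.node (.node (.leaf 1) (.leaf 1)) (.node (.leaf 1) (.leaf 1))))))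
def st98 : ST := (.node (.node (.node (.node (.node (.leaf 1) (.leaf 1)) (.node (.leaf 1) (.leaf 1))) (.node (.node (.leaf 1) (.leaf 1)) (.node (.leaf 1) (.leaf 1)))) (.node (.node (.node (.leaf 1) (.leaf 1)) (.node (.leaf 1) (.leaf 1))) (.node (.node (.leaf 1) (.leaf 1)) (.node (.leaf 1) (.leaf 1))))) (.node (.node (.node (.node (.leaf 1) (.leaf 1)) (.node (.leaf 1) (.leaf 1))) (.node (.node (.leaf 1) (.leaf 1)) (.node (.leaf 1) (.leaf 1)))) (.node (.node (.node (.leaf 1) (.leaf 1)) (.node (.leaf 1) (.leaf 1))) (.node (.node (.leaf 1) (.leaf 1)) (.leaf 21)))))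
def st : ST := (.node (.node (.node (.node (.node (.node (.node st0 st1) (.node st2 st3)) (.node (.node st4 st5) st6)) (.node (.node (.node st7 st8) st9) (.node (.node st10 st11) st12))) (.node (.node (.node (.node st13 st14) st15) (.node (.node st16 st17) st18)) (.node (.node (.node st19 st20) st21) (.node (.node st22 st23) st24)))) (.node (.node (.node (.node (.node st25 st26) (.node st27 st28)) (.node (.node st29 st30) st31)) (.node (.node (.node st32 st33) st34) (.node (.node st35 st36) st37))) (.node (.node (.node (.node st38 st39) st40) (.node (.node st41 st42) st43)) (.node (.node (.node st44 st45) st46) (.node (.node st47 st48) st49))))) (.node (.node (.node (.node (.node (.node st50 st51) (.node st52 st53)) (.node (.node st54 st55) st56)) (.node (.node (.node st57 st58) st59) (.node (.node st60 st61) st62))) (.node (.node (.node (.node st63 st64) st65) (.node (.node st66 st67) st68)) (.node (.node (.node st69 st70) st71) (.node (.node st72 st73) st74)))) (.node (.node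 (.node (.node (.node st75 st76) st77) (.node (.node st78 st79) st80)) (.node (.node (.node st81 st82) st83) (.node (.node st84 st85) st86))) (.node (.node (.node (.node st87 st88) st89) (.node (.node st90 st91) st92)) (.node (.node (.node st93 st94) st95) (.node (.node st96 st97) st98))))))

def ops : List (Bool × ℕ) := [(false, 56), (true, 56), (false, 56), (false, 55), (true, 55), (false, 56), (true, 56), (false, 56), (true, 56), (false, 55), (true, 56), (false, 56), (false, 55), (false, 56), (true, 56), (false, 56), (true, 55), (false, 56), (true, 56)]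

def up : List (ℕ × ℕ) := [(0, 481), (227, 20), (455, 18), (911, 24), (1708, 28), (2848, 30), (4556, 33), (6835, 38), (10252, 43), (14809, 44), (20505, 48), (28480, 54), (39872, 57), (56960, 70)]

def dn : List (ℕ × ℕ) := [(125312, 9), (153792, 44), (182272, 59), (210752, 68), (239232, 74), (267712, 75), (296192, 73), (324672, 69), (353152, 67), (387328, 68), (421504, 60), (455680, 52)]

end Pool.Agent.H358R5.DatP
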