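import Mathlib
import Pool.Agent.H358R5.Stubs

open Finset

namespace Pool.Agent.H358R5

theorem FSQ_proof (h : S_BOX) : S_FSQ := by
  intro L N K
  have h1 := h L K N N (fun s => if s ≤ N then 1 else 0) le_rfl
    (fun s hs => if_neg (by omega))
  have h2 : ∀ c ∈ Fintype.piFinset (fun _ : Fin K => range N), Fw L N c ^ 2 =
      (∏ j, g L (c j + 1) ^ 2) * (if ∑ j, (c j + 1) ≤ N then (1 : ℝ) else 0) := by
    intro c _
    unfold Fw
    split_ifs with hc
    · rw [mul_one, Finset.prod_pow]
    · simp
  rw [Finset.sum_congr rfl h2, h1]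
  unfold D
  refine Finset.sum_congr rfl fun s hs => ?_
  rw [if_pos (by have := Finset.mem_range.1 hs; omega), mul_one]

end Pool.Agent.H358R5
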