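import Mathlib
import Pool.Agent.H358R5.Stubs

open Finset

namespace Pool.Agent.H358R5

theorem FUU_Fw_insert (L N K0 : ℕ) (i : Fin (K0 + 1)) (t : ℕ) (c : Fin K0 → ℕ) :
    Fw L N (Fin.insertNth (α := fun _ => ℕ) i t c) =
      if (t + 1) + ∑ j, (c j + 1) ≤ N then g L (t + 1) * ∏ j, g L (c j + 1) else 0 := by
  unfold Fw
  have h1 : ∑ j, (Fin.insertNth (α := fun _ => ℕ) i t c j + 1) = (t + 1) + ∑ j, (c j + 1) := by
    rw [Fin.sum_univ_succAbove _ i]
    simp
  have h2 : ∏ j, g L (Fin.insertNth (α := fun _ => ℕ) i t c j + 1) =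
      g L (t + 1) * ∏ j, g L (c j + 1) := by
    rw [Fin.prod_univ_succAbove _ i]
    simp
  rw [h1, h2]

theorem FUU_inner (L N K0 : ℕ) (i : Fin (K0 + 1)) (c : Fin K0 → ℕ) :
    ∑ t ∈ range N, Fw L N (Fin.insertNth (α := fun _ => ℕ) i t c) =
      (∏ j, g L (c j + 1)) * B L (N - ∑ j, (c j + 1)) := by
  simp_rw [FUU_Fw_insert]
  rw [B, mul_sum, ← Finset.sum_filter]
  have hset : (range N).filter (fun t => (t + 1) + ∑ j, (c j + 1) ≤ N) =
      range (N - ∑ j, (c j + 1)) := by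
    ext t
    simp only [mem_filter, mem_range]
    omega
  rw [hset]
  refine Finset.sum_congr rfl fun t _ => by ring

theorem FUU_proof (h : S_BOX) : S_FUU := by
  intro L N K0 i
  have hb := h L K0 N N (fun s => B L (N - s) ^ 2) le_rfl (by
    intro s hs
    have : N - s = 0 := by omega
    simp [this, B])
  rw [← hb]
  refine Finset.sum_congr rfl fun c _ => ?_
  rw [FUU_inner, mul_pow, Finset.prod_pow]

end Pool.Agent.H358R5
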