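import Mathlib
import Pool.Agent.H358R5.Stubs2

/-! H358R5, task GAPS: clusters of consecutive primes (adapted from helper93's file
`Pool/Agent/H95R2/BG/X5.lean`). -/

set_option autoImplicit false

open Finset Filter

namespace Pool.Agent.H358R5

theorem GAPS_asy (ε : ℝ) (hε : 0 < ε) (C : ℝ) :
    ∃ δ : ℝ, 0 < δ ∧ ∀ᶠ x : ℝ in atTop, C * x ^ (1 - ε) ≤ (x / 2) ^ (1 - δ) := by
  obtain ⟨δ, hδ0, hδ1, hδ2⟩ : ∃ δ : ℝ, 0 < δ ∧ δ < 1 ∧ δ < ε := by
    refine ⟨min (ε / 2) (1 / 2), by positivity, ?_, ?_⟩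
    · exact lt_of_le_of_lt (min_le_right _ _) (by norm_num)
    · exact lt_of_le_of_lt (min_le_left _ _) (by linarith)
  refine ⟨δ, hδ0, ?_⟩
  have t1 : Tendsto (fun x : ℝ => x ^ (-(ε - δ))) atTop (nhds 0) := tendsto_rpow_neg_atTop (by linarith)
  have t3 : Tendsto (fun x : ℝ => 2 ^ (1 - δ) * (C * x ^ (-(ε - δ)))) atTop (nhds 0) := by
    have := (t1.const_mul C).const_mul ((2 : ℝ) ^ (1 - δ))
    simpa using this
  filter_upwards [t3.eventually (gt_mem_nhds (show (0 : ℝ) < 1 by norm_num)), eventually_gt_atTop (0 : ℝ)]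
    with x hx hx0
  have h2 : (0 : ℝ) < 2 ^ (1 - δ) := Real.rpow_pos_of_pos (by norm_num) _
  have hxp : (0 : ℝ) < x ^ (1 - δ) := Real.rpow_pos_of_pos hx0 _
  rw [Real.div_rpow hx0.le (by norm_num), le_div_iff₀ h2]
  have e1 : x ^ (1 - ε) = x ^ (-(ε - δ)) * x ^ (1 - δ) := by
    rw [← Real.rpow_add hx0]; congr 1; ring
  calc (C * x ^ (1 - ε)) * 2 ^ (1 - δ)
      = (2 ^ (1 - δ) * (C * x ^ (-(ε - δ)))) * x ^ (1 - δ) := by
        rw [e1]; ring
    _ ≤ 1 * x ^ (1 - δ) := by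
        apply mul_le_mul_of_nonneg_right hx.le hxp.le
    _ = x ^ (1 - δ) := one_mul _

theorem GAPS_gap {m K : ℕ} (h : Fin K → ℕ) (hinj : Function.Injective h) (Δ : ℕ)
    (hΔ : ∀ i, h i ≤ Δ) (n : ℕ) (hn : m + 1 ≤ (univ.filter fun i => (n + h i).Prime).card) :
    n ≤ Nat.nth Nat.Prime (Nat.count Nat.Prime n) ∧
    Nat.nth Nat.Prime (Nat.count Nat.Prime n) ≤ n + Δ ∧
    Nat.nth Nat.Prime (Nat.count Nat.Prime n + m) ≤ n + Δ := by
  have h1 : Nat.count Nat.Prime n + (m + 1) ≤ Nat.count Nat.Prime (n + (Δ + 1)) := by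
    rw [Nat.count_add, Nat.count_eq_card_filter_range (fun k => Nat.Prime (n + k))]
    apply Nat.add_le_add_left
    refine hn.trans ?_
    have : ((univ.filter fun i => (n + h i).Prime).image h) ⊆
        (range (Δ + 1)).filter (fun k => Nat.Prime (n + k)) := by
      intro k hk
      obtain ⟨i, hi, rfl⟩ := Finset.mem_image.mp hk
      rw [Finset.mem_filter] at hi
      rw [Finset.mem_filter, Finset.mem_range]
      exact ⟨Nat.lt_succ_of_le (hΔ i), hi.2⟩
    rw [← Finset.card_image_of_injective _ hinj]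
    exact Finset.card_le_card this
  have h5 : Nat.nth Nat.Prime (Nat.count Nat.Prime n + m) < n + (Δ + 1) :=
    Nat.nth_lt_of_lt_count (by omega)
  have h6 : Nat.nth Nat.Prime (Nat.count Nat.Prime n) < n + (Δ + 1) :=
    Nat.nth_lt_of_lt_count (by omega)
  exact ⟨Nat.le_nth_count Nat.infinite_setOfPred_prime n, by omega, by omega⟩

open Classical in
/-- GAPS -/
theorem GAPS_proof : S_GAPS := by
  rintro m K Δ - hC ⟨h, hadm, hΔ⟩ ε hε
  obtain ⟨δ, hδ, hasy⟩ := GAPS_asy ε hε (Δ + 1)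
  have h1 := hC h hadm 1 0 squarefree_one (fun i => Nat.coprime_one_right _) δ hδ
  have h2 : Tendsto (fun x : ℝ => x / 2) atTop atTop := tendsto_id.atTop_div_const (by norm_num)
  filter_upwards [hasy, h2.eventually h1, eventually_ge_atTop (2 * Δ : ℝ), eventually_ge_atTop (0 : ℝ)]
    with x hx1 hx2 hx3 hx0
  set T : Set ℕ := {k : ℕ | (Nat.nth Nat.Prime k : ℝ) ≤ x ∧
      Nat.nth Nat.Prime (k + m) ≤ Nat.nth Nat.Prime k + Δ} with hT
  have hTfin : T.Finite := by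
    apply (Set.finite_Iic ⌊x⌋₊).subset
    intro k hk
    rw [Set.mem_Iic, Nat.le_floor_iff hx0]
    have e1 : k ≤ Nat.nth Nat.Prime k := Nat.le_nth (fun hf => absurd hf Nat.infinite_setOfPred_prime)
    have e2 : (k : ℝ) ≤ (Nat.nth Nat.Prime k : ℝ) := by exact_mod_cast e1
    exact e2.trans hk.1
  set S := ((Icc 1 ⌊x / 2⌋₊).filter (fun n : ℕ => n ≡ 0 [MOD 1] ∧
      m + 1 ≤ (univ.filter fun i => (n + h i).Prime).card)) with hS
  have hgood : ∀ n ∈ S, (n : ℝ) ≤ x / 2 ∧ (n ≤ Nat.nth Nat.Prime (Nat.count Nat.Prime n) ∧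
      Nat.nth Nat.Prime (Nat.count Nat.Prime n) ≤ n + Δ ∧
      Nat.nth Nat.Prime (Nat.count Nat.Prime n + m) ≤ n + Δ) := by
    intro n hn
    rw [hS, Finset.mem_filter, Finset.mem_Icc] at hn
    obtain ⟨⟨h1n, hnx⟩, -, hn3⟩ := hn
    refine ⟨?_, GAPS_gap h hadm.1 Δ hΔ n hn3⟩
    exact (Nat.le_floor_iff (by linarith)).mp hnx
  have himg : S.image (fun n => Nat.count Nat.Prime n) ⊆ hTfin.toFinset := by
    intro k hk
    obtain ⟨n, hn, rfl⟩ := Finset.mem_image.mp hk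
    obtain ⟨g2, g3, g4, g5⟩ := hgood n hn
    rw [Set.Finite.mem_toFinset]
    refine ⟨?_, ?_⟩
    · have : (Nat.nth Nat.Prime (Nat.count Nat.Prime n) : ℝ) ≤ n + Δ := by exact_mod_cast g4
      linarith
    · omega
  have hfib : ∀ k ∈ S.image (fun n => Nat.count Nat.Prime n),
      (S.filter (fun n => Nat.count Nat.Prime n = k)).card ≤ Δ + 1 := by
    intro k _
    have : S.filter (fun n => Nat.count Nat.Prime n = k) ⊆
        Finset.Icc (Nat.nth Nat.Prime k - Δ) (Nat.nth Nat.Prime k) := by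
      intro n hn
      rw [Finset.mem_filter] at hn
      obtain ⟨hnS, hnm⟩ := hn
      obtain ⟨g2, g3, g4, g5⟩ := hgood n hnS
      rw [hnm] at g3 g4
      rw [Finset.mem_Icc]
      omega
    refine (Finset.card_le_card this).trans ?_
    rw [Nat.card_Icc]
    omega
  have hcard : S.card ≤ (Δ + 1) * (S.image (fun n => Nat.count Nat.Prime n)).card :=
    Finset.card_le_mul_card_image S (Δ + 1) hfib
  have hcard2 : S.card ≤ (Δ + 1) * hTfin.toFinset.card :=
    hcard.trans (Nat.mul_le_mul_left _ (Finset.card_le_card himg))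
  have hcard3 : T.ncard = hTfin.toFinset.card := Set.ncard_eq_toFinset_card T hTfin
  rw [← hcard3] at hcard2
  have hcard4 : (S.card : ℝ) ≤ ((Δ : ℝ) + 1) * (T.ncard : ℝ) := by exact_mod_cast hcard2
  have hfin := hx1.trans (hx2.trans hcard4)
  exact le_of_mul_le_mul_left hfin (by positivity)

end Pool.Agent.H358R5
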