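import Mathlib
import Pool.Agent.H358R5.Stubs

/-! Task GB. -/

open Finset

namespace Pool.Agent.H358R5

theorem GB_proof (h : S_CROSS) : S_GB := by
  intro L N φ hL hφ hs
  obtain ⟨s, hsd⟩ : ∃ s, s = sφ N φ := ⟨_, rfl⟩
  obtain ⟨q, hq⟩ : ∃ q, q = s / (1 + s) := ⟨_, rfl⟩
  rw [← hsd] at hs ⊢
  have h1s : 0 < 1 + s := by linarith
  have q0 : 0 < q := by rw [hq]; positivity
  have q1 : q < 1 := by rw [hq, div_lt_one h1s]; linarith
  have hlog : -Real.log (1 - q) = Real.log (1 + s) := by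
    have : 1 - q = (1 + s)⁻¹ := by rw [hq]; field_simp; ring
    rw [this, Real.log_inv, neg_neg]
  have hS : HasSum (fun n : ℕ => q ^ (n + 1) / ((n : ℝ) + 1)) (-Real.log (1 - q)) :=
    Real.hasSum_pow_div_log_of_abs_lt_one (by rw [abs_of_pos q0]; exact q1)
  have gpos : ∀ r, 0 < g L r := by
    intro r
    unfold g
    have : (0 : ℝ) < L := by exact_mod_cast hL
    positivity
  have hcross : ∀ R : ℕ, ∑ r ∈ range R, q ^ (r + 1) * g L (r + 1) ≤ Λφ L N φ := by
    intro R
    have := h N R φ (g L) hφ (by rw [← hsd]; exact hs) (fun r => (gpos r).le) (by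
      intro r
      unfold g
      have hL' : (0 : ℝ) < L := by exact_mod_cast hL
      apply one_div_le_one_div_of_le (by positivity)
      push_cast; linarith)
    rw [← hsd, ← hq] at this
    exact this
  have hterm : ∀ j : ℕ, 0 ≤ q ^ (j + 1) / ((j : ℝ) + 1) := fun j => by positivity
  have hbound : ∀ n : ℕ, ∑ j ∈ range n, q ^ (j + 1) / ((j : ℝ) + 1) ≤ (harmonic L : ℝ) + Λφ L N φ := by
    intro n
    have e1 : ∑ j ∈ range n, q ^ (j + 1) / ((j : ℝ) + 1) ≤
        ∑ j ∈ range (L + n), q ^ (j + 1) / ((j : ℝ) + 1) :=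
      Finset.sum_le_sum_of_subset_of_nonneg (Finset.range_subset_range.2 (by omega))
        (fun j _ _ => hterm j)
    rw [Finset.sum_range_add] at e1
    have e2 : ∑ j ∈ range L, q ^ (j + 1) / ((j : ℝ) + 1) ≤ (harmonic L : ℝ) := by
      unfold harmonic
      push_cast
      apply Finset.sum_le_sum
      intro j _
      rw [div_eq_mul_inv]
      have : q ^ (j + 1) ≤ 1 := pow_le_one₀ q0.le q1.le
      have h2 : (0 : ℝ) ≤ ((j : ℝ) + 1)⁻¹ := by positivity
      nlinarith
    have e3 : ∑ j ∈ range n, q ^ (L + j + 1) / (((L + j : ℕ) : ℝ) + 1) ≤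
        ∑ r ∈ range n, q ^ (r + 1) * g L (r + 1) := by
      apply Finset.sum_le_sum
      intro j _
      unfold g
      rw [div_eq_mul_one_div]
      have e4 : (((L + j : ℕ) : ℝ) + 1) = (((j + 1 : ℕ) : ℝ) + L) := by push_cast; ring
      rw [e4]
      have e5 : q ^ (L + j + 1) ≤ q ^ (j + 1) := pow_le_pow_of_le_one q0.le q1.le (by omega)
      have h2 : (0 : ℝ) ≤ 1 / (((j + 1 : ℕ) : ℝ) + L) := by positivity
      exact mul_le_mul_of_nonneg_right e5 h2
    have e6 := hcross n
    linarith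
  have hlim := hS.tendsto_sum_nat
  have := le_of_tendsto' hlim hbound
  rw [hlog] at this
  linarith

end Pool.Agent.H358R5
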