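import Mathlib
import Pool.Agent.H358R5.Stubs

namespace Pool.Agent.H358R5

open Finset

namespace GC

lemma abel (φ h : ℕ → ℝ) (n : ℕ) : ∑ r ∈ range n, φ (r + 1) * h r =
    ∑ r ∈ range n, (φ r - φ (r + 1)) * (∑ c ∈ range r, h c) + φ n * ∑ c ∈ range n, h c := by
  induction n with
  | zero => simp
  | succ n ih =>
    rw [sum_range_succ, ih, sum_range_succ _ n, sum_range_succ (fun c => h c) n]
    ring

lemma Bg_le (L r : ℕ) (hL : 1 ≤ L) :
    ∑ c ∈ range r, g L (c + 1) ≤ Real.log (1 + (r : ℝ) / L) := by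
  have hL0 : (0 : ℝ) < L := by exact_mod_cast hL
  induction r with
  | zero => simp
  | succ r ih =>
    rw [sum_range_succ]
    have h1 : (0 : ℝ) < (r : ℝ) + L := by positivity
    have e1 : 1 + ((r + 1 : ℕ) : ℝ) / L = (1 + (r : ℝ) / L) * (((r : ℝ) + 1 + L) / ((r : ℝ) + L)) := by
      push_cast; field_simp; ring
    have h2 : 1 - (((r : ℝ) + 1 + L) / ((r : ℝ) + L))⁻¹ ≤ Real.log (((r : ℝ) + 1 + L) / ((r : ℝ) + L)) :=
      Real.one_sub_inv_le_log_of_pos (by positivity)
    have e2 : g L (r + 1) = 1 - (((r : ℝ) + 1 + L) / ((r : ℝ) + L))⁻¹ := by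
      unfold g
      push_cast
      field_simp
      ring
    rw [e1, Real.log_mul (by positivity) (by positivity), e2]
    linarith

end GC

theorem GC_proof : S_GC := by
  intro L N φ hL hφ
  have hL0 : (0 : ℝ) < L := by exact_mod_cast hL
  set s := sφ N φ with hs
  have hs0 : 0 ≤ s := sum_nonneg fun r _ => hφ.nonneg _
  have key : ∀ r : ℕ, ∑ c ∈ range r, g L (c + 1) ≤ Real.log (1 + s / L) + ((r : ℝ) - s) / (L + s) := by
    intro r
    refine (GC.Bg_le L r hL).trans ?_
    have e1 : 1 + (r : ℝ) / L = (1 + s / L) * (((L : ℝ) + r) / (L + s)) := by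
      field_simp
    have h2 : Real.log (((L : ℝ) + r) / (L + s)) ≤ ((L : ℝ) + r) / (L + s) - 1 :=
      Real.log_le_sub_one_of_pos (by positivity)
    have e2 : ((L : ℝ) + r) / (L + s) - 1 = ((r : ℝ) - s) / (L + s) := by
      field_simp; ring
    rw [e1, Real.log_mul (by positivity) (by positivity), ← e2]
    linarith
  have a1 := GC.abel φ (fun r => g L (r + 1)) N
  have a2 := GC.abel φ (fun _ => 1) N
  have a3 : ∑ r ∈ range N, (φ r - φ (r + 1)) = 1 - φ N := by
    rw [sum_range_sub', hφ.zero]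
  simp only [mul_one, sum_const, card_range, nsmul_eq_mul] at a2
  change Λφ L N φ = _ at a1
  change s = _ at a2
  rw [a1]
  calc ∑ r ∈ range N, (φ r - φ (r + 1)) * (∑ c ∈ range r, g L (c + 1)) +
        φ N * ∑ c ∈ range N, g L (c + 1)
      ≤ ∑ r ∈ range N, (φ r - φ (r + 1)) * (Real.log (1 + s / L) + ((r : ℝ) - s) / (L + s)) +
        φ N * (Real.log (1 + s / L) + ((N : ℝ) - s) / (L + s)) := by
        apply add_le_add
        · apply sum_le_sum
          intro r _
          exact mul_le_mul_of_nonneg_left (key r) (sub_nonneg.2 (hφ.anti r))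
        · exact mul_le_mul_of_nonneg_left (key N) (hφ.nonneg N)
    _ = (∑ r ∈ range N, (φ r - φ (r + 1))) * (Real.log (1 + s / L) - s / (L + s)) +
        (∑ r ∈ range N, (φ r - φ (r + 1)) * (r : ℝ)) / (L + s) +
        φ N * (Real.log (1 + s / L) + ((N : ℝ) - s) / (L + s)) := by
        congr 1
        rw [sum_mul, sum_div, ← sum_add_distrib]
        refine sum_congr rfl fun r _ => ?_
        ring
    _ = Real.log (1 + s / L) := by
        have a4 : ∑ r ∈ range N, (φ r - φ (r + 1)) * (r : ℝ) = s - φ N * N := by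
          linarith
        rw [a3, a4]
        field_simp
        ring

end Pool.Agent.H358R5
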