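import Mathlib
import Pool.Agent.H358R5.Stubs

/-! GD: `(1+s) p ≥ s/(L+1) - Λ`. -/

open Finset

namespace Pool.Agent.H358R5

theorem GD_g_pos {L : ℕ} (hL : 1 ≤ L) (c : ℕ) : 0 < g L c := by
  have h1 : (1 : ℝ) ≤ L := by exact_mod_cast hL
  have h2 : (0 : ℝ) ≤ c := Nat.cast_nonneg c
  unfold g
  positivity

theorem GD_g_anti {L : ℕ} (hL : 1 ≤ L) (c : ℕ) : g L (c + 1) ≤ g L c := by
  have h1 : (1 : ℝ) ≤ L := by exact_mod_cast hL
  have h2 : (0 : ℝ) ≤ c := Nat.cast_nonneg c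
  unfold g
  apply one_div_le_one_div_of_le (by positivity)
  push_cast
  linarith

theorem GD_g_le_one {L : ℕ} (hL : 1 ≤ L) (c : ℕ) : g L c ≤ 1 := by
  have h1 : (1 : ℝ) ≤ L := by exact_mod_cast hL
  have h2 : (0 : ℝ) ≤ c := Nat.cast_nonneg c
  unfold g
  rw [div_le_one (by positivity)]
  linarith

theorem GD_sq {L : ℕ} (hL : 1 ≤ L) (c : ℕ) : g L c - g L (c + 1) ≤ g L c ^ 2 := by
  have h1 : (1 : ℝ) ≤ L := by exact_mod_cast hL
  have h2 : (0 : ℝ) ≤ c := Nat.cast_nonneg c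
  have h3 : (0 : ℝ) < (c : ℝ) + L := by linarith
  have h4 : (0 : ℝ) < ((c + 1 : ℕ) : ℝ) + L := by push_cast; linarith
  have e : g L c - g L (c + 1) = g L c * g L (c + 1) := by
    unfold g
    field_simp
    push_cast
    ring
  rw [e, sq]
  exact mul_le_mul_of_nonneg_left (GD_g_anti hL c) (GD_g_pos hL c).le

theorem GD_parts {L : ℕ} (hL : 1 ≤ L) {q : ℝ} (h0 : 0 ≤ q) (h1 : q ≤ 1) (R : ℕ) :
    q * g L 1 - (1 - q) * (∑ r ∈ range R, q ^ (r + 1) * g L (r + 1)) - q ^ (R + 1) * g L (R + 2) ≤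
      ∑ r ∈ range (R + 1), q ^ (r + 1) * (g L (r + 1) - g L (r + 2)) := by
  induction R with
  | zero => simp; ring_nf; rfl
  | succ R ih =>
    rw [sum_range_succ _ R, sum_range_succ _ (R + 1)]
    have h2 := GD_g_anti hL (R + 1)
    have h3 : 0 ≤ (1 - q) * q ^ (R + 1) * (g L (R + 1) - g L (R + 2)) := by
      have : 0 ≤ q ^ (R + 1) := by positivity
      have h4 : 0 ≤ 1 - q := by linarith
      have h5 : 0 ≤ g L (R + 1) - g L (R + 2) := by
        have : g L (R + 1 + 1) = g L (R + 2) := rfl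
        linarith
      positivity
    have e : q ^ (R + 1 + 1) = q * q ^ (R + 1) := by ring
    have e2 : g L (R + 1 + 1) = g L (R + 2) := rfl
    rw [e, e2]
    nlinarith [h3, ih]

theorem GD_proof (h : S_CROSS) : S_GD := by
  intro L N φ hL hφ hs
  set s := sφ N φ with hsdef
  have hs1 : 0 < 1 + s := by linarith
  set q := s / (1 + s) with hq
  have hq0 : 0 ≤ q := by positivity
  have hq1 : q < 1 := by
    rw [hq, div_lt_one hs1]
    linarith
  have hq2 : (1 + s) * q = s := by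
    rw [hq]
    field_simp
  have hg := GD_g_pos hL
  have hga := GD_g_anti hL
  -- the two comparisons
  have hp : ∀ R, ∑ r ∈ range R, q ^ (r + 1) * g L (r + 1) ^ 2 ≤ pφ L N φ := by
    intro R
    exact h N R φ (fun r => g L r ^ 2) hφ hs (fun r => sq_nonneg _)
      (fun r => pow_le_pow_left₀ (hg _).le (hga r) 2)
  have hΛ : ∀ R, ∑ r ∈ range R, q ^ (r + 1) * g L (r + 1) ≤ Λφ L N φ := by
    intro R
    exact h N R φ (fun r => g L r) hφ hs (fun r => (hg r).le) (fun r => hga r)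
  have key : ∀ R : ℕ, q * g L 1 - (1 - q) * Λφ L N φ - pφ L N φ ≤ q ^ (R + 1) := by
    intro R
    have h1 := GD_parts hL hq0 hq1.le R
    have h2 : ∑ r ∈ range (R + 1), q ^ (r + 1) * (g L (r + 1) - g L (r + 2)) ≤
        ∑ r ∈ range (R + 1), q ^ (r + 1) * g L (r + 1) ^ 2 := by
      apply sum_le_sum
      intro r _
      exact mul_le_mul_of_nonneg_left (GD_sq hL (r + 1)) (by positivity)
    have h3 := hp (R + 1)
    have h4 : (1 - q) * (∑ r ∈ range R, q ^ (r + 1) * g L (r + 1)) ≤ (1 - q) * Λφ L N φ :=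
      mul_le_mul_of_nonneg_left (hΛ R) (by linarith)
    have h5 : q ^ (R + 1) * g L (R + 2) ≤ q ^ (R + 1) * 1 :=
      mul_le_mul_of_nonneg_left (GD_g_le_one hL _) (by positivity)
    linarith
  have hlim : q * g L 1 - (1 - q) * Λφ L N φ - pφ L N φ ≤ 0 := by
    have h1 : Filter.Tendsto (fun R : ℕ => q ^ (R + 1)) Filter.atTop (nhds 0) :=
      (tendsto_pow_atTop_nhds_zero_of_lt_one hq0 hq1).comp (Filter.tendsto_add_atTop_nat 1)
    exact ge_of_tendsto' h1 key
  have h6 : (1 + s) * (q * g L 1 - (1 - q) * Λφ L N φ - pφ L N φ) ≤ 0 :=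
    mul_nonpos_of_nonneg_of_nonpos hs1.le hlim
  have h7 : (1 + s) * (q * g L 1 - (1 - q) * Λφ L N φ - pφ L N φ) =
      s * g L 1 - Λφ L N φ - (1 + s) * pφ L N φ := by
    linear_combination (g L 1 + Λφ L N φ) * hq2
  have h8 : s * g L 1 = s / (L + 1) := by
    unfold g
    push_cast
    rw [mul_one_div, add_comm (1 : ℝ)]
  rw [h7, h8] at h6
  linarith

end Pool.Agent.H358R5
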