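import Mathlib
import Pool.Agent.H358R5.Stubs

open Finset

namespace Pool.Agent.H358R5

theorem GE_proof : S_GE := by
  intro L N φ _ hφ
  unfold Λφ sφ pφ
  refine Finset.sum_sq_le_sum_mul_sum_of_sq_eq_mul _ (fun r _ => hφ.nonneg _)
    (fun r _ => mul_nonneg (hφ.nonneg _) (sq_nonneg _)) (fun r _ => ?_)
  ring

end Pool.Agent.H358R5
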