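import Mathlib
import Pool.Agent.H358R5.Stubs

open Finset

namespace Pool.Agent.H358R5

theorem GF_proof (h : S_CROSS) : S_GF := by
  intro L N φ hL hφ hs
  set s := sφ N φ with hsdef
  have hL' : (1 : ℝ) ≤ L := by exact_mod_cast hL
  have hgpos : ∀ r : ℕ, 0 ≤ g L r := fun r => by
    unfold g
    positivity
  have hganti : ∀ r : ℕ, g L (r + 1) ≤ g L r := fun r => by
    unfold g
    apply one_div_le_one_div_of_le
    · positivity
    · push_cast
      linarith
  have hcross : ∀ R : ℕ, ∑ r ∈ range R, (s / (1 + s)) ^ (r + 1) * g L (r + 1) ≤ Λφ L N φ :=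
    fun R => h N R φ (g L) hφ hs hgpos hganti
  set q := s / (1 + s) with hq
  have h1s : 0 < 1 + s := by linarith
  have hq0 : 0 < q := div_pos hs h1s
  have hq1 : q < 1 := by
    rw [hq, div_lt_one h1s]
    linarith
  have h1q : 1 - q = 1 / (1 + s) := by
    rw [hq]
    field_simp
    ring
  set M := 1 + s + (L : ℝ) with hM
  have hMpos : 0 < M := by positivity
  have htan : ∀ r : ℕ, 1 / M - 1 / M ^ 2 * (((r : ℝ)) - (1 + s)) ≤ g L r := fun r => by
    unfold g
    have hrL : 0 < (r : ℝ) + L := by positivity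
    have e : 1 / ((r : ℝ) + L) - (1 / M - 1 / M ^ 2 * (((r : ℝ)) - (1 + s))) =
        ((r : ℝ) + L - M) ^ 2 / (M ^ 2 * ((r : ℝ) + L)) := by
      have hMe : (1 + s) = M - L := by rw [hM]; ring
      rw [hMe]
      field_simp
      ring
    have : 0 ≤ ((r : ℝ) + L - M) ^ 2 / (M ^ 2 * ((r : ℝ) + L)) := by positivity
    linarith
  -- the series
  have hqn : ‖q‖ < 1 := by
    rw [Real.norm_of_nonneg hq0.le]
    exact hq1
  have S1 : HasSum (fun n : ℕ => (n : ℝ) * q ^ n) (q / (1 - q) ^ 2) :=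
    hasSum_coe_mul_geometric_of_norm_lt_one hqn
  have S0 : HasSum (fun n : ℕ => q ^ n) (1 - q)⁻¹ := hasSum_geometric_of_lt_one hq0.le hq1
  have SF : HasSum (fun n : ℕ => q ^ n * (1 / M - 1 / M ^ 2 * (((n : ℝ)) - (1 + s))))
      ((1 / M + 1 / M ^ 2 * (1 + s)) * (1 - q)⁻¹ - 1 / M ^ 2 * (q / (1 - q) ^ 2)) := by
    have e := (S0.mul_left (1 / M + 1 / M ^ 2 * (1 + s))).sub (S1.mul_left (1 / M ^ 2))
    have e2 : (fun n : ℕ => q ^ n * (1 / M - 1 / M ^ 2 * (((n : ℝ)) - (1 + s)))) =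
        fun n : ℕ => (1 / M + 1 / M ^ 2 * (1 + s)) * q ^ n - 1 / M ^ 2 * ((n : ℝ) * q ^ n) := by
      funext n
      ring
    rw [e2]
    exact e
  have hlim := ((hasSum_nat_add_iff' (f := fun n : ℕ => q ^ n *
    (1 / M - 1 / M ^ 2 * (((n : ℝ)) - (1 + s)))) 1).mpr SF).tendsto_sum_nat
  have hle := le_of_tendsto hlim (Filter.Eventually.of_forall fun R => by
    calc ∑ i ∈ range R, q ^ (i + 1) * (1 / M - 1 / M ^ 2 * (((i + 1 : ℕ) : ℝ) - (1 + s)))
        ≤ ∑ r ∈ range R, q ^ (r + 1) * g L (r + 1) :=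
          Finset.sum_le_sum fun r _ => mul_le_mul_of_nonneg_left (htan (r + 1)) (by positivity)
      _ ≤ Λφ L N φ := hcross R)
  refine le_trans (le_of_eq ?_) hle
  rw [h1q, hq, sum_range_one]
  push_cast
  field_simp
  ring

end Pool.Agent.H358R5

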