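import Mathlib
import Pool.Agent.H358R5.Stubs

open Finset

namespace Pool.Agent.H358R5

namespace GGaux

theorem le_one {N : ℕ} {φ : ℕ → ℝ} (h : LCT N φ) (r : ℕ) : φ r ≤ 1 := by
  induction r with
  | zero => exact h.zero.le
  | succ r ih => exact (h.anti r).trans ih

theorem g_sq_le (L r : ℕ) (hL : 1 ≤ L) :
    g L (r + 1) ^ 2 ≤ 1 / ((r : ℝ) + L) - 1 / (((r + 1 : ℕ) : ℝ) + L) := by
  have hL' : (1 : ℝ) ≤ L := by exact_mod_cast hL
  have hr : (0 : ℝ) ≤ r := Nat.cast_nonneg r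
  have h1 : (0 : ℝ) < (r : ℝ) + L := by linarith
  unfold g
  push_cast
  rw [div_sub_div _ _ h1.ne' (by positivity), div_pow, one_pow,
    div_le_div_iff₀ (by positivity) (by positivity)]
  nlinarith

end GGaux

theorem GG_proof : S_GG := by
  intro L N φ hL h
  have hL' : (1 : ℝ) ≤ L := by exact_mod_cast hL
  have hpos : (0 : ℝ) < L := by linarith
  have h1 : pφ L N φ ≤ ∑ r ∈ range N, (1 / ((r : ℝ) + L) - 1 / (((r + 1 : ℕ) : ℝ) + L)) := by
    unfold pφ
    refine Finset.sum_le_sum fun r _ => ?_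
    calc φ (r + 1) * g L (r + 1) ^ 2 ≤ 1 * g L (r + 1) ^ 2 :=
          mul_le_mul_of_nonneg_right (GGaux.le_one h _) (sq_nonneg _)
      _ = g L (r + 1) ^ 2 := one_mul _
      _ ≤ _ := GGaux.g_sq_le L r hL
  rw [Finset.sum_range_sub' (fun r : ℕ => 1 / ((r : ℝ) + L))] at h1
  have h2 : (0 : ℝ) ≤ 1 / ((N : ℝ) + L) := by positivity
  have h3 : pφ L N φ ≤ 1 / L := by
    simp only [Nat.cast_zero, zero_add] at h1
    linarith
  calc (L : ℝ) * pφ L N φ ≤ L * (1 / L) := mul_le_mul_of_nonneg_left h3 hpos.le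
    _ = 1 := by field_simp

end Pool.Agent.H358R5
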