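import Mathlib
import Pool.Agent.H358R5.Stubs

/-! IDENT: the virial identity (helper794). -/

open Finset

namespace Pool.Agent.H358R5

namespace IDENTh

/-- exchange of sums -/
theorem exch (w a F : ℕ → ℝ) (N : ℕ) :
    ∑ s ∈ range (N + 1), (∑ c ∈ range s, w c * a (s - 1 - c)) * F s =
      ∑ c ∈ range N, w c * ∑ s ∈ range (N - 1 - c + 1), a s * F (s + c + 1) := by
  induction N with
  | zero => simp
  | succ N ih =>
    rw [Finset.sum_range_succ, ih,
      Finset.sum_range_succ (fun c => w c * ∑ s ∈ range (N + 1 - 1 - c + 1), a s * F (s + c + 1)) N]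
    have e1 : ∀ c ∈ range N, w c * ∑ s ∈ range (N + 1 - 1 - c + 1), a s * F (s + c + 1) =
        w c * (∑ s ∈ range (N - 1 - c + 1), a s * F (s + c + 1)) +
          w c * a (N + 1 - 1 - c) * F (N + 1) := by
      intro c hc
      have hc' := Finset.mem_range.1 hc
      have e : N + 1 - 1 - c + 1 = (N - 1 - c + 1) + 1 := by omega
      rw [e, Finset.sum_range_succ]
      have e' : N - 1 - c + 1 = N + 1 - 1 - c := by omega
      have e'' : N - 1 - c + 1 + c + 1 = N + 1 := by omega
      rw [e'', e']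
      ring
    rw [Finset.sum_congr rfl e1, Finset.sum_add_distrib,
      Finset.sum_range_succ (fun c => w c * a (N + 1 - 1 - c)) N]
    have e2 : N + 1 - 1 - N + 1 = 1 := by omega
    have e3 : N + 1 - 1 - N = 0 := by omega
    rw [e2, e3, Finset.sum_range_one, add_mul, Finset.sum_mul]
    have e4 : 0 + N + 1 = N + 1 := by omega
    rw [e4]
    ring

noncomputable def M (L n N : ℕ) : ℝ := ∑ s ∈ range (N + 1), A L n s * (s : ℝ)

theorem M_eq (L n N : ℕ) : (N : ℝ) * D L n N - P L n N = M L n N := by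
  induction N with
  | zero => simp [M, P]
  | succ N ih =>
    have h1 : D L n (N + 1) = D L n N + A L n (N + 1) := by
      simp only [D]; rw [Finset.sum_range_succ]
    have h2 : P L n (N + 1) = P L n N + D L n N := by
      simp only [P]; rw [Finset.sum_range_succ]
    have h3 : M L n (N + 1) = M L n N + A L n (N + 1) * ((N + 1 : ℕ) : ℝ) := by
      simp only [M]; rw [Finset.sum_range_succ]
    rw [h1, h2, h3, ← ih]
    push_cast
    ring

theorem conv1 (L n x : ℕ) :
    D L (n + 1) x = ∑ c ∈ range x, g L (c + 1) ^ 2 * D L n (x - 1 - c) := by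
  have h := exch (fun c => g L (c + 1) ^ 2) (A L n) (fun _ => 1) x
  simp only [mul_one] at h
  simp only [D, A]
  exact h

theorem M_succ (L n N : ℕ) : M L (n + 1) N =
    ∑ c ∈ range N, g L (c + 1) ^ 2 * (((c : ℝ) + 1) * D L n (N - 1 - c) + M L n (N - 1 - c)) := by
  have h := exch (fun c => g L (c + 1) ^ 2) (A L n) (fun s => (s : ℝ)) N
  have h0 : M L (n + 1) N = ∑ s ∈ range (N + 1),
      (∑ c ∈ range s, g L (c + 1) ^ 2 * A L n (s - 1 - c)) * (s : ℝ) := by
    simp only [M, A]
  rw [h0, h]
  refine Finset.sum_congr rfl (fun c _ => ?_)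
  congr 1
  simp only [D, M]
  rw [Finset.mul_sum, ← Finset.sum_add_distrib]
  refine Finset.sum_congr rfl (fun s _ => ?_)
  push_cast
  ring

theorem T_conv (L n N : ℕ) :
    ∑ c ∈ range N, g L (c + 1) ^ 2 * T L n (N - 1 - c) = T L (n + 1) N := by
  have h1 : ∀ c ∈ range N, g L (c + 1) ^ 2 * T L n (N - 1 - c) =
      ∑ r ∈ range (N - 1 - c), g L (c + 1) ^ 2 * (g L (r + 1) * D L n (N - 1 - c - 1 - r)) := by
    intro c _
    simp only [T]
    rw [Finset.mul_sum]
  rw [Finset.sum_congr rfl h1]
  rw [Finset.sum_comm' (t' := range N) (s' := fun r => range (N - 1 - r)) (by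
    intro x y
    simp only [Finset.mem_range]
    omega)]
  simp only [T]
  refine Finset.sum_congr rfl (fun r _ => ?_)
  rw [conv1, Finset.mul_sum]
  refine Finset.sum_congr rfl (fun c _ => ?_)
  have e : N - 1 - c - 1 - r = N - 1 - r - 1 - c := by omega
  rw [e]
  ring

theorem key (L c : ℕ) (hL : 1 ≤ L) :
    g L (c + 1) ^ 2 * ((c : ℝ) + 1) = g L (c + 1) - L * g L (c + 1) ^ 2 := by
  have hL' : (1 : ℝ) ≤ L := by exact_mod_cast hL
  have hc : (0 : ℝ) ≤ c := Nat.cast_nonneg c
  have h : (c : ℝ) + 1 + L ≠ 0 := by positivity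
  simp only [g]
  push_cast
  field_simp
  ring

theorem M_zero (L N : ℕ) : M L 0 N = 0 := by
  simp only [M, A]
  refine Finset.sum_eq_zero (fun s _ => ?_)
  split_ifs with h
  · subst h; simp
  · simp

theorem main (L n : ℕ) (hL : 1 ≤ L) : ∀ N : ℕ,
    M L (n + 1) N = (n + 1) * (T L n N - L * D L (n + 1) N) := by
  have hfirst : ∀ n N : ℕ, ∑ c ∈ range N, g L (c + 1) ^ 2 * (((c : ℝ) + 1) * D L n (N - 1 - c)) =
      T L n N - L * D L (n + 1) N := by
    intro n N
    rw [conv1, T, Finset.mul_sum, ← Finset.sum_sub_distrib]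
    refine Finset.sum_congr rfl (fun c _ => ?_)
    rw [← mul_assoc, key L c hL]
    ring
  induction n with
  | zero =>
    intro N
    rw [M_succ]
    simp only [M_zero, add_zero]
    rw [hfirst]
    push_cast
    ring
  | succ n ih =>
    intro N
    rw [M_succ]
    simp only [mul_add, Finset.sum_add_distrib]
    have h2 : ∑ c ∈ range N, g L (c + 1) ^ 2 * M L (n + 1) (N - 1 - c) =
        (n + 1) * (T L (n + 1) N - L * D L (n + 1 + 1) N) := by
      simp only [ih]
      rw [← T_conv, conv1 L (n + 1) N, Finset.mul_sum, ← Finset.sum_sub_distrib, Finset.mul_sum]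
      refine Finset.sum_congr rfl (fun c _ => ?_)
      ring
    have h3 := hfirst (n + 1) N
    simp only [mul_add, add_mul, Finset.sum_add_distrib, one_mul] at h3 ⊢
    rw [h3, h2]
    push_cast
    ring

end IDENTh

open IDENTh

theorem IDENT_proof : S_IDENT := by
  intro L n N hL
  rw [M_eq]
  exact main L n hL N

end Pool.Agent.H358R5
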