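import Mathlib
import Pool.Agent.H358R5.Stubs

open Finset

namespace Pool.Agent.H358R5

namespace ZLCD

theorem g_pos (L c : ℕ) (hL : 1 ≤ L) : 0 < g L c := by
  unfold g
  have : (0 : ℝ) < L := by exact_mod_cast hL
  positivity

theorem A_nonneg (L : ℕ) (n : ℕ) : ∀ s, 0 ≤ A L n s := by
  induction n with
  | zero => intro s; unfold A; split <;> norm_num
  | succ n ih =>
    intro s
    unfold A
    exact sum_nonneg fun c _ => mul_nonneg (sq_nonneg _) (ih _)

theorem A_diag_pos (L : ℕ) (hL : 1 ≤ L) (n : ℕ) : 0 < A L n n := by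
  induction n with
  | zero => simp [A]
  | succ n ih =>
    unfold A
    refine sum_pos' (fun c _ => mul_nonneg (sq_nonneg _) (A_nonneg L n _)) ⟨0, by simp, ?_⟩
    have h1 : n + 1 - 1 - 0 = n := by omega
    rw [h1]
    exact mul_pos (pow_pos (g_pos L _ hL) 2) ih

theorem D_nonneg (L n x : ℕ) : 0 ≤ D L n x := sum_nonneg fun _ _ => A_nonneg L n _

theorem D_mono (L n x : ℕ) : D L n x ≤ D L n (x + 1) := by
  unfold D
  rw [sum_range_succ _ (x + 1)]
  have := A_nonneg L n (x + 1)
  linarith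

theorem D_pos (L n x : ℕ) (hL : 1 ≤ L) (h : n ≤ x) : 0 < D L n x := by
  unfold D
  exact sum_pos' (fun s _ => A_nonneg L n s) ⟨n, by simp; omega, A_diag_pos L hL n⟩

/-- extension to the integers -/
noncomputable def Dz (L n : ℕ) (x : ℤ) : ℝ := if x < 0 then 0 else D L n x.toNat

noncomputable def wz (L : ℕ) (c : ℤ) : ℝ := if 1 ≤ c then 1 / ((c : ℝ) + L) ^ 2 else 0

theorem Dz_nat (L n x : ℕ) : Dz L n (x : ℤ) = D L n x := by
  simp [Dz]

theorem Dz_neg (L n : ℕ) (x : ℤ) (h : x < 0) : Dz L n x = 0 := by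
  simp [Dz, h]

theorem Dz_nonneg (L n : ℕ) (x : ℤ) : 0 ≤ Dz L n x := by
  unfold Dz
  split
  · exact le_refl _
  · exact D_nonneg _ _ _

theorem Dz_mono (L n : ℕ) (x : ℤ) : Dz L n x ≤ Dz L n (x + 1) := by
  rcases lt_or_ge x 0 with h | h
  · rw [Dz_neg _ _ _ h]; exact Dz_nonneg _ _ _
  · lift x to ℕ using h
    have : ((x : ℤ) + 1) = ((x + 1 : ℕ) : ℤ) := by push_cast; ring
    rw [this, Dz_nat, Dz_nat]
    exact D_mono _ _ _

theorem Dz_conv (h2 : S_CONV1) (L n : ℕ) (x : ℤ) :
    Dz L (n + 1) x = ∑ c ∈ Icc 1 x, wz L c * Dz L n (x - c) := by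
  rcases lt_or_ge x 0 with h | h
  · rw [Dz_neg _ _ _ h, Icc_eq_empty (by omega), sum_empty]
  · lift x to ℕ using h
    rw [Dz_nat, h2]
    refine sum_bij (fun c _ => (c : ℤ) + 1) ?_ ?_ ?_ ?_
    · intro c hc
      rw [mem_range] at hc
      rw [mem_Icc]; omega
    · intro a _ b _ hab
      omega
    · intro b hb
      rw [mem_Icc] at hb
      refine ⟨(b - 1).toNat, ?_, ?_⟩
      · rw [mem_range]; omega
      · omega
    · intro c hc
      rw [mem_range] at hc
      have e1 : ((x : ℤ) - ((c : ℤ) + 1)) = ((x - 1 - c : ℕ) : ℤ) := by omega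
      rw [e1, Dz_nat]
      congr 1
      unfold g wz
      rw [if_pos (by omega)]
      push_cast
      rw [div_pow, one_pow]

theorem lc (h1 : S_LCZ) (h2 : S_CONV1) (L n : ℕ) :
    ∀ y' y, y' ≤ y → D L n y' * D L n (y + 1) ≤ D L n y * D L n (y' + 1) := by
  induction n with
  | zero =>
    intro y' y _
    have hD : ∀ x, D L 0 x = 1 := by
      intro x
      unfold D
      rw [sum_eq_single_of_mem 0 (by simp) (by intro b _ hb; simp [A, hb])]
      simp [A]
    simp [hD]
  | succ n ih =>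
    intro y' y hy
    have key := h1 (wz L) (Dz L n) (Dz L (n + 1)) ?_ ?_ ?_ ?_ ?_ ?_ ?_ (Dz_conv h2 L n)
      (y' : ℤ) (y : ℤ) (by exact_mod_cast hy)
    · have e1 : ((y : ℤ) + 1) = ((y + 1 : ℕ) : ℤ) := by push_cast; ring
      have e2 : ((y' : ℤ) + 1) = ((y' + 1 : ℕ) : ℤ) := by push_cast; ring
      rw [e1, e2, Dz_nat, Dz_nat, Dz_nat, Dz_nat] at key
      exact key
    · intro c hc
      unfold wz
      rw [if_neg (by omega)]
    · intro c
      unfold wz
      split
      · positivity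
      · exact le_refl _
    · intro c hc
      unfold wz
      rw [if_pos (by omega), if_pos hc]
      have hc' : (1 : ℝ) ≤ c := by exact_mod_cast hc
      have hL : (0 : ℝ) ≤ L := Nat.cast_nonneg L
      apply one_div_le_one_div_of_le
      · positivity
      · push_cast
        apply pow_le_pow_left₀ (by positivity)
        linarith
    · intro x hx; exact Dz_neg _ _ _ hx
    · intro x; exact Dz_nonneg _ _ _
    · intro x; exact Dz_mono _ _ _
    · intro a b hab
      rcases lt_or_ge a 0 with h | h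
      · rw [Dz_neg _ _ _ h, zero_mul]
        exact mul_nonneg (Dz_nonneg _ _ _) (Dz_nonneg _ _ _)
      · have hb : 0 ≤ b := le_trans h hab
        lift a to ℕ using h
        lift b to ℕ using hb
        have e1 : ((b : ℤ) + 1) = ((b + 1 : ℕ) : ℤ) := by push_cast; ring
        have e2 : ((a : ℤ) + 1) = ((a + 1 : ℕ) : ℤ) := by push_cast; ring
        rw [e1, e2, Dz_nat, Dz_nat, Dz_nat, Dz_nat]
        exact ih a b (by exact_mod_cast hab)

end ZLCD

open ZLCD in
theorem LCD_proof (h1 : S_LCZ) (h2 : S_CONV1) : S_LCD := fun L n hL =>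
  ⟨A_nonneg L n, D_nonneg L n, D_mono L n, fun x hx => D_pos L n x hL hx, lc h1 h2 L n⟩

end Pool.Agent.H358R5
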