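import Mathlib
import Pool.Agent.H358R5.Stubs

set_option autoImplicit false

open Finset

namespace Pool.Agent.H358R5

/-- Abel summation inequality -/
theorem LCZ_abel (f r : ℕ → ℝ) (n : ℕ) (hQ : ∀ i, i < n → 0 ≤ ∑ j ∈ range (i + 1), r j)
    (hf : ∀ i, i + 1 < n → f (i + 1) ≤ f i) (hf0 : ∀ i, i < n → 0 ≤ f i) :
    0 ≤ ∑ i ∈ range n, f i * r i := by
  have key : ∀ m, m < n → f m * ∑ j ∈ range (m + 1), r j ≤ ∑ i ∈ range (m + 1), f i * r i := by
    intro m
    induction m with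
    | zero => intro _; simp
    | succ m ih =>
      intro hm
      have h1 := ih (by omega)
      rw [Finset.sum_range_succ r (m + 1), Finset.sum_range_succ (fun i => f i * r i) (m + 1)]
      have h2 := hf m hm
      have h3 := hQ m (by omega)
      nlinarith
  rcases n with _ | m
  · simp
  · have h1 := key m (by omega)
    have h2 := mul_nonneg (hf0 m (by omega)) (hQ m (by omega))
    linarith

/-- the symmetrised double sum -/
theorem LCZ_double (a b p v : ℕ → ℝ)
    (h : ∀ n, 0 ≤ ∑ i ∈ range n, (a i * b n - a n * b i) * (p i * v n - v i * p n)) (n : ℕ) :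
    0 ≤ (∑ i ∈ range n, p i * a i) * (∑ i ∈ range n, v i * b i) -
      (∑ i ∈ range n, v i * a i) * (∑ i ∈ range n, p i * b i) := by
  induction n with
  | zero => simp
  | succ n ih =>
    have e : ∑ i ∈ range n, (a i * b n - a n * b i) * (p i * v n - v i * p n) =
        b n * v n * (∑ i ∈ range n, p i * a i) - b n * p n * (∑ i ∈ range n, v i * a i)
        - a n * v n * (∑ i ∈ range n, p i * b i) + a n * p n * (∑ i ∈ range n, v i * b i) := by
      rw [Finset.mul_sum, Finset.mul_sum, Finset.mul_sum, Finset.mul_sum,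
        ← Finset.sum_sub_distrib, ← Finset.sum_sub_distrib, ← Finset.sum_add_distrib]
      refine Finset.sum_congr rfl ?_
      intro i _
      ring
    have h1 := h n
    rw [e] at h1
    rw [Finset.sum_range_succ, Finset.sum_range_succ, Finset.sum_range_succ,
      Finset.sum_range_succ]
    nlinarith

/-- shifts decrease partial sums -/
theorem LCZ_shift (w : ℤ → ℝ) (hw0 : ∀ c, c ≤ 0 → w c = 0) (hw : ∀ c, 0 ≤ w c) (m k : ℕ) :
    ∑ t ∈ range m, w ((t : ℤ) + 1 - k) ≤ ∑ t ∈ range m, w ((t : ℤ) + 1) := by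
  induction k with
  | zero => simp
  | succ k ih =>
    refine le_trans ?_ ih
    have h1 : ∑ t ∈ range m, (w (((t + 1 : ℕ) : ℤ) - k) - w ((t : ℤ) - k)) =
        w ((m : ℤ) - k) - w (((0 : ℕ) : ℤ) - k) :=
      Finset.sum_range_sub (fun t : ℕ => w ((t : ℤ) - k)) m
    rw [Finset.sum_sub_distrib] at h1
    have h2 : w (((0 : ℕ) : ℤ) - k) = 0 := hw0 _ (by simp)
    have h3 := hw ((m : ℤ) - k)
    have e1 : ∑ t ∈ range m, w ((t : ℤ) + 1 - ((k + 1 : ℕ) : ℤ)) =
        ∑ t ∈ range m, w ((t : ℤ) - k) := by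
      refine Finset.sum_congr rfl ?_
      intro t _
      congr 1
      push_cast
      ring
    have e2 : ∑ t ∈ range m, w ((t : ℤ) + 1 - (k : ℤ)) =
        ∑ t ∈ range m, w (((t + 1 : ℕ) : ℤ) - k) := by
      refine Finset.sum_congr rfl ?_
      intro t _
      congr 1
    rw [e1, e2]
    linarith

theorem LCZ_anti (w : ℤ → ℝ) (hw : ∀ c, 1 ≤ c → w (c + 1) ≤ w c) (c : ℤ) (hc : 1 ≤ c) (k : ℕ) :
    w (c + k) ≤ w c := by
  induction k with
  | zero => simp
  | succ k ih =>
    have := hw (c + k) (by omega)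
    have e : c + ((k + 1 : ℕ) : ℤ) = c + k + 1 := by push_cast; ring
    rw [e]
    exact this.trans ih

theorem LCZ_mono (D : ℤ → ℝ) (hD : ∀ x, D x ≤ D (x + 1)) (x : ℤ) (k : ℕ) :
    D x ≤ D (x + k) := by
  induction k with
  | zero => simp
  | succ k ih =>
    have := hD (x + k)
    have e : x + ((k + 1 : ℕ) : ℤ) = x + k + 1 := by push_cast; ring
    rw [e]
    exact ih.trans this

/-- the representation of `H` -/
theorem LCZ_rep (w D : ℤ → ℝ) (hw0 : ∀ c, c ≤ 0 → w c = 0) (hD0 : ∀ x, x < 0 → D x = 0)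
    (z : ℤ) (k m : ℕ) (hzm : z + k ≤ m) :
    ∑ c ∈ Icc 1 z, w c * D (z - c) =
      ∑ i ∈ range m, w ((i : ℤ) + 1 - k) * D (z + k - ((i : ℤ) + 1)) := by
  refine Finset.sum_of_injOn (fun c : ℤ => (c - 1 + k).toNat) ?_ ?_ ?_ ?_
  · intro c hc c' hc' h
    simp only [coe_Icc, Set.mem_Icc] at hc hc'
    simp only at h
    omega
  · intro c hc
    simp only [coe_Icc, Set.mem_Icc] at hc
    simp only [coe_range, Set.mem_Iio]
    omega
  · intro i hi hni
    by_cases h1 : (i : ℤ) + 1 - k ≤ 0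
    · rw [hw0 _ h1, zero_mul]
    · by_cases h2 : z + k - ((i : ℤ) + 1) < 0
      · rw [hD0 _ h2, mul_zero]
      · exfalso
        apply hni
        refine ⟨(i : ℤ) + 1 - k, ?_, ?_⟩
        · simp only [coe_Icc, Set.mem_Icc]
          omega
        · simp only
          omega
  · intro c hc
    simp only [mem_Icc] at hc
    have e1 : (((c - 1 + k).toNat : ℕ) : ℤ) = c - 1 + k := by
      rw [Int.toNat_of_nonneg]; omega
    simp only [e1]
    congr 2 <;> ring

theorem LCZ_step (D : ℤ → ℝ) (hD0 : ∀ x, 0 ≤ D x) (hDm : ∀ x, D x ≤ D (x + 1))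
    (hlc : ∀ y' y, y' ≤ y → D y' * D (y + 1) ≤ D y * D (y' + 1)) (u u' : ℤ) (h : u' + 1 ≤ u) :
    D u' * (D (u + 1) - D u) ≤ D (u' + 1) * (D u - D (u - 1)) := by
  have h1 : D (u - 1) ≤ D u := by
    have := hDm (u - 1)
    rwa [sub_add_cancel] at this
  by_cases h0 : D (u - 1) = 0
  · have h2 : D u' ≤ D (u - 1) := by
      have := LCZ_mono D hDm u' (u - 1 - u').toNat
      rwa [Int.toNat_of_nonneg (by omega), show u' + (u - 1 - u') = u - 1 by ring] at this
    have h3 : D u' = 0 := le_antisymm (h2.trans h0.le) (hD0 _)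
    rw [h3, zero_mul]
    exact mul_nonneg (hD0 _) (by linarith)
  · have hpos : 0 < D (u - 1) := lt_of_le_of_ne (hD0 _) (Ne.symm h0)
    have h2 := hlc u' (u - 1) (by omega)
    rw [sub_add_cancel] at h2
    have h3 := hlc (u - 1) u (by omega)
    rw [sub_add_cancel] at h3
    -- h2 : D u' * D u ≤ D (u-1) * D (u'+1) ; h3 : D (u-1) * D (u+1) ≤ D u * D u
    have h4 : D (u - 1) * (D u' * (D (u + 1) - D u)) ≤
        D (u - 1) * (D (u' + 1) * (D u - D (u - 1))) := by
      have h5 : D u' * (D (u - 1) * D (u + 1)) ≤ D u' * (D u * D u) :=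
        mul_le_mul_of_nonneg_left h3 (hD0 _)
      have h6 : (D u' * D u) * (D u - D (u - 1)) ≤ (D (u - 1) * D (u' + 1)) * (D u - D (u - 1)) :=
        mul_le_mul_of_nonneg_right h2 (by linarith)
      nlinarith
    exact le_of_mul_le_mul_left h4 hpos

theorem LCZ_proof : S_LCZ := by
  intro w D H hw0 hw hwa hD0 hD hDm hlc hH y' y hy
  have hHnn : ∀ x, 0 ≤ H x := by
    intro x
    rw [hH]
    exact Finset.sum_nonneg (fun c _ => mul_nonneg (hw _) (hD _))
  by_cases hy0 : y < 0
  · have : H y' = 0 := by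
      rw [hH, Finset.Icc_eq_empty (by omega), Finset.sum_empty]
    rw [this, zero_mul]
    exact mul_nonneg (hHnn _) (hHnn _)
  · obtain ⟨k, hk⟩ : ∃ k : ℕ, y' + k = y := ⟨(y - y').toNat, by omega⟩
    obtain ⟨n, hn⟩ : ∃ n : ℕ, (n : ℤ) = y + 1 := ⟨(y + 1).toNat, by omega⟩
    have r1 := LCZ_rep w D hw0 hD0 y 0 n (by push_cast; omega)
    have r2 := LCZ_rep w D hw0 hD0 (y + 1) 0 n (by push_cast; omega)
    have r3 := LCZ_rep w D hw0 hD0 y' k n (by omega)
    have r4 := LCZ_rep w D hw0 hD0 (y' + 1) k n (by omega)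
    have key := LCZ_double (fun i : ℕ => D (y - ((i : ℤ) + 1)))
      (fun i : ℕ => D (y + 1 - ((i : ℤ) + 1))) (fun i : ℕ => w ((i : ℤ) + 1))
      (fun i : ℕ => w ((i : ℤ) + 1 - k)) ?_ n
    · rw [hH y', hH (y + 1), hH y, hH (y' + 1), r1, r2, r3, r4]
      have e3 : y' + (k : ℤ) = y := hk
      have e4 : y' + 1 + (k : ℤ) = y + 1 := by rw [← hk]; ring
      rw [e3, e4]
      simp only [Nat.cast_zero, sub_zero, add_zero]
      linarith
    · intro m
      have := LCZ_abel
        (fun i : ℕ => D (y - ((i : ℤ) + 1)) * D (y + 1 - ((m : ℤ) + 1)) -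
          D (y - ((m : ℤ) + 1)) * D (y + 1 - ((i : ℤ) + 1)))
        (fun i : ℕ => w ((i : ℤ) + 1) * w ((m : ℤ) + 1 - k) -
          w ((i : ℤ) + 1 - k) * w ((m : ℤ) + 1)) m ?_ ?_ ?_
      · exact this
      · intro i hi
        rw [Finset.sum_sub_distrib, ← Finset.sum_mul, ← Finset.sum_mul]
        by_cases hm : 1 ≤ (m : ℤ) + 1 - k
        · have h1 := LCZ_anti w hwa ((m : ℤ) + 1 - k) hm k
          rw [sub_add_cancel] at h1
          have h2 := LCZ_shift w hw0 hw (i + 1) k
          have h3 : 0 ≤ ∑ t ∈ range (i + 1), w ((t : ℤ) + 1 - k) :=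
            Finset.sum_nonneg (fun _ _ => hw _)
          have h4 := mul_le_mul h2 h1 (hw _) (h3.trans h2)
          linarith
        · have h1 : ∑ t ∈ range (i + 1), w ((t : ℤ) + 1 - k) = 0 := by
            apply Finset.sum_eq_zero
            intro t ht
            rw [Finset.mem_range] at ht
            exact hw0 _ (by omega)
          rw [h1, zero_mul, sub_zero]
          exact mul_nonneg (Finset.sum_nonneg (fun _ _ => hw _)) (hw _)
      · intro i hi
        have h1 := LCZ_step D hD hDm hlc (y - ((i : ℤ) + 1)) (y - ((m : ℤ) + 1)) (by omega)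
        have e1 : y - ((m : ℤ) + 1) + 1 = y + 1 - ((m : ℤ) + 1) := by ring
        have e2 : y - ((i : ℤ) + 1) + 1 = y + 1 - ((i : ℤ) + 1) := by ring
        have e3 : y - (((i + 1 : ℕ) : ℤ) + 1) = y - ((i : ℤ) + 1) - 1 := by push_cast; ring
        have e4 : y + 1 - (((i + 1 : ℕ) : ℤ) + 1) = y - ((i : ℤ) + 1) := by push_cast; ring
        rw [e1, e2] at h1
        simp only [e3, e4]
        nlinarith
      · intro i hi
        have h1 := hlc (y - ((m : ℤ) + 1)) (y - ((i : ℤ) + 1)) (by omega)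
        have e1 : y - ((m : ℤ) + 1) + 1 = y + 1 - ((m : ℤ) + 1) := by ring
        have e2 : y - ((i : ℤ) + 1) + 1 = y + 1 - ((i : ℤ) + 1) := by ring
        rw [e1, e2] at h1
        linarith

end Pool.Agent.H358R5
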