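import Mathlib
import Pool.Agent.H358R5.Stubs

open Finset

namespace Pool.Agent.H358R5

theorem NTH_card (n Δ : ℕ) :
    Nat.count Nat.Prime n + ((Icc n (n + Δ)).filter Nat.Prime).card =
      Nat.count Nat.Prime (n + Δ + 1) := by
  rw [Nat.count_eq_card_filter_range, Nat.count_eq_card_filter_range, ← Finset.card_union_of_disjoint]
  · congr 1
    ext x
    simp only [mem_union, mem_filter, mem_range, mem_Icc]
    constructor
    · rintro (⟨h1, h2⟩ | ⟨h1, h2⟩)
      · exact ⟨by omega, h2⟩
      · exact ⟨by omega, h2⟩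
    · rintro ⟨h1, h2⟩
      by_cases hx : x < n
      · exact Or.inl ⟨hx, h2⟩
      · exact Or.inr ⟨by omega, h2⟩
  · rw [Finset.disjoint_left]
    intro x hx hx'
    simp only [mem_filter, mem_range, mem_Icc] at hx hx'
    omega

theorem NTH_proof : S_NTH := by
  intro m Δ hinf
  apply Set.infinite_of_forall_exists_gt
  intro N
  obtain ⟨n, hn, hnN⟩ := hinf.exists_gt (Nat.nth Nat.Prime N)
  refine ⟨Nat.count Nat.Prime n, ?_, ?_⟩
  · simp only [Set.mem_setOf_eq] at hn ⊢
    have h1 := NTH_card n Δ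
    have h2 : Nat.nth Nat.Prime (Nat.count Nat.Prime n + m) < n + Δ + 1 :=
      Nat.nth_lt_of_lt_count (by omega)
    have h3 : n ≤ Nat.nth Nat.Prime (Nat.count Nat.Prime n) :=
      Nat.le_nth_count Nat.infinite_setOf_prime n
    omega
  · have h1 : Nat.count Nat.Prime (Nat.nth Nat.Prime N + 1) ≤ Nat.count Nat.Prime n :=
      Nat.count_monotone _ hnN
    have h2 : Nat.count Nat.Prime (Nat.nth Nat.Prime N + 1) = N + 1 := by
      rw [Nat.count_succ, if_pos (Nat.prime_nth_prime N), Nat.count_nth_of_infinite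
        Nat.infinite_setOf_prime]
    omega

end Pool.Agent.H358R5
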