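import Mathlib
import Pool.Agent.H358R5.Stubs

open Finset

namespace Pool.Agent.H358R5

theorem PD_lc (f : ℕ → ℝ) (h : ∀ y' y, y' ≤ y → f y' * f (y + 1) ≤ f y * f (y' + 1)) (j : ℕ) :
    ∀ a b, a ≤ b → f a * f (b + j) ≤ f (a + j) * f b := by
  induction j with
  | zero => intro a b _; simp
  | succ j ih =>
    intro a b hab
    rcases Nat.eq_or_lt_of_le hab with rfl | hlt
    · rw [mul_comm]
    · have h1 := h a (b + j) (by omega)
      have h2 := ih (a + 1) b hlt
      calc f a * f (b + (j + 1)) = f a * f (b + j + 1) := by rw [add_assoc]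
        _ ≤ f (b + j) * f (a + 1) := h1
        _ = f (a + 1) * f (b + j) := mul_comm _ _
        _ ≤ f (a + 1 + j) * f b := h2
        _ = f (a + (j + 1)) * f b := by rw [show a + 1 + j = a + (j + 1) by ring]

theorem PD_lemma1 (f : ℕ → ℝ) (h0 : ∀ x, 0 ≤ f x)
    (h : ∀ y' y, y' ≤ y → f y' * f (y + 1) ≤ f y * f (y' + 1)) (y x : ℕ) (hyx : y ≤ x) :
    (∑ i ∈ range y, f i) * f x ≤ (∑ i ∈ range x, f i) * f y := by
  rw [← sum_range_reflect f y, ← sum_range_reflect f x, sum_mul, sum_mul]
  calc ∑ i ∈ range y, f (y - 1 - i) * f x ≤ ∑ i ∈ range y, f (x - 1 - i) * f y := by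
        refine sum_le_sum fun i hi => ?_
        rw [mem_range] at hi
        have h1 := PD_lc f h (i + 1) (y - 1 - i) (x - 1 - i) (by omega)
        rw [show x - 1 - i + (i + 1) = x by omega, show y - 1 - i + (i + 1) = y by omega] at h1
        rw [mul_comm (f (x - 1 - i))]
        exact h1
    _ ≤ ∑ i ∈ range x, f (x - 1 - i) * f y := by
        apply sum_le_sum_of_subset_of_nonneg
        · intro i hi
          rw [mem_range] at hi ⊢
          omega
        · intro i _ _
          exact mul_nonneg (h0 _) (h0 _)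

theorem PD_lemma2 (h2 : S_CONV1) (L n x : ℕ) :
    P L (n + 1) x = ∑ c ∈ range x, g L (c + 1) ^ 2 * P L n (x - 1 - c) := by
  induction x with
  | zero => simp [P]
  | succ x ih =>
    have e1 : P L (n + 1) (x + 1) = P L (n + 1) x + D L (n + 1) x := by
      unfold P; rw [sum_range_succ]
    rw [e1, ih, h2 L n x, sum_range_succ, ← sum_add_distrib]
    have e2 : P L n (x + 1 - 1 - x) = 0 := by
      rw [show x + 1 - 1 - x = 0 by omega]; simp [P]
    rw [e2, mul_zero, add_zero]
    refine sum_congr rfl fun c hc => ?_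
    rw [mem_range] at hc
    rw [← mul_add]
    congr 1
    rw [show x + 1 - 1 - c = (x - 1 - c) + 1 by omega]
    unfold P
    rw [sum_range_succ]

theorem PD_proof (h1 : S_LCD) (h2 : S_CONV1) : S_PD := by
  intro L n x hL
  obtain ⟨_, hD0, _, _, hlc⟩ := h1 L n hL
  rw [PD_lemma2 h2, h2 L n x, sum_mul, mul_sum]
  refine sum_le_sum fun c hc => ?_
  rw [mem_range] at hc
  have h := PD_lemma1 (D L n) hD0 hlc (x - 1 - c) x (by omega)
  have hg : 0 ≤ g L (c + 1) ^ 2 := sq_nonneg _
  calc g L (c + 1) ^ 2 * P L n (x - 1 - c) * D L n x =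
        g L (c + 1) ^ 2 * (P L n (x - 1 - c) * D L n x) := by ring
    _ ≤ g L (c + 1) ^ 2 * (P L n x * D L n (x - 1 - c)) := mul_le_mul_of_nonneg_left h hg
    _ = _ := by ring

end Pool.Agent.H358R5
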