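import Mathlib
import Pool.Agent.H358R5.Stubs

/-!
# PSI: an elementary inequality
-/

namespace Pool.Agent.H358R5

namespace PSIaux

theorem poly (b y : ℝ) (hb : 8 ≤ b) (hy : 0 < y) (hyb : y ≤ b - 1 / 2) :
    0 ≤ (b / 2 - 1) + y * (b / 6 - 1 / 2) + y ^ 2 * (b / 24 - 1 / 6) - y ^ 3 / 24 - b / 24 := by
  have h1 : 0 ≤ y ^ 2 * (b - 1 / 2 - y) := mul_nonneg (by positivity) (by linarith)
  have h2 : 0 ≤ y * (b - y) := mul_nonneg hy.le (by linarith)
  have h3 : (b / 2 - 1) + y * (b / 6 - 1 / 2) + y ^ 2 * (b / 24 - 1 / 6) - y ^ 3 / 24 - b / 24 =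
      1 / 24 * (y ^ 2 * (b - 1 / 2 - y)) + 7 / 48 * (y * (b - y)) +
        (11 * b / 24 - 1 + y * (b / 48 - 1 / 2)) := by ring
  rw [h3]
  have h4 : 0 ≤ 11 * b / 24 - 1 + y * (b / 48 - 1 / 2) := by
    by_cases h : 24 ≤ b
    · have : 0 ≤ y * (b / 48 - 1 / 2) := mul_nonneg hy.le (by linarith)
      linarith
    · push Not at h
      have h5 : b * (b / 48 - 1 / 2) ≤ y * (b / 48 - 1 / 2) :=
        mul_le_mul_of_nonpos_right (by linarith) (by linarith)
      nlinarith [mul_nonneg (sub_nonneg.mpr hb) (by linarith : (0 : ℝ) ≤ b + 6)]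
  positivity

end PSIaux

theorem PSI_proof : S_PSI := by
  intro b y hb hy hyb
  have h1 : y + y ^ 2 / 2 + y ^ 3 / 6 + y ^ 4 / 24 ≤ Real.exp y - 1 := by
    have h2 := Real.sum_le_exp_of_nonneg hy.le 5
    simp only [Finset.sum_range_succ, Finset.sum_range_zero, Nat.factorial] at h2
    norm_num at h2
    linarith
  have h3 : (b - y) * (y + y ^ 2 / 2 + y ^ 3 / 6 + y ^ 4 / 24) ≤ (b - y) * (Real.exp y - 1) :=
    mul_le_mul_of_nonneg_left h1 (by linarith)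
  have h4 := mul_nonneg (sq_nonneg y) (PSIaux.poly b y hb hy hyb)
  nlinarith

end Pool.Agent.H358R5
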