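import Mathlib
import Pool.Agent.H358R5.ASM
import Pool.Agent.H358R5.BOX
import Pool.Agent.H358R5.CASEA
import Pool.Agent.H358R5.CASEB
import Pool.Agent.H358R5.CONV1
import Pool.Agent.H358R5.CONV2
import Pool.Agent.H358R5.CROSS
import Pool.Agent.H358R5.FSQ
import Pool.Agent.H358R5.FUU
import Pool.Agent.H358R5.GB
import Pool.Agent.H358R5.GC
import Pool.Agent.H358R5.GD
import Pool.Agent.H358R5.GE
import Pool.Agent.H358R5.GF
import Pool.Agent.H358R5.GG
import Pool.Agent.H358R5.HARM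
import Pool.Agent.H358R5.IDENT
import Pool.Agent.H358R5.LCD
import Pool.Agent.H358R5.LCZ
import Pool.Agent.H358R5.NTH
import Pool.Agent.H358R5.PD
import Pool.Agent.H358R5.PSI
import Pool.Agent.H358R5.CritM

/-! H358R5: assembly of the main theorem. -/

open Finset

namespace Pool.Agent.H358R5

open Pool.Agent.H95R2.BG

theorem LCD_full : S_LCD := LCD_proof LCZ_proof CONV1_proof

theorem ASM_full : S_ASM :=
  ASM_proof CONV1_proof CONV2_proof IDENT_proof LCD_full (PD_proof LCD_full CONV1_proof)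
    (GB_proof CROSS_proof) GC_proof (GD_proof CROSS_proof) GE_proof (GF_proof CROSS_proof) GG_proof
    HARM_proof (CASEA_proof PSI_proof) CASEB_proof

/-- every admissible `K`-tuple with `log K ≥ 4m + 0.58`, `m ≥ 2`, contains `m + 1` primes infinitely
often -/
theorem dhl_many (m K : ℕ) (hm : 2 ≤ m) (hK : 4 * (m : ℝ) + 29 / 50 ≤ Real.log K)
    (h : Fin K → ℕ) (hadm : Admissible h) : ManyPrimes m h := by
  obtain _ | K0 := K
  · exfalso
    have hm' : (2 : ℝ) ≤ m := by exact_mod_cast hm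
    simp at hK
    linarith
  have hm' : (2 : ℝ) ≤ m := by exact_mod_cast hm
  have hK' : 4 * (m : ℝ) + 29 / 50 ≤ Real.log ((K0 : ℝ) + 1) := by
    push_cast at hK
    exact hK
  obtain ⟨L, hL⟩ : ∃ L : ℕ, L = 100 * (K0 + 1) := ⟨_, rfl⟩
  have hL1 : 1 ≤ L := by omega
  have hbm : 8 ≤ bm m := by
    unfold bm
    have : 0 ≤ 32 * (m : ℝ) ^ 2 * Real.exp (-(4 * m)) := by positivity
    linarith
  have hLK : (1 : ℝ) ≤ (L : ℝ) * ((K0 : ℝ) + 1) := by
    have h1 : (1 : ℝ) ≤ L := by exact_mod_cast hL1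
    have h2 : (1 : ℝ) ≤ (K0 : ℝ) + 1 := by
      have : (0 : ℝ) ≤ K0 := Nat.cast_nonneg _
      linarith
    nlinarith
  obtain ⟨N, hN⟩ : ∃ N : ℕ, N = ⌈bm m * ((L : ℝ) * ((K0 : ℝ) + 1))⌉₊ := ⟨_, rfl⟩
  have hpos : 0 ≤ bm m * ((L : ℝ) * ((K0 : ℝ) + 1)) := by nlinarith
  have hN1 : bm m * ((L : ℝ) * ((K0 : ℝ) + 1)) ≤ N := by rw [hN]; exact Nat.le_ceil _
  have hN2 : (N : ℝ) ≤ bm m * ((L : ℝ) * ((K0 : ℝ) + 1)) + 1 := by
    rw [hN]; exact (Nat.ceil_lt_add_one hpos).le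
  have key := ASM_full m L K0 N hm hK' (by rw [hL]) hN1 hN2
  have hN8 : (8 : ℝ) ≤ N := by nlinarith
  have hN8' : 8 ≤ N := by exact_mod_cast hN8
  have hKN : K0 + 1 ≤ N := by
    have h1 : ((K0 : ℝ) + 1) ≤ N := by
      have h2 : (1 : ℝ) ≤ L := by exact_mod_cast hL1
      have h3 : (0 : ℝ) ≤ K0 := Nat.cast_nonneg _
      have h4 : ((K0 : ℝ) + 1) ≤ (L : ℝ) * ((K0 : ℝ) + 1) := by nlinarith
      nlinarith
    exact_mod_cast h1
  have hDpos : 0 < D L (K0 + 1) N := (LCD_full L (K0 + 1) hL1).2.2.2.1 N hKN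
  have hBox : ∀ k M : ℕ, Box k M = Fintype.piFinset (fun _ : Fin k => range M) := fun _ _ => rfl
  refine criterion_m (K0 := K0) (N1 := N - 1) (M := N) (R := N - 1) m (by omega) (by omega) (by omega)
    (Fw L N) ?_ 0 (fun _ => 0) (fun _ => le_rfl) (fun _ _ => 0) (fun _ _ => 1) ?_ ?_ ?_ h hadm
  · intro c hc
    unfold Fw at hc
    have h1 : ∑ j, (c j + 1) ≤ N := by
      by_contra hcon
      rw [if_neg hcon] at hc
      exact hc rfl
    unfold rad
    omega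
  · intro Y
    simp only [one_mul, Finset.univ_eq_empty, Finset.sum_empty, add_zero]
    rw [pow_two, Finset.sum_mul_sum]
  · intro s s' hs hs' hss
    omega
  · have e1 : ∑ c ∈ Box (K0 + 1) N, Fw L N c ^ 2 = D L (K0 + 1) N := by
      rw [hBox]; exact FSQ_proof BOX_proof L N (K0 + 1)
    have e2 : ∀ i : Fin (K0 + 1), ∑ c ∈ Box K0 N, (1 - 4 * ∑ l : Fin 0, (0 : ℝ) * ((0 : ℝ) ^ 2 /
        (2 - (rad c : ℝ) / ((N - 1 : ℕ) : ℝ)))) * UU N (Fw L N) i c ^ 2 =
        ∑ s ∈ range (N + 1), A L K0 s * B L (N - s) ^ 2 := by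
      intro i
      rw [← FUU_proof BOX_proof L N K0 i, hBox]
      refine Finset.sum_congr rfl fun c _ => ?_
      simp [UU]
    have e3 := Finset.sum_congr (rfl : (univ : Finset (Fin (K0 + 1))) = univ) fun i _ => e2 i
    rw [e1, e3, Finset.sum_const, Finset.card_univ, Fintype.card_fin, nsmul_eq_mul]
    have h1 : ((N - 1 : ℕ) : ℝ) = (N : ℝ) - 1 := by
      rw [Nat.cast_sub (by omega)]; simp
    rw [h1]
    push_cast
    have h2 : 0 < 4 * (m : ℝ) * D L (K0 + 1) N := by positivity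
    nlinarith [key]

end Pool.Agent.H358R5
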