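import Mathlib
import Pool.Agent.H358R5.Main
import Pool.Agent.H358R5.CritLM

/-! H358R5: the main theorem for linear forms with a count, and in residue classes. -/

open Finset Filter

namespace Pool.Agent.H358R5

open Pool.Agent.H95R2.BG Pool.Agent.H95R2.BG.LF

/-- every admissible family of `K` linear forms with `log K ≥ 4m + 0.58`, `m ≥ 2`: at least `X^(1-ε)` of
the `n ≤ X` make `m + 1` of the forms prime -/
theorem dhlL_many (m K : ℕ) (hm : 2 ≤ m) (hK : 4 * (m : ℝ) + 29 / 50 ≤ Real.log K)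
    (A B : Fin K → ℕ) (hadm : AdmissibleL A B) (ε : ℝ) (hε : 0 < ε) :
    ∀ᶠ X : ℝ in atTop, X ^ (1 - ε) ≤ ((goodM m A B X).card : ℝ) := by
  obtain _ | K0 := K
  · exfalso
    have hm' : (2 : ℝ) ≤ m := by exact_mod_cast hm
    simp at hK
    linarith
  have hm' : (2 : ℝ) ≤ m := by exact_mod_cast hm
  have hK' : 4 * (m : ℝ) + 29 / 50 ≤ Real.log ((K0 : ℝ) + 1) := by
    push_cast at hK
    exact hK
  obtain ⟨L, hL⟩ : ∃ L : ℕ, L = 100 * (K0 + 1) := ⟨_, rfl⟩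
  have hL1 : 1 ≤ L := by omega
  have hbm : 8 ≤ bm m := by
    unfold bm
    have : 0 ≤ 32 * (m : ℝ) ^ 2 * Real.exp (-(4 * m)) := by positivity
    linarith
  have hLK : (1 : ℝ) ≤ (L : ℝ) * ((K0 : ℝ) + 1) := by
    have h1 : (1 : ℝ) ≤ L := by exact_mod_cast hL1
    have h2 : (1 : ℝ) ≤ (K0 : ℝ) + 1 := by
      have : (0 : ℝ) ≤ K0 := Nat.cast_nonneg _
      linarith
    nlinarith
  obtain ⟨N, hN⟩ : ∃ N : ℕ, N = ⌈bm m * ((L : ℝ) * ((K0 : ℝ) + 1))⌉₊ := ⟨_, rfl⟩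
  have hpos : 0 ≤ bm m * ((L : ℝ) * ((K0 : ℝ) + 1)) := by nlinarith
  have hN1 : bm m * ((L : ℝ) * ((K0 : ℝ) + 1)) ≤ N := by rw [hN]; exact Nat.le_ceil _
  have hN2 : (N : ℝ) ≤ bm m * ((L : ℝ) * ((K0 : ℝ) + 1)) + 1 := by
    rw [hN]; exact (Nat.ceil_lt_add_one hpos).le
  have key := ASM_full m L K0 N hm hK' (by rw [hL]) hN1 hN2
  have hN8 : (8 : ℝ) ≤ N := by nlinarith
  have hN8' : 8 ≤ N := by exact_mod_cast hN8
  have hKN : K0 + 1 ≤ N := by
    have h1 : ((K0 : ℝ) + 1) ≤ N := by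
      have h2 : (1 : ℝ) ≤ L := by exact_mod_cast hL1
      have h3 : (0 : ℝ) ≤ K0 := Nat.cast_nonneg _
      have h4 : ((K0 : ℝ) + 1) ≤ (L : ℝ) * ((K0 : ℝ) + 1) := by nlinarith
      nlinarith
    exact_mod_cast h1
  have hDpos : 0 < D L (K0 + 1) N := (LCD_full L (K0 + 1) hL1).2.2.2.1 N hKN
  have hBox : ∀ k M : ℕ, Box k M = Fintype.piFinset (fun _ : Fin k => range M) := fun _ _ => rfl
  refine criterionL_m (K0 := K0) (N1 := N - 1) (M := N) (R := N - 1) m (by omega) (by omega) (by omega)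
    (Fw L N) ?_ 0 (fun _ => 0) (fun _ => le_rfl) (fun _ _ => 0) (fun _ _ => 1) ?_ ?_ ?_ A B hadm ε hε
  · intro c hc
    unfold Fw at hc
    have h1 : ∑ j, (c j + 1) ≤ N := by
      by_contra hcon
      rw [if_neg hcon] at hc
      exact hc rfl
    unfold rad
    omega
  · intro Y
    simp only [one_mul, Finset.univ_eq_empty, Finset.sum_empty, add_zero]
    rw [pow_two, Finset.sum_mul_sum]
  · intro s s' hs hs' hss
    omega
  · have e1 : ∑ c ∈ Box (K0 + 1) N, Fw L N c ^ 2 = D L (K0 + 1) N := by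
      rw [hBox]; exact FSQ_proof BOX_proof L N (K0 + 1)
    have e2 : ∀ i : Fin (K0 + 1), ∑ c ∈ Box K0 N, (1 - 4 * ∑ l : Fin 0, (0 : ℝ) * ((0 : ℝ) ^ 2 /
        (2 - (rad c : ℝ) / ((N - 1 : ℕ) : ℝ)))) * UU N (Fw L N) i c ^ 2 =
        ∑ s ∈ range (N + 1), Pool.Agent.H358R5.A L K0 s * Pool.Agent.H358R5.B L (N - s) ^ 2 := by
      intro i
      rw [← FUU_proof BOX_proof L N K0 i, hBox]
      refine Finset.sum_congr rfl fun c _ => ?_
      simp [UU]
    have e3 := Finset.sum_congr (rfl : (univ : Finset (Fin (K0 + 1))) = univ) fun i _ => e2 i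
    rw [e1, e3, Finset.sum_const, Finset.card_univ, Fintype.card_fin, nsmul_eq_mul]
    have h1 : ((N - 1 : ℕ) : ℝ) = (N : ℝ) - 1 := by
      rw [Nat.cast_sub (by omega)]; simp
    rw [h1]
    push_cast
    have h2 : 0 < 4 * (m : ℝ) * D L (K0 + 1) N := by positivity
    nlinarith [key]

end Pool.Agent.H358R5
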