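import Mathlib
import Pool.Agent.H358R5.Stubs2

/-! H358R5, task PAT: one pattern of consecutive primes (pigeonhole). -/

open Finset Filter

namespace Pool.Agent.H358R5

/-- the `k` smallest elements of a finite set -/
theorem PAT_lower (T : Finset ℤ) (k : ℕ) (hk : k ≤ T.card) :
    ∃ S : Finset ℤ, S ⊆ T ∧ S.card = k ∧ ∀ h ∈ T, ∀ t ∈ S, h ≤ t → h ∈ S := by
  induction k with
  | zero => exact ⟨∅, by simp, by simp, by simp⟩
  | succ k ih =>
    obtain ⟨S, hST, hS, hl⟩ := ih (by omega)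
    have hne : (T \ S).Nonempty := by
      rw [← Finset.card_pos, Finset.card_sdiff_of_subset hST]
      omega
    have hm := Finset.min'_mem (T \ S) hne
    rw [Finset.mem_sdiff] at hm
    refine ⟨insert ((T \ S).min' hne) S, ?_, ?_, ?_⟩
    · intro x hx
      rcases Finset.mem_insert.1 hx with rfl | hx
      · exact hm.1
      · exact hST hx
    · rw [Finset.card_insert_of_notMem hm.2, hS]
    · intro h hh t ht hle
      by_cases hhS : h ∈ S
      · exact Finset.mem_insert_of_mem hhS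
      · rcases Finset.mem_insert.1 ht with rfl | ht
        · have h1 := Finset.min'_le (T \ S) h (Finset.mem_sdiff.2 ⟨hh, hhS⟩)
          have h2 : h = (T \ S).min' hne := le_antisymm hle h1
          rw [h2]
          exact Finset.mem_insert_self _ _
        · exact absurd (hl h hh t ht hle) hhS

/-- the `n ≤ x` that realise the pattern `S` -/
def PAT_P (S : Finset ℤ) (x : ℝ) : Set ℕ :=
  {n : ℕ | (n : ℝ) ≤ x ∧ (∀ s ∈ S, ∃ p : ℕ, p.Prime ∧ (p : ℤ) = n + s) ∧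
      ∀ p : ℕ, p.Prime → (∃ s ∈ S, ∃ t ∈ S, (n : ℤ) + s ≤ p ∧ (p : ℤ) ≤ n + t) →
        ∃ s ∈ S, (p : ℤ) = n + s}

theorem PAT_fin (S : Finset ℤ) (x : ℝ) : (PAT_P S x).Finite := by
  apply (Set.finite_Iic ⌊x⌋₊).subset
  intro n hn
  exact Nat.le_floor hn.1

theorem PAT_proof (h : S_CONS) : S_PAT := by
  classical
  intro m K hm hC H hH hadm
  by_contra hcon
  push Not at hcon
  -- the enumeration of `H`
  obtain ⟨a, ha⟩ : ∃ a : Fin K → ℤ, a = fun i => H.orderEmbOfFin hH i := ⟨_, rfl⟩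
  have hainj : Function.Injective a := by rw [ha]; exact (H.orderEmbOfFin hH).injective
  have hamem : ∀ i, a i ∈ H := by intro i; rw [ha]; exact H.orderEmbOfFin_mem hH i
  have hasurj : ∀ t ∈ H, ∃ i, a i = t := by
    intro t ht
    have : t ∈ Set.range (H.orderEmbOfFin hH) := by
      rw [Finset.range_orderEmbOfFin]; exact ht
    obtain ⟨i, hi⟩ := this
    exact ⟨i, by rw [ha]; exact hi⟩
  have hadm' : ∀ p : ℕ, p.Prime → ∃ r : ℤ, ∀ i, ¬ (p : ℤ) ∣ r + a i := by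
    intro p hp
    obtain ⟨r, hr⟩ := hadm p hp
    exact ⟨r, fun i => hr _ (hamem i)⟩
  have hcons := h m K hm hC a hainj hadm'
  -- the patterns
  obtain ⟨C, hCdef⟩ : ∃ C : Finset (Finset ℤ), C = H.powersetCard (m + 1) := ⟨_, rfl⟩
  have hfail : ∀ S ∈ C, ∃ ε : ℝ, 0 < ε ∧ ∀ᶠ x : ℝ in atTop,
      ((PAT_P S x).ncard : ℝ) < x ^ (1 - ε) := by
    intro S hS
    rw [hCdef, Finset.mem_powersetCard] at hS
    obtain ⟨ε, hε, hh⟩ := hcon S hS.1 hS.2
    exact ⟨ε, hε, hh⟩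
  choose! f hf0 hf using hfail
  obtain ⟨e, he0, he⟩ : ∃ e : ℝ, 0 < e ∧ ∀ S ∈ C, e ≤ f S := by
    have hne : (insert (1 : ℝ) (C.image f)).Nonempty := Finset.insert_nonempty _ _
    refine ⟨(insert (1 : ℝ) (C.image f)).min' hne, ?_, ?_⟩
    · have := Finset.min'_mem _ hne
      rcases Finset.mem_insert.1 this with h1 | h1
      · rw [h1]; exact one_pos
      · obtain ⟨S, hS, hS'⟩ := Finset.mem_image.1 h1
        rw [← hS']
        exact hf0 S hS
    · intro S hS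
      exact Finset.min'_le _ _ (Finset.mem_insert_of_mem (Finset.mem_image_of_mem f hS))
  have hall : ∀ᶠ x : ℝ in atTop, ∀ S ∈ C, ((PAT_P S x).ncard : ℝ) < x ^ (1 - f S) :=
    (Filter.eventually_all_finset C).2 hf
  have hbig : ∀ᶠ x : ℝ in atTop, (C.card : ℝ) < x ^ (e / 2) :=
    (tendsto_rpow_atTop (by linarith : (0 : ℝ) < e / 2)).eventually_gt_atTop _
  obtain ⟨x, hx1, hx2, hx3, hx4⟩ := ((hcons (e / 2) (by linarith)).and
    (hall.and (hbig.and (eventually_ge_atTop (1 : ℝ))))).exists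
  -- the inclusion
  obtain ⟨A, hA⟩ : ∃ A : Set ℕ, A = {n : ℕ | 1 ≤ n ∧ (n : ℝ) ≤ x ∧
    m + 1 ≤ Set.ncard {i : Fin K | ∃ p : ℕ, p.Prime ∧ (p : ℤ) = n + a i} ∧
    ∀ p : ℕ, p.Prime → (∃ i j, (n : ℤ) + a i ≤ p ∧ (p : ℤ) ≤ n + a j) → ∃ i, (p : ℤ) = n + a i} :=
    ⟨_, rfl⟩
  rw [← hA] at hx1
  have hsub : A ⊆ ⋃ S ∈ C, PAT_P S x := by
    intro n hn
    rw [hA] at hn
    obtain ⟨_, hnx, hcard, hno⟩ := hn
    obtain ⟨T, hT⟩ : ∃ T : Finset ℤ, T = H.filter fun t => ∃ p : ℕ, p.Prime ∧ (p : ℤ) = n + t :=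
      ⟨_, rfl⟩
    have hTc : m + 1 ≤ T.card := by
      refine hcard.trans ?_
      have h1 : a '' {i : Fin K | ∃ p : ℕ, p.Prime ∧ (p : ℤ) = n + a i} ⊆ (T : Set ℤ) := by
        rintro _ ⟨i, hi, rfl⟩
        rw [hT, Finset.coe_filter]
        exact ⟨hamem i, hi⟩
      have h2 := Set.ncard_le_ncard h1 T.finite_toSet
      rw [Set.ncard_image_of_injective _ hainj, Set.ncard_coe_finset] at h2
      exact h2
    obtain ⟨S, hST, hSc, hSl⟩ := PAT_lower T (m + 1) hTc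
    have hTH : T ⊆ H := by rw [hT]; exact Finset.filter_subset _ _
    rw [Set.mem_iUnion₂]
    refine ⟨S, ?_, hnx, ?_, ?_⟩
    · rw [hCdef, Finset.mem_powersetCard]
      exact ⟨hST.trans hTH, hSc⟩
    · intro s hs
      have := hST hs
      rw [hT, Finset.mem_filter] at this
      exact this.2
    · rintro p hp ⟨s, hs, t, ht, h1, h2⟩
      obtain ⟨i, hi⟩ := hasurj s (hTH (hST hs))
      obtain ⟨j, hj⟩ := hasurj t (hTH (hST ht))
      obtain ⟨k, hk⟩ := hno p hp ⟨i, j, by rw [hi]; exact h1, by rw [hj]; exact h2⟩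
      refine ⟨a k, hSl (a k) ?_ t ht ?_, hk⟩
      · rw [hT, Finset.mem_filter]
        exact ⟨hamem k, p, hp, hk⟩
      · linarith
  have hcount : (A.ncard : ℝ) ≤ ∑ S ∈ C, ((PAT_P S x).ncard : ℝ) := by
    have hfin : (⋃ S ∈ C, PAT_P S x).Finite :=
      C.finite_toSet.biUnion fun S _ => PAT_fin S x
    have h1 := Set.ncard_le_ncard hsub hfin
    have h2 : (⋃ S ∈ C, PAT_P S x).ncard ≤ ∑ S ∈ C, (PAT_P S x).ncard :=
      Finset.set_ncard_biUnion_le C fun S => PAT_P S x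
    exact_mod_cast h1.trans h2
  have hsum : ∑ S ∈ C, ((PAT_P S x).ncard : ℝ) ≤ (C.card : ℝ) * x ^ (1 - e) := by
    calc ∑ S ∈ C, ((PAT_P S x).ncard : ℝ) ≤ ∑ S ∈ C, x ^ (1 - e) := by
          apply Finset.sum_le_sum
          intro S hS
          refine (hx2 S hS).le.trans ?_
          exact Real.rpow_le_rpow_of_exponent_le hx4 (by have := he S hS; linarith)
      _ = (C.card : ℝ) * x ^ (1 - e) := by rw [Finset.sum_const, nsmul_eq_mul]
  have hxpos : 0 < x := by linarith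
  have hfinal : x ^ (1 - e / 2) ≤ (C.card : ℝ) * x ^ (1 - e) := hx1.trans (hcount.trans hsum)
  have hsplit : x ^ (1 - e / 2) = x ^ (e / 2) * x ^ (1 - e) := by
    rw [← Real.rpow_add hxpos]; congr 1; ring
  rw [hsplit] at hfinal
  have := le_of_mul_le_mul_right hfinal (Real.rpow_pos_of_pos hxpos _)
  linarith

end Pool.Agent.H358R5
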