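import Mathlib
import Pool.Agent.H358R5.Stubs2

/-! Primes above `K` form an admissible tuple. -/

open Finset Filter

namespace Pool.Agent.H358R5

theorem PTUP_proof : S_PTUP := by
  classical
  intro K u Δ hu hK
  obtain ⟨T, hT, hTc⟩ := Finset.exists_subset_card_eq hK
  have hmem : ∀ i : Fin K, u ≤ T.orderEmbOfFin hTc i ∧ T.orderEmbOfFin hTc i ≤ u + Δ ∧
      (T.orderEmbOfFin hTc i).Prime := by
    intro i
    have h := hT (Finset.orderEmbOfFin_mem T hTc i)
    rw [Finset.mem_filter, Finset.mem_Icc] at h
    exact ⟨h.1.1, h.1.2, h.2⟩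
  refine ⟨fun i => T.orderEmbOfFin hTc i - u, ⟨?_, ?_⟩, ?_⟩
  · intro i j hij
    have hi := (hmem i).1
    have hj := (hmem j).1
    simp only at hij
    have h : T.orderEmbOfFin hTc i = T.orderEmbOfFin hTc j := by omega
    exact (T.orderEmbOfFin hTc).injective h
  · intro p hp
    rcases le_or_gt p K with h | h
    · refine ⟨u, fun i hd => ?_⟩
      have hi := hmem i
      have e : u + (T.orderEmbOfFin hTc i - u) = T.orderEmbOfFin hTc i := by omega
      simp only [e] at hd
      have := (Nat.prime_dvd_prime_iff_eq hp hi.2.2).1 hd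
      omega
    · have : NeZero p := ⟨hp.pos.ne'⟩
      have hcard : (univ.image fun i : Fin K => ((T.orderEmbOfFin hTc i - u : ℕ) : ZMod p)).card <
          (univ : Finset (ZMod p)).card := by
        refine lt_of_le_of_lt Finset.card_image_le ?_
        rw [Finset.card_univ, Finset.card_univ, Fintype.card_fin, ZMod.card]
        exact h
      obtain ⟨c, _, hc⟩ := Finset.exists_mem_notMem_of_card_lt_card hcard
      refine ⟨(-c).val, fun i hd => hc ?_⟩
      rw [← ZMod.natCast_eq_zero_iff] at hd
      push_cast at hd
      rw [ZMod.natCast_zmod_val] at hd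
      rw [Finset.mem_image]
      refine ⟨i, Finset.mem_univ _, ?_⟩
      have : c = ((T.orderEmbOfFin hTc i - u : ℕ) : ZMod p) := by
        linear_combination -hd
      exact this.symm
  · intro i
    have := hmem i
    simp only
    omega

end Pool.Agent.H358R5
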