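import Pool.Agent.H358R5.Stubs2

/-! H358R5 (helper131), task RHO: integers without small prime factors in a window give primes in
windows of the same length. -/

open Finset Filter

namespace Pool.Agent.H358R5

theorem RHO_proof : S_RHO := by
  classical
  intro m K k u hyp hK
  set S : Set ℕ := {n : ℕ | u < n ∧ n ≤ u + k ∧ ∀ p : ℕ, p.Prime → p ≤ k → ¬ p ∣ n} with hS
  have hfin : S.Finite := (Set.finite_Icc u (u + k)).subset fun n hn => ⟨hn.1.le, hn.2.1⟩
  rw [Set.ncard_eq_toFinset_card S hfin] at hK
  obtain ⟨T, hTS, hTc⟩ := Finset.exists_subset_card_eq hK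
  let e : Fin K → ℕ := fun i => T.orderEmbOfFin hTc i
  have heinj : Function.Injective e := fun i j hij => (T.orderEmbOfFin hTc).injective hij
  have hemem : ∀ i, e i ∈ S := fun i => by
    have := hTS (T.orderEmbOfFin_mem hTc i)
    exact (Set.Finite.mem_toFinset hfin).1 this
  let h : Fin K → ℕ := fun i => e i - (u + 1)
  have hh : ∀ i, (u + 1) + h i = e i := fun i => by
    have := (hemem i).1
    simp only [h]; omega
  have hlt : ∀ i, h i + 1 ≤ k := fun i => by
    have h1 := hh i
    have h2 := (hemem i).2.1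
    omega
  have hinj : Function.Injective h := fun i j hij => heinj (by rw [← hh i, ← hh j, hij])
  have hAdm : Adm h := by
    refine ⟨hinj, fun p hp => ?_⟩
    by_cases hpk : p ≤ k
    · exact ⟨u + 1, fun i => by rw [hh i]; exact (hemem i).2.2 p hp hpk⟩
    · refine ⟨1, fun i hd => ?_⟩
      have h1 := Nat.le_of_dvd (by omega) hd
      have h2 := hlt i
      omega
  have hinf := hyp h hAdm
  rw [Filter.frequently_atTop]
  intro N
  obtain ⟨n, hn, hnN⟩ := hinf.exists_gt N
  refine ⟨n - 1, by omega, ?_⟩
  have hn' : m + 1 ≤ (univ.filter fun i => (n + h i).Prime).card := hn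
  refine hn'.trans ?_
  refine Finset.card_le_card_of_injOn (fun i => n + h i) ?_ ?_
  · intro i hi
    have hi' : (n + h i).Prime := (Finset.mem_filter.1 (Finset.mem_coe.1 hi)).2
    have := hlt i
    simp only [Finset.coe_filter, Finset.mem_Ioc, Set.mem_setOf_eq]
    refine ⟨⟨by omega, by omega⟩, hi'⟩
  · intro i _ j _ hij
    exact hinj (by simpa using hij)

end Pool.Agent.H358R5
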