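import Mathlib
import Pool.Agent.H358R5.MainL
import Pool.Agent.H358R5.Stubs2
import Pool.Agent.H358R5.CLS
import Pool.Agent.H358R5.CONS
import Pool.Agent.H358R5.GAPS
import Pool.Agent.H358R5.PAT
import Pool.Agent.H358R5.PTUP
import Pool.Agent.H358R5.RHO

/-! H358R5: consequences of the main theorem. -/

open Finset Filter

namespace Pool.Agent.H358R5

theorem lhyp (m K : ℕ) (hm : 2 ≤ m) (hK : 4 * (m : ℝ) + 29 / 50 ≤ Real.log K) : LHyp m K := by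
  intro A B hA hne hloc ε hε
  filter_upwards [dhlL_many m K hm hK A B ⟨hA, hne, hloc⟩ ε hε] with X hX
  refine hX.trans (le_of_eq ?_)
  unfold goodM
  congr 2

theorem chyp (m K : ℕ) (hm : 2 ≤ m) (hK : 4 * (m : ℝ) + 29 / 50 ≤ Real.log K) : CHyp m K :=
  CLS_proof m K (lhyp m K hm hK)

theorem pattern_many (m : ℕ) (hm : 2 ≤ m) (H : Finset ℤ) (hK : 4 * (m : ℝ) + 29 / 50 ≤ Real.log H.card)
    (hadm : ∀ p : ℕ, p.Prime → ∃ r : ℤ, ∀ h ∈ H, ¬ (p : ℤ) ∣ r + h) :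
    ∃ S : Finset ℤ, S ⊆ H ∧ S.card = m + 1 ∧ ∀ ε : ℝ, 0 < ε → ∃ᶠ x : ℝ in atTop,
      x ^ (1 - ε) ≤ (Set.ncard {n : ℕ | (n : ℝ) ≤ x ∧ (∀ s ∈ S, ∃ p : ℕ, p.Prime ∧ (p : ℤ) = n + s) ∧
        ∀ p : ℕ, p.Prime → (∃ s ∈ S, ∃ t ∈ S, (n : ℤ) + s ≤ p ∧ (p : ℤ) ≤ n + t) →
          ∃ s ∈ S, (p : ℤ) = n + s} : ℝ) :=
  PAT_proof CONS_proof m H.card (by omega) (chyp m H.card hm hK) H rfl hadm

theorem forms_many (m K : ℕ) (hm : 2 ≤ m) (hK : 4 * (m : ℝ) + 29 / 50 ≤ Real.log K)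
    (a b : Fin K → ℕ) (ha : ∀ i, 1 ≤ a i) (hne : ∀ i j, i ≠ j → a i * b j ≠ a j * b i)
    (hloc : ∀ p : ℕ, p.Prime → ∃ n : ℕ, ∀ i, ¬ p ∣ a i * n + b i) (ε : ℝ) (hε : 0 < ε) :
    ∀ᶠ x : ℝ in atTop, x ^ (1 - ε) ≤ (Set.ncard {n : ℕ | 1 ≤ n ∧ (n : ℝ) ≤ x ∧
      m + 1 ≤ Set.ncard {i : Fin K | (a i * n + b i).Prime}} : ℝ) := by
  filter_upwards [lhyp m K hm hK a b ha hne hloc ε hε, eventually_ge_atTop (0 : ℝ)] with x hx hx0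
  refine hx.trans (le_of_eq ?_)
  rw [← Set.ncard_coe_finset]
  congr 2
  ext n
  have h1 : Set.ncard {i : Fin K | (a i * n + b i).Prime} =
      (univ.filter fun i => (a i * n + b i).Prime).card := by
    rw [← Set.ncard_coe_finset]
    congr 1
    ext i
    simp
  simp only [Finset.coe_filter, Finset.mem_Icc, Set.mem_ofPred_eq, Nat.le_floor_iff hx0, and_assoc, h1]

theorem rho_many (m k u : ℕ) (hm : 2 ≤ m)
    (hK : 4 * (m : ℝ) + 29 / 50 ≤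
      Real.log (Set.ncard {n : ℕ | u < n ∧ n ≤ u + k ∧ ∀ p : ℕ, p.Prime → p ≤ k → ¬ p ∣ n} : ℕ)) :
    ∃ᶠ x : ℕ in atTop, m + 1 ≤ ((Ioc x (x + k)).filter Nat.Prime).card := by
  refine RHO_proof m _ k u (fun h hadm => ?_) le_rfl
  exact dhl_many m _ hm hK h hadm

end Pool.Agent.H358R5
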