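import Mathlib
import Pool.Agent.H358R5.MainC
import Pool.Agent.H358R5.BOX
import Pool.Agent.H358R5.Stubs3

/-! H358R5: the criterion for the weights `∏ G(c_j) · φ(N - ∑ c_j)` with natural number values. -/

open Finset Filter

namespace Pool.Agent.H358R5

open Pool.Agent.H95R2.BG Pool.Agent.H95R2.BG.LF

theorem gbox (G : ℕ → ℕ) (n : ℕ) : ∀ (M N : ℕ) (φ : ℕ → ℝ), N ≤ M → (∀ s, N < s → φ s = 0) →
    ∑ c ∈ Fintype.piFinset (fun _ : Fin n => range M), (∏ j, ((G (c j + 1) : ℕ) : ℝ) ^ 2) * φ (∑ j, (c j + 1)) =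
      ∑ s ∈ range (N + 1), (AG G n s : ℝ) * φ s := by
  induction n with
  | zero =>
    intro M N φ _ _
    have h1 : ∑ s ∈ range (N + 1), (AG G 0 s : ℝ) * φ s = φ 0 := by
      rw [Finset.sum_eq_single 0]
      · simp [AG]
      · intro b _ hb
        simp [AG, hb]
      · intro h
        exact absurd (Finset.mem_range.2 (Nat.succ_pos N)) h
    rw [h1]
    have h2 : Fintype.piFinset (fun _ : Fin 0 => range M) = {Fin.elim0} := by
      ext c
      rw [Fintype.mem_piFinset, Finset.mem_singleton]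
      exact ⟨fun _ => Subsingleton.elim _ _, fun _ i => i.elim0⟩
    rw [h2, Finset.sum_singleton]
    simp
  | succ n ih =>
    intro M N φ hNM hφ
    rw [BOX_cons]
    have h1 : ∀ t ∈ range M, ∑ c ∈ Fintype.piFinset (fun _ : Fin n => range M),
        (∏ j : Fin (n + 1), ((G ((Fin.cons (α := fun _ => ℕ) t c : Fin (n + 1) → ℕ) j + 1) : ℕ) : ℝ) ^ 2) *
          φ (∑ j : Fin (n + 1), ((Fin.cons (α := fun _ => ℕ) t c : Fin (n + 1) → ℕ) j + 1)) =
        ((G (t + 1) : ℕ) : ℝ) ^ 2 * ∑ s' ∈ range (N + 1),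
          if t < s' then (AG G n (s' - 1 - t) : ℝ) * φ s' else 0 := by
      intro t _
      rw [← BOX_shift N t (fun s => (AG G n s : ℝ)) φ hφ, ← ih M N (fun s => φ (s + (t + 1))) hNM
        (fun s hs => hφ _ (by omega)), Finset.mul_sum]
      refine Finset.sum_congr rfl fun c _ => ?_
      rw [Fin.prod_univ_succ, Fin.sum_univ_succ]
      simp only [Fin.cons_zero, Fin.cons_succ]
      rw [add_comm (t + 1) (∑ j, (c j + 1)), mul_assoc]
    rw [Finset.sum_congr rfl h1]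
    simp only [Finset.mul_sum]
    rw [Finset.sum_comm]
    refine Finset.sum_congr rfl fun s' hs' => ?_
    have hs'' := Finset.mem_range.1 hs'
    have h0 : (AG G (n + 1) s' : ℝ) = ∑ c ∈ range s', ((G (c + 1) : ℕ) : ℝ) ^ 2 * (AG G n (s' - 1 - c) : ℝ) := by
      show ((∑ c ∈ range s', G (c + 1) ^ 2 * AG G n (s' - 1 - c) : ℕ) : ℝ) = _
      push_cast
      rfl
    rw [h0, Finset.sum_mul]
    have h2 : ∑ c ∈ range s', ((G (c + 1) : ℕ) : ℝ) ^ 2 * (AG G n (s' - 1 - c) : ℝ) * φ s' =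
        ∑ c ∈ (range M).filter (fun c => c < s'),
          ((G (c + 1) : ℕ) : ℝ) ^ 2 * (AG G n (s' - 1 - c) : ℝ) * φ s' := by
      refine Finset.sum_congr ?_ fun _ _ => rfl
      ext c
      simp only [Finset.mem_filter, Finset.mem_range]
      omega
    rw [h2, Finset.sum_filter]
    refine Finset.sum_congr rfl fun c _ => ?_
    split_ifs
    · ring
    · ring

/-- the sieve weight -/
noncomputable def FG (G φ : ℕ → ℕ) (N : ℕ) {K : ℕ} (c : Fin K → ℕ) : ℝ :=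
  if ∑ j, (c j + 1) ≤ N then (∏ j, (G (c j + 1) : ℝ)) * (φ (N - ∑ j, (c j + 1)) : ℝ) else 0

theorem FG_sq (G φ : ℕ → ℕ) (N K : ℕ) :
    ∑ c ∈ Fintype.piFinset (fun _ : Fin K => range N), FG G φ N c ^ 2 =
      ∑ s ∈ range (N + 1), (AG G K s : ℝ) * (φ (N - s) : ℝ) ^ 2 := by
  have h1 := gbox G K N N (fun s => if s ≤ N then (φ (N - s) : ℝ) ^ 2 else 0) le_rfl
    (fun s hs => if_neg (by omega))
  have h2 : ∀ c ∈ Fintype.piFinset (fun _ : Fin K => range N), FG G φ N c ^ 2 =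
      (∏ j, ((G (c j + 1) : ℕ) : ℝ) ^ 2) *
        (if ∑ j, (c j + 1) ≤ N then (φ (N - ∑ j, (c j + 1)) : ℝ) ^ 2 else 0) := by
    intro c _
    unfold FG
    split_ifs with hc
    · rw [mul_pow, Finset.prod_pow]
    · simp
  rw [Finset.sum_congr rfl h2, h1]
  refine Finset.sum_congr rfl fun s hs => ?_
  rw [if_pos (by have := Finset.mem_range.1 hs; omega)]

theorem FG_insert (G φ : ℕ → ℕ) (N K0 : ℕ) (i : Fin (K0 + 1)) (t : ℕ) (c : Fin K0 → ℕ) :
    FG G φ N (Fin.insertNth (α := fun _ => ℕ) i t c) =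
      if (t + 1) + ∑ j, (c j + 1) ≤ N then (G (t + 1) : ℝ) * (∏ j, (G (c j + 1) : ℝ)) *
        (φ (N - ((t + 1) + ∑ j, (c j + 1))) : ℝ) else 0 := by
  unfold FG
  have h1 : ∑ j, (Fin.insertNth (α := fun _ => ℕ) i t c j + 1) = (t + 1) + ∑ j, (c j + 1) := by
    rw [Fin.sum_univ_succAbove _ i]
    simp
  have h2 : ∏ j, (G (Fin.insertNth (α := fun _ => ℕ) i t c j + 1) : ℝ) =
      (G (t + 1) : ℝ) * ∏ j, (G (c j + 1) : ℝ) := by
    rw [Fin.prod_univ_succAbove _ i]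
    simp
  rw [h1, h2]

theorem FG_inner (G φ : ℕ → ℕ) (N K0 : ℕ) (i : Fin (K0 + 1)) (c : Fin K0 → ℕ) :
    ∑ t ∈ range N, FG G φ N (Fin.insertNth (α := fun _ => ℕ) i t c) =
      (∏ j, (G (c j + 1) : ℝ)) * (∑ t ∈ range (N - ∑ j, (c j + 1)),
        G (t + 1) * φ (N - ∑ j, (c j + 1) - 1 - t) : ℕ) := by
  simp_rw [FG_insert]
  push_cast
  rw [mul_sum, ← Finset.sum_filter]
  have hset : (range N).filter (fun t => (t + 1) + ∑ j, (c j + 1) ≤ N) =
      range (N - ∑ j, (c j + 1)) := by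
    ext t
    simp only [mem_filter, mem_range]
    omega
  rw [hset]
  refine Finset.sum_congr rfl fun t ht => ?_
  have h3 : N - ((t + 1) + ∑ j, (c j + 1)) = N - ∑ j, (c j + 1) - 1 - t := by omega
  rw [h3]
  ring

theorem FG_marg (G φ : ℕ → ℕ) (N K0 : ℕ) (i : Fin (K0 + 1)) :
    ∑ c ∈ Fintype.piFinset (fun _ : Fin K0 => range N),
      (∑ t ∈ range N, FG G φ N (Fin.insertNth (α := fun _ => ℕ) i t c)) ^ 2 =
    ∑ s ∈ range (N + 1), (AG G K0 s : ℝ) *
      ((∑ t ∈ range (N - s), G (t + 1) * φ (N - s - 1 - t) : ℕ) : ℝ) ^ 2 := by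
  have hb := gbox G K0 N N (fun s => ((∑ t ∈ range (N - s), G (t + 1) * φ (N - s - 1 - t) : ℕ) : ℝ) ^ 2)
    le_rfl (by
    intro s hs
    have : N - s = 0 := by omega
    simp [this])
  rw [← hb]
  refine Finset.sum_congr rfl fun c _ => ?_
  rw [FG_inner, mul_pow, Finset.prod_pow]

theorem gcrit (m K0 N : ℕ) (G φ : ℕ → ℕ) (hN : 2 ≤ N)
    (h : 4 * m * (N - 1) * ∑ s ∈ range (N + 1), AG G (K0 + 1) s * φ (N - s) ^ 2 <
      (K0 + 1) * ∑ s ∈ range (N + 1), AG G K0 s *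
        (∑ t ∈ range (N - s), G (t + 1) * φ (N - s - 1 - t)) ^ 2) : LHyp m (K0 + 1) := by
  intro A B hA hne hloc ε hε
  have hBox : ∀ k M : ℕ, Box k M = Fintype.piFinset (fun _ : Fin k => range M) := fun _ _ => rfl
  have hmain : ∀ᶠ X : ℝ in atTop, X ^ (1 - ε) ≤ ((goodM m A B X).card : ℝ) := by
    refine criterionL_m (K0 := K0) (N1 := N - 1) (M := N) (R := N - 1) m (by omega) (by omega) (by omega)
      (FG G φ N) ?_ 0 (fun _ => 0) (fun _ => le_rfl) (fun _ _ => 0) (fun _ _ => 1) ?_ ?_ ?_ A B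
      ⟨hA, hne, hloc⟩ ε hε
    · intro c hc
      unfold FG at hc
      have h1 : ∑ j, (c j + 1) ≤ N := by
        by_contra hcon
        rw [if_neg hcon] at hc
        exact hc rfl
      unfold rad
      omega
    · intro Y
      simp only [one_mul, Finset.univ_eq_empty, Finset.sum_empty, add_zero]
      rw [pow_two, Finset.sum_mul_sum]
    · intro s s' hs hs' hss
      omega
    · have e1 : ∑ c ∈ Box (K0 + 1) N, FG G φ N c ^ 2 =
          ∑ s ∈ range (N + 1), (AG G (K0 + 1) s : ℝ) * (φ (N - s) : ℝ) ^ 2 := by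
        rw [hBox]; exact FG_sq G φ N (K0 + 1)
      have e2 : ∀ i : Fin (K0 + 1), ∑ c ∈ Box K0 N, (1 - 4 * ∑ l : Fin 0, (0 : ℝ) * ((0 : ℝ) ^ 2 /
          (2 - (rad c : ℝ) / ((N - 1 : ℕ) : ℝ)))) * UU N (FG G φ N) i c ^ 2 =
          ∑ s ∈ range (N + 1), (AG G K0 s : ℝ) *
            ((∑ t ∈ range (N - s), G (t + 1) * φ (N - s - 1 - t) : ℕ) : ℝ) ^ 2 := by
        intro i
        rw [← FG_marg G φ N K0 i, hBox]
        refine Finset.sum_congr rfl fun c _ => ?_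
        simp [UU]
      have e3 := Finset.sum_congr (rfl : (univ : Finset (Fin (K0 + 1))) = univ) fun i _ => e2 i
      rw [e1, e3, Finset.sum_const, Finset.card_univ, Fintype.card_fin, nsmul_eq_mul]
      have h4 : (((4 * m * (N - 1) * ∑ s ∈ range (N + 1), AG G (K0 + 1) s * φ (N - s) ^ 2 : ℕ)) : ℝ) <
          (((K0 + 1) * ∑ s ∈ range (N + 1), AG G K0 s *
            (∑ t ∈ range (N - s), G (t + 1) * φ (N - s - 1 - t)) ^ 2 : ℕ) : ℝ) := by
        exact_mod_cast h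
      push_cast at h4 ⊢
      exact h4
  filter_upwards [hmain] with X hX
  refine hX.trans (le_of_eq ?_)
  unfold goodM
  congr 2

end Pool.Agent.H358R5
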