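import Mathlib
import Pool.Agent.H358R5.Stubs3

/-! Task SMV: sums over a tree. -/

open Finset

namespace Pool.Agent.H358R5

private lemma smv_leaf (f : ℕ → ℕ) (hf : f 0 = 0) (l v y : ℕ) :
    f v * min y l = ∑ i ∈ range y, f ((BT.leaf l v).val i) := by
  induction y with
  | zero => simp
  | succ y ih =>
    rw [sum_range_succ, ← ih]
    simp only [BT.val]
    by_cases h : y < l
    · rw [if_pos h, min_eq_left h.le, min_eq_left (Nat.succ_le_of_lt h)]
      exact Nat.mul_succ _ _
    · rw [if_neg h, hf, min_eq_right (by omega), min_eq_right (by omega)]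
      rfl

private lemma smv_node (f : ℕ → ℕ) (a b : BT) (y : ℕ) :
    ∑ i ∈ range y, f ((BT.node a b).val i) =
      bif Nat.ble y a.len then ∑ i ∈ range y, f (a.val i)
      else ∑ i ∈ range a.len, f (a.val i) + ∑ i ∈ range (y - a.len), f (b.val i) := by
  cases hb : Nat.ble y a.len with
  | true =>
    have h : y ≤ a.len := Nat.le_of_ble_eq_true hb
    simp only [cond_true]
    apply sum_congr rfl
    intro i hi
    have hi' := mem_range.1 hi
    simp only [BT.val]
    rw [if_pos (by omega)]
  | false =>
    have h : a.len < y := by
      by_contra hcon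
      have h1 : Nat.ble y a.len = true := Nat.ble_eq_true_of_le (not_lt.1 hcon)
      rw [h1] at hb
      exact absurd hb (by decide)
    simp only [cond_false]
    have h2 : y = a.len + (y - a.len) := by omega
    rw [show range y = range (a.len + (y - a.len)) by rw [← h2], sum_range_add]
    congr 1
    · apply sum_congr rfl
      intro i hi
      have hi' := mem_range.1 hi
      simp only [BT.val]
      rw [if_pos hi']
    · apply sum_congr rfl
      intro i _
      simp only [BT.val]
      rw [if_neg (by omega), Nat.add_sub_cancel_left]

/-- SMV -/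
theorem SMV_proof : S_SMV := by
  intro t
  induction t with
  | leaf l v =>
    intro y
    exact ⟨smv_leaf (fun x => x) rfl l v y, smv_leaf (fun x => x ^ 2) rfl l v y⟩
  | node a b iha ihb =>
    intro y
    constructor
    · rw [smv_node (fun x => x) a b y]
      simp only [BT.sm]
      rw [(iha y).1, (iha a.len).1, (ihb (y - a.len)).1]
    · rw [smv_node (fun x => x ^ 2) a b y]
      simp only [BT.sm2]
      rw [(iha y).2, (iha a.len).2, (ihb (y - a.len)).2]

end Pool.Agent.H358R5
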