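import Mathlib
import Pool.Agent.H358R5.Stubs3

/-! H358R5 (helper358), part 4: the certificate with an additional factor `φ(N - ∑ c_j)` in the weight,
`φ = P - M` a difference of two increasing step functions (truncated subtraction). -/

open Finset

namespace Pool.Agent.H358R5

/-- step function with jumps `(a, d)` -/
def stp : List (ℕ × ℕ) → ℕ → ℕ
  | [], _ => 0
  | (a, d) :: L, y => (bif Nat.ble a y then d else 0) + stp L y

/-- `∑ d * B(y - a)` over the jumps, `B(z) = ∑_{i<z} G(i+1)` -/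
def hp (t : BT) : List (ℕ × ℕ) → ℕ → ℕ
  | [], _ => 0
  | (a, d) :: L, y => d * t.sm (y - a) + hp t L y

/-- the outer profile -/
def phi (P M : List (ℕ × ℕ)) (y : ℕ) : ℕ := stp P y - stp M y

/-- `H(y) = ∑_{c=1}^{y} G(c) φ(y - c)` -/
def HH (t : BT) (P M : List (ℕ × ℕ)) (y : ℕ) : ℕ := ∑ i ∈ range y, t.G (i + 1) * phi P M (y - 1 - i)

namespace ST

/-- lower bound for `∑ a(s) H(N-s)^2` from the packed sequence -/
def numP (w N : ℕ) (t : BT) (P M : List (ℕ × ℕ)) : ST → ℕ → ℕ → ℕ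
  | leaf l, X, s0 => (X % ((1 <<< w) - 1)) * (hp t P (N + 1 - (s0 + l)) - hp t M (N - s0)) ^ 2
  | node a b, X, s0 => a.numP w N t P M (X % (1 <<< (w * a.len))) s0 +
      b.numP w N t P M (X >>> (w * a.len)) (s0 + a.len)

/-- upper bound for `∑ (a(s) + E) φ(N-s)^2` from the packed sequence -/
def denP (w N E : ℕ) (P M : List (ℕ × ℕ)) : ST → ℕ → ℕ → ℕ
  | leaf l, X, s0 => (X % ((1 <<< w) - 1) + E * l) * (stp P (N - s0) - stp M (N + 1 - (s0 + l))) ^ 2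
  | node a b, X, s0 => a.denP w N E P M (X % (1 <<< (w * a.len))) s0 +
      b.denP w N E P M (X >>> (w * a.len)) (s0 + a.len)

end ST

/-- the final check; `X1, S1` belong to the first power, `tK` is the shift of the last multiplication -/
def finP (w : ℕ) (t : BT) (P M : List (ℕ × ℕ)) (st : ST) (tK m K X1 S1 n X S E : ℕ) : Bool :=
  Nat.beq (n + 1) K && (Nat.blt (S + 1) (1 <<< w) && (Nat.blt (S * S1 / 2 ^ tK + 1) (1 <<< w) &&
    (Nat.blt (S * S1) (1 <<< w) && (Nat.ble tK w && (Nat.beq st.len (t.len + 1) &&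
      Nat.blt (4 * m * (t.len - 1) *
          (st.denP w t.len ((E * S1) / 2 ^ tK + 2) P M (mulS w (t.len + 1) tK X X1) 0 * 2 ^ tK))
        (K * st.numP w t.len t P M X 0))))))

/-- the certificate check -/
def chkP (w : ℕ) (t : BT) (P M : List (ℕ × ℕ)) (st : ST) (L : List (Bool × ℕ)) (tK m K : ℕ) : Bool :=
  go w (t.len + 1) ((t.pkt w) <<< w) (t.sm2 t.len)
    (finP w t P M st tK m K ((t.pkt w) <<< w) (t.sm2 t.len)) L 1 ((t.pkt w) <<< w) (t.sm2 t.len) 0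

/-- HPL -/
def S_HPL : Prop := ∀ (t : BT) (P M : List (ℕ × ℕ)) (y y0 y1 : ℕ), y0 ≤ y → y ≤ y1 →
  hp t P y0 - hp t M y1 ≤ HH t P M y ∧ phi P M y ≤ stp P y1 - stp M y0

/-- SEGP -/
def S_SEGP : Prop := ∀ (t : BT) (P M : List (ℕ × ℕ)) (st : ST) (w N E : ℕ) (a : ℕ → ℕ), 0 < w →
  st.len = N + 1 → ∑ i ∈ range (N + 1), a i < 2 ^ w - 1 →
  st.numP w N t P M (pk w a (N + 1)) 0 ≤ ∑ s ∈ range (N + 1), a s * HH t P M (N - s) ^ 2 ∧
  ∑ s ∈ range (N + 1), (a s + E) * phi P M (N - s) ^ 2 ≤ st.denP w N E P M (pk w a (N + 1)) 0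

/-- SOUNDP -/
def S_SOUNDP : Prop := ∀ (w : ℕ) (t : BT) (P M : List (ℕ × ℕ)) (st : ST) (L : List (Bool × ℕ))
  (tK m K0 : ℕ), 0 < w → chkP w t P M st L tK m (K0 + 1) = true →
  4 * m * (t.len - 1) * ∑ s ∈ range (t.len + 1), AG t.G (K0 + 1) s * phi P M (t.len - s) ^ 2 <
    (K0 + 1) * ∑ s ∈ range (t.len + 1), AG t.G K0 s * HH t P M (t.len - s) ^ 2

end Pool.Agent.H358R5
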