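import Mathlib
import Pool.Agent.H358R5.Stubs4
import Pool.Agent.H358R5.SMV

/-! Task HPL: bounds for `HH` and `phi`. -/

open Finset

namespace Pool.Agent.H358R5

private lemma hpl_ble (a y d : ℕ) : (bif Nat.ble a y then d else 0) = if a ≤ y then d else 0 := by
  cases hb : Nat.ble a y with
  | true => rw [if_pos (Nat.le_of_ble_eq_true hb)]; rfl
  | false =>
    have h : ¬ a ≤ y := by
      intro hcon
      rw [Nat.ble_eq_true_of_le hcon] at hb
      exact absurd hb (by decide)
    rw [if_neg h]; rfl

private lemma hpl_stp_mono (L : List (ℕ × ℕ)) : Monotone (stp L) := by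
  induction L with
  | nil => intro x y _; exact le_refl _
  | cons q L ih =>
    obtain ⟨a, d⟩ := q
    intro x y hxy
    simp only [stp, hpl_ble]
    refine Nat.add_le_add ?_ (ih hxy)
    by_cases h : a ≤ x
    · rw [if_pos h, if_pos (h.trans hxy)]
    · rw [if_neg h]; exact Nat.zero_le _

private lemma hpl_sm_mono (t : BT) : Monotone t.sm := by
  intro x y hxy
  rw [(SMV_proof t x).1, (SMV_proof t y).1]
  exact sum_le_sum_of_subset (range_subset_range.mpr hxy)

private lemma hpl_hp_mono (t : BT) (L : List (ℕ × ℕ)) : Monotone (hp t L) := by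
  induction L with
  | nil => intro x y _; exact le_refl _
  | cons q L ih =>
    obtain ⟨a, d⟩ := q
    intro x y hxy
    simp only [hp]
    exact Nat.add_le_add (Nat.mul_le_mul_left d (hpl_sm_mono t (Nat.sub_le_sub_right hxy a)))
      (ih hxy)

private lemma hpl_hp (t : BT) (L : List (ℕ × ℕ)) (y : ℕ) :
    ∑ i ∈ range y, t.G (i + 1) * stp L (y - 1 - i) = hp t L y := by
  induction L with
  | nil => simp [stp, hp]
  | cons q L ih =>
    obtain ⟨a, d⟩ := q
    simp only [stp, hp, hpl_ble, mul_add, sum_add_distrib]
    rw [ih]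
    congr 1
    rw [(SMV_proof t (y - a)).1, mul_sum]
    have h1 : ∀ i ∈ range y, t.G (i + 1) * (if a ≤ y - 1 - i then d else 0) =
        if i ∈ range (y - a) then d * t.val i else 0 := by
      intro i hi
      have hi' := mem_range.1 hi
      have h2 : t.G (i + 1) = t.val i := by simp [BT.G]
      rw [h2]
      by_cases h : a ≤ y - 1 - i
      · rw [if_pos h, if_pos (mem_range.2 (by omega)), mul_comm]
      · rw [if_neg h, if_neg (fun h' => h (by have := mem_range.1 h'; omega)), mul_zero]
    rw [sum_congr rfl h1, ← sum_filter]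
    apply sum_congr _ (fun _ _ => rfl)
    ext i
    simp only [mem_filter, mem_range]
    constructor
    · exact fun h => h.2
    · exact fun h => ⟨by omega, h⟩

/-- HPL -/
theorem HPL_proof : S_HPL := by
  intro t P M y y0 y1 h0 h1
  refine ⟨?_, ?_⟩
  · have h2 : hp t P y - hp t M y ≤ HH t P M y := by
      rw [← hpl_hp t P y, ← hpl_hp t M y]
      unfold HH
      rw [Nat.sub_le_iff_le_add, ← sum_add_distrib]
      refine sum_le_sum fun i _ => ?_
      rw [← mul_add]
      refine Nat.mul_le_mul_left _ ?_
      unfold phi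
      omega
    exact (tsub_le_tsub (hpl_hp_mono t P h0) (hpl_hp_mono t M h1)).trans h2
  · unfold phi
    exact tsub_le_tsub (hpl_stp_mono P h1) (hpl_stp_mono M h0)

end Pool.Agent.H358R5
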