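import Mathlib
import Pool.Agent.H358R5.Stubs3

open Finset

namespace Pool.Agent.H358R5

theorem INIT_pkt (h : S_REP) (w : ℕ) (hw : 0 < w) (t : BT) :
    t.pkt w = pk w (fun i => t.val i ^ 2) t.len := by
  induction t with
  | leaf l v =>
    unfold BT.pkt pk
    rw [h w l hw, Finset.mul_sum]
    refine Finset.sum_congr rfl (fun i hi => ?_)
    rw [Finset.mem_range] at hi
    have : (BT.leaf l v).val i = v := by
      have hi' : i < l := hi
      simp only [BT.val]
      rw [if_pos hi']
    simp only [this]
  | node a b iha ihb =>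
    have e1 : (BT.node a b).pkt w = a.pkt w + (b.pkt w) <<< (w * a.len) := rfl
    have e2 : (BT.node a b).len = a.len + b.len := rfl
    rw [e1, e2, iha, ihb, Nat.shiftLeft_eq]
    unfold pk
    rw [Finset.sum_range_add, Finset.sum_mul]
    congr 1
    · refine Finset.sum_congr rfl (fun i hi => ?_)
      rw [Finset.mem_range] at hi
      have : (BT.node a b).val i = a.val i := by
        simp only [BT.val]
        rw [if_pos hi]
      simp only [this]
    · refine Finset.sum_congr rfl (fun i _ => ?_)
      have : (BT.node a b).val (a.len + i) = b.val i := by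
        simp only [BT.val]
        rw [if_neg (by omega), Nat.add_sub_cancel_left]
      simp only [this]
      rw [Nat.mul_add, pow_add]
      ring

theorem INIT_proof (h : S_REP) (h2 : S_SMV) : S_INIT := by
  intro t w hw
  refine ⟨fun i => if i = 0 then 0 else t.val (i - 1) ^ 2, ?_, ?_, ?_⟩
  · rw [INIT_pkt h w hw, Nat.shiftLeft_eq]
    unfold pk
    rw [Finset.sum_range_succ', Finset.sum_mul]
    simp only [Nat.add_sub_cancel, if_true, Nat.zero_mul, Nat.add_zero,
      if_neg (Nat.succ_ne_zero _)]
    refine Finset.sum_congr rfl (fun i _ => ?_)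
    rw [Nat.mul_add, pow_add, Nat.mul_one, mul_assoc]
  · rw [Finset.sum_range_succ', (h2 t t.len).2]
    simp
  · intro s _
    have key : AG t.G 1 s = if s = 0 then 0 else t.val (s - 1) ^ 2 := by
      rcases Nat.eq_zero_or_pos s with h0 | h0
      · subst h0; simp [AG]
      · rw [if_neg (by omega)]
        obtain ⟨k, rfl⟩ : ∃ k, s = k + 1 := ⟨s - 1, by omega⟩
        have e : AG t.G 1 (k + 1) = ∑ c ∈ range (k + 1), t.G (c + 1) ^ 2 * AG t.G 0 (k + 1 - 1 - c) :=
          rfl
        rw [e, Finset.sum_eq_single k]
        · simp [AG, BT.G]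
        · intro b hb hbk
          rw [Finset.mem_range] at hb
          have : k + 1 - 1 - b ≠ 0 := by omega
          simp only [AG]
          rw [if_neg this, Nat.mul_zero]
        · intro hk
          exact absurd (Finset.mem_range.2 (Nat.lt_succ_self k)) hk
    rw [key]
    constructor <;> simp

end Pool.Agent.H358R5
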