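import Mathlib
import Pool.Agent.H358R5.Stubs3

open Finset

namespace Pool.Agent.H358R5

theorem INVMUL_conv_le (a b : ℕ → ℕ) (n k : ℕ) (hk : k < n) :
    conv a b k ≤ (∑ i ∈ range n, a i) * ∑ i ∈ range n, b i := by
  unfold conv
  calc ∑ i ∈ range (k + 1), a i * b (k - i)
      ≤ ∑ i ∈ range (k + 1), a i * ∑ j ∈ range n, b j := by
        refine Finset.sum_le_sum (fun i _ => Nat.mul_le_mul_left _ ?_)
        exact Finset.single_le_sum (f := b) (fun _ _ => Nat.zero_le _)
          (Finset.mem_range.2 (by omega))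
    _ = (∑ i ∈ range (k + 1), a i) * ∑ j ∈ range n, b j := by rw [Finset.sum_mul]
    _ ≤ (∑ i ∈ range n, a i) * ∑ j ∈ range n, b j := by
        refine Nat.mul_le_mul_right _ ?_
        exact Finset.sum_le_sum_of_subset (Finset.range_subset_range.2 (by omega))

theorem INVMUL_conv_sum (a b : ℕ → ℕ) (n : ℕ) :
    ∑ k ∈ range n, conv a b k ≤ (∑ i ∈ range n, a i) * ∑ i ∈ range n, b i := by
  unfold conv
  rw [Finset.sum_comm' (s' := fun i => Finset.Ico i n) (t' := range n)]
  · rw [Finset.sum_mul]
    refine Finset.sum_le_sum (fun i _ => ?_)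
    rw [← Finset.mul_sum]
    refine Nat.mul_le_mul_left _ ?_
    rw [Finset.sum_Ico_eq_sum_range]
    simp only [Nat.add_sub_cancel_left]
    exact Finset.sum_le_sum_of_subset (Finset.range_subset_range.2 (by omega))
  · intro x y
    simp only [Finset.mem_range, Finset.mem_Ico]
    omega

theorem INVMUL_proof (h : S_MULS) (h2 : S_CONVA) : S_INVMUL := by
  intro G w n1 n X S E e n' X' S' E' e' t hw htw hI hI' hSS
  obtain ⟨a, hX, hS, hb⟩ := hI
  obtain ⟨a', hX', hS', hb'⟩ := hI'
  have hsum : (∑ i ∈ range n1, a i) * ∑ i ∈ range n1, a' i ≤ S * S' := Nat.mul_le_mul hS hS'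
  refine ⟨fun k => conv a a' k / 2 ^ t, ?_, ?_, ?_⟩
  · rw [hX, hX']
    exact h w n1 t a a' hw htw
      (fun k hk => lt_of_le_of_lt ((INVMUL_conv_le a a' n1 k hk).trans hsum) hSS)
  · have h3 : (∑ k ∈ range n1, conv a a' k / 2 ^ t) * 2 ^ t ≤ S * S' := by
      rw [Finset.sum_mul]
      calc ∑ k ∈ range n1, conv a a' k / 2 ^ t * 2 ^ t ≤ ∑ k ∈ range n1, conv a a' k :=
            Finset.sum_le_sum (fun k _ => Nat.div_mul_le_self _ _)
        _ ≤ _ := (INVMUL_conv_sum a a' n1).trans hsum
    exact (Nat.le_div_iff_mul_le (by positivity)).2 h3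
  · intro s hs
    have hpw : 2 ^ (e + e' + t) = 2 ^ e * 2 ^ e' * 2 ^ t := by rw [pow_add, pow_add]
    have hdm := Nat.div_add_mod (conv a a' s) (2 ^ t)
    have hml := Nat.mod_lt (conv a a' s) (show 0 < 2 ^ t by positivity)
    rw [h2 G n n' s]
    constructor
    · calc conv a a' s / 2 ^ t * 2 ^ (e + e' + t)
          = (2 ^ t * (conv a a' s / 2 ^ t)) * (2 ^ e * 2 ^ e') := by rw [hpw]; ring
        _ ≤ conv a a' s * (2 ^ e * 2 ^ e') := Nat.mul_le_mul_right _ (by omega)
        _ = ∑ i ∈ range (s + 1), (a i * 2 ^ e) * (a' (s - i) * 2 ^ e') := by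
          unfold conv
          rw [Finset.sum_mul]
          exact Finset.sum_congr rfl (fun i _ => by ring)
        _ ≤ conv (AG G n) (AG G n') s := by
          unfold conv
          refine Finset.sum_le_sum (fun i hi => ?_)
          rw [Finset.mem_range] at hi
          exact Nat.mul_le_mul (hb i (by omega)).1 (hb' (s - i) (by omega)).1
    · have hS1 : ∑ i ∈ range (s + 1), a i ≤ S :=
        (Finset.sum_le_sum_of_subset (Finset.range_subset_range.2 (by omega))).trans hS
      have hS2 : ∑ i ∈ range (s + 1), a' (s - i) ≤ S' := by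
        have : ∑ i ∈ range (s + 1), a' (s - i) = ∑ i ∈ range (s + 1), a' i := by
          have := Finset.sum_range_reflect a' (s + 1)
          simpa using this
        rw [this]
        exact (Finset.sum_le_sum_of_subset (Finset.range_subset_range.2 (by omega))).trans hS'
      set X0 := E * S' + E' * S + E * E' * n1 with hX0
      have hdm0 := Nat.div_add_mod X0 (2 ^ t)
      have hml0 := Nat.mod_lt X0 (show 0 < 2 ^ t by positivity)
      calc conv (AG G n) (AG G n') s
          ≤ ∑ i ∈ range (s + 1), ((a i + E) * 2 ^ e) * ((a' (s - i) + E') * 2 ^ e') := by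
            unfold conv
            refine Finset.sum_le_sum (fun i hi => ?_)
            rw [Finset.mem_range] at hi
            exact Nat.mul_le_mul (hb i (by omega)).2 (hb' (s - i) (by omega)).2
        _ = (conv a a' s + (E' * ∑ i ∈ range (s + 1), a i) + (E * ∑ i ∈ range (s + 1), a' (s - i)) +
              (s + 1) * (E * E')) * (2 ^ e * 2 ^ e') := by
            unfold conv
            rw [Finset.mul_sum, Finset.mul_sum]
            have : (s + 1) * (E * E') = ∑ i ∈ range (s + 1), E * E' := by
              rw [Finset.sum_const, Finset.card_range, smul_eq_mul]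
            rw [this, ← Finset.sum_add_distrib, ← Finset.sum_add_distrib, ← Finset.sum_add_distrib,
              Finset.sum_mul]
            exact Finset.sum_congr rfl (fun i _ => by ring)
        _ ≤ (conv a a' s + X0) * (2 ^ e * 2 ^ e') := by
            refine Nat.mul_le_mul_right _ ?_
            have q1 : E' * ∑ i ∈ range (s + 1), a i ≤ E' * S := Nat.mul_le_mul_left _ hS1
            have q2 : E * ∑ i ∈ range (s + 1), a' (s - i) ≤ E * S' := Nat.mul_le_mul_left _ hS2
            have q3 : (s + 1) * (E * E') ≤ E * E' * n1 := by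
              rw [Nat.mul_comm (E * E')]
              exact Nat.mul_le_mul_right _ (by omega)
            rw [hX0]
            omega
        _ ≤ (2 ^ t * (conv a a' s / 2 ^ t + (X0 / 2 ^ t + 2))) * (2 ^ e * 2 ^ e') := by
            refine Nat.mul_le_mul_right _ ?_
            have : 2 ^ t * (conv a a' s / 2 ^ t + (X0 / 2 ^ t + 2)) =
              2 ^ t * (conv a a' s / 2 ^ t) + 2 ^ t * (X0 / 2 ^ t) + 2 * 2 ^ t := by ring
            rw [this]
            omega
        _ = (conv a a' s / 2 ^ t + (X0 / 2 ^ t + 2)) * 2 ^ (e + e' + t) := by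
            rw [hpw]; ring

end Pool.Agent.H358R5
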