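import Mathlib
import Pool.Agent.H358R5.Stubs2

/-! Two logarithms (task LOG). -/

namespace Pool.Agent.H358R5

theorem LOG_exp58 : Real.exp (29 / 50) ≤ 17860385 / 10000000 := by
  have h := Real.exp_bound' (x := 29 / 50) (by norm_num) (by norm_num) (n := 10) (by norm_num)
  refine h.trans ?_
  simp only [Finset.sum_range_succ, Finset.sum_range_zero, Nat.factorial]
  norm_num

theorem LOG_exp (n : ℕ) : Real.exp (n + 29 / 50) ≤
    (27182818286 / 10000000000) ^ n * (17860385 / 10000000) := by
  have h1 : Real.exp (n + 29 / 50) = Real.exp 1 ^ n * Real.exp (29 / 50) := by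
    rw [Real.exp_add, ← Real.exp_nat_mul, mul_one]
  rw [h1]
  have h2 : Real.exp 1 ≤ 27182818286 / 10000000000 := by
    have := Real.exp_one_lt_d9
    norm_num at this ⊢
    linarith
  have h3 := LOG_exp58
  have h4 := Real.exp_pos 1
  have h5 := Real.exp_pos (29 / 50)
  gcongr

theorem LOG_proof : S_LOG := by
  constructor
  · rw [Real.le_log_iff_exp_le (by norm_num)]
    have h := LOG_exp 8
    rw [show (4 : ℝ) * 2 + 29 / 50 = ((8 : ℕ) : ℝ) + 29 / 50 by norm_num]
    refine h.trans ?_
    norm_num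
  · rw [Real.le_log_iff_exp_le (by norm_num)]
    have h := LOG_exp 12
    rw [show (4 : ℝ) * 3 + 29 / 50 = ((12 : ℕ) : ℝ) + 29 / 50 by norm_num]
    refine h.trans ?_
    norm_num

end Pool.Agent.H358R5
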