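import Mathlib
import Pool.Agent.H358R5.Stubs3

/-! MULS: product of packed sequences. -/

open Finset

namespace Pool.Agent.H358R5

namespace MULSh

lemma pk_succ (w : ℕ) (a : ℕ → ℕ) (n : ℕ) :
    pk w a (n + 1) = a 0 + 2 ^ w * pk w (fun k => a (k + 1)) n := by
  unfold pk
  rw [sum_range_succ', Nat.add_comm, mul_sum]
  congr 1
  · simp
  · refine sum_congr rfl fun i _ => ?_
    rw [Nat.mul_succ, pow_add]; ring

lemma pk_congr {w n : ℕ} {a b : ℕ → ℕ} (h : ∀ k, k < n → a k = b k) : pk w a n = pk w b n := by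
  unfold pk
  refine sum_congr rfl fun i hi => ?_
  rw [h i (mem_range.1 hi)]

lemma pk_lt (w : ℕ) : ∀ (n : ℕ) (c : ℕ → ℕ), (∀ k, k < n → c k < 2 ^ w) → pk w c n < 2 ^ (w * n) := by
  intro n
  induction n with
  | zero => intro c _; simp [pk]
  | succ n ih =>
    intro c hc
    rw [pk_succ]
    have h1 := ih (fun k => c (k + 1)) (fun k hk => hc (k + 1) (by omega))
    have h2 := hc 0 (by omega)
    have h3 : 2 ^ w * (pk w (fun k => c (k + 1)) n + 1) ≤ 2 ^ w * 2 ^ (w * n) :=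
      Nat.mul_le_mul_left _ h1
    have h4 : 2 ^ (w * (n + 1)) = 2 ^ w * 2 ^ (w * n) := by rw [← pow_add]; congr 1; ring
    rw [h4]
    rw [mul_add, mul_one] at h3
    omega

lemma and_split {k u v : ℕ} (x y : ℕ) (hu : u < 2 ^ k) (hv : v < 2 ^ k) :
    (u + 2 ^ k * x) &&& (v + 2 ^ k * y) = (u &&& v) + 2 ^ k * (x &&& y) := by
  rw [add_comm u, add_comm v, add_comm (u &&& v)]
  apply Nat.eq_of_testBit_eq
  intro j
  have h3 : u &&& v < 2 ^ k := Nat.and_lt_two_pow u hv
  rw [Nat.testBit_and, Nat.testBit_two_pow_mul_add _ hu, Nat.testBit_two_pow_mul_add _ hv,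
    Nat.testBit_two_pow_mul_add _ h3]
  split_ifs
  · rw [Nat.testBit_and]
  · rw [Nat.testBit_and]

lemma and_shift (t Z M : ℕ) : Z &&& (2 ^ t * M) = 2 ^ t * ((Z >>> t) &&& M) := by
  apply Nat.eq_of_testBit_eq
  intro j
  rw [Nat.testBit_and, Nat.testBit_two_pow_mul, Nat.testBit_two_pow_mul]
  by_cases h : t ≤ j
  · have e : t + (j - t) = j := by omega
    simp [h, e, Nat.testBit_shiftRight, Nat.testBit_and]
  · simp [h]

/-- the product modulo `2^(wn)` -/
lemma mul_mod (w n : ℕ) (a b : ℕ → ℕ) (h : ∀ k, k < n → conv a b k < 2 ^ w) :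
    (pk w a n * pk w b n) % 2 ^ (w * n) = pk w (conv a b) n := by
  have h1 : pk w (conv a b) n < 2 ^ (w * n) := pk_lt w n _ h
  have h2 : pk w a n * pk w b n ≡ pk w (conv a b) n [MOD 2 ^ (w * n)] := by
    have e1 : pk w (conv a b) n =
        ∑ i ∈ range n, ∑ j ∈ range (n - i), a i * b j * 2 ^ (w * (i + j)) := by
      rw [← Finset.sum_range_diag_flip n (fun i j => a i * b j * 2 ^ (w * (i + j)))]
      unfold pk conv
      refine sum_congr rfl fun k _ => ?_
      rw [sum_mul]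
      refine sum_congr rfl fun i hi => ?_
      have : i + (k - i) = k := by have := mem_range.1 hi; omega
      rw [this]
    have e2 : pk w a n * pk w b n =
        ∑ i ∈ range n, ∑ j ∈ range n, a i * b j * 2 ^ (w * (i + j)) := by
      unfold pk
      rw [sum_mul_sum]
      refine sum_congr rfl fun i _ => sum_congr rfl fun j _ => ?_
      rw [mul_add w, pow_add]; ring
    rw [e1, e2]
    apply Nat.ModEq.symm
    apply Nat.ModEq.sum
    intro i hi
    have hi' := mem_range.1 hi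
    have e3 : ∑ j ∈ range n, a i * b j * 2 ^ (w * (i + j)) =
        ∑ j ∈ range (n - i), a i * b j * 2 ^ (w * (i + j)) +
        ∑ j ∈ Ico (n - i) n, a i * b j * 2 ^ (w * (i + j)) := by
      rw [Finset.sum_range_add_sum_Ico _ (by omega)]
    rw [e3]
    have e4 : 2 ^ (w * n) ∣ ∑ j ∈ Ico (n - i) n, a i * b j * 2 ^ (w * (i + j)) := by
      apply dvd_sum
      intro j hj
      have hj' := mem_Ico.1 hj
      apply Dvd.dvd.mul_left
      exact pow_dvd_pow _ (Nat.mul_le_mul_left w (by omega))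
    have := (Nat.modEq_zero_iff_dvd.2 e4).symm
    simpa using (Nat.ModEq.refl (∑ j ∈ range (n - i), a i * b j * 2 ^ (w * (i + j)))).add this
  rw [h2, Nat.mod_eq_of_lt h1]

lemma mask (w t : ℕ) (ht : t ≤ w) : ∀ (n : ℕ) (c : ℕ → ℕ), (∀ k, k < n → c k < 2 ^ w) →
    (pk w c n >>> t) &&& ((2 ^ (w - t) - 1) * ∑ i ∈ range n, 2 ^ (w * i)) =
      pk w (fun k => c k / 2 ^ t) n := by
  intro n
  induction n with
  | zero => intro c _; simp [pk]
  | succ n ih =>
    intro c hc
    have h1 := ih (fun k => c (k + 1)) (fun k hk => hc (k + 1) (by omega))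
    have h2 := hc 0 (by omega)
    rw [pk_succ, pk_succ]
    have e0 : ∑ i ∈ range (n + 1), 2 ^ (w * i) = 1 + 2 ^ w * ∑ i ∈ range n, 2 ^ (w * i) := by
      have := pk_succ w (fun _ => 1) n
      simpa [pk] using this
    rw [e0]
    set S := ∑ i ∈ range n, 2 ^ (w * i)
    set Z := pk w (fun k => c (k + 1)) n
    have ew : 2 ^ w = 2 ^ t * 2 ^ (w - t) := by rw [← pow_add]; congr 1; omega
    have e1 : (c 0 + 2 ^ w * Z) >>> t = c 0 / 2 ^ t + 2 ^ (w - t) * Z := by
      rw [Nat.shiftRight_eq_div_pow, ew, mul_assoc, Nat.add_mul_div_left _ _ (by positivity)]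
    have e2 : (2 ^ (w - t) - 1) * (1 + 2 ^ w * S) =
        (2 ^ (w - t) - 1) + 2 ^ (w - t) * (2 ^ t * ((2 ^ (w - t) - 1) * S)) := by
      rw [ew]; ring
    have hp : 0 < 2 ^ (w - t) := by positivity
    have h3 : c 0 / 2 ^ t < 2 ^ (w - t) := by
      rw [Nat.div_lt_iff_lt_mul (by positivity), mul_comm, ← ew]; exact h2
    rw [e1, e2, and_split _ _ h3 (by omega), and_shift, h1,
      Nat.and_two_pow_sub_one_eq_mod, Nat.mod_eq_of_lt h3, ew]
    ring

end MULSh

open MULSh in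
theorem MULS_proof (h : S_REP) : S_MULS := by
  intro w n t a b hw ht hc
  unfold mulS
  rw [h w n hw]
  simp only [Nat.one_shiftLeft]
  rw [mul_mod w n a b hc]
  exact mask w t ht n _ hc

end Pool.Agent.H358R5
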