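import Mathlib
import Pool.Agent.H358R5.Stubs3

/-! Task REP (author helper171): the all-ones pattern. -/

namespace Pool.Agent.H358R5

open Finset

theorem REP_proof : S_REP := by
  intro w n hw
  have h2 : 2 ≤ 2 ^ w := by
    calc 2 = 2 ^ 1 := by norm_num
      _ ≤ 2 ^ w := Nat.pow_le_pow_right (by norm_num) hw
  have h1 : ∑ i ∈ range n, 2 ^ (w * i) = ∑ i ∈ range n, (2 ^ w) ^ i := by
    apply sum_congr rfl
    intro i _
    rw [pow_mul]
  rw [h1, Nat.geomSum_eq h2]
  simp only [rep, Nat.one_shiftLeft, ← pow_mul]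

end Pool.Agent.H358R5
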