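import Mathlib
import Pool.Agent.H358R5.Stubs3

set_option autoImplicit false

open Finset

namespace Pool.Agent.H358R5

namespace SEGh

theorem pk_append (w : ℕ) (a : ℕ → ℕ) (m n : ℕ) :
    pk w a (m + n) = pk w a m + 2 ^ (w * m) * pk w (fun i => a (m + i)) n := by
  unfold pk
  rw [Finset.sum_range_add, Finset.mul_sum]
  congr 1
  apply Finset.sum_congr rfl
  intro i _
  rw [Nat.mul_add, pow_add]
  ring

theorem pk_lt (w : ℕ) (a : ℕ → ℕ) (n : ℕ) (h : ∀ i, i < n → a i < 2 ^ w) :
    pk w a n < 2 ^ (w * n) := by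
  induction n with
  | zero => simp [pk]
  | succ n ih =>
    have h1 := ih (fun i hi => h i (by omega))
    have h2 := h n (by omega)
    have h3 : pk w a (n + 1) = pk w a n + a n * 2 ^ (w * n) := by
      unfold pk
      rw [Finset.sum_range_succ]
    have h4 : 2 ^ (w * (n + 1)) = 2 ^ w * 2 ^ (w * n) := by
      rw [← pow_add]
      congr 1
      ring
    rw [h3, h4]
    have h5 : (a n + 1) * 2 ^ (w * n) ≤ 2 ^ w * 2 ^ (w * n) := Nat.mul_le_mul_right _ h2
    nlinarith

theorem pk_mod (w : ℕ) (a : ℕ → ℕ) (n : ℕ) (h : ∑ i ∈ range n, a i < 2 ^ w - 1) :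
    pk w a n % (2 ^ w - 1) = ∑ i ∈ range n, a i := by
  have h1 : pk w a n ≡ ∑ i ∈ range n, a i [MOD 2 ^ w - 1] := by
    unfold pk
    apply Nat.ModEq.sum
    intro i _
    have h2 : (2 : ℕ) ^ w ≡ 1 [MOD 2 ^ w - 1] := by
      have h3 : 1 ≤ 2 ^ w := Nat.one_le_two_pow
      exact ((Nat.modEq_iff_dvd' h3).2 dvd_rfl).symm
    have h4 : (2 : ℕ) ^ (w * i) ≡ 1 [MOD 2 ^ w - 1] := by
      rw [pow_mul]
      have h5 := h2.pow i
      rwa [one_pow] at h5
    have h6 := Nat.ModEq.mul_left (a i) h4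
    rwa [mul_one] at h6
  have h7 : pk w a n % (2 ^ w - 1) = (∑ i ∈ range n, a i) % (2 ^ w - 1) := h1
  rw [h7, Nat.mod_eq_of_lt h]

theorem sm_mono (hS : S_SMV) (t : BT) {x y : ℕ} (h : x ≤ y) : t.sm x ≤ t.sm y := by
  rw [(hS t x).1, (hS t y).1]
  exact Finset.sum_le_sum_of_subset (Finset.range_mono h)

theorem sm2_mono (hS : S_SMV) (t : BT) {x y : ℕ} (h : x ≤ y) : t.sm2 x ≤ t.sm2 y := by
  rw [(hS t x).2, (hS t y).2]
  exact Finset.sum_le_sum_of_subset (Finset.range_mono h)

theorem main (hS : S_SMV) (t : BT) (w N E : ℕ) (st : ST) : ∀ (a : ℕ → ℕ) (s0 : ℕ),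
    s0 + st.len ≤ N + 1 → ∑ i ∈ range st.len, a i < 2 ^ w - 1 →
    st.num w N t (pk w a st.len) s0 ≤ ∑ i ∈ range st.len, a i * t.sm (N - (s0 + i)) ^ 2 ∧
    ∑ i ∈ range st.len, (a i + E) * t.sm2 (N - (s0 + i)) ≤ st.den w N E t (pk w a st.len) s0 := by
  induction st with
  | leaf l =>
    intro a s0 h0 hsum
    simp only [ST.len] at h0 hsum ⊢
    simp only [ST.num, ST.den, Nat.one_shiftLeft]
    rw [pk_mod w a l hsum]
    constructor
    · rw [Finset.sum_mul]
      apply Finset.sum_le_sum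
      intro i hi
      rw [Finset.mem_range] at hi
      apply Nat.mul_le_mul_left
      exact Nat.pow_le_pow_left (sm_mono hS t (by omega)) 2
    · have h1 : ∑ i ∈ range l, a i + E * l = ∑ i ∈ range l, (a i + E) := by
        rw [Finset.sum_add_distrib, Finset.sum_const, Finset.card_range, smul_eq_mul, mul_comm E]
      rw [h1, Finset.sum_mul]
      apply Finset.sum_le_sum
      intro i _
      apply Nat.mul_le_mul_left
      exact sm2_mono hS t (by omega)
  | node u v ihu ihv =>
    intro a s0 h0 hsum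
    simp only [ST.len] at h0 hsum ⊢
    simp only [ST.num, ST.den, Nat.one_shiftLeft]
    rw [Finset.sum_range_add] at hsum
    have hlt : ∀ i, i < u.len → a i < 2 ^ w := by
      intro i hi
      have h1 : a i ≤ ∑ i ∈ range u.len, a i :=
        Finset.single_le_sum (f := a) (fun _ _ => Nat.zero_le _) (Finset.mem_range.2 hi)
      omega
    have hpk := pk_lt w a u.len hlt
    have hpos : 0 < 2 ^ (w * u.len) := by positivity
    have hmod : pk w a (u.len + v.len) % 2 ^ (w * u.len) = pk w a u.len := by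
      rw [pk_append, Nat.add_mul_mod_self_left, Nat.mod_eq_of_lt hpk]
    have hshift : pk w a (u.len + v.len) >>> (w * u.len) =
        pk w (fun i => a (u.len + i)) v.len := by
      rw [Nat.shiftRight_eq_div_pow, pk_append, Nat.add_mul_div_left _ _ hpos,
        Nat.div_eq_of_lt hpk, zero_add]
    rw [hmod, hshift]
    obtain ⟨a1, a2⟩ := ihu a s0 (by omega) (by omega)
    obtain ⟨b1, b2⟩ := ihv (fun i => a (u.len + i)) (s0 + u.len) (by omega) (by omega)
    simp only [Nat.add_assoc] at b1 b2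
    rw [Finset.sum_range_add, Finset.sum_range_add]
    exact ⟨Nat.add_le_add a1 b1, Nat.add_le_add a2 b2⟩

end SEGh

theorem SEG_proof (h : S_SMV) : S_SEG := by
  intro t st w N E a _ hlen hsum
  have h1 := SEGh.main h t w N E st a 0 (by omega) (by rw [hlen]; exact hsum)
  rw [hlen] at h1
  simpa only [Nat.zero_add] using h1

end Pool.Agent.H358R5
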