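import Mathlib
import Pool.Agent.H358R5.Stubs4
import Pool.Agent.H358R5.SEG

/-! Segment sums with `phi` (task SEGP). -/

set_option autoImplicit false

open Finset

namespace Pool.Agent.H358R5

namespace SEGPh

theorem main (hH : S_HPL) (t : BT) (P M : List (ℕ × ℕ)) (w N E : ℕ) (st : ST) :
    ∀ (a : ℕ → ℕ) (s0 : ℕ), s0 + st.len ≤ N + 1 → ∑ i ∈ range st.len, a i < 2 ^ w - 1 →
    st.numP w N t P M (pk w a st.len) s0 ≤
      ∑ i ∈ range st.len, a i * HH t P M (N - (s0 + i)) ^ 2 ∧
    ∑ i ∈ range st.len, (a i + E) * phi P M (N - (s0 + i)) ^ 2 ≤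
      st.denP w N E P M (pk w a st.len) s0 := by
  induction st with
  | leaf l =>
    intro a s0 h0 hsum
    simp only [ST.len] at h0 hsum ⊢
    simp only [ST.numP, ST.denP, Nat.one_shiftLeft]
    rw [SEGh.pk_mod w a l hsum]
    constructor
    · rw [Finset.sum_mul]
      apply Finset.sum_le_sum
      intro i hi
      rw [Finset.mem_range] at hi
      apply Nat.mul_le_mul_left
      exact Nat.pow_le_pow_left
        (hH t P M (N - (s0 + i)) (N + 1 - (s0 + l)) (N - s0) (by omega) (by omega)).1 2
    · have h1 : ∑ i ∈ range l, a i + E * l = ∑ i ∈ range l, (a i + E) := by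
        rw [Finset.sum_add_distrib, Finset.sum_const, Finset.card_range, smul_eq_mul, mul_comm E]
      rw [h1, Finset.sum_mul]
      apply Finset.sum_le_sum
      intro i hi
      rw [Finset.mem_range] at hi
      apply Nat.mul_le_mul_left
      exact Nat.pow_le_pow_left
        (hH t P M (N - (s0 + i)) (N + 1 - (s0 + l)) (N - s0) (by omega) (by omega)).2 2
  | node u v ihu ihv =>
    intro a s0 h0 hsum
    simp only [ST.len] at h0 hsum ⊢
    simp only [ST.numP, ST.denP, Nat.one_shiftLeft]
    rw [Finset.sum_range_add] at hsum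
    have hlt : ∀ i, i < u.len → a i < 2 ^ w := by
      intro i hi
      have h1 : a i ≤ ∑ i ∈ range u.len, a i :=
        Finset.single_le_sum (f := a) (fun _ _ => Nat.zero_le _) (Finset.mem_range.2 hi)
      omega
    have hpk := SEGh.pk_lt w a u.len hlt
    have hpos : 0 < 2 ^ (w * u.len) := by positivity
    have hmod : pk w a (u.len + v.len) % 2 ^ (w * u.len) = pk w a u.len := by
      rw [SEGh.pk_append, Nat.add_mul_mod_self_left, Nat.mod_eq_of_lt hpk]
    have hshift : pk w a (u.len + v.len) >>> (w * u.len) =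
        pk w (fun i => a (u.len + i)) v.len := by
      rw [Nat.shiftRight_eq_div_pow, SEGh.pk_append, Nat.add_mul_div_left _ _ hpos,
        Nat.div_eq_of_lt hpk, zero_add]
    rw [hmod, hshift]
    obtain ⟨a1, a2⟩ := ihu a s0 (by omega) (by omega)
    obtain ⟨b1, b2⟩ := ihv (fun i => a (u.len + i)) (s0 + u.len) (by omega) (by omega)
    simp only [Nat.add_assoc] at b1 b2
    rw [Finset.sum_range_add, Finset.sum_range_add]
    exact ⟨Nat.add_le_add a1 b1, Nat.add_le_add a2 b2⟩

end SEGPh

theorem SEGP_proof (h : S_HPL) : S_SEGP := by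
  intro t P M st w N E a _ hlen hsum
  have h1 := SEGPh.main h t P M w N E st a 0 (by omega) (by rw [hlen]; exact hsum)
  rw [hlen] at h1
  simpa only [Nat.zero_add] using h1

end Pool.Agent.H358R5
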