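import Mathlib
import Pool.Agent.H358R5.Stubs3

set_option autoImplicit false

open Finset

namespace Pool.Agent.H358R5

theorem SOUND_go (h1 : S_INVMUL) (G : ℕ → ℕ) (w n1 X1 S1 : ℕ) (f : ℕ → ℕ → ℕ → ℕ → Bool)
    (hw : 0 < w) (h0 : Inv G w n1 1 X1 S1 0 0) : ∀ (L : List (Bool × ℕ)) (n X S E e : ℕ),
    Inv G w n1 n X S E e → go w n1 X1 S1 f L n X S E = true →
    ∃ n' X' S' E' e', f n' X' S' E' = true ∧ Inv G w n1 n' X' S' E' e' := by
  intro L
  induction L with
  | nil =>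
    intro n X S E e hI hg
    exact ⟨n, X, S, E, e, hg, hI⟩
  | cons p L ih =>
    intro n X S E e hI hg
    obtain ⟨b, t⟩ := p
    cases b with
    | false =>
      simp only [go, Bool.and_eq_true] at hg
      obtain ⟨hg1, hg2, hg3⟩ := hg
      have hS : S * S < 2 ^ w := by
        have := Nat.blt_eq.mp hg1
        rwa [Nat.one_shiftLeft] at this
      have ht : t ≤ w := Nat.le_of_ble_eq_true hg2
      have hI' := h1 G w n1 n X S E e n X S E e t hw ht hI hI hS
      have e1 : n + n = 2 * n := by ring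
      have e2 : E * S + E * S + E * E * n1 = 2 * E * S + E * E * n1 := by ring
      rw [e1, e2] at hI'
      exact ih _ _ _ _ _ hI' hg3
    | true =>
      simp only [go, Bool.and_eq_true] at hg
      obtain ⟨hg1, hg2, hg3⟩ := hg
      have hS : S * S1 < 2 ^ w := by
        have := Nat.blt_eq.mp hg1
        rwa [Nat.one_shiftLeft] at this
      have ht : t ≤ w := Nat.le_of_ble_eq_true hg2
      have hI' := h1 G w n1 n X S E e 1 X1 S1 0 0 t hw ht hI h0 hS
      have e2 : E * S1 + 0 * S + E * 0 * n1 = E * S1 := by ring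
      rw [e2] at hI'
      exact ih _ _ _ _ _ hI' hg3

theorem SOUND_proof (h1 : S_INVMUL) (h2 : S_SMV) (h3 : S_INIT) (h4 : S_SEG) : S_SOUND := by
  intro w t st L m K0 hw hchk
  unfold chk at hchk
  obtain ⟨n', X', S', E', e', hf, a, hX, haS, hab⟩ := SOUND_go h1 t.G w (t.len + 1) _ _ _ hw
    (h3 t w hw) L 1 _ _ 0 0 (h3 t w hw) hchk
  simp only [fin, Bool.and_eq_true] at hf
  obtain ⟨hf1, hf2, hf3, hf4⟩ := hf
  have hn : n' = K0 := by
    have := Nat.eq_of_beq_eq_true hf1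
    omega
  have hS : S' + 1 < 2 ^ w := by
    have := Nat.blt_eq.mp hf2
    rwa [Nat.one_shiftLeft] at this
  have hst : st.len = t.len + 1 := Nat.eq_of_beq_eq_true hf3
  have hlt := Nat.blt_eq.mp hf4
  subst hn
  obtain ⟨hnum, hden⟩ := h4 t st w t.len E' a hw hst (by omega)
  rw [← hX] at hnum hden
  have hG : ∀ i, t.G (i + 1) = t.val i := fun i => by simp [BT.G]
  have hsm : ∀ y, ∑ i ∈ range y, t.G (i + 1) = t.sm y := by
    intro y
    rw [(h2 t y).1]
    exact Finset.sum_congr rfl fun i _ => hG i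
  have hsm2 : ∀ y, ∑ i ∈ range y, t.G (i + 1) ^ 2 = t.sm2 y := by
    intro y
    rw [(h2 t y).2]
    exact Finset.sum_congr rfl fun i _ => by rw [hG i]
  simp only [hsm, hsm2]
  have hup : ∑ s ∈ range (t.len + 1), AG t.G n' s * t.sm2 (t.len - s) ≤
      2 ^ e' * ∑ s ∈ range (t.len + 1), (a s + E') * t.sm2 (t.len - s) := by
    rw [Finset.mul_sum]
    apply Finset.sum_le_sum
    intro s hs
    have h5 := (hab s (Finset.mem_range.mp hs)).2
    calc AG t.G n' s * t.sm2 (t.len - s) ≤ ((a s + E') * 2 ^ e') * t.sm2 (t.len - s) :=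
          Nat.mul_le_mul_right _ h5
      _ = 2 ^ e' * ((a s + E') * t.sm2 (t.len - s)) := by ring
  have hlow : 2 ^ e' * ∑ s ∈ range (t.len + 1), a s * t.sm (t.len - s) ^ 2 ≤
      ∑ s ∈ range (t.len + 1), AG t.G n' s * t.sm (t.len - s) ^ 2 := by
    rw [Finset.mul_sum]
    apply Finset.sum_le_sum
    intro s hs
    have h5 := (hab s (Finset.mem_range.mp hs)).1
    calc 2 ^ e' * (a s * t.sm (t.len - s) ^ 2) = (a s * 2 ^ e') * t.sm (t.len - s) ^ 2 := by ring
      _ ≤ AG t.G n' s * t.sm (t.len - s) ^ 2 := Nat.mul_le_mul_right _ h5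
  have hpos : 0 < 2 ^ e' := by positivity
  calc 4 * m * (t.len - 1) * ∑ s ∈ range (t.len + 1), AG t.G n' s * t.sm2 (t.len - s)
      ≤ 4 * m * (t.len - 1) * (2 ^ e' * ∑ s ∈ range (t.len + 1), (a s + E') * t.sm2 (t.len - s)) :=
        Nat.mul_le_mul_left _ hup
    _ ≤ 4 * m * (t.len - 1) * (2 ^ e' * st.den w t.len E' t X' 0) :=
        Nat.mul_le_mul_left _ (Nat.mul_le_mul_left _ hden)
    _ = 2 ^ e' * (4 * m * (t.len - 1) * st.den w t.len E' t X' 0) := by ring
    _ < 2 ^ e' * ((n' + 1) * st.num w t.len t X' 0) := Nat.mul_lt_mul_of_pos_left hlt hpos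
    _ ≤ 2 ^ e' * ((n' + 1) * ∑ s ∈ range (t.len + 1), a s * t.sm (t.len - s) ^ 2) :=
        Nat.mul_le_mul_left _ (Nat.mul_le_mul_left _ hnum)
    _ = (n' + 1) * (2 ^ e' * ∑ s ∈ range (t.len + 1), a s * t.sm (t.len - s) ^ 2) := by ring
    _ ≤ (n' + 1) * ∑ s ∈ range (t.len + 1), AG t.G n' s * t.sm (t.len - s) ^ 2 :=
        Nat.mul_le_mul_left _ hlow

end Pool.Agent.H358R5
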