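import Mathlib
import Pool.Agent.H358R5.Stubs4
import Pool.Agent.H358R5.SOUND

set_option autoImplicit false

open Finset

namespace Pool.Agent.H358R5

theorem SOUNDP_proof (h1 : S_INVMUL) (h3 : S_INIT) (h4 : S_SEGP) : S_SOUNDP := by
  intro w t P M st L tK m K0 hw hchk
  unfold chkP at hchk
  have hI0 := h3 t w hw
  obtain ⟨n', X', S', E', e', hf, hI⟩ := SOUND_go h1 t.G w (t.len + 1) _ _ _ hw
    hI0 L 1 _ _ 0 0 hI0 hchk
  simp only [finP, Bool.and_eq_true] at hf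
  obtain ⟨hf1, hf2, hf3, hf4, hf5, hf6, hf7⟩ := hf
  have hn : n' = K0 := by
    have := Nat.eq_of_beq_eq_true hf1
    omega
  have hS : S' + 1 < 2 ^ w := by
    have := Nat.blt_eq.mp hf2
    rwa [Nat.one_shiftLeft] at this
  have hSK : S' * t.sm2 t.len / 2 ^ tK + 1 < 2 ^ w := by
    have := Nat.blt_eq.mp hf3
    rwa [Nat.one_shiftLeft] at this
  have hSS : S' * t.sm2 t.len < 2 ^ w := by
    have := Nat.blt_eq.mp hf4
    rwa [Nat.one_shiftLeft] at this
  have htK : tK ≤ w := Nat.le_of_ble_eq_true hf5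
  have hst : st.len = t.len + 1 := Nat.eq_of_beq_eq_true hf6
  have hlt := Nat.blt_eq.mp hf7
  subst hn
  -- one more multiplication
  have hIK := h1 t.G w (t.len + 1) n' X' S' E' e' 1 _ _ 0 0 tK hw htK hI hI0 hSS
  have e2 : E' * t.sm2 t.len + 0 * S' + E' * 0 * (t.len + 1) = E' * t.sm2 t.len := by ring
  rw [e2] at hIK
  obtain ⟨a, hX, haS, hab⟩ := hI
  obtain ⟨b, hXK, hbS, hbb⟩ := hIK
  set XK := mulS w (t.len + 1) tK X' ((t.pkt w) <<< w) with hXKd
  set EK := E' * t.sm2 t.len / 2 ^ tK + 2 with hEKd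
  obtain ⟨hnum, -⟩ := h4 t P M st w t.len E' a hw hst (by omega)
  obtain ⟨-, hden⟩ := h4 t P M st w t.len EK b hw hst (by omega)
  rw [← hX] at hnum
  rw [← hXK] at hden
  have hup : ∑ s ∈ range (t.len + 1), AG t.G (n' + 1) s * phi P M (t.len - s) ^ 2 ≤
      2 ^ (e' + tK) * ∑ s ∈ range (t.len + 1), (b s + EK) * phi P M (t.len - s) ^ 2 := by
    rw [Finset.mul_sum]
    apply Finset.sum_le_sum
    intro s hs
    have h5 := (hbb s (Finset.mem_range.mp hs)).2
    rw [add_zero] at h5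
    calc AG t.G (n' + 1) s * phi P M (t.len - s) ^ 2
        ≤ ((b s + EK) * 2 ^ (e' + tK)) * phi P M (t.len - s) ^ 2 :=
          Nat.mul_le_mul_right _ h5
      _ = 2 ^ (e' + tK) * ((b s + EK) * phi P M (t.len - s) ^ 2) := by ring
  have hlow : 2 ^ e' * ∑ s ∈ range (t.len + 1), a s * HH t P M (t.len - s) ^ 2 ≤
      ∑ s ∈ range (t.len + 1), AG t.G n' s * HH t P M (t.len - s) ^ 2 := by
    rw [Finset.mul_sum]
    apply Finset.sum_le_sum
    intro s hs
    have h5 := (hab s (Finset.mem_range.mp hs)).1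
    calc 2 ^ e' * (a s * HH t P M (t.len - s) ^ 2)
        = (a s * 2 ^ e') * HH t P M (t.len - s) ^ 2 := by ring
      _ ≤ AG t.G n' s * HH t P M (t.len - s) ^ 2 := Nat.mul_le_mul_right _ h5
  have hpos : 0 < 2 ^ e' := by positivity
  calc 4 * m * (t.len - 1) *
        ∑ s ∈ range (t.len + 1), AG t.G (n' + 1) s * phi P M (t.len - s) ^ 2
      ≤ 4 * m * (t.len - 1) *
        (2 ^ (e' + tK) * ∑ s ∈ range (t.len + 1), (b s + EK) * phi P M (t.len - s) ^ 2) :=
        Nat.mul_le_mul_left _ hup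
    _ ≤ 4 * m * (t.len - 1) * (2 ^ (e' + tK) * st.denP w t.len EK P M XK 0) :=
        Nat.mul_le_mul_left _ (Nat.mul_le_mul_left _ hden)
    _ = 2 ^ e' * (4 * m * (t.len - 1) * (st.denP w t.len EK P M XK 0 * 2 ^ tK)) := by
        rw [pow_add]; ring
    _ < 2 ^ e' * ((n' + 1) * st.numP w t.len t P M X' 0) := Nat.mul_lt_mul_of_pos_left hlt hpos
    _ ≤ 2 ^ e' * ((n' + 1) * ∑ s ∈ range (t.len + 1), a s * HH t P M (t.len - s) ^ 2) :=
        Nat.mul_le_mul_left _ (Nat.mul_le_mul_left _ hnum)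
    _ = (n' + 1) * (2 ^ e' * ∑ s ∈ range (t.len + 1), a s * HH t P M (t.len - s) ^ 2) := by ring
    _ ≤ (n' + 1) * ∑ s ∈ range (t.len + 1), AG t.G n' s * HH t P M (t.len - s) ^ 2 :=
        Nat.mul_le_mul_left _ hlow

end Pool.Agent.H358R5
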