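import Mathlib
import Pool.Agent.H358R5.GCrit
import Pool.Agent.H358R5.Cert
import Pool.Agent.H358R5.HPL
import Pool.Agent.H358R5.SEGP
import Pool.Agent.H358R5.SOUNDP
import Pool.Agent.H358R5.INVMUL
import Pool.Agent.H358R5.INIT
import Pool.Agent.H358R5.MULS
import Pool.Agent.H358R5.REP
import Pool.Agent.H358R5.CONVA
import Pool.Agent.H358R5.SMV
import Pool.Agent.H358R5.LOG
import Pool.Agent.H358R5.PI3

/-! H358R5: three primes among 3560 admissible linear forms. -/

open Finset Filter

namespace Pool.Agent.H358R5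

theorem lhyp_of_chkP (w : ℕ) (t : BT) (P M : List (ℕ × ℕ)) (st : ST) (L : List (Bool × ℕ))
    (tK m K0 K : ℕ) (hK : K0 + 1 = K) (hw : 0 < w) (ht : 2 ≤ t.len)
    (h : chkP w t P M st L tK m K = true) : LHyp m K := by
  subst hK
  have h1 := SOUNDP_proof (INVMUL_proof (MULS_proof REP_proof) CONVA_proof) (INIT_proof REP_proof SMV_proof)
    (SEGP_proof HPL_proof) w t P M st L tK m K0 hw h
  exact gcrit m K0 t.len t.G (phi P M) ht h1

theorem len_ok : Nat.ble 2 DatP.bt.len = true := by decide +kernel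

theorem lhyp3 : LHyp 2 3560 :=
  lhyp_of_chkP 112 DatP.bt DatP.up DatP.dn DatP.st DatP.ops 56 2 3559 3560 (by norm_num) (by norm_num)
    (Nat.le_of_ble_eq_true len_ok) cert_check

theorem chyp3 : CHyp 2 3560 := CLS_proof 2 3560 lhyp3

end Pool.Agent.H358R5
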