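import Mathlib
import Pool.Agent.H358R5.Stubs3

/-! H358R5, task TUPC: survivors of a sieve form an admissible tuple. -/

open Finset

namespace Pool.Agent.H358R5

theorem TUPC_aux {K : ℕ} {h : Fin K → ℕ} {p r : ℕ} (hr : r < p) (hh : ∀ i, h i % p ≠ r) :
    ∃ a : ℕ, ∀ i, ¬ p ∣ a + h i := by
  refine ⟨p - r, fun i hd => hh i ?_⟩
  have h1 : (p - r) + h i ≡ (p - r) + r [MOD p] := by
    rw [Nat.sub_add_cancel hr.le]
    exact ((Nat.modEq_zero_iff_dvd).2 hd).trans ((Nat.modEq_zero_iff_dvd).2 (dvd_refl p)).symm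
  have h2 : h i ≡ r [MOD p] := Nat.ModEq.add_left_cancel' _ h1
  have h3 : h i % p = r % p := h2
  rw [h3, Nat.mod_eq_of_lt hr]

theorem TUPC_proof : S_TUPC := by
  intro K Δ cls hK
  set A : Set ℕ := {x : ℕ | x ≤ Δ ∧ ∀ p : ℕ, p.Prime → p ≤ K → x % p ≠ cls p % p} with hA
  have hfin : A.Finite := (Set.finite_Iic Δ).subset (fun x hx => hx.1)
  rw [Set.ncard_eq_toFinset_card A hfin] at hK
  obtain ⟨t, ht, htK⟩ := Finset.exists_subset_card_eq hK
  let e := (t.equivFinOfCardEq htK).symm
  let h : Fin K → ℕ := fun i => (e i : ℕ)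
  have hmem : ∀ i, h i ∈ A := fun i => by
    have := ht (e i).2
    rwa [Set.Finite.mem_toFinset] at this
  refine ⟨h, ⟨?_, ?_⟩, fun i => (hmem i).1⟩
  · intro i j hij
    exact e.injective (Subtype.ext hij)
  · intro p hp
    rcases le_or_gt p K with hpK | hpK
    · exact TUPC_aux (Nat.mod_lt (cls p) hp.pos) (fun i => (hmem i).2 p hp hpK)
    · have hcard : (univ.image (fun i => h i % p)).card < (range p).card := by
        calc (univ.image (fun i => h i % p)).card ≤ (univ : Finset (Fin K)).card :=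
              Finset.card_image_le
          _ = K := by simp
          _ < p := hpK
          _ = (range p).card := by simp
      obtain ⟨r, hr, hr'⟩ := Finset.exists_mem_notMem_of_card_lt_card hcard
      refine TUPC_aux (Finset.mem_range.1 hr) (fun i hi => hr' ?_)
      exact Finset.mem_image.2 ⟨i, Finset.mem_univ _, hi⟩

end Pool.Agent.H358R5
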