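import Mathlib
import Pool.Agent.H358R5.Stubs3

open Finset

namespace Pool.Agent.H358R5

theorem TUPK_rep (p : ℕ) (hp : 0 < p) (n : ℕ) : ∀ i, i < n →
    (∑ j ∈ range n, 2 ^ (p * j)).testBit (p * i) = true := by
  induction n with
  | zero => intro i hi; omega
  | succ n ih =>
    intro i hi
    · have e : ∑ j ∈ range (n + 1), 2 ^ (p * j) = 2 ^ p * (∑ j ∈ range n, 2 ^ (p * j)) + 1 := by
        rw [Finset.sum_range_succ', Finset.mul_sum]
        congr 1
        exact Finset.sum_congr rfl (fun j _ => by rw [Nat.mul_add, pow_add]; ring)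
      rw [e, Nat.testBit_two_pow_mul_add _ (Nat.one_lt_two_pow (by omega))]
      rcases Nat.eq_zero_or_pos i with h0 | h0
      · subst h0
        rw [if_pos (by omega)]
        simp
      · obtain ⟨k, rfl⟩ : ∃ k, i = k + 1 := ⟨i - 1, by omega⟩
        have h1 : ¬ p * (k + 1) < p := by
          rw [Nat.mul_add]; omega
        rw [if_neg h1]
        have h2 : p * (k + 1) - p = p * k := by rw [Nat.mul_add]; omega
        rw [h2]
        exact ih k (by omega)

theorem TUPK_tmask (hR : S_REP) (Δ : ℕ) (L : List (ℕ × ℕ)) (p a x : ℕ) (h : (p, a) ∈ L)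
    (ha : a < p) (hx : x ≤ Δ) (hxa : x % p = a) : (tmask Δ L).testBit x = true := by
  induction L with
  | nil => simp at h
  | cons q L ih =>
    obtain ⟨q, b⟩ := q
    unfold tmask
    rw [Nat.testBit_or]
    rcases List.mem_cons.1 h with h1 | h1
    · simp only [Prod.mk.injEq] at h1
      obtain ⟨rfl, rfl⟩ := h1
      have hxge : a ≤ x := by rw [← hxa]; exact Nat.mod_le _ _
      have hdm := Nat.div_add_mod x p
      have hxs : x - a = p * (x / p) := by omega
      have hlt : x / p < (Δ - a) / p + 1 := by
        rw [Nat.lt_succ_iff, Nat.le_div_iff_mul_le (by omega)]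
        have : x / p * p = x - a := by rw [hxs, Nat.mul_comm]
        omega
      have h2 : ((rep p ((Δ - a) / p + 1)) <<< a).testBit x = true := by
        rw [Nat.testBit_shiftLeft, hxs, hR p _ (by omega), TUPK_rep p (by omega) _ _ hlt]
        simp [hxge]
      rw [h2]
      simp
    · rw [ih h1]
      simp

theorem TUPK_pmask (L : List (ℕ × ℕ)) (p : ℕ) (h : (pmask L).testBit p = true) :
    ∃ a, (p, a) ∈ L := by
  induction L with
  | nil => simp [pmask] at h
  | cons q L ih =>
    obtain ⟨q, b⟩ := q
    unfold pmask at h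
    rw [Nat.testBit_or, Bool.or_eq_true, Nat.one_shiftLeft, Nat.testBit_two_pow] at h
    rcases h with h | h
    · have : q = p := by simpa using h
      subst this
      exact ⟨b, List.mem_cons_self⟩
    · obtain ⟨a, ha⟩ := ih h
      exact ⟨a, List.mem_cons_of_mem _ ha⟩

theorem TUPK_lok (L : List (ℕ × ℕ)) (h : lok L = true) : ∀ p a, (p, a) ∈ L → a < p := by
  induction L with
  | nil => intro p a h; simp at h
  | cons q L ih =>
    obtain ⟨q, b⟩ := q
    intro p a hm
    unfold lok at h
    rw [Bool.and_eq_true] at h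
    rcases List.mem_cons.1 hm with h1 | h1
    · simp only [Prod.mk.injEq] at h1
      obtain ⟨rfl, rfl⟩ := h1
      exact Nat.le_of_ble_eq_true h.1
    · exact ih h.2 p a h1

theorem TUPK_cov (K r pm d : ℕ) : ∀ n, cov K r pm d n = true → ∀ p, n ≤ p → p < n + 2 ^ d →
    p.Prime → p ≤ K → pm.testBit p = true := by
  induction d with
  | zero =>
    intro n h p hp1 hp2 hp hpK
    have : p = n := by simp at hp2; omega
    subst this
    unfold cov at h
    simp only [Bool.or_eq_true, Bool.and_eq_true, Nat.blt_eq] at h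
    rcases h with h | h | h | ⟨h, h'⟩
    · exact absurd hp.two_le (by omega)
    · omega
    · exact h
    · exfalso
      have hc : Nat.gcd p r.factorial = 1 := by
        rw [← Nat.coprime_iff_gcd_eq_one, hp.coprime_iff_not_dvd, hp.dvd_factorial]
        omega
      rw [hc] at h'
      simp at h'
  | succ d ih =>
    intro n h p hp1 hp2 hp hpK
    unfold cov at h
    rw [Bool.and_eq_true] at h
    rw [pow_succ] at hp2
    rcases Nat.lt_or_ge p (n + 2 ^ d) with h1 | h1
    · exact ih n h.1 p hp1 h1 hp hpK
    · exact ih (n + 2 ^ d) h.2 p h1 (by omega) hp hpK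

theorem TUPK_cntz (d : ℕ) : ∀ X, cntz d X =
    ((range (2 ^ d)).filter (fun x => X.testBit x = false)).card := by
  induction d with
  | zero =>
    intro X
    unfold cntz
    have e : range (2 ^ 0) = {0} := rfl
    rw [e, Finset.filter_singleton, Nat.testBit_zero]
    rcases Nat.mod_two_eq_zero_or_one X with h | h
    · rw [h]; simp
    · rw [h]; simp
  | succ d ih =>
    intro X
    unfold cntz
    rw [ih, ih, pow_succ, Nat.mul_two, Finset.range_eq_Ico, Finset.range_eq_Ico]
    have hsp : Finset.Ico 0 (2 ^ d + 2 ^ d) = Finset.Ico 0 (2 ^ d) ∪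
        (Finset.Ico 0 (2 ^ d)).image (fun y => 2 ^ d + y) := by
      ext x
      simp only [Finset.mem_Ico, Finset.mem_union, Finset.mem_image]
      constructor
      · intro hx
        rcases Nat.lt_or_ge x (2 ^ d) with h | h
        · left; omega
        · right; exact ⟨x - 2 ^ d, by omega, by omega⟩
      · rintro (h | ⟨y, hy, rfl⟩)
        · omega
        · omega
    have hdis : Disjoint (Finset.Ico 0 (2 ^ d))
        ((Finset.Ico 0 (2 ^ d)).image (fun y => 2 ^ d + y)) := by
      rw [Finset.disjoint_left]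
      intro x hx hx'
      simp only [Finset.mem_Ico, Finset.mem_image] at hx hx'
      obtain ⟨y, _, rfl⟩ := hx'
      omega
    rw [hsp, Finset.filter_union, Finset.card_union_of_disjoint
      (Finset.disjoint_filter_filter hdis)]
    congr 1
    · congr 1
      refine Finset.filter_congr (fun x hx => ?_)
      rw [Finset.mem_Ico] at hx
      rw [Nat.one_shiftLeft, Nat.testBit_mod_two_pow]
      simp [hx.2]
    · rw [Finset.filter_image, Finset.card_image_of_injective _ (fun a b h => by simpa using h)]
      congr 1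
      refine Finset.filter_congr (fun x _ => ?_)
      rw [Nat.testBit_shiftRight]

theorem TUPK_proof (h : S_TUPC) (h2 : S_REP) : S_TUPK := by
  intro K Δ r d d' L hc
  unfold chkT at hc
  simp only [Bool.and_eq_true, Nat.blt_eq, Nat.ble_eq] at hc
  obtain ⟨hlok, hK, hΔ, hcov, hcnt⟩ := hc
  set cls : ℕ → ℕ := fun p => ((L.find? (fun q => q.1 == p)).map Prod.snd).getD 0 with hcls
  apply h K Δ cls
  rw [TUPK_cntz] at hcnt
  refine hcnt.trans ?_
  rw [← Set.ncard_coe_finset]
  apply Set.ncard_le_ncard
  · intro x hx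
    rw [Finset.mem_coe, Finset.mem_filter, Finset.mem_range, Nat.testBit_or,
      Bool.or_eq_false_iff] at hx
    obtain ⟨hxd, hx1, hx2⟩ := hx
    have hxΔ : x ≤ Δ := by
      by_contra hcon
      rw [Nat.testBit_shiftLeft, Nat.one_shiftLeft, Nat.testBit_two_pow_sub_one] at hx2
      have e1 : decide (x ≥ Δ + 1) = true := by simp; omega
      have e2 : decide (x - (Δ + 1) < 2 ^ d - (Δ + 1)) = true := by simp; omega
      rw [e1, e2] at hx2
      simp at hx2
    refine ⟨hxΔ, fun p hp hpK hmod => ?_⟩
    have hpb := TUPK_cov K r (pmask L) d' 0 hcov p (Nat.zero_le _) (by omega) hp hpK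
    obtain ⟨a, ha⟩ := TUPK_pmask L p hpb
    have hsome : (L.find? (fun q => q.1 == p)).isSome = true := by
      rw [List.find?_isSome]
      exact ⟨(p, a), ha, by simp⟩
    obtain ⟨⟨q, b⟩, hq⟩ := Option.isSome_iff_exists.1 hsome
    have hmem := List.mem_of_find?_eq_some hq
    have hqp := List.find?_some hq
    have hqp' : q = p := by simpa using hqp
    subst hqp'
    have hcl : cls q = b := by rw [hcls]; simp [hq]
    have hbq := TUPK_lok L hlok q b hmem
    rw [hcl, Nat.mod_eq_of_lt hbq] at hmod
    have := TUPK_tmask h2 Δ L q b x hmem hbq hxΔ hmod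
    rw [this] at hx1
    exact absurd hx1 (by simp)
  · exact (Set.finite_Iic Δ).subset (fun x hx => hx.1)

end Pool.Agent.H358R5
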