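import Pool.Agent.H358R5.Tup3
import Pool.Agent.H358R5.TUPK
import Pool.Agent.H358R5.TUPC
import Pool.Agent.H358R5.REP

/-! H358R5: an admissible tuple of 3560 integers in an interval of length 32778. -/

namespace Pool.Agent.H358R5

set_option maxRecDepth 100000 in
theorem tup_check : chkT 3560 32778 73 16 12 Tup3.l = true := by
  decide +kernel

theorem tup3 : ∃ h : Fin 3560 → ℕ, Adm3 h ∧ ∀ i, h i ≤ 32778 :=
  TUPK_proof TUPC_proof REP_proof 3560 32778 73 16 12 Tup3.l tup_check

end Pool.Agent.H358R5
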