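import Mathlib
import Pool.Agent.H358R5.Three
import Pool.Agent.H358R5.TupCheck

/-! H358R5: clusters of three and four primes. -/

open Finset Filter

namespace Pool.Agent.H358R5

theorem tup3' : ∃ h : Fin 3560 → ℕ, Adm h ∧ ∀ i, h i ≤ 32778 := by
  obtain ⟨h, hA, hle⟩ := tup3
  exact ⟨h, ⟨hA.1, hA.2⟩, hle⟩

theorem gaps3 (ε : ℝ) (hε : 0 < ε) : ∀ᶠ x : ℝ in atTop,
    x ^ (1 - ε) ≤ (Set.ncard {k : ℕ | (Nat.nth Nat.Prime k : ℝ) ≤ x ∧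
      Nat.nth Nat.Prime (k + 2) ≤ Nat.nth Nat.Prime k + 32778} : ℝ) :=
  GAPS_proof 2 3560 32778 (by norm_num) chyp3 tup3' ε hε

theorem tup4 : ∃ h : Fin 290687 → ℕ, Adm h ∧ ∀ i, h i ≤ 4209616 :=
  PTUP_proof 290687 290701 4209616 (by norm_num) PI3_proof

theorem gaps4 (ε : ℝ) (hε : 0 < ε) : ∀ᶠ x : ℝ in atTop,
    x ^ (1 - ε) ≤ (Set.ncard {k : ℕ | (Nat.nth Nat.Prime k : ℝ) ≤ x ∧
      Nat.nth Nat.Prime (k + 3) ≤ Nat.nth Nat.Prime k + 4209616} : ℝ) := by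
  refine GAPS_proof 3 290687 4209616 (by norm_num) (chyp 3 290687 (by norm_num) ?_) tup4 ε hε
  have := LOG_proof.2
  push_cast
  exact this

/-- among any 3560 admissible shifts there is a pattern of three realised by consecutive primes -/
theorem pattern3 (H : Finset ℤ) (hK : 3560 ≤ H.card)
    (hadm : ∀ p : ℕ, p.Prime → ∃ r : ℤ, ∀ h ∈ H, ¬ (p : ℤ) ∣ r + h) :
    ∃ S : Finset ℤ, S ⊆ H ∧ S.card = 3 ∧ ∀ ε : ℝ, 0 < ε → ∃ᶠ x : ℝ in atTop,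
      x ^ (1 - ε) ≤ (Set.ncard {n : ℕ | (n : ℝ) ≤ x ∧ (∀ s ∈ S, ∃ p : ℕ, p.Prime ∧ (p : ℤ) = n + s) ∧
        ∀ p : ℕ, p.Prime → (∃ s ∈ S, ∃ t ∈ S, (n : ℤ) + s ≤ p ∧ (p : ℤ) ≤ n + t) →
          ∃ s ∈ S, (p : ℤ) = n + s} : ℝ) := by
  obtain ⟨H', hH', hc⟩ := Finset.exists_subset_card_eq hK
  obtain ⟨S, hS, hS3, h⟩ := PAT_proof CONS_proof 2 3560 (by norm_num) chyp3 H' hc
    (fun p hp => (hadm p hp).imp fun r hr h hh => hr h (hH' hh))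
  exact ⟨S, hS.trans hH', hS3, h⟩

end Pool.Agent.H358R5
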