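import Mathlib
import Pool.Agent.H358R5.Stubs

/-! HARM: the difference of the harmonic numbers and the logarithm. -/

set_option autoImplicit false

namespace Pool.Agent.H358R5

namespace HARMh

/-- scaled upper bound for the harmonic numbers -/
def hs : ℕ → ℕ
  | 0 => 0
  | n + 1 => hs n + (10 ^ 8 / (n + 1) + 1)

theorem hs_le (n : ℕ) : (harmonic n : ℚ) * 10 ^ 8 ≤ (hs n : ℚ) := by
  induction n with
  | zero => simp [hs]
  | succ n ih =>
    rw [harmonic_succ, add_mul]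
    have h1 : (((n + 1 : ℕ) : ℚ))⁻¹ * 10 ^ 8 ≤ ((10 ^ 8 / (n + 1) + 1 : ℕ) : ℚ) := by
      have h0 : (0 : ℚ) < ((n + 1 : ℕ) : ℚ) := by positivity
      rw [inv_mul_eq_div, div_le_iff₀ h0]
      have h2 := Nat.lt_div_mul_add (a := 10 ^ 8) (b := n + 1) (Nat.succ_pos n)
      have h3 : 10 ^ 8 ≤ (10 ^ 8 / (n + 1) + 1) * (n + 1) := by
        have : (10 ^ 8 / (n + 1) + 1) * (n + 1) = 10 ^ 8 / (n + 1) * (n + 1) + (n + 1) := by ring
        omega
      exact_mod_cast h3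
    calc (harmonic n : ℚ) * 10 ^ 8 + (((n + 1 : ℕ) : ℚ))⁻¹ * 10 ^ 8
        ≤ (hs n : ℚ) + ((10 ^ 8 / (n + 1) + 1 : ℕ) : ℚ) := add_le_add ih h1
      _ = (hs (n + 1) : ℚ) := by
        rw [hs]
        push_cast
        rfl

theorem hs_1024 : hs 1024 ≤ 750940000 := by decide +kernel

theorem h1024 (n : ℕ) (hn : n = 1024) : (harmonic n : ℝ) ≤ 7.5094 := by
  have h1 := hs_le n
  have h2 : ((hs n : ℕ) : ℚ) ≤ 750940000 := by
    rw [hn]
    exact_mod_cast hs_1024
  have h3 : (harmonic n : ℚ) ≤ 75094 / 10000 := by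
    have : (harmonic n : ℚ) * 10 ^ 8 ≤ 750940000 := h1.trans h2
    linarith
  have h4 : ((harmonic n : ℚ) : ℝ) ≤ ((75094 / 10000 : ℚ) : ℝ) := by exact_mod_cast h3
  refine h4.trans (le_of_eq ?_)
  norm_num

end HARMh

theorem HARM_proof : S_HARM := by
  intro L hL
  obtain ⟨n, hn⟩ : ∃ n : ℕ, n = 1024 := ⟨_, rfl⟩
  have h1 : Real.eulerMascheroniSeq' L ≤ Real.eulerMascheroniSeq' n :=
    Real.strictAnti_eulerMascheroniSeq'.antitone (by rw [hn]; exact hL)
  have h2 : ∀ n : ℕ, n ≠ 0 → Real.eulerMascheroniSeq' n = (harmonic n : ℝ) - Real.log n := by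
    intro n hn
    unfold Real.eulerMascheroniSeq'
    rw [if_neg hn]
  rw [h2 L (by omega), h2 n (by omega)] at h1
  have h3 : Real.log (n : ℝ) = 10 * Real.log 2 := by
    have : (n : ℝ) = 2 ^ 10 := by
      rw [hn]
      norm_num
    rw [this, Real.log_pow]
    norm_num
  rw [h3] at h1
  have h4 := Real.log_two_gt_d9
  have h5 := HARMh.h1024 n hn
  have h6 : (7.5094 : ℝ) = 75094 / 10000 := by norm_num
  have h7 : (0.6931471803 : ℝ) = 6931471803 / 10000000000 := by norm_num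
  rw [h6] at h5
  rw [h7] at h4
  linarith

end Pool.Agent.H358R5
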